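import Pool.Agent.PCP.Board

/-!
# FGLSS graph and graph powers: the statements
-/

namespace Pool.Agent.PCP

open Classical in
/-- the adjacency matrix of a graph, as the list of its rows -/
noncomputable def rows {n : ℕ} (H : SimpleGraph (Fin n)) : List (List Bool) :=
  List.ofFn fun i => List.ofFn fun j => decide (H.Adj i j)

/-- **Module F** (the FGLSS graph).  Vertices: oriented edges `x` of `G` with the labels `a, b` of
the two ends.  `u ~ v` if `u ≠ v` and (`u` or `v` is invalid, or the labels are in conflict), where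
`(x, a, b)` is invalid if `R x a b = false` or if `(rot x).1 = x.1` and `a ≠ b`. -/
def ModF : Prop :=
  ∃ F : Bd S0 → List (List Bool), TM2Lib.Poly F ∧
    ∀ (m : ℕ) (G : RG (Fin m × Fin m) D0 S0), m ≠ 0 →
      ∃ (n : ℕ) (H : SimpleGraph (Fin n)), F (code G) = rows H ∧
        (G.Sat → 20 * (m * m) ≤ H.indepNum) ∧
        ∀ γ : ℝ, 0 ≤ γ → G.Gap γ →
          (H.indepNum : ℝ) ≤ max 1 ((1 - γ) * (20 * (m * m)))

/-- **Module Pow** (powers of graphs): vertices `k`-tuples, adjacent if adjacent in some
coordinate. -/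
def ModPow : Prop :=
  ∀ k : ℕ, ∃ T : List (List Bool) → List (List Bool), TM2Lib.Poly T ∧
    ∀ (n : ℕ) (H : SimpleGraph (Fin n)), ∃ (n' : ℕ) (H' : SimpleGraph (Fin n')),
      T (rows H) = rows H' ∧ H'.indepNum = H.indepNum ^ k

end Pool.Agent.PCP
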