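import Pool.Agent.PCP.Iter
import Pool.Agent.PCP.DefsF
import Pool.Agent.GridW.Parse

/-!
# Approximating the independence number within a constant factor is NP-hard
-/

namespace Pool.Agent.PCP

open TM2Lib

noncomputable section

/-- a Boolean answer is written as one bit -/
def bitCode (b : Bool) : List Bool := [b]

/-- a pair of strings as one string -/
def pairCode (p : List Bool × List Bool) : List Bool :=
  D.encD (D.cons (D.ofBits p.1) (D.ofBits p.2))

/-- the languages in P -/
def InP (L : Set (List Bool)) : Prop :=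
  ∃ f : List Bool → Bool,
    Nonempty (Turing.TM2ComputableInPolyTime (id : List Bool → List Bool) bitCode f) ∧
    ∀ x, x ∈ L ↔ f x = true

/-- the languages in NP -/
def InNP (L : Set (List Bool)) : Prop :=
  ∃ (V : List Bool × List Bool → Bool) (p : Polynomial ℕ),
    Nonempty (Turing.TM2ComputableInPolyTime pairCode bitCode V) ∧
    ∀ x, x ∈ L ↔ ∃ y : List Bool, y.length ≤ p.eval x.length ∧ V (x, y) = true

/-- `P = NP` -/
def PEqNP : Prop := ∀ L : Set (List Bool), InNP L → InP L

/-- finite graphs -/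
abbrev Gr : Type := Σ n : ℕ, SimpleGraph (Fin n)

/-- the code of a graph -/
def grCode (G : Gr) : List Bool := D.encD (Enc.enc (rows G.2))

/-- the code of a list of natural numbers -/
def natsCode (l : List ℕ) : List Bool := D.encD (Enc.enc l)

/-- Polynomial-time approximation of Maximum Independent Set within the factor `c`. -/
def MISApx (c : ℝ) : Prop :=
  ∃ g : Gr → List ℕ,
    Nonempty (Turing.TM2ComputableInPolyTime grCode natsCode g) ∧
    ∀ G : Gr,
      (∃ P : List (Fin G.1), g G = P.map Fin.val ∧ P.Nodup ∧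
        G.2.IsIndepSet {v | v ∈ P}) ∧
      c * (G.2.indepNum : ℝ) ≤ ((g G).length : ℝ)

theorem upoly_pow {α : Type} [Enc α] {f : α → ℕ} (hf : UPoly f) (k : ℕ) :
    UPoly (fun a => f a ^ k) :=
  (hf.eval (Polynomial.X ^ k)).of_eq fun a => by simp

/-- **Hardness of approximation.** -/
theorem mis_hard (hP : ModP) (hL : ModL) (hR : ModR) (hM : ModM) (hCL : ModCL) (hF : ModF)
    (hPow : ModPow) (c : ℝ) (hc : 0 < c) (h : MISApx c) : PEqNP := by
  classical
  intro L hNP
  obtain ⟨V, p, ⟨hV⟩, hLV⟩ := hNP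
  obtain ⟨g, ⟨hg⟩, hgs⟩ := h
  have hgC : Comp grCode (fun G => natsCode (g G)) := Comp.of_tm hg
  -- the relation
  have hVP : TM2Lib.Poly V := by
    have h1 : Comp pairCode (fun z => [V z]) := Comp.of_tm hV
    refine (GW.comp_bool' h1).congr (fun z => ?_) (fun z => rfl)
    show D.encD (D.cons (D.ofBits z.1) (D.ofBits z.2)) = _
    rw [GW.ofBits_eq_enc, GW.ofBits_eq_enc]
    rfl
  let R : List Bool × List Bool → Bool := fun z => V z && decide (z.2.length ≤ p.eval z.1.length)
  have hRP : TM2Lib.Poly R :=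
    hVP.and (UPoly.le (UPoly.length TM2Lib.Poly.snd) ((UPoly.length TM2Lib.Poly.fst).eval p))
  have hRl : ∀ x y, R (x, y) = true → y.length ≤ p.eval x.length := by
    intro x y hxy
    have : V (x, y) = true ∧ y.length ≤ p.eval x.length := by
      simpa [R, Bool.and_eq_true] using hxy
    exact this.2
  have hLR : ∀ x, x ∈ L ↔ ∃ y, R (x, y) = true := by
    intro x
    rw [hLV]
    constructor
    · rintro ⟨y, hy1, hy2⟩
      refine ⟨y, ?_⟩
      simp [R, hy1, hy2]
    · rintro ⟨y, hy⟩
      have : V (x, y) = true ∧ y.length ≤ p.eval x.length := by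
        simpa [R, Bool.and_eq_true] using hy
      exact ⟨y, this.2, this.1⟩
  obtain ⟨γ, hγ, F, hFP, hFs⟩ := gap_reduction hP hL hR hM hCL R p hRP hRl
  obtain ⟨F1, hF1P, hF1s⟩ := hF
  obtain ⟨q, hq⟩ := exists_nat_ge (1 / c)
  have hqc : 1 ≤ c * q := by
    rw [div_le_iff₀ hc] at hq
    linarith
  have hq0 : (0 : ℝ) < q := lt_of_lt_of_le (by positivity) hq
  obtain ⟨δ, hδ⟩ : ∃ δ, δ = min γ (1 / 2) := ⟨_, rfl⟩
  have hδ0 : 0 < δ := by
    rw [hδ]
    exact lt_min hγ (by norm_num)
  have hδ1 : δ ≤ 1 / 2 := by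
    rw [hδ]
    exact min_le_right _ _
  obtain ⟨k, hk⟩ := exists_pow_lt_of_lt_one (show (0 : ℝ) < 1 / q by positivity)
    (show 1 - δ < 1 by linarith)
  obtain ⟨T, hTP, hTs⟩ := hPow k
  -- the graph computed from `x`
  have hex : ∀ x, ∃ K : Gr, rows K.2 = T (F1 (F x)) ∧
      (x ∈ L → (20 * ((F x).length * (F x).length)) ^ k ≤ K.2.indepNum) ∧
      (x ∉ L → (K.2.indepNum : ℝ) ≤ ((1 - δ) * (20 * ((F x).length * (F x).length))) ^ k) ∧
      (F x).length ≠ 0 := by
    intro x
    obtain ⟨m, G, hm, hFx, hyes, hno⟩ := hFs x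
    obtain ⟨n, H, hH, hHyes, hHno⟩ := hF1s m G hm
    obtain ⟨n', H', hH', hind⟩ := hTs n H
    have hlen : (F x).length = m := by rw [hFx, length_code]
    refine ⟨⟨n', H'⟩, ?_, ?_, ?_, ?_⟩
    · rw [hFx, hH, hH']
    · intro hx
      rw [hlen, hind]
      exact Nat.pow_le_pow_left (hHyes (hyes ((hLR x).1 hx))) k
    · intro hx
      have h1 := hHno δ hδ0.le (gap_mono (hno (fun h => hx ((hLR x).2 h))) (by
        rw [hδ]
        exact min_le_left _ _))
      have hm1 : (1 : ℝ) ≤ (m : ℝ) := by
        exact_mod_cast Nat.one_le_iff_ne_zero.2 hm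
      have h2 : (1 : ℝ) ≤ (1 - δ) * (20 * ((m : ℝ) * m)) := by nlinarith
      rw [max_eq_right h2] at h1
      rw [hlen]
      show ((H'.indepNum : ℕ) : ℝ) ≤ _
      rw [hind]
      push_cast
      exact pow_le_pow_left₀ (by positivity) h1 k
    · rw [hlen]
      exact hm
  choose K hK1 hK2 hK3 hK4 using hex
  have hKC : Comp (fun x : List Bool => D.encD (Enc.enc x)) (fun x => grCode (K x)) := by
    have h1 : TM2Lib.Poly (fun x => T (F1 (F x))) := hTP.comp (hF1P.comp hFP)
    refine h1.congr (fun _ => rfl) fun x => ?_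
    show D.encD (Enc.enc (T (F1 (F x)))) = D.encD (Enc.enc (rows (K x).2))
    rw [hK1]
  have hgP : TM2Lib.Poly (fun x => g (K x)) := Comp.trans hKC (Comp.reindex hgC K)
  have hdec : TM2Lib.Poly (fun x => decide ((20 * ((F x).length * (F x).length)) ^ k ≤
      q * (g (K x)).length)) :=
    UPoly.le (upoly_pow ((UPoly.const 20).mul ((UPoly.length hFP).mul (UPoly.length hFP))) k)
      ((UPoly.const q).mul (UPoly.length hgP))
  refine ⟨fun x => decide ((20 * ((F x).length * (F x).length)) ^ k ≤ q * (g (K x)).length),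
    ?_, ?_⟩
  · have h1 : Comp (id : List Bool → List Bool) (fun x => D.encD (Enc.enc x)) := by
      refine (Comp.bits (fun x : List Bool => x)).congr (fun _ => rfl) fun x => ?_
      rw [GW.ofBits_eq_enc]
    exact Comp.to_tm (GW.comp_bool (Comp.trans h1 hdec))
  · intro x
    rw [decide_eq_true_iff]
    obtain ⟨⟨W, hW1, hW2, hW3⟩, hW4⟩ := hgs (K x)
    have hlen : (g (K x)).length ≤ (K x).2.indepNum := by
      rw [hW1, List.length_map, ← List.toFinset_card_of_nodup hW2]
      apply SimpleGraph.IsIndepSet.card_le_indepNum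
      have : ((W.toFinset : Finset (Fin (K x).1)) : Set (Fin (K x).1)) = {v | v ∈ W} := by
        ext v
        simp
      rw [this]
      exact hW3
    constructor
    · intro hx
      have h1 := hK2 x hx
      have h2 : (((20 * ((F x).length * (F x).length)) ^ k : ℕ) : ℝ) ≤
          ((q * (g (K x)).length : ℕ) : ℝ) := by
        calc (((20 * ((F x).length * (F x).length)) ^ k : ℕ) : ℝ) ≤ ((K x).2.indepNum : ℝ) := by
              exact_mod_cast h1
          _ ≤ (c * q) * ((K x).2.indepNum : ℝ) := le_mul_of_one_le_left (by positivity) hqc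
          _ = q * (c * ((K x).2.indepNum : ℝ)) := by ring
          _ ≤ q * ((g (K x)).length : ℝ) := by gcongr
          _ = ((q * (g (K x)).length : ℕ) : ℝ) := by push_cast; ring
      exact_mod_cast h2
    · intro hle
      by_contra hx
      have h1 := hK3 x hx
      have hm1 : (1 : ℝ) ≤ ((F x).length : ℝ) := by
        exact_mod_cast Nat.one_le_iff_ne_zero.2 (hK4 x)
      obtain ⟨N, hN⟩ : ∃ N : ℝ, N = 20 * (((F x).length : ℝ) * ((F x).length : ℝ)) := ⟨_, rfl⟩
      have hN0 : 0 < N := by
        rw [hN]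
        positivity
      rw [← hN, mul_pow] at h1
      have h2 : N ^ k ≤ q * ((g (K x)).length : ℝ) := by
        have : (((20 * ((F x).length * (F x).length)) ^ k : ℕ) : ℝ) ≤
          ((q * (g (K x)).length : ℕ) : ℝ) := by exact_mod_cast hle
        push_cast at this
        rw [hN]
        exact this
      have h3 : ((g (K x)).length : ℝ) ≤ ((K x).2.indepNum : ℝ) := by exact_mod_cast hlen
      have h4 : N ^ k ≤ q * ((1 - δ) ^ k * N ^ k) := by
        calc N ^ k ≤ q * ((g (K x)).length : ℝ) := h2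
          _ ≤ q * ((1 - δ) ^ k * N ^ k) := by
            have := h3.trans h1
            gcongr
      have h5 : q * (1 - δ) ^ k < 1 := by
        rw [lt_div_iff₀ hq0] at hk
        linarith
      have h6 : 0 < N ^ k := by positivity
      nlinarith

end

end Pool.Agent.PCP
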