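import Pool.Agent.PCP.ModCLa

/-!
# Module CL, part b: the machine
-/

set_option autoImplicit false

open Function Turing

namespace Pool.Agent.PCP.CL

open TM2Lib

section micro

variable {K : Type} [DecidableEq K] {Γ : K → Type} {L σ : Type}

/-- state of the control: a statement and the registers -/
abbrev Ct (Γ : K → Type) (L σ : Type) : Type := TM2.Stmt Γ L σ × σ

/-- control for the whole machine: guessing the certificate or running `M` -/
abbrev Ctl (Γ : K → Type) (L σ : Type) : Type := (List Bool × Bool) ⊕ (TM2.Stmt Γ L σ × σ)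

/-- the reversed code of a bit of the certificate -/
def blk (b : Bool) : List Bool := (true :: D.encD (D.ofBool b)).reverse

/-- the stack that is looked at -/
def rdC (i : K) : Ctl Γ L σ → K
  | .inl _ => i
  | .inr (.push k _ _, _) => k
  | .inr (.peek k _ _, _) => k
  | .inr (.pop k _ _, _) => k
  | .inr (.load _ _, _) => i
  | .inr (.branch _ _ _, _) => i
  | .inr (.goto _, _) => i
  | .inr (.halt, _) => i

/-- the action -/
def actC (i : K) (ei : Γ i ≃ Bool) : (c : Ctl Γ L σ) → Act (Γ (rdC i c))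
  | .inl (b :: _, _) => .push (ei.symm b)
  | .inl ([], _) => .nop
  | .inr (.push _ f _, v) => .push (f v)
  | .inr (.peek _ _ _, _) => .nop
  | .inr (.pop _ _ _, _) => .pop
  | .inr (.load _ _, _) => .nop
  | .inr (.branch _ _ _, _) => .nop
  | .inr (.goto _, _) => .nop
  | .inr (.halt, _) => .nop

/-- the next control -/
def nxC (M : L → TM2.Stmt Γ L σ) (l0 : L) (v0 : σ) (i : K) :
    (c : Ctl Γ L σ) → Option (Γ (rdC i c)) → Ctl Γ L σ → Prop
  | .inl (_ :: l, t), _, c' => c' = .inl (l, t)
  | .inl ([], false), _, c' => (∃ b, c' = .inl (blk b, false)) ∨ c' = .inl ([true], true)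
  | .inl ([], true), _, c' => c' = .inr (M l0, v0)
  | .inr (.push _ _ q, v), _, c' => c' = .inr (q, v)
  | .inr (.peek _ f q, v), h, c' => c' = .inr (q, f v h)
  | .inr (.pop _ f q, v), h, c' => c' = .inr (q, f v h)
  | .inr (.load a q, v), _, c' => c' = .inr (q, a v)
  | .inr (.branch f q₁ q₂, v), _, c' => c' = .inr (cond (f v) q₁ q₂, v)
  | .inr (.goto f, v), _, c' => c' = .inr (M (f v), v)
  | .inr (.halt, v), _, c' => c' = .inr (.halt, v)

/-- the nondeterministic machine -/
def machine (M : L → TM2.Stmt Γ L σ) (l0 : L) (v0 : σ) (i : K) (ei : Γ i ≃ Bool) :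
    NM K Γ (Ctl Γ L σ) where
  rd := rdC i
  act := actC i ei
  nx := nxC M l0 v0 i

/-- deterministic micro-step -/
def micro (M : L → TM2.Stmt Γ L σ) :
    (TM2.Stmt Γ L σ × σ) × (∀ k, List (Γ k)) → (TM2.Stmt Γ L σ × σ) × (∀ k, List (Γ k))
  | ((.push k f q, v), s) => ((q, v), update s k (f v :: s k))
  | ((.peek k f q, v), s) => ((q, f v (s k).head?), s)
  | ((.pop k f q, v), s) => ((q, f v (s k).head?), update s k (s k).tail)
  | ((.load a q, v), s) => ((q, a v), s)
  | ((.branch f q₁ q₂, v), s) => ((cond (f v) q₁ q₂, v), s)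
  | ((.goto f, v), s) => ((M (f v), v), s)
  | ((.halt, v), s) => ((.halt, v), s)

/-- embedding of deterministic configurations -/
def emb (c : (TM2.Stmt Γ L σ × σ) × (∀ k, List (Γ k))) : Ctl Γ L σ × (∀ k, List (Γ k)) :=
  (.inr c.1, c.2)

theorem step_micro (M : L → TM2.Stmt Γ L σ) (l0 : L) (v0 : σ) (i : K) (ei : Γ i ≃ Bool)
    (c : (TM2.Stmt Γ L σ × σ) × (∀ k, List (Γ k))) (c' : Ctl Γ L σ × (∀ k, List (Γ k))) :
    (machine M l0 v0 i ei).Step (emb c) c' ↔ c' = emb (micro M c) := by
  obtain ⟨⟨q, v⟩, s⟩ := c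
  obtain ⟨d, s'⟩ := c'
  have hns : ∀ (k : K), update s k (s k) = s := fun k => update_eq_self k s
  cases q with
  | push k f q =>
    simp only [NM.Step, machine, emb, rdC, actC, nxC, micro, Act.app, Prod.mk.injEq]
  | peek k f q =>
    simp only [NM.Step, machine, emb, rdC, actC, nxC, micro, Act.app, Prod.mk.injEq, hns]
  | pop k f q =>
    simp only [NM.Step, machine, emb, rdC, actC, nxC, micro, Act.app, Prod.mk.injEq]
  | load a q =>
    simp only [NM.Step, machine, emb, rdC, actC, nxC, micro, Act.app, Prod.mk.injEq, hns]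
  | branch f q₁ q₂ =>
    simp only [NM.Step, machine, emb, rdC, actC, nxC, micro, Act.app, Prod.mk.injEq, hns]
  | goto f =>
    simp only [NM.Step, machine, emb, rdC, actC, nxC, micro, Act.app, Prod.mk.injEq, hns]
  | halt =>
    simp only [NM.Step, machine, emb, rdC, actC, nxC, micro, Act.app, Prod.mk.injEq, hns]

/-! ### micro-steps and steps -/

/-- number of constructors -/
def ssize : TM2.Stmt Γ L σ → ℕ
  | .push _ _ q => ssize q + 1
  | .peek _ _ q => ssize q + 1
  | .pop _ _ q => ssize q + 1
  | .load _ q => ssize q + 1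
  | .branch _ q₁ q₂ => ssize q₁ + ssize q₂ + 1
  | .goto _ => 1
  | .halt => 0

/-- a configuration of `TM2` as a configuration of micro-steps -/
def mconf (M : L → TM2.Stmt Γ L σ) (c : TM2.Cfg Γ L σ) :
    (TM2.Stmt Γ L σ × σ) × (∀ k, List (Γ k)) := ((c.l.elim .halt M, c.var), c.stk)

theorem micro_stepAux (M : L → TM2.Stmt Γ L σ) (q : TM2.Stmt Γ L σ) :
    ∀ (v : σ) (s : ∀ k, List (Γ k)),
      ∃ d ≤ ssize q, (micro M)^[d] ((q, v), s) = mconf M (TM2.stepAux q v s) := by
  induction q with
  | push k f q ih =>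
    intro v s
    obtain ⟨d, hd, h⟩ := ih v (update s k (f v :: s k))
    exact ⟨d + 1, by simp only [ssize]; omega, by rw [iterate_succ_apply]; exact h⟩
  | peek k f q ih =>
    intro v s
    obtain ⟨d, hd, h⟩ := ih (f v (s k).head?) s
    exact ⟨d + 1, by simp only [ssize]; omega, by rw [iterate_succ_apply]; exact h⟩
  | pop k f q ih =>
    intro v s
    obtain ⟨d, hd, h⟩ := ih (f v (s k).head?) (update s k (s k).tail)
    exact ⟨d + 1, by simp only [ssize]; omega, by rw [iterate_succ_apply]; exact h⟩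
  | load a q ih =>
    intro v s
    obtain ⟨d, hd, h⟩ := ih (a v) s
    exact ⟨d + 1, by simp only [ssize]; omega, by rw [iterate_succ_apply]; exact h⟩
  | branch f q₁ q₂ ih₁ ih₂ =>
    intro v s
    cases hf : f v
    · obtain ⟨d, hd, h⟩ := ih₂ v s
      refine ⟨d + 1, by simp only [ssize]; omega, ?_⟩
      rw [iterate_succ_apply]
      simp only [micro, TM2.stepAux, hf, cond_false]
      exact h
    · obtain ⟨d, hd, h⟩ := ih₁ v s
      refine ⟨d + 1, by simp only [ssize]; omega, ?_⟩
      rw [iterate_succ_apply]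
      simp only [micro, TM2.stepAux, hf, cond_true]
      exact h
  | goto f => intro v s; exact ⟨1, le_rfl, rfl⟩
  | halt => intro v s; exact ⟨0, le_rfl, rfl⟩

theorem micro_reach [Fintype L] (M : L → TM2.Stmt Γ L σ) (n : ℕ) :
    ∀ {c c' : TM2.Cfg Γ L σ}, Reach M n c c' →
      ∃ d ≤ n * ∑ l, ssize (M l), (micro M)^[d] (mconf M c) = mconf M c' := by
  induction n with
  | zero =>
    intro c c' h
    unfold Reach at h
    simp only [Function.iterate_zero, id_eq, Option.some.injEq] at h
    subst h
    exact ⟨0, by simp, rfl⟩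
  | succ n ih =>
    intro c c' h
    obtain ⟨c1, h1, h2⟩ := h.succ_inv
    obtain ⟨d, hd, h3⟩ := ih h2
    obtain ⟨l, v, s⟩ := c
    rcases l with _ | l
    · exact absurd h1 (by simp [TM2.step])
    · have e : TM2.step M ⟨some l, v, s⟩ = some (TM2.stepAux (M l) v s) := rfl
      rw [e] at h1
      have e1 := Option.some.inj h1
      obtain ⟨d', hd', h4⟩ := micro_stepAux M (M l) v s
      rw [e1] at h4
      have h5 : ssize (M l) ≤ ∑ l, ssize (M l) :=
        Finset.single_le_sum (f := fun l => ssize (M l)) (fun _ _ => Nat.zero_le _)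
          (Finset.mem_univ l)
      refine ⟨d + d', ?_, ?_⟩
      · rw [Nat.succ_mul]; omega
      · rw [iterate_add_apply]
        have : mconf M ⟨some l, v, s⟩ = ((M l, v), s) := rfl
        rw [this, h4, h3]

theorem micro_halt (M : L → TM2.Stmt Γ L σ) (v : σ) (s : ∀ k, List (Γ k)) (n : ℕ) :
    (micro M)^[n] ((.halt, v), s) = ((.halt, v), s) := by
  induction n with
  | zero => rfl
  | succ n ih => rw [iterate_succ_apply]; exact ih

/-- halted configurations are unique -/
theorem halt_unique (M : L → TM2.Stmt Γ L σ) (c : (TM2.Stmt Γ L σ × σ) × (∀ k, List (Γ k)))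
    (a b : ℕ) (v v' : σ) (s s' : ∀ k, List (Γ k)) (ha : (micro M)^[a] c = ((.halt, v), s))
    (hb : (micro M)^[b] c = ((.halt, v'), s')) : s = s' := by
  rcases le_total a b with h | h
  · obtain ⟨d, rfl⟩ := Nat.exists_eq_add_of_le h
    rw [add_comm, iterate_add_apply, ha, micro_halt] at hb
    exact congrArg Prod.snd hb
  · obtain ⟨d, rfl⟩ := Nat.exists_eq_add_of_le h
    rw [add_comm, iterate_add_apply, hb, micro_halt] at ha
    exact (congrArg Prod.snd ha).symm


/-! ### paths -/

/-- a path of `n` steps -/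
def Path {C : Type} (N : NM K Γ C) (n : ℕ) (a b : C × ∀ k, List (Γ k)) : Prop :=
  ∃ p : ℕ → C × ∀ k, List (Γ k), p 0 = a ∧ p n = b ∧ ∀ i, i < n → N.Step (p i) (p (i + 1))

theorem Path.refl {C : Type} {N : NM K Γ C} (a : C × ∀ k, List (Γ k)) : Path N 0 a a :=
  ⟨fun _ => a, rfl, rfl, fun _ h => absurd h (Nat.not_lt_zero _)⟩

theorem Path.one {C : Type} {N : NM K Γ C} {a b : C × ∀ k, List (Γ k)} (h : N.Step a b) :
    Path N 1 a b := by
  refine ⟨fun i => if i = 0 then a else b, rfl, rfl, ?_⟩
  intro i hi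
  have : i = 0 := by omega
  subst this
  exact h

theorem Path.trans {C : Type} {N : NM K Γ C} {n m : ℕ} {a b c : C × ∀ k, List (Γ k)}
    (h1 : Path N n a b) (h2 : Path N m b c) : Path N (n + m) a c := by
  obtain ⟨p, p0, p1, p2⟩ := h1
  obtain ⟨q, q0, q1, q2⟩ := h2
  refine ⟨fun i => if i < n then p i else q (i - n), ?_, ?_, ?_⟩
  · by_cases h : 0 < n
    · simp only [h, if_true, p0]
    · have : n = 0 := by omega
      subst this
      simp only [lt_irrefl, if_false]
      rw [q0, ← p1, p0]
  · have : ¬ (n + m < n) := by omega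
    simp only [this, if_false, Nat.add_sub_cancel_left, q1]
  · intro i hi
    by_cases h : i + 1 < n
    · have h' : i < n := by omega
      simp only [h, h', if_true]
      exact p2 i h'
    · by_cases h' : i < n
      · have e : i + 1 = n := by omega
        simp only [h, h', if_true, if_false]
        have := p2 i h'
        rw [e, p1, ← q0] at this
        have e2 : i + 1 - n = 0 := by omega
        rw [e2]
        exact this
      · simp only [h, h', if_false]
        have := q2 (i - n) (by omega)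
        have e2 : i + 1 - n = i - n + 1 := by omega
        rw [e2]
        exact this

theorem step_len {C : Type} {N : NM K Γ C} {a b : C × ∀ k, List (Γ k)} (h : N.Step a b) (k : K) :
    (b.2 k).length ≤ (a.2 k).length + 1 := by
  rw [h.2]
  by_cases hk : k = N.rd a.1
  · subst hk
    rw [update_self]
    cases N.act a.1 with
    | nop => simp [Act.app]
    | pop => simp only [Act.app, List.length_tail]; omega
    | push a => simp [Act.app]
  · rw [update_of_ne hk]; omega

theorem micro_path (M : L → TM2.Stmt Γ L σ) (l0 : L) (v0 : σ) (i : K) (ei : Γ i ≃ Bool)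
    (c : (TM2.Stmt Γ L σ × σ) × (∀ k, List (Γ k))) (d : ℕ) :
    Path (machine M l0 v0 i ei) d (emb c) (emb ((micro M)^[d] c)) := by
  refine ⟨fun i => emb ((micro M)^[i] c), rfl, rfl, ?_⟩
  intro j _
  rw [step_micro]
  show emb ((micro M)^[j + 1] c) = emb (micro M ((micro M)^[j] c))
  rw [iterate_succ_apply']

theorem update_st0 (i : K) (ei : Γ i ≃ Bool) (w : List Bool) (b : Bool) :
    update (st0 i ei w) i (ei.symm b :: st0 i ei w i) = st0 i ei (b :: w) := by
  unfold st0
  simp

section guess

variable (M : L → TM2.Stmt Γ L σ) (l0 : L) (v0 : σ) (i : K) (ei : Γ i ≃ Bool)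

theorem step_guess_cons (b : Bool) (l : List Bool) (t : Bool) (w : List Bool)
    (c' : Ctl Γ L σ × (∀ k, List (Γ k))) :
    (machine M l0 v0 i ei).Step (.inl (b :: l, t), st0 i ei w) c' ↔
      c' = (.inl (l, t), st0 i ei (b :: w)) := by
  obtain ⟨d, s'⟩ := c'
  simp only [NM.Step, machine, rdC, actC, nxC, Act.app, Prod.mk.injEq, update_st0]

theorem step_guess_nil (w : List Bool) (c' : Ctl Γ L σ × (∀ k, List (Γ k))) :
    (machine M l0 v0 i ei).Step (.inl ([], false), st0 i ei w) c' ↔
      ((∃ b, c' = (.inl (blk b, false), st0 i ei w)) ∨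
        c' = (.inl ([true], true), st0 i ei w)) := by
  obtain ⟨d, s'⟩ := c'
  simp only [NM.Step, machine, rdC, actC, nxC, Act.app, Prod.mk.injEq, update_eq_self]
  constructor
  · rintro ⟨⟨b, hb⟩ | h, h2⟩
    · exact Or.inl ⟨b, hb, h2⟩
    · exact Or.inr ⟨h, h2⟩
  · rintro (⟨b, hb, h2⟩ | ⟨h, h2⟩)
    · exact ⟨Or.inl ⟨b, hb⟩, h2⟩
    · exact ⟨Or.inr h, h2⟩

theorem step_guess_end (w : List Bool) (c' : Ctl Γ L σ × (∀ k, List (Γ k))) :
    (machine M l0 v0 i ei).Step (.inl ([], true), st0 i ei w) c' ↔
      c' = emb ((M l0, v0), st0 i ei w) := by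
  obtain ⟨d, s'⟩ := c'
  simp only [NM.Step, machine, rdC, actC, nxC, Act.app, Prod.mk.injEq, update_eq_self, emb]

theorem push_path (l : List Bool) (t : Bool) : ∀ w : List Bool,
    Path (machine M l0 v0 i ei) l.length (.inl (l, t), st0 i ei w)
      (.inl ([], t), st0 i ei (l.reverse ++ w)) := by
  induction l with
  | nil => intro w; exact Path.refl _
  | cons b l ih =>
    intro w
    have h1 : Path (machine M l0 v0 i ei) 1 (.inl (b :: l, t), st0 i ei w)
      (.inl (l, t), st0 i ei (b :: w)) := Path.one ((step_guess_cons M l0 v0 i ei b l t w _).2 rfl)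
    have h2 := h1.trans (ih (b :: w))
    have e : (b :: l).reverse ++ w = l.reverse ++ (b :: w) := by simp
    rw [e]
    have e2 : (b :: l).length = 1 + l.length := by simp; omega
    rw [e2]
    exact h2

theorem blk_length (b : Bool) : (blk b).length ≤ 4 := by cases b <;> decide

theorem guess_path (X : List Bool) (y : List Bool) :
    ∃ n ≤ 1 + 5 * y.length, Path (machine M l0 v0 i ei) n (.inl ([false], false), st0 i ei X)
      (.inl ([], false), st0 i ei (D.encD (Enc.enc y) ++ X)) := by
  induction y with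
  | nil => exact ⟨1, by simp, push_path M l0 v0 i ei [false] false X⟩
  | cons b y ih =>
    obtain ⟨n, hn, hp⟩ := ih
    have h1 : Path (machine M l0 v0 i ei) 1
        (.inl ([], false), st0 i ei (D.encD (Enc.enc y) ++ X))
        (.inl (blk b, false), st0 i ei (D.encD (Enc.enc y) ++ X)) :=
      Path.one ((step_guess_nil M l0 v0 i ei _ _).2 (Or.inl ⟨b, rfl⟩))
    have h2 := push_path M l0 v0 i ei (blk b) false (D.encD (Enc.enc y) ++ X)
    refine ⟨n + 1 + (blk b).length, ?_, ?_⟩
    · have := blk_length b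
      simp only [List.length_cons]; omega
    · have h3 := (hp.trans h1).trans h2
      have e : (blk b).reverse ++ (D.encD (Enc.enc y) ++ X) = D.encD (Enc.enc (b :: y)) ++ X := by
        unfold blk
        rw [List.reverse_reverse]
        show _ = (true :: (D.encD (D.ofBool b) ++ D.encD (Enc.enc y))) ++ X
        simp
      rw [e] at h3
      exact h3

theorem full_path (x y : List Bool) :
    ∃ n ≤ 4 + 5 * y.length, Path (machine M l0 v0 i ei) n
      (.inl ([false], false), st0 i ei (D.encD (Enc.enc x)))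
      (emb ((M l0, v0), st0 i ei (D.encD (Enc.enc (y, x))))) := by
  obtain ⟨n, hn, hp⟩ := guess_path M l0 v0 i ei (D.encD (Enc.enc x)) y
  have h1 : Path (machine M l0 v0 i ei) 1
        (.inl ([], false), st0 i ei (D.encD (Enc.enc y) ++ D.encD (Enc.enc x)))
        (.inl ([true], true), st0 i ei (D.encD (Enc.enc y) ++ D.encD (Enc.enc x))) :=
      Path.one ((step_guess_nil M l0 v0 i ei _ _).2 (Or.inr rfl))
  have h2 := push_path M l0 v0 i ei [true] true (D.encD (Enc.enc y) ++ D.encD (Enc.enc x))
  have h3 : Path (machine M l0 v0 i ei) 1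
        (.inl ([], true), st0 i ei (true :: (D.encD (Enc.enc y) ++ D.encD (Enc.enc x))))
        (emb ((M l0, v0), st0 i ei (true :: (D.encD (Enc.enc y) ++ D.encD (Enc.enc x))))) :=
      Path.one ((step_guess_end M l0 v0 i ei _ _).2 rfl)
  exact ⟨n + 1 + 1 + 1, by omega, ((hp.trans h1).trans h2).trans h3⟩

/-- Invariant. -/
theorem invariant (x : List Bool) (m : ℕ) (p : ℕ → Ctl Γ L σ × (∀ k, List (Γ k)))
    (h0 : p 0 = (.inl ([false], false), st0 i ei (D.encD (Enc.enc x))))
    (hp : ∀ j, j + 1 < m → (machine M l0 v0 i ei).Step (p j) (p (j + 1))) :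
    ∀ j, j < m →
      (∃ l W, p j = (.inl (l, false), st0 i ei W) ∧
        ∃ y : List Bool, l.reverse ++ W = D.encD (Enc.enc y) ++ D.encD (Enc.enc x)) ∨
      (∃ l W, p j = (.inl (l, true), st0 i ei W) ∧
        ∃ y : List Bool, l.reverse ++ W = D.encD (Enc.enc (y, x))) ∨
      (∃ (y : List Bool) (d : ℕ), p j = emb ((micro M)^[d]
        ((M l0, v0), st0 i ei (D.encD (Enc.enc (y, x)))))) := by
  intro j
  induction j with
  | zero =>
    intro _
    left
    exact ⟨_, _, h0, [], rfl⟩
  | succ j ih =>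
    intro hj
    have hs := hp j hj
    rcases ih (by omega) with ⟨l, W, e, y, hy⟩ | ⟨l, W, e, y, hy⟩ | ⟨y, d, e⟩
    · rw [e] at hs
      rcases l with _ | ⟨b, l⟩
      · rw [step_guess_nil] at hs
        rcases hs with ⟨b, hb⟩ | hb
        · left
          refine ⟨_, _, hb, b :: y, ?_⟩
          simp only [List.reverse_nil, List.nil_append] at hy
          rw [hy]
          unfold blk
          rw [List.reverse_reverse]
          show _ = (true :: (D.encD (D.ofBool b) ++ D.encD (Enc.enc y))) ++ _
          simp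
        · right; left
          refine ⟨_, _, hb, y, ?_⟩
          simp only [List.reverse_nil, List.nil_append] at hy
          rw [hy]
          rfl
      · rw [step_guess_cons] at hs
        left
        refine ⟨_, _, hs, y, ?_⟩
        rw [← hy]
        simp
    · rw [e] at hs
      rcases l with _ | ⟨b, l⟩
      · rw [step_guess_end] at hs
        right; right
        refine ⟨y, 0, ?_⟩
        simp only [List.reverse_nil, List.nil_append] at hy
        rw [hs, hy]
        rfl
      · rw [step_guess_cons] at hs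
        right; left
        refine ⟨_, _, hs, y, ?_⟩
        rw [← hy]
        simp
    · rw [e, step_micro] at hs
      right; right
      refine ⟨y, d + 1, ?_⟩
      rw [hs, iterate_succ_apply']

end guess

end micro

/-! ### finiteness -/

section fin

variable {K : Type} {Γ : K → Type} {L σ : Type}

/-- the sub-statements of `M` -/
def ST (M : L → TM2.Stmt Γ L σ) : Set (TM2.Stmt Γ L σ) := {q | ∃ l, q ∈ TM2.stmts₁ (M l)} ∪ {.halt}

/-- controls -/
def CS (M : L → TM2.Stmt Γ L σ) : Set (Ctl Γ L σ) :=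
  Sum.inl '' ({l : List Bool | l.length ≤ 4} ×ˢ Set.univ) ∪ Sum.inr '' (ST M ×ˢ Set.univ)

/-- pushed symbols -/
def pset : TM2.Stmt Γ L σ → Set (Σ k, Γ k)
  | .push k f _ => Set.range fun v => ⟨k, f v⟩
  | _ => ∅

theorem ST_finite [Finite L] (M : L → TM2.Stmt Γ L σ) : (ST M).Finite := by
  refine Set.Finite.union ?_ (Set.finite_singleton _)
  have : {q | ∃ l, q ∈ TM2.stmts₁ (M l)} = ⋃ l, (↑(TM2.stmts₁ (M l)) : Set (TM2.Stmt Γ L σ)) := by
    ext q; simp
  rw [this]
  exact Set.finite_iUnion fun l => Finset.finite_toSet _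

theorem CS_finite [Finite L] [Finite σ] (M : L → TM2.Stmt Γ L σ) : (CS M).Finite := by
  refine Set.Finite.union ?_ ?_
  · exact ((List.finite_length_le Bool 4).prod Set.finite_univ).image _
  · exact ((ST_finite M).prod Set.finite_univ).image _

/-- symbols -/
def GS (M : L → TM2.Stmt Γ L σ) (i : K) (ei : Γ i ≃ Bool) : Set (Σ k, Γ k) :=
  (⋃ q ∈ ST M, pset q) ∪ Set.range fun b => ⟨i, ei.symm b⟩

theorem GS_finite [Finite L] [Finite σ] (M : L → TM2.Stmt Γ L σ) (i : K) (ei : Γ i ≃ Bool) :
    (GS M i ei).Finite := by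
  refine Set.Finite.union ?_ (Set.finite_range _)
  refine (ST_finite M).biUnion fun q _ => ?_
  cases q with
  | push k f q => exact Set.finite_range _
  | _ => exact Set.finite_empty

theorem mem_CS_inl {M : L → TM2.Stmt Γ L σ} {l : List Bool} {t : Bool} :
    (Sum.inl (l, t) : Ctl Γ L σ) ∈ CS M ↔ l.length ≤ 4 := by
  simp [CS]

theorem mem_CS_inr {M : L → TM2.Stmt Γ L σ} {q : TM2.Stmt Γ L σ} {v : σ} :
    (Sum.inr (q, v) : Ctl Γ L σ) ∈ CS M ↔ q ∈ ST M := by
  simp [CS]

theorem ST_sub {M : L → TM2.Stmt Γ L σ} {q q' : TM2.Stmt Γ L σ} (h : q ∈ ST M)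
    (h' : q' ∈ TM2.stmts₁ q) (hh : q ≠ .halt) : q' ∈ ST M := by
  rcases h with ⟨l, hl⟩ | h
  · exact Or.inl ⟨l, TM2.stmts₁_trans hl h'⟩
  · exact absurd h hh

theorem CS_closed [DecidableEq K] (M : L → TM2.Stmt Γ L σ) (l0 : L) (v0 : σ) (i : K)
    (ei : Γ i ≃ Bool) :
    ∀ c h c', c ∈ CS M → (machine M l0 v0 i ei).nx c h c' → c' ∈ CS M := by
  have hM : ∀ l, M l ∈ ST M := fun l => Or.inl ⟨l, TM2.stmts₁_self⟩
  rintro (⟨l, t⟩ | ⟨q, v⟩) h c' hc hn
  · rw [mem_CS_inl] at hc
    rcases l with _ | ⟨b, l⟩
    · cases t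
      · rcases hn with ⟨b, hb⟩ | hb
        · rw [hb, mem_CS_inl]; exact blk_length b
        · rw [hb, mem_CS_inl]; simp
      · change c' = _ at hn
        rw [hn, mem_CS_inr]; exact hM _
    · change c' = _ at hn
      rw [hn, mem_CS_inl]
      simp only [List.length_cons] at hc
      omega
  · rw [mem_CS_inr] at hc
    cases q with
    | push k f q =>
      change c' = _ at hn
      rw [hn, mem_CS_inr]
      exact ST_sub hc (by simp [TM2.stmts₁, TM2.stmts₁_self]) (by simp)
    | peek k f q =>
      change c' = _ at hn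
      rw [hn, mem_CS_inr]
      exact ST_sub hc (by simp [TM2.stmts₁, TM2.stmts₁_self]) (by simp)
    | pop k f q =>
      change c' = _ at hn
      rw [hn, mem_CS_inr]
      exact ST_sub hc (by simp [TM2.stmts₁, TM2.stmts₁_self]) (by simp)
    | load a q =>
      change c' = _ at hn
      rw [hn, mem_CS_inr]
      exact ST_sub hc (by simp [TM2.stmts₁, TM2.stmts₁_self]) (by simp)
    | branch f q₁ q₂ =>
      change c' = _ at hn
      rw [hn, mem_CS_inr]
      cases f v
      · exact ST_sub hc (by simp [TM2.stmts₁, TM2.stmts₁_self]) (by simp)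
      · exact ST_sub hc (by simp [TM2.stmts₁, TM2.stmts₁_self]) (by simp)
    | goto f =>
      change c' = _ at hn
      rw [hn, mem_CS_inr]
      exact hM _
    | halt =>
      change c' = _ at hn
      rw [hn, mem_CS_inr]
      exact Or.inr rfl

theorem GS_push [DecidableEq K] (M : L → TM2.Stmt Γ L σ) (l0 : L) (v0 : σ) (i : K)
    (ei : Γ i ≃ Bool) :
    ∀ c ∈ CS M, ∀ a, (machine M l0 v0 i ei).act c = Act.push a →
      (⟨(machine M l0 v0 i ei).rd c, a⟩ : Σ k, Γ k) ∈ GS M i ei := by
  rintro (⟨l, t⟩ | ⟨q, v⟩) hc a ha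
  · rcases l with _ | ⟨b, l⟩
    · exact absurd ha (by simp [machine, actC])
    · have h2 : ei.symm b = a := Act.push.inj ha
      right
      exact ⟨b, congrArg (fun z => (⟨i, z⟩ : Σ k, Γ k)) h2⟩
  · rw [mem_CS_inr] at hc
    cases q with
    | push k f q =>
      have h2 : f v = a := Act.push.inj ha
      left
      exact Set.mem_biUnion hc ⟨v, congrArg (fun z => (⟨k, z⟩ : Σ k, Γ k)) h2⟩
    | _ => exact absurd ha (by simp [machine, actC])

end fin

theorem sz_bool (b : Bool) : sz b ≤ 3 := by cases b <;> decide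

theorem sz_list (x : List Bool) : sz x ≤ 4 * x.length + 1 := by
  induction x with
  | nil => simp
  | cons b x ih =>
    have := sz_bool b
    simp only [sz_cons, List.length_cons]
    omega

end CL

open CL TM2Lib in
/-- **Module CL.** -/
theorem modCL : ModCL := by
  intro R p hR hp
  have hR' : Poly (fun q : List Bool × List Bool => R (q.2, q.1)) :=
    hR.comp (Poly.pair Poly.snd Poly.fst)
  obtain ⟨P⟩ := hR'
  have := P.F.finΛ
  have := P.F.finσ
  set M := P.F.M with hMdef
  set B := ∑ l, ssize (M l) with hB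
  obtain ⟨Q, fQ, nQ, H, Vt, U, hQ⟩ := tableau_fin (machine M (some P.F.entry) P.F.inh P.i P.ei)
    (CS M) (CS_finite M) (GS M P.i P.ei) (GS_finite M P.i P.ei) (.inl ([false], false))
    (by rw [mem_CS_inl]; simp) (CS_closed M _ _ _ _) (GS_push M _ _ _ _)
    (fun c => ∃ v, c = .inr (.halt, v)) P.o P.i P.ei (fun b => Or.inr ⟨b, rfl⟩)
  refine ⟨Q, fQ, nQ, H, Vt, U, (4 * Polynomial.X + 1) + (4 + 5 * p +
    P.T.comp (4 * p + 4 * Polynomial.X + 3) * Polynomial.C B) + 2, ?_⟩
  intro x m hm
  have hm2 : 2 ≤ m := le_trans (by simp) hm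
  obtain ⟨hQ1, hQ2⟩ := hQ (D.encD (Enc.enc x)).reverse m hm2
  rw [List.reverse_reverse] at hQ1 hQ2
  -- the computation of `M`
  have hrun : ∀ y : List Bool, ∃ d ≤ P.T.eval (sz (y, x)) * B, ∃ v',
      (micro M)^[d] ((M (some P.F.entry), P.F.inh), st0 P.i P.ei (D.encD (Enc.enc (y, x)))) =
        ((.halt, v'), single P.o ((D.encD (Enc.enc (R (x, y)))).map P.eo.symm)) := by
    intro y
    obtain ⟨n, hn, hr⟩ := P.spec (y, x)
    obtain ⟨v', hv⟩ := hr P.F.inh
    obtain ⟨d, hd, h⟩ := micro_reach P.F.M n hv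
    exact ⟨d, hd.trans (Nat.mul_le_mul_right _ hn), v', h⟩
  constructor
  · rintro ⟨y, hy⟩
    obtain ⟨d, hd, v', hrun'⟩ := hrun y
    obtain ⟨n, hn, hpath⟩ := full_path M (some P.F.entry) P.F.inh P.i P.ei x y
    have hpath2 := hpath.trans (micro_path M (some P.F.entry) P.F.inh P.i P.ei _ d)
    rw [hrun', hy] at hpath2
    obtain ⟨q, q0, q1, q2⟩ := hpath2
    -- sizes
    have hylen := hp x y hy
    have hsz : sz (y, x) ≤ 4 * p.eval x.length + 4 * x.length + 3 := by
      have h1 := sz_list x
      have h2 := sz_list y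
      rw [sz_pair]
      omega
    have hT : P.T.eval (sz (y, x)) * B ≤
        P.T.eval (4 * p.eval x.length + 4 * x.length + 3) * B :=
      Nat.mul_le_mul_right _ (eval_mono _ hsz)
    have hbound : sz x + (n + d) + 2 ≤ m := by
      refine le_trans ?_ hm
      simp only [Polynomial.eval_add, Polynomial.eval_mul, Polynomial.eval_ofNat,
        Polynomial.eval_X, Polynomial.eval_one, Polynomial.eval_comp, Polynomial.eval_C]
      have h1 := sz_list x
      omega
    refine hQ2 (fun j => if j ≤ n + d then q j else q (n + d)) ?_ ?_ ?_ ?_ ?_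
    · simp only [Nat.zero_le, if_true]; exact q0
    · intro j hj
      by_cases h : j < n + d
      · have h1 : j ≤ n + d := h.le
        have h2 : j + 1 ≤ n + d := h
        simp only [h1, h2, if_true]
        exact q2 j h
      · have h2 : ¬ (j + 1 ≤ n + d) := by omega
        have h3 : (if j ≤ n + d then q j else q (n + d)) = q (n + d) := by
          by_cases h1 : j ≤ n + d
          · have : j = n + d := by omega
            subst this; simp
          · simp [h1]
        simp only [h2, if_false]
        rw [h3, q1, step_micro]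
        rfl
    · intro j hj k
      have hlen : ∀ j ≤ n + d, ((q j).2 k).length ≤ sz x + j := by
        intro j
        induction j with
        | zero =>
          intro _
          rw [q0]
          show (st0 P.i P.ei (D.encD (Enc.enc x)) k).length ≤ _
          unfold st0
          by_cases hk : k = P.i
          · subst hk; rw [Function.update_self]; simp [sz, D.size]
          · rw [Function.update_of_ne hk]; simp
        | succ j ih =>
          intro hj
          have := step_len (q2 j (by omega)) k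
          have := ih (by omega)
          omega
      by_cases h : j ≤ n + d
      · simp only [h, if_true]
        have := hlen j h
        omega
      · simp only [h, if_false]
        have := hlen (n + d) le_rfl
        omega
    · have h : (if m - 1 ≤ n + d then q (m - 1) else q (n + d)) = q (n + d) := by
        by_cases h1 : m - 1 ≤ n + d
        · exfalso; omega
        · simp [h1]
      beta_reduce
      rw [h, q1]
      exact ⟨v', rfl⟩
    · have h : (if m - 1 ≤ n + d then q (m - 1) else q (n + d)) = q (n + d) := by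
        by_cases h1 : m - 1 ≤ n + d
        · exfalso; omega
        · simp [h1]
      beta_reduce
      rw [h, q1]
      show 2 ≤ (single P.o _ P.o).length
      rw [single_self]
      simp [Enc.enc, D.ofBool, D.encD]
  · intro hσ
    obtain ⟨q, q0, q1, ⟨v, hv⟩, q3⟩ := hQ1 hσ
    rcases invariant M (some P.F.entry) P.F.inh P.i P.ei x m q q0 q1 (m - 1) (by omega) with
      ⟨l, W, e, _⟩ | ⟨l, W, e, _⟩ | ⟨y, d, e⟩
    · rw [e] at hv; exact absurd hv (by simp)
    · rw [e] at hv; exact absurd hv (by simp)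
    · obtain ⟨d', _, v', hrun'⟩ := hrun y
      rw [e] at hv q3
      have hv' : ((micro M)^[d] ((M (some P.F.entry), P.F.inh),
        st0 P.i P.ei (D.encD (Enc.enc (y, x))))).1 = (.halt, v) := Sum.inr.inj hv
      have h1 := halt_unique M _ d d' v v' _ _ (Prod.ext hv' rfl) hrun'
      refine ⟨y, ?_⟩
      have q4 : 2 ≤ ((single P.o ((D.encD (Enc.enc (R (x, y)))).map P.eo.symm) :
          ∀ k, List (P.Γ k)) P.o).length := by
        rw [← h1]; exact q3
      rw [single_self] at q4
      by_contra hR0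
      have : R (x, y) = false := by simpa using hR0
      rw [this] at q4
      simp [Enc.enc, D.ofBool, D.encD] at q4

end Pool.Agent.PCP
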