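import Pool.Agent.PCP.DefsF

/-!
# The FGLSS graph: module F
-/

set_option linter.unusedSectionVars false

namespace Pool.Agent.PCP

open Finset TM2Lib

namespace Fg

/-! ## The abstract graph -/

section abs

variable {V D S : Type} (G : RG V D S)

/-- invalid labelled edges -/
def Inv (u : (V × D) × (S × S)) : Prop :=
  G.R u.1 u.2.1 u.2.2 = false ∨ ((G.rot u.1).1 = u.1.1 ∧ u.2.1 ≠ u.2.2)

/-- conflict between labelled edges -/
def Conf (u v : (V × D) × (S × S)) : Prop :=
  (u.1.1 = v.1.1 ∧ u.2.1 ≠ v.2.1) ∨ (u.1.1 = (G.rot v.1).1 ∧ u.2.1 ≠ v.2.2) ∨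
    ((G.rot u.1).1 = v.1.1 ∧ u.2.2 ≠ v.2.1) ∨ ((G.rot u.1).1 = (G.rot v.1).1 ∧ u.2.2 ≠ v.2.2)

theorem Conf.symm {u v : (V × D) × (S × S)} (h : Conf G u v) : Conf G v u := by
  rcases h with h | h | h | h
  · exact Or.inl ⟨h.1.symm, h.2.symm⟩
  · exact Or.inr (Or.inr (Or.inl ⟨h.1.symm, h.2.symm⟩))
  · exact Or.inr (Or.inl ⟨h.1.symm, h.2.symm⟩)
  · exact Or.inr (Or.inr (Or.inr ⟨h.1.symm, h.2.symm⟩))

/-- adjacency -/
def AdjF (u v : (V × D) × (S × S)) : Prop := u ≠ v ∧ (Inv G u ∨ Inv G v ∨ Conf G u v)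

theorem AdjF.symm {u v : (V × D) × (S × S)} (h : AdjF G u v) : AdjF G v u := by
  refine ⟨h.1.symm, ?_⟩
  rcases h.2 with h | h | h
  · exact Or.inr (Or.inl h)
  · exact Or.inl h
  · exact Or.inr (Or.inr h.symm)

variable [Fintype V] [Fintype D]

theorem sat_indep (h : G.Sat) : ∃ I : Finset ((V × D) × (S × S)),
    I.card = Fintype.card V * Fintype.card D ∧ ∀ u ∈ I, ∀ v ∈ I, ¬ AdjF G u v := by
  classical
  obtain ⟨σ, hσ⟩ := h
  refine ⟨(univ : Finset (V × D)).image fun x => (x, (σ x.1, σ (G.rot x).1)), ?_, ?_⟩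
  · rw [Finset.card_image_of_injective _ fun x y hxy => congrArg Prod.fst hxy,
      Finset.card_univ, Fintype.card_prod]
  · intro u hu v hv hadj
    obtain ⟨x, -, rfl⟩ := Finset.mem_image.1 hu
    obtain ⟨y, -, rfl⟩ := Finset.mem_image.1 hv
    have hinv : ∀ z : V × D, ¬ Inv G (z, (σ z.1, σ (G.rot z).1)) := by
      intro z hz
      rcases hz with hz | hz
      · rw [hσ z] at hz
        exact Bool.false_ne_true hz.symm
      · apply hz.2
        simp only
        rw [hz.1]
    rcases hadj.2 with h | h | h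
    · exact hinv x h
    · exact hinv y h
    · rcases h with h | h | h | h
      · exact h.2 (congrArg σ h.1)
      · exact h.2 (congrArg σ h.1)
      · exact h.2 (congrArg σ h.1)
      · exact h.2 (congrArg σ h.1)

theorem gap_indep [Nonempty S] {γ : ℝ} (h : G.Gap γ) (I : Finset ((V × D) × (S × S)))
    (hI : ∀ u ∈ I, ∀ v ∈ I, ¬ AdjF G u v) :
    (I.card : ℝ) ≤ max 1 ((1 - γ) * ((Fintype.card V : ℝ) * (Fintype.card D : ℝ))) := by
  classical
  rcases Nat.lt_or_ge 1 I.card with h1 | h1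
  swap
  · exact le_max_of_le_left (by exact_mod_cast h1)
  refine le_max_of_le_right ?_
  -- no invalid vertices
  have hval : ∀ u ∈ I, ¬ Inv G u := by
    intro u hu hinv
    obtain ⟨v, hv, hvu⟩ := Finset.exists_mem_ne h1 u
    exact hI u hu v hv ⟨hvu.symm, Or.inl hinv⟩
  have hconf : ∀ u ∈ I, ∀ v ∈ I, ¬ Conf G u v := by
    intro u hu v hv hc
    by_cases huv : u = v
    · subst huv
      rcases hc with h | h | h | h
      · exact h.2 rfl
      · exact hval u hu (Or.inr ⟨h.1.symm, h.2⟩)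
      · exact hval u hu (Or.inr ⟨h.1, h.2.symm⟩)
      · exact h.2 rfl
    · exact hI u hu v hv ⟨huv, Or.inr (Or.inr hc)⟩
  -- the assignment
  let lab : V → S → Prop := fun v s => ∃ u ∈ I, (u.1.1 = v ∧ u.2.1 = s) ∨
    ((G.rot u.1).1 = v ∧ u.2.2 = s)
  have huniq : ∀ v s s', lab v s → lab v s' → s = s' := by
    rintro v s s' ⟨u, hu, hus⟩ ⟨w, hw, hws⟩
    have hc := hconf u hu w hw
    simp only [Conf, not_or, not_and, not_not] at hc
    rcases hus with ⟨h1, h2⟩ | ⟨h1, h2⟩ <;> rcases hws with ⟨h3, h4⟩ | ⟨h3, h4⟩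
    · rw [← h2, ← h4]; exact hc.1 (h1.trans h3.symm)
    · rw [← h2, ← h4]; exact hc.2.1 (h1.trans h3.symm)
    · rw [← h2, ← h4]; exact hc.2.2.1 (h1.trans h3.symm)
    · rw [← h2, ← h4]; exact hc.2.2.2 (h1.trans h3.symm)
  let σ : V → S := fun v => if h : ∃ s, lab v s then h.choose else Classical.arbitrary S
  have hσ : ∀ v s, lab v s → σ v = s := by
    intro v s hs
    have hex : ∃ s, lab v s := ⟨s, hs⟩
    have : σ v = hex.choose := dif_pos hex
    rw [this]
    exact huniq v _ _ hex.choose_spec hs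
  have hs1 : ∀ u ∈ I, σ u.1.1 = u.2.1 := fun u hu => hσ _ _ ⟨u, hu, Or.inl ⟨rfl, rfl⟩⟩
  have hs2 : ∀ u ∈ I, σ (G.rot u.1).1 = u.2.2 := fun u hu => hσ _ _ ⟨u, hu, Or.inr ⟨rfl, rfl⟩⟩
  -- counting
  have hcard : I.card ≤ (univ.filter fun x : V × D =>
      ¬ G.R x (σ x.1) (σ (G.rot x).1) = false).card := by
    refine Finset.card_le_card_of_injOn Prod.fst ?_ ?_
    · intro u hu
      rw [Finset.mem_coe] at hu
      rw [Finset.mem_coe, Finset.mem_filter]
      refine ⟨Finset.mem_univ _, ?_⟩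
      rw [hs1 u hu, hs2 u hu]
      exact fun hc => hval u hu (Or.inl hc)
    · intro u hu v hv huv
      rw [Finset.mem_coe] at hu hv
      have e1 : u.2.1 = v.2.1 := by rw [← hs1 u hu, ← hs1 v hv, huv]
      have e2 : u.2.2 = v.2.2 := by rw [← hs2 u hu, ← hs2 v hv, huv]
      exact Prod.ext huv (Prod.ext e1 e2)
  have htot := Finset.card_filter_add_card_filter_not (s := (univ : Finset (V × D)))
    (fun x : V × D => G.R x (σ x.1) (σ (G.rot x).1) = false)
  rw [Finset.card_univ, Fintype.card_prod] at htot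
  have hg := h σ
  have e1 : (G.nviol σ : ℝ) + ((univ.filter fun x : V × D =>
      ¬ G.R x (σ x.1) (σ (G.rot x).1) = false).card : ℝ) =
      (Fintype.card V : ℝ) * (Fintype.card D : ℝ) := by
    rw [← Nat.cast_mul, ← htot, Nat.cast_add]
    rfl
  have e2 : (I.card : ℝ) ≤ ((univ.filter fun x : V × D =>
      ¬ G.R x (σ x.1) (σ (G.rot x).1) = false).card : ℝ) := by exact_mod_cast hcard
  linarith

end abs

/-! ## The graph of a board -/

/-- labels of a vertex -/
abbrev K : Type := D0 × S0 × S0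

/-- codes of vertices -/
abbrev Vx : Type := (Un × Un) × Fc K

/-- invalid -/
noncomputable def invb (b : Bd S0) (p : ℕ × ℕ) (κ : K) : Bool :=
  !((fi b p κ.1).2 κ.2.1 κ.2.2) || (decide (nb b p κ.1 = p) && decide (κ.2.1 ≠ κ.2.2))

/-- conflict -/
noncomputable def confb (b : Bd S0) (p : ℕ × ℕ) (κ : K) (q : ℕ × ℕ) (κ' : K) : Bool :=
  (decide (p = q) && decide (κ.2.1 ≠ κ'.2.1)) ||
    ((decide (p = nb b q κ'.1) && decide (κ.2.1 ≠ κ'.2.2)) ||
      ((decide (nb b p κ.1 = q) && decide (κ.2.2 ≠ κ'.2.1)) ||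
        (decide (nb b p κ.1 = nb b q κ'.1) && decide (κ.2.2 ≠ κ'.2.2))))

/-- adjacency -/
noncomputable def adjb (b : Bd S0) (p : ℕ × ℕ) (κ : K) (q : ℕ × ℕ) (κ' : K) : Bool :=
  !(decide (p = q) && decide (κ = κ')) && (invb b p κ || (invb b q κ' || confb b p κ q κ'))

/-- the vertices -/
noncomputable def vlist (b : Bd S0) : List Vx :=
  (List.range b.length).flatMap fun i => (List.range b.length).flatMap fun j =>
    (univ : Finset K).toList.map fun κ => (((⟨i⟩, ⟨j⟩) : Un × Un), (⟨κ⟩ : Fc K))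

/-- the adjacency matrix -/
noncomputable def Fm (b : Bd S0) : List (List Bool) :=
  (vlist b).map fun u => (vlist b).map fun v => adjb b (sp u.1) u.2.val (sp v.1) v.2.val

/-! ### polynomial time -/

theorem poly_pos_eq {α : Type} [Enc α] {f g : α → ℕ × ℕ} (hf : PPoly f) (hg : PPoly g) :
    Poly (fun a => decide (f a = g a)) := by
  refine ((UPoly.eq hf.fst hg.fst).and (UPoly.eq hf.snd hg.snd)).of_eq fun a => ?_
  rw [Bool.eq_iff_iff, Bool.and_eq_true, decide_eq_true_iff, decide_eq_true_iff,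
    decide_eq_true_iff, Prod.ext_iff]

theorem poly_invb {α : Type} [Enc α] {b : α → Bd S0} {p : α → ℕ × ℕ} (hb : Poly b)
    (hp : PPoly p) (κ : K) : Poly (fun a => invb (b a) (p a) κ) := by
  unfold invb
  refine Poly.or (Poly.not ?_) (Poly.and (poly_pos_eq (ppoly_nb hb hp κ.1) hp) (TM2Lib.Poly.const _))
  exact FPoly.map (fpoly_fi hb hp) fun x => (x κ.1).2 κ.2.1 κ.2.2

theorem poly_adjb {α : Type} [Enc α] {b : α → Bd S0} {p q : α → ℕ × ℕ} (hb : Poly b)
    (hp : PPoly p) (hq : PPoly q) (κ κ' : K) :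
    Poly (fun a => adjb (b a) (p a) κ (q a) κ') := by
  unfold adjb confb
  have h1 := ppoly_nb hb hp κ.1
  have h2 := ppoly_nb hb hq κ'.1
  exact ((Poly.and (poly_pos_eq hp hq) (TM2Lib.Poly.const _)).not).and
    ((poly_invb hb hp κ).or ((poly_invb hb hq κ').or
      (((poly_pos_eq hp hq).and (TM2Lib.Poly.const _)).or
        (((poly_pos_eq hp h2).and (TM2Lib.Poly.const _)).or
          (((poly_pos_eq h1 hq).and (TM2Lib.Poly.const _)).or
            ((poly_pos_eq h1 h2).and (TM2Lib.Poly.const _)))))))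

theorem poly_vlist : Poly vlist := by
  unfold vlist
  have h0 : UPoly (fun b : Bd S0 => b.length) := UPoly.length Poly.id
  have h1 : Poly (fun p : (Bd S0 × Un) × Un =>
      (univ : Finset K).toList.map fun κ => ((p.1.2, p.2), (⟨κ⟩ : Fc K))) := by
    have h2 : Poly (fun _ : (Bd S0 × Un) × Un =>
        (univ : Finset K).toList.map fun κ => (⟨κ⟩ : Fc K)) := TM2Lib.Poly.const _
    refine (TM2Lib.Poly.map (h := fun q : ((Bd S0 × Un) × Un) × Fc K => ((q.1.1.2, q.1.2), q.2)) h2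
      ((Poly.id.fst'.fst'.snd'.pair Poly.id.fst'.snd').pair Poly.id.snd')).of_eq fun a => ?_
    rw [List.map_map]
    rfl
  have h3 : Poly (fun p : Bd S0 × Un => ((List.range p.1.length).map Un.mk).flatMap fun j =>
      (univ : Finset K).toList.map fun κ => ((p.2, j), (⟨κ⟩ : Fc K))) :=
    TM2Lib.Poly.flatMap (h := fun q : (Bd S0 × Un) × Un =>
      (univ : Finset K).toList.map fun κ => ((q.1.2, q.2), (⟨κ⟩ : Fc K)))
      (Poly.range (h0.comp Poly.fst)) h1
  have h4 : Poly (fun b : Bd S0 => ((List.range b.length).map Un.mk).flatMap fun i =>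
      ((List.range b.length).map Un.mk).flatMap fun j =>
        (univ : Finset K).toList.map fun κ => ((i, j), (⟨κ⟩ : Fc K))) :=
    TM2Lib.Poly.flatMap (h := fun q : Bd S0 × Un => ((List.range q.1.length).map Un.mk).flatMap fun j =>
      (univ : Finset K).toList.map fun κ => ((q.2, j), (⟨κ⟩ : Fc K)))
      (Poly.range h0) h3
  refine h4.of_eq fun b => ?_
  rw [List.flatMap_map]
  simp only [List.flatMap_map]

theorem poly_Fm : Poly Fm := by
  unfold Fm
  have h1 : Poly (fun q : (Bd S0 × Vx) × Vx =>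
      adjb q.1.1 (sp q.1.2.1) q.1.2.2.val (sp q.2.1) q.2.2.val) := by
    have hu : FPoly (fun q : (Bd S0 × Vx) × Vx => q.1.2.2.val) :=
      FPoly.val.comp Poly.id.fst'.snd'.snd'
    have hv : FPoly (fun q : (Bd S0 × Vx) × Vx => q.2.2.val) :=
      FPoly.val.comp Poly.id.snd'.snd'
    have hp : PPoly (fun q : (Bd S0 × Vx) × Vx => sp q.1.2.1) :=
      PPoly.sp.comp (f := fun q : (Bd S0 × Vx) × Vx => q.1.2.1) Poly.id.fst'.snd'.fst'
    have hq : PPoly (fun q : (Bd S0 × Vx) × Vx => sp q.2.1) :=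
      PPoly.sp.comp (f := fun q : (Bd S0 × Vx) × Vx => q.2.1) Poly.id.snd'.fst'
    exact FPoly.cases (h := fun (q : (Bd S0 × Vx) × Vx) κ =>
      adjb q.1.1 (sp q.1.2.1) κ (sp q.2.1) q.2.2.val) hu fun κ =>
        FPoly.cases (h := fun (q : (Bd S0 × Vx) × Vx) κ' =>
          adjb q.1.1 (sp q.1.2.1) κ (sp q.2.1) κ') hv fun κ' =>
            poly_adjb Poly.id.fst'.fst' hp hq κ κ'
  have h2 : Poly (fun p : Bd S0 × Vx => (vlist p.1).map fun v =>
      adjb p.1 (sp p.2.1) p.2.2.val (sp v.1) v.2.val) :=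
    TM2Lib.Poly.map (h := fun q : (Bd S0 × Vx) × Vx =>
      adjb q.1.1 (sp q.1.2.1) q.1.2.2.val (sp q.2.1) q.2.2.val) (poly_vlist.comp Poly.fst) h1
  exact TM2Lib.Poly.map (h := fun p : Bd S0 × Vx => (vlist p.1).map fun v =>
      adjb p.1 (sp p.2.1) p.2.2.val (sp v.1) v.2.val) poly_vlist h2

/-! ### correctness -/

section correct

variable {m : ℕ} (G : RG (Fin m × Fin m) D0 S0)

/-- vertices -/
abbrev W (m : ℕ) : Type := ((Fin m × Fin m) × D0) × (S0 × S0)

/-- the code of a vertex -/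
def cv (w : W m) : Vx := (ps (vp w.1.1), ⟨(w.1.2, w.2.1, w.2.2)⟩)

theorem cv_injective : Function.Injective (cv (m := m)) := by
  rintro ⟨⟨v, d⟩, ⟨a, b⟩⟩ ⟨⟨v', d'⟩, ⟨a', b'⟩⟩ h
  have h1 := congrArg (fun u : Vx => sp u.1) h
  have h2 := congrArg (fun u : Vx => u.2.val) h
  simp only [cv, sp_ps] at h1 h2
  have h3 := vp_injective h1
  simp only [Prod.mk.injEq] at h2
  obtain ⟨h4, h5, h6⟩ := h2
  subst h3
  subst h4
  subst h5
  subst h6
  rfl

theorem mem_vlist (u : Vx) : u ∈ vlist (code G) ↔ ∃ w : W m, cv w = u := by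
  unfold vlist
  rw [length_code]
  simp only [List.mem_flatMap, List.mem_range, List.mem_map, Finset.mem_toList,
    Finset.mem_univ, true_and]
  constructor
  · rintro ⟨i, hi, j, hj, κ, rfl⟩
    exact ⟨(((⟨i, hi⟩, ⟨j, hj⟩), κ.1), (κ.2.1, κ.2.2)), rfl⟩
  · rintro ⟨w, rfl⟩
    exact ⟨w.1.1.1, w.1.1.1.2, w.1.1.2, w.1.1.2.2, (w.1.2, w.2.1, w.2.2), rfl⟩

theorem nodup_vlist : (vlist (code G)).Nodup := by
  unfold vlist
  rw [List.nodup_flatMap]
  constructor
  · intro i _
    rw [List.nodup_flatMap]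
    constructor
    · intro j _
      refine List.Nodup.map ?_ (Finset.nodup_toList _)
      intro κ κ' h
      exact congrArg (fun u : Vx => u.2.val) h
    · refine List.Pairwise.imp ?_ (List.nodup_range (n := (code G).length))
      intro j j' hj
      simp only [Function.onFun]
      rw [List.disjoint_left]
      intro u hu hu'
      rw [List.mem_map] at hu hu'
      obtain ⟨κ, -, rfl⟩ := hu
      obtain ⟨κ', -, h⟩ := hu'
      exact hj (congrArg (fun u : Vx => u.1.2.n) h).symm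
  · refine List.Pairwise.imp ?_ (List.nodup_range (n := (code G).length))
    intro i i' hi
    simp only [Function.onFun]
    rw [List.disjoint_left]
    intro u hu hu'
    rw [List.mem_flatMap] at hu hu'
    obtain ⟨j, -, hj⟩ := hu
    obtain ⟨j', -, hj'⟩ := hu'
    rw [List.mem_map] at hj hj'
    obtain ⟨κ, -, rfl⟩ := hj
    obtain ⟨κ', -, h⟩ := hj'
    exact hi (congrArg (fun u : Vx => u.1.1.n) h).symm

/-- the vertex with a given number -/
theorem exists_ev : ∃ ev : Fin (vlist (code G)).length ≃ W m,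
    ∀ i, cv (ev i) = (vlist (code G))[i] := by
  have h1 : ∀ i : Fin (vlist (code G)).length, ∃ w : W m, cv w = (vlist (code G))[i] :=
    fun i => (mem_vlist G _).1 (List.getElem_mem _)
  choose f hf using h1
  refine ⟨Equiv.ofBijective f ⟨?_, ?_⟩, hf⟩
  · intro i j hij
    have h2 : (vlist (code G))[i] = (vlist (code G))[j] := by rw [← hf, ← hf, hij]
    exact Fin.ext ((List.Nodup.getElem_inj_iff (nodup_vlist G)).1 h2)
  · intro w
    have h2 : cv w ∈ vlist (code G) := (mem_vlist G _).2 ⟨w, rfl⟩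
    obtain ⟨i, hi, h3⟩ := List.getElem_of_mem h2
    exact ⟨⟨i, hi⟩, cv_injective ((hf _).trans h3)⟩

theorem invb_code (w : W m) :
    invb (code G) (vp w.1.1) (w.1.2, w.2.1, w.2.2) = true ↔ Inv G w := by
  unfold invb Inv
  rw [nb_code, fi_code]
  simp only [Bool.or_eq_true, Bool.and_eq_true, decide_eq_true_iff, Bool.not_eq_true']
  have : vp (G.rot (w.1.1, w.1.2)).1 = vp w.1.1 ↔ (G.rot w.1).1 = w.1.1 :=
    ⟨fun h => vp_injective h, fun h => congrArg vp h⟩
  rw [this]

theorem adjb_code (w w' : W m) :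
    adjb (code G) (vp w.1.1) (w.1.2, w.2.1, w.2.2) (vp w'.1.1) (w'.1.2, w'.2.1, w'.2.2) = true ↔
      AdjF G w w' := by
  unfold adjb AdjF
  rw [Bool.and_eq_true, Bool.or_eq_true, Bool.or_eq_true, invb_code, invb_code]
  have hinj : ∀ a b : Fin m × Fin m, vp a = vp b ↔ a = b :=
    fun a b => ⟨fun h => vp_injective h, fun h => congrArg vp h⟩
  have h1 : (!(decide (vp w.1.1 = vp w'.1.1) &&
      decide ((w.1.2, w.2.1, w.2.2) = (w'.1.2, w'.2.1, w'.2.2)))) = true ↔ w ≠ w' := by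
    rw [Bool.not_eq_true', ← Bool.not_eq_true, Bool.and_eq_true, decide_eq_true_iff,
      decide_eq_true_iff, hinj]
    apply not_congr
    constructor
    · rintro ⟨h2, h3⟩
      simp only [Prod.mk.injEq] at h3
      exact Prod.ext (Prod.ext h2 h3.1) (Prod.ext h3.2.1 h3.2.2)
    · rintro rfl
      exact ⟨rfl, rfl⟩
  have h2 : confb (code G) (vp w.1.1) (w.1.2, w.2.1, w.2.2) (vp w'.1.1)
      (w'.1.2, w'.2.1, w'.2.2) = true ↔ Conf G w w' := by
    unfold confb Conf
    rw [nb_code, nb_code]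
    simp only [Bool.or_eq_true, Bool.and_eq_true, decide_eq_true_iff, hinj]
  rw [h1, h2]

end correct

/-- the map of a list as a function on indices -/
theorem ofFn_getElem_map {α β : Type} (l : List α) (f : α → β) :
    (List.ofFn fun i : Fin l.length => f l[i]) = l.map f := by
  apply List.ext_getElem
  · simp
  · intro i h1 h2
    simp

end Fg

open Fg in
/-- **Module F** -/
theorem modF : ModF := by
  classical
  refine ⟨Fm, poly_Fm, ?_⟩
  intro m G hm
  obtain ⟨ev, hev⟩ := exists_ev G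
  let H : SimpleGraph (Fin (vlist (code G)).length) :=
    { Adj := fun i j => AdjF G (ev i) (ev j)
      symm := ⟨fun i j h => AdjF.symm G h⟩
      loopless := ⟨fun i h => h.1 rfl⟩ }
  refine ⟨(vlist (code G)).length, H, ?_, ?_, ?_⟩
  · unfold rows Fm
    rw [← ofFn_getElem_map]
    refine congrArg List.ofFn (funext fun i => ?_)
    rw [← ofFn_getElem_map]
    refine congrArg List.ofFn (funext fun j => ?_)
    rw [← hev i, ← hev j, Bool.eq_iff_iff, decide_eq_true_iff]
    exact adjb_code G (ev i) (ev j)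
  · intro hsat
    obtain ⟨I, hI, hind⟩ := sat_indep G hsat
    have hcard : (I.map ev.symm.toEmbedding).card = 20 * (m * m) := by
      rw [Finset.card_map, hI, Fintype.card_prod, Fintype.card_fin]
      have : Fintype.card D0 = 20 := by simp [D0]
      rw [this]
      ring
    rw [← hcard]
    apply SimpleGraph.IsIndepSet.card_le_indepNum
    intro i hi j hj _ hadj
    rw [Finset.mem_coe, Finset.mem_map] at hi hj
    obtain ⟨u, hu, rfl⟩ := hi
    obtain ⟨v, hv, rfl⟩ := hj
    refine hind u hu v hv ?_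
    have : AdjF G (ev (ev.symm u)) (ev (ev.symm v)) := hadj
    rwa [Equiv.apply_symm_apply, Equiv.apply_symm_apply] at this
  · intro γ _ hgap
    obtain ⟨s, hs⟩ := H.exists_isNIndepSet_indepNum
    have h1 := gap_indep G hgap (s.map ev.toEmbedding) (by
      intro u hu v hv hadj
      rw [Finset.mem_map] at hu hv
      obtain ⟨i, hi, rfl⟩ := hu
      obtain ⟨j, hj, rfl⟩ := hv
      exact hs.isIndepSet hi hj (fun h => hadj.1 (congrArg ev h)) hadj)
    rw [Finset.card_map, hs.card_eq] at h1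
    refine h1.trans (le_of_eq ?_)
    congr 2
    rw [Fintype.card_prod, Fintype.card_fin]
    have : Fintype.card D0 = 20 := by simp [D0]
    rw [this]
    push_cast
    ring

end Pool.Agent.PCP
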