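import Pool.Agent.PCP.Defs

/-!
# The long code test: the module L
-/

set_option linter.unusedSectionVars false

namespace Pool.Agent.PCP

open Finset

namespace Lc

/-! ## Probabilities -/

open Classical in
/-- indicator of a proposition -/
noncomputable def ind (p : Prop) : ℝ := if p then 1 else 0

theorem ind_nonneg (p : Prop) : 0 ≤ ind p := by
  unfold ind
  split_ifs <;> norm_num

theorem ind_le_one (p : Prop) : ind p ≤ 1 := by
  unfold ind
  split_ifs <;> norm_num

theorem ind_true {p : Prop} (h : p) : ind p = 1 := by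
  unfold ind
  rw [if_pos h]

theorem ind_false {p : Prop} (h : ¬ p) : ind p = 0 := by
  unfold ind
  rw [if_neg h]

theorem ind_congr {p q : Prop} (h : p ↔ q) : ind p = ind q := by rw [propext h]

theorem ind_eq_ite (p : Prop) [Decidable p] : ind p = if p then 1 else 0 := by
  by_cases h : p
  · rw [ind_true h, if_pos h]
  · rw [ind_false h, if_neg h]

theorem ind_mono {p q : Prop} (h : p → q) : ind p ≤ ind q := by
  by_cases hp : p
  · rw [ind_true hp, ind_true (h hp)]
  · rw [ind_false hp]
    exact ind_nonneg q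

theorem ind_or (p q : Prop) : ind (p ∨ q) ≤ ind p + ind q := by
  by_cases hp : p
  · rw [ind_true (Or.inl hp), ind_true hp]
    linarith [ind_nonneg q]
  · by_cases hq : q
    · rw [ind_true (Or.inr hq), ind_true hq]
      linarith [ind_nonneg p]
    · rw [ind_false (by tauto)]
      linarith [ind_nonneg p, ind_nonneg q]

variable {T U W : Type} [Fintype T] [Fintype U] [Fintype W]

/-- the probability of an event -/
noncomputable def pr (p : T → Prop) : ℝ := (∑ t, ind (p t)) / (Fintype.card T : ℝ)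

theorem card_pos [Nonempty T] : (0 : ℝ) < Fintype.card T := Nat.cast_pos.2 Fintype.card_pos

theorem pr_nonneg (p : T → Prop) : 0 ≤ pr p :=
  div_nonneg (Finset.sum_nonneg fun _ _ => ind_nonneg _) (Nat.cast_nonneg _)

theorem pr_mono {p q : T → Prop} (h : ∀ t, p t → q t) : pr p ≤ pr q :=
  div_le_div_of_nonneg_right (Finset.sum_le_sum fun t _ => ind_mono (h t)) (Nat.cast_nonneg _)

theorem pr_or (p q : T → Prop) : pr (fun t => p t ∨ q t) ≤ pr p + pr q := by
  rw [pr, pr, pr, ← add_div, ← Finset.sum_add_distrib]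
  exact div_le_div_of_nonneg_right (Finset.sum_le_sum fun t _ => ind_or _ _) (Nat.cast_nonneg _)

theorem pr_union2 {p q r : T → Prop} (h : ∀ t, ¬ q t → ¬ r t → ¬ p t) :
    pr p ≤ pr q + pr r := by
  refine le_trans (pr_mono (q := fun t => q t ∨ r t) fun t ht => ?_) (pr_or q r)
  by_contra hc
  push Not at hc
  exact h t hc.1 hc.2 ht

theorem pr_union3 {p q r s : T → Prop} (h : ∀ t, ¬ q t → ¬ r t → ¬ s t → ¬ p t) :
    pr p ≤ pr q + pr r + pr s := by
  have h1 : pr p ≤ pr (fun t => q t ∨ r t) + pr s := by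
    refine pr_union2 fun t h1 h2 => ?_
    push Not at h1
    exact h t h1.1 h1.2 h2
  have h2 := pr_or q r
  linarith

theorem pr_union4 {p q r s u : T → Prop}
    (h : ∀ t, ¬ q t → ¬ r t → ¬ s t → ¬ u t → ¬ p t) :
    pr p ≤ pr q + pr r + pr s + pr u := by
  have h1 : pr p ≤ pr (fun t => q t ∨ r t) + pr s + pr u := by
    refine pr_union3 fun t h1 h2 h3 => ?_
    push Not at h1
    exact h t h1.1 h1.2 h2 h3
  have h2 := pr_or q r
  linarith

theorem pr_equiv (e : T ≃ U) (p : U → Prop) : pr (fun t => p (e t)) = pr p := by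
  rw [pr, pr, Fintype.card_congr e, Equiv.sum_comp e (fun u => ind (p u))]

theorem pr_fst [Nonempty U] (p : T → Prop) : pr (fun x : T × U => p x.1) = pr p := by
  rw [pr, pr, Fintype.sum_prod_type]
  have hU : (0 : ℝ) < Fintype.card U := card_pos
  simp only [Finset.sum_const, Finset.card_univ, nsmul_eq_mul, Fintype.card_prod, Nat.cast_mul]
  rw [← Finset.mul_sum, mul_comm (Fintype.card T : ℝ) (Fintype.card U : ℝ),
    mul_div_mul_left _ _ hU.ne']

/-- projections -/
theorem pr_proj [Nonempty W] (e : T ≃ U × W) (p : U → Prop) :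
    pr (fun t => p (e t).1) = pr p := by
  rw [pr_equiv e (fun x => p x.1), pr_fst]

theorem pr_le_of_forall [Nonempty T] [Nonempty U] {p : T × U → Prop} {c : ℝ}
    (h : ∀ t, pr (fun u => p (t, u)) ≤ c) : pr p ≤ c := by
  have hT : (0 : ℝ) < Fintype.card T := card_pos
  have hU : (0 : ℝ) < Fintype.card U := card_pos
  have h' : ∀ t, ∑ u, ind (p (t, u)) ≤ c * Fintype.card U := by
    intro t
    have := h t
    rwa [pr, div_le_iff₀ hU] at this
  rw [pr, div_le_iff₀ (by rw [Fintype.card_prod]; push_cast; positivity),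
    Fintype.sum_prod_type]
  calc ∑ t, ∑ u, ind (p (t, u)) ≤ ∑ _t : T, c * (Fintype.card U : ℝ) :=
        Finset.sum_le_sum fun t _ => h' t
    _ = _ := by
      simp only [Finset.sum_const, Finset.card_univ, nsmul_eq_mul, Fintype.card_prod,
        Nat.cast_mul]
      ring

theorem exists_of_pr_lt_one [Nonempty T] {p : T → Prop} (h : pr p < 1) : ∃ t, ¬ p t := by
  by_contra hc
  push Not at hc
  have : pr p = 1 := by
    rw [pr]
    have : ∀ t, ind (p t) = 1 := fun t => ind_true (hc t)
    simp only [this, Finset.sum_const, Finset.card_univ, nsmul_eq_mul, mul_one]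
    exact div_self card_pos.ne'
  linarith

/-! ## Linearity testing -/

section BLR

variable {F : Type} [Fintype F] [AddCommGroup F]

theorem z2_add_self (a : ZMod 2) : a + a = 0 := by
  revert a; decide

/-- two independent evaluations differ with probability `2 q (1 - q)` -/
theorem pr_ne [Nonempty T] (a : T → ZMod 2) :
    pr (fun x : T × T => a x.1 ≠ a x.2) =
      2 * pr (fun t => a t = 1) * (1 - pr (fun t => a t = 1)) := by
  have hT : (0 : ℝ) < Fintype.card T := card_pos
  set n : ℝ := (Fintype.card T : ℝ) with hn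
  set s : ℝ := ∑ t, ind (a t = 1) with hs
  have h1 : ∀ t u : T, ind (a t ≠ a u) =
      ind (a t = 1) * (1 - ind (a u = 1)) + (1 - ind (a t = 1)) * ind (a u = 1) := by
    intro t u
    have key : ∀ x y : ZMod 2, ind (x ≠ y) =
        ind (x = 1) * (1 - ind (y = 1)) + (1 - ind (x = 1)) * ind (y = 1) := by
      intro x y
      by_cases hx : x = 1 <;> by_cases hy : y = 1
      · rw [ind_true hx, ind_true hy, ind_false (by simp [hx, hy])]; ring
      · rw [ind_true hx, ind_false hy, ind_true (by rw [hx]; exact Ne.symm hy)]; ring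
      · rw [ind_false hx, ind_true hy, ind_true (by rw [hy]; exact hx)]; ring
      · have hx0 : x = 0 := by revert hx; revert x; decide
        have hy0 : y = 0 := by revert hy; revert y; decide
        rw [ind_false hx, ind_false hy, ind_false (by simp [hx0, hy0])]; ring
    exact key _ _
  have h2 : ∑ t, ∑ u, ind (a t ≠ a u) = 2 * s * (n - s) := by
    simp only [h1]
    have h3 : ∀ t, ∑ u, (ind (a t = 1) * (1 - ind (a u = 1)) +
        (1 - ind (a t = 1)) * ind (a u = 1)) = ind (a t = 1) * (n - s) +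
          (1 - ind (a t = 1)) * s := by
      intro t
      rw [Finset.sum_add_distrib, ← Finset.mul_sum, ← Finset.mul_sum, Finset.sum_sub_distrib]
      simp [hn, hs]
    rw [Finset.sum_congr rfl fun t _ => h3 t, Finset.sum_add_distrib, ← Finset.sum_mul,
      ← Finset.sum_mul, Finset.sum_sub_distrib]
    simp only [Finset.sum_const, Finset.card_univ, nsmul_eq_mul, mul_one]
    rw [← hs, ← hn]
    ring
  rw [pr, pr, Fintype.sum_prod_type]
  simp only
  rw [h2, Fintype.card_prod]
  push_cast
  rw [← hn, ← hs]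
  field_simp

/-- the self-correction -/
theorem exists_linear [Nonempty F] (h2 : ∀ f : F, f + f = 0) (B : F → ZMod 2) (ε : ℝ)
    (hε : pr (fun x : F × F => B x.1 + B x.2 ≠ B (x.1 + x.2)) ≤ ε) (h6 : 6 * ε < 1) :
    ∃ L : F → ZMod 2, (∀ f g, L (f + g) = L f + L g) ∧
      (∀ f, pr (fun h => B h + B (h + f) ≠ L f) ≤ 2 * ε) ∧
      pr (fun f => B f ≠ L f) ≤ 3 * ε := by
  have h1 : ∀ f, ∃ b : ZMod 2, pr (fun h => B h + B (h + f) ≠ b) ≤ 2 * ε := by
    intro f
    set a : F → ZMod 2 := fun h => B h + B (h + f) with ha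
    have h3 : pr (fun x : F × F => a x.1 ≠ a x.2) ≤ 2 * ε := by
      have h4 : pr (fun x : F × F => B (x.1 + f) + B (x.2 + f) ≠ B ((x.1 + f) + (x.2 + f))) ≤
          ε := by
        refine le_trans (le_of_eq ?_) hε
        exact pr_equiv (Equiv.prodCongr (Equiv.addRight f) (Equiv.addRight f))
          (fun x : F × F => B x.1 + B x.2 ≠ B (x.1 + x.2))
      have h5 := pr_union2 (p := fun x : F × F => a x.1 ≠ a x.2)
        (q := fun x : F × F => B x.1 + B x.2 ≠ B (x.1 + x.2))
        (r := fun x : F × F => B (x.1 + f) + B (x.2 + f) ≠ B ((x.1 + f) + (x.2 + f)))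
        (by
          intro x hq hr hp
          push Not at hq hr
          apply hp
          have e : (x.1 + f) + (x.2 + f) = x.1 + x.2 := by
            rw [add_add_add_comm, h2, add_zero]
          rw [e] at hr
          simp only [ha]
          have h6 : B x.1 + B x.2 = B (x.1 + f) + B (x.2 + f) := by rw [hq, hr]
          have key : ∀ p q r s : ZMod 2, p + q = r + s → p + r = q + s := by decide
          exact key _ _ _ _ h6)
      linarith
    rw [pr_ne] at h3
    set q := pr (fun h => a h = 1) with hq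
    have hq0 : 0 ≤ q := pr_nonneg _
    have hq1 : q + pr (fun h => a h ≠ 1) = 1 := by
      rw [hq, pr, pr, ← add_div, ← Finset.sum_add_distrib]
      have : ∀ h, ind (a h = 1) + ind (a h ≠ 1) = 1 := by
        intro h
        by_cases hh : a h = 1
        · rw [ind_true hh, ind_false (by simp [hh])]; ring
        · rw [ind_false hh, ind_true hh]; ring
      simp only [this, Finset.sum_const, Finset.card_univ, nsmul_eq_mul, mul_one]
      exact div_self card_pos.ne'
    have hq2 : 0 ≤ pr (fun h => a h ≠ 1) := pr_nonneg _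
    rcases le_total (1 / 2 : ℝ) q with hc | hc
    · refine ⟨1, ?_⟩
      change pr (fun h => a h ≠ 1) ≤ 2 * ε
      nlinarith
    · refine ⟨0, ?_⟩
      change pr (fun h => a h ≠ 0) ≤ 2 * ε
      have : pr (fun h => a h ≠ 0) = q := by
        rw [hq]
        congr 1
        funext h
        have key : ∀ x : ZMod 2, (x ≠ 0) = (x = 1) := by
          intro x
          apply propext
          revert x
          decide
        exact key _
      rw [this]
      nlinarith
  choose L hL using h1
  refine ⟨L, ?_, hL, ?_⟩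
  · intro f g
    have h3 : pr (fun h => B (h + f) + B ((h + f) + g) ≠ L g) ≤ 2 * ε := by
      refine le_trans (le_of_eq ?_) (hL g)
      exact pr_equiv (Equiv.addRight f) (fun h => B h + B (h + g) ≠ L g)
    have h4 := pr_union3 (p := fun _ : F => L (f + g) ≠ L f + L g)
      (q := fun h => B h + B (h + f) ≠ L f)
      (r := fun h => B (h + f) + B ((h + f) + g) ≠ L g)
      (s := fun h => B h + B (h + (f + g)) ≠ L (f + g))
      (by
        intro h hq hr hs hp
        push Not at hq hr hs
        apply hp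
        rw [← hq, ← hr, ← hs, ← add_assoc]
        have key : ∀ p q r : ZMod 2, p + r = p + q + (q + r) := by decide
        exact key _ _ _)
    have h5 : pr (fun _ : F => L (f + g) ≠ L f + L g) < 1 := by
      have := hL f
      have := hL (f + g)
      linarith
    obtain ⟨_, h6⟩ := exists_of_pr_lt_one h5
    push Not at h6
    exact h6
  · have h3 := pr_union2 (p := fun x : F × F => B x.1 ≠ L x.1)
      (q := fun x : F × F => B x.2 + B (x.2 + x.1) ≠ L x.1)
      (r := fun x : F × F => B x.1 + B x.2 ≠ B (x.1 + x.2))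
      (by
        intro x hq hr hp
        push Not at hq hr
        apply hp
        rw [← hq, add_comm x.2 x.1, ← hr]
        have key : ∀ p q : ZMod 2, p = q + (p + q) := by decide
        exact key _ _)
    rw [pr_fst (U := F) (fun f => B f ≠ L f)] at h3
    have h4 : pr (fun x : F × F => B x.2 + B (x.2 + x.1) ≠ L x.1) ≤ 2 * ε :=
      pr_le_of_forall fun f => hL f
    linarith

/-- a nonzero bilinear form does not vanish with probability at least `1/4` -/
theorem bilin_quarter [Nonempty F] (β : F → F → ZMod 2)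
    (hl : ∀ f f' g, β (f + f') g = β f g + β f' g) (hr : ∀ f g g', β f (g + g') = β f g + β f g')
    (f0 g0 : F) (h0 : β f0 g0 ≠ 0) : 1 / 4 ≤ pr (fun x : F × F => β x.1 x.2 ≠ 0) := by
  set p : F × F → Prop := fun x => β x.1 x.2 ≠ 0 with hp
  have h1 : pr (fun x : F × F => p (x.1 + f0, x.2)) = pr p :=
    pr_equiv (Equiv.prodCongr (Equiv.addRight f0) (Equiv.refl F)) p
  have h2 : pr (fun x : F × F => p (x.1, x.2 + g0)) = pr p :=
    pr_equiv (Equiv.prodCongr (Equiv.refl F) (Equiv.addRight g0)) p
  have h3 : pr (fun x : F × F => p (x.1 + f0, x.2 + g0)) = pr p :=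
    pr_equiv (Equiv.prodCongr (Equiv.addRight f0) (Equiv.addRight g0)) p
  have h4 := pr_union4 (p := fun _ : F × F => True) (q := p)
    (r := fun x : F × F => p (x.1 + f0, x.2)) (s := fun x : F × F => p (x.1, x.2 + g0))
    (u := fun x : F × F => p (x.1 + f0, x.2 + g0))
    (by
      intro x ha hb hc hd _
      simp only [hp] at ha hb hc hd
      push Not at ha hb hc hd
      rw [hl] at hb
      rw [hr] at hc
      rw [hl, hr, hr] at hd
      apply h0
      revert ha hb hc hd
      generalize β x.1 x.2 = a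
      generalize β f0 x.2 = b
      generalize β x.1 g0 = c
      generalize β f0 g0 = d
      intro ha hb hc hd
      subst ha
      simp only [zero_add] at hb hc hd
      subst hb
      subst hc
      simpa using hd)
  have h5 : pr (fun _ : F × F => True) = 1 := by
    rw [pr]
    have : ∀ x : F × F, ind True = 1 := fun _ => ind_true trivial
    simp only [ind_true trivial, Finset.sum_const, Finset.card_univ, nsmul_eq_mul, mul_one]
    exact div_self card_pos.ne'
  rw [h1, h2, h3, h5] at h4
  linarith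

end BLR

/-! ## Decoding -/

section Dec

variable {A : Type} [Fintype A] [DecidableEq A] [Nonempty A]

/-- two different points are separated with probability `1/2` -/
theorem pr_sep {a b : A} (h : a ≠ b) : pr (fun φ : A → ZMod 2 => φ a ≠ φ b) = 1 / 2 := by
  set p : (A → ZMod 2) → Prop := fun φ => φ a ≠ φ b with hp
  set d : A → ZMod 2 := Pi.single a 1 with hd
  have h1 : pr (fun φ => p (φ + d)) = pr p := pr_equiv (Equiv.addRight d) p
  have h2 : ∀ φ : A → ZMod 2, ind (p φ) + ind (p (φ + d)) = 1 := by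
    intro φ
    have e1 : (φ + d) a = φ a + 1 := by simp [hd]
    have e2 : (φ + d) b = φ b := by simp [hd, Pi.single_eq_of_ne (Ne.symm h)]
    simp only [hp, e1, e2]
    generalize φ a = x
    generalize φ b = y
    by_cases hxy : x = y
    · subst hxy
      rw [ind_false (by simp), ind_true (by simp)]
      ring
    · rw [ind_true hxy, ind_false]
      · ring
      · push Not
        revert hxy
        revert x y
        decide
  have h3 : pr p + pr (fun φ => p (φ + d)) = 1 := by
    rw [pr, pr, ← add_div, ← Finset.sum_add_distrib]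
    simp only [h2, Finset.sum_const, Finset.card_univ, nsmul_eq_mul, mul_one]
    exact div_self card_pos.ne'
  rw [h1] at h3
  linarith

theorem dec_unique (P : (A → ZMod 2) → ZMod 2) {a b : A}
    (ha : pr (fun φ : A → ZMod 2 => P φ ≠ φ a) < 1 / 4)
    (hb : pr (fun φ : A → ZMod 2 => P φ ≠ φ b) < 1 / 4) : a = b := by
  by_contra h
  have h1 := pr_union2 (p := fun φ : A → ZMod 2 => φ a ≠ φ b)
    (q := fun φ : A → ZMod 2 => P φ ≠ φ a) (r := fun φ : A → ZMod 2 => P φ ≠ φ b)
    (by
      intro φ hq hr hp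
      push Not at hq hr
      exact hp (hq.symm.trans hr))
  rw [pr_sep h] at h1
  linarith

open Classical in
/-- the decoding -/
noncomputable def dec (P : (A → ZMod 2) → ZMod 2) : A :=
  if h : ∃ a, pr (fun φ : A → ZMod 2 => P φ ≠ φ a) < 1 / 4 then h.choose
  else Classical.arbitrary A

theorem dec_eq (P : (A → ZMod 2) → ZMod 2) {a : A}
    (ha : pr (fun φ : A → ZMod 2 => P φ ≠ φ a) < 1 / 4) : dec P = a := by
  have h : ∃ a, pr (fun φ : A → ZMod 2 => P φ ≠ φ a) < 1 / 4 := ⟨a, ha⟩
  rw [dec, dif_pos h]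
  exact dec_unique P h.choose_spec ha

/-- an additive map on functions is determined by the delta functions -/
theorem linear_eq {X : Type} [Fintype X] [DecidableEq X] (L : (X → ZMod 2) → ZMod 2)
    (hL : ∀ f g, L (f + g) = L f + L g) (f : X → ZMod 2) :
    L f = ∑ x, f x * L (Pi.single x 1) := by
  have h0 : L 0 = 0 := by
    have := hL 0 0
    rw [add_zero] at this
    exact left_eq_add.1 this
  let M : (X → ZMod 2) →+ ZMod 2 := { toFun := L, map_zero' := h0, map_add' := hL }
  have h1 : f = ∑ x, Pi.single x (f x) := (Finset.univ_sum_single f).symm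
  have h2 : L f = ∑ x, L (Pi.single x (f x)) := by
    conv_lhs => rw [h1]
    exact map_sum M _ _
  rw [h2]
  refine Finset.sum_congr rfl fun x _ => ?_
  have key : ∀ a : ZMod 2, a = 0 ∨ a = 1 := by decide
  rcases key (f x) with h | h
  · rw [h, Pi.single_zero, h0, zero_mul]
  · rw [h, one_mul]

/-- soundness of the test in terms of probabilities -/
theorem sound (r : A × A → ZMod 2) (P Q : (A → ZMod 2) → ZMod 2)
    (B : (A × A → ZMod 2) → ZMod 2) (ε : ℝ) (hε : 40 * ε ≤ 1)
    (t0 : pr (fun x : (A × A → ZMod 2) × (A × A → ZMod 2) =>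
      B x.1 + B x.2 ≠ B (x.1 + x.2)) < ε)
    (t1 : pr (fun x : ((A × A → ZMod 2) × (A × A → ZMod 2)) × (A × A → ZMod 2) =>
      B x.1.1 * B x.1.2 ≠ B x.2 + B (x.2 + x.1.1 * x.1.2)) < ε)
    (t2 : pr (fun h : A × A → ZMod 2 => B h + B (h + r) ≠ 1) < ε)
    (t3 : pr (fun x : (A → ZMod 2) × (A × A → ZMod 2) =>
      P x.1 ≠ B x.2 + B (x.2 + fun y : A × A => x.1 y.1)) < ε)
    (t4 : pr (fun x : (A → ZMod 2) × (A × A → ZMod 2) =>
      Q x.1 ≠ B x.2 + B (x.2 + fun y : A × A => x.1 y.2)) < ε) :
    r (dec P, dec Q) = 1 := by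
  have h2 : ∀ f : A × A → ZMod 2, f + f = 0 := fun f => funext fun x => z2_add_self _
  obtain ⟨L, hL, hLB, hB⟩ := exists_linear h2 B ε t0.le (by
    have := pr_nonneg (fun x : (A × A → ZMod 2) × (A × A → ZMod 2) =>
      B x.1 + B x.2 ≠ B (x.1 + x.2))
    linarith)
  have hε0 : 0 < ε := lt_of_le_of_lt (pr_nonneg _) t0
  -- multiplicativity
  have hmul : pr (fun x : (A × A → ZMod 2) × (A × A → ZMod 2) =>
      L (x.1 * x.2) + L x.1 * L x.2 ≠ 0) < 1 / 4 := by
    have h3 := pr_union4
      (p := fun x : ((A × A → ZMod 2) × (A × A → ZMod 2)) × (A × A → ZMod 2) =>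
        L (x.1.1 * x.1.2) + L x.1.1 * L x.1.2 ≠ 0)
      (q := fun x => B x.1.1 ≠ L x.1.1) (r := fun x => B x.1.2 ≠ L x.1.2)
      (s := fun x => B x.1.1 * B x.1.2 ≠ B x.2 + B (x.2 + x.1.1 * x.1.2))
      (u := fun x => B x.2 + B (x.2 + x.1.1 * x.1.2) ≠ L (x.1.1 * x.1.2))
      (by
        intro x hq hr hs hu hp
        push Not at hq hr hs hu
        apply hp
        rw [← hq, ← hr, hs, ← hu, z2_add_self])
    rw [pr_fst (U := A × A → ZMod 2)
      (fun y : (A × A → ZMod 2) × (A × A → ZMod 2) => L (y.1 * y.2) + L y.1 * L y.2 ≠ 0)] at h3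
    have h4 : pr (fun x : ((A × A → ZMod 2) × (A × A → ZMod 2)) × (A × A → ZMod 2) =>
        B x.1.1 ≠ L x.1.1) ≤ 3 * ε := by
      rw [pr_fst (U := A × A → ZMod 2)
        (fun y : (A × A → ZMod 2) × (A × A → ZMod 2) => B y.1 ≠ L y.1),
        pr_fst (U := A × A → ZMod 2) (fun y : (A × A → ZMod 2) => B y ≠ L y)]
      exact hB
    have h5 : pr (fun x : ((A × A → ZMod 2) × (A × A → ZMod 2)) × (A × A → ZMod 2) =>
        B x.1.2 ≠ L x.1.2) ≤ 3 * ε := by
      rw [pr_fst (U := A × A → ZMod 2)
        (fun y : (A × A → ZMod 2) × (A × A → ZMod 2) => B y.2 ≠ L y.2)]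
      exact (le_of_eq (pr_proj (Equiv.prodComm (A × A → ZMod 2) (A × A → ZMod 2))
          (fun y : (A × A → ZMod 2) => B y ≠ L y))).trans hB
    have h6 : pr (fun x : ((A × A → ZMod 2) × (A × A → ZMod 2)) × (A × A → ZMod 2) =>
        B x.2 + B (x.2 + x.1.1 * x.1.2) ≠ L (x.1.1 * x.1.2)) ≤ 2 * ε :=
      pr_le_of_forall fun y => hLB (y.1 * y.2)
    linarith
  -- at most one delta function has value one
  have hone : ∀ x y : A × A, L (Pi.single x 1) = 1 → L (Pi.single y 1) = 1 → x = y := by
    intro x y hx hy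
    by_contra hxy
    have h3 := bilin_quarter (fun f g : A × A → ZMod 2 => L (f * g) + L f * L g)
      (by intro f f' g; simp only [add_mul, hL]; ring)
      (by intro f g g'; simp only [mul_add, hL]; ring)
      (Pi.single x 1) (Pi.single y 1) (by
        have e : (Pi.single x 1 : A × A → ZMod 2) * Pi.single y 1 = 0 := by
          funext z
          rw [Pi.mul_apply, Pi.zero_apply]
          by_cases hz : z = x
          · subst hz
            rw [Pi.single_eq_of_ne hxy, mul_zero]
          · rw [Pi.single_eq_of_ne hz, zero_mul]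
        have h0 : L 0 = 0 := by
          have := hL 0 0
          rw [add_zero] at this
          exact left_eq_add.1 this
        simp only [e, h0, hx, hy]
        decide)
    linarith
  -- the value at the relation
  have hr1 : L r = 1 := by
    have h3 := pr_union2 (p := fun _ : A × A → ZMod 2 => L r ≠ 1)
      (q := fun h => B h + B (h + r) ≠ 1) (r := fun h => B h + B (h + r) ≠ L r)
      (by
        intro h hq hr hp
        push Not at hq hr
        exact hp (hr.symm.trans hq))
    have h4 : pr (fun _ : A × A → ZMod 2 => L r ≠ 1) < 1 := by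
      have := hLB r
      linarith
    obtain ⟨_, h5⟩ := exists_of_pr_lt_one h4
    push Not at h5
    exact h5
  obtain ⟨x0, hx0⟩ : ∃ x0, L (Pi.single x0 1) = 1 := by
    by_contra hc
    push Not at hc
    have h3 : ∀ x : A × A, L (Pi.single x 1) = 0 := by
      intro x
      have key : ∀ a : ZMod 2, a ≠ 1 → a = 0 := by decide
      exact key _ (hc x)
    rw [linear_eq L hL] at hr1
    simp only [h3, mul_zero, Finset.sum_const_zero] at hr1
    exact absurd hr1 (by decide)
  have hev : ∀ f, L f = f x0 := by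
    intro f
    rw [linear_eq L hL, Finset.sum_eq_single x0, hx0, mul_one]
    · intro y _ hy
      have key : ∀ a : ZMod 2, a ≠ 1 → a = 0 := by decide
      rw [key (L (Pi.single y 1)) fun h => hy (hone y x0 h hx0), mul_zero]
    · intro h
      exact absurd (Finset.mem_univ _) h
  have hP : dec P = x0.1 := by
    apply dec_eq
    have h3 := pr_union2 (p := fun x : (A → ZMod 2) × (A × A → ZMod 2) => P x.1 ≠ x.1 x0.1)
      (q := fun x => P x.1 ≠ B x.2 + B (x.2 + fun y : A × A => x.1 y.1))
      (r := fun x => B x.2 + B (x.2 + fun y : A × A => x.1 y.1) ≠ L (fun y : A × A => x.1 y.1))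
      (by
        intro x hq hr hp
        push Not at hq hr
        apply hp
        rw [hq, hr, hev])
    rw [pr_fst (U := A × A → ZMod 2) (fun φ : A → ZMod 2 => P φ ≠ φ x0.1)] at h3
    have h4 : pr (fun x : (A → ZMod 2) × (A × A → ZMod 2) =>
        B x.2 + B (x.2 + fun y : A × A => x.1 y.1) ≠ L (fun y : A × A => x.1 y.1)) ≤ 2 * ε :=
      pr_le_of_forall fun φ => hLB (fun y : A × A => φ y.1)
    linarith
  have hQ : dec Q = x0.2 := by
    apply dec_eq
    have h3 := pr_union2 (p := fun x : (A → ZMod 2) × (A × A → ZMod 2) => Q x.1 ≠ x.1 x0.2)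
      (q := fun x => Q x.1 ≠ B x.2 + B (x.2 + fun y : A × A => x.1 y.2))
      (r := fun x => B x.2 + B (x.2 + fun y : A × A => x.1 y.2) ≠ L (fun y : A × A => x.1 y.2))
      (by
        intro x hq hr hp
        push Not at hq hr
        apply hp
        rw [hq, hr, hev])
    rw [pr_fst (U := A × A → ZMod 2) (fun φ : A → ZMod 2 => Q φ ≠ φ x0.2)] at h3
    have h4 : pr (fun x : (A → ZMod 2) × (A × A → ZMod 2) =>
        B x.2 + B (x.2 + fun y : A × A => x.1 y.2) ≠ L (fun y : A × A => x.1 y.2)) ≤ 2 * ε :=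
      pr_le_of_forall fun φ => hLB (fun y : A × A => φ y.2)
    linarith
  rw [hP, hQ, ← hr1, hev]

end Dec

end Lc

open Lc in
/-- **Module L** -/
theorem modL : ModL := by
  refine ⟨1 / 200, by norm_num, ?_⟩
  intro A _ _ _
  refine ⟨dec, ?_⟩
  intro r P Q B hr
  by_contra hc
  push Not at hc
  apply hr
  have hcΦ : (0 : ℝ) < Fintype.card (A → ZMod 2) := card_pos
  have hcF : (0 : ℝ) < Fintype.card (A × A → ZMod 2) := card_pos
  -- the probabilities of the five tests
  set q : Fin 5 → ℝ := fun i => pr (fun x : (A → ZMod 2) × (A × A → ZMod 2) × (A × A → ZMod 2) × (A × A → ZMod 2) =>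
    ¬ ltest r P Q B i x.1 x.2.1 x.2.2.1 x.2.2.2) with hq
  have hcard : (Nat.card {x : Fin 5 × (A → ZMod 2) × (A × A → ZMod 2) × (A × A → ZMod 2) × (A × A → ZMod 2) //
      ¬ ltest r P Q B x.1 x.2.1 x.2.2.1 x.2.2.2.1 x.2.2.2.2} : ℝ) =
      ((Fintype.card (A → ZMod 2) : ℝ) * (Fintype.card (A × A → ZMod 2) : ℝ) ^ 3) * ∑ i, q i := by
    classical
    rw [Nat.card_eq_fintype_card, Fintype.card_subtype, Finset.card_filter]
    push_cast
    rw [Fintype.sum_prod_type, Finset.mul_sum]
    refine Finset.sum_congr rfl fun i _ => ?_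
    simp only [hq, pr, Fintype.card_prod]
    push_cast
    have e : (Fintype.card (A → ZMod 2) : ℝ) * ((Fintype.card (A × A → ZMod 2) : ℝ) * ((Fintype.card (A × A → ZMod 2) : ℝ) *
      (Fintype.card (A × A → ZMod 2) : ℝ))) = (Fintype.card (A → ZMod 2) : ℝ) * (Fintype.card (A × A → ZMod 2) : ℝ) ^ 3 := by ring
    rw [e, mul_div_cancel₀ _ (by positivity)]
    refine Finset.sum_congr rfl fun x _ => ?_
    rw [← ind_eq_ite]
  rw [hcard] at hc
  have hsum : ∑ i, q i < 1 / 40 := by
    have h1 : ((Fintype.card (A → ZMod 2) : ℝ) * (Fintype.card (A × A → ZMod 2) : ℝ) ^ 3) * ∑ i, q i <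
        ((Fintype.card (A → ZMod 2) : ℝ) * (Fintype.card (A × A → ZMod 2) : ℝ) ^ 3) * (1 / 40) := by
      calc _ < _ := hc
        _ = _ := by ring
    exact lt_of_mul_lt_mul_left h1 (by positivity)
  have hqi : ∀ i, q i < 1 / 40 := fun i =>
    lt_of_le_of_lt (Finset.single_le_sum (f := q) (fun j _ => pr_nonneg _) (Finset.mem_univ i))
      hsum
  let e0 : (A → ZMod 2) × (A × A → ZMod 2) × (A × A → ZMod 2) × (A × A → ZMod 2) ≃ ((A × A → ZMod 2) × (A × A → ZMod 2)) × ((A → ZMod 2) × (A × A → ZMod 2)) :=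
    { toFun := fun x => ((x.2.1, x.2.2.1), (x.1, x.2.2.2))
      invFun := fun y => (y.2.1, y.1.1, y.1.2, y.2.2)
      left_inv := fun _ => rfl
      right_inv := fun _ => rfl }
  let e1 : (A → ZMod 2) × (A × A → ZMod 2) × (A × A → ZMod 2) × (A × A → ZMod 2) ≃ (((A × A → ZMod 2) × (A × A → ZMod 2)) × (A × A → ZMod 2)) × (A → ZMod 2) :=
    { toFun := fun x => (((x.2.1, x.2.2.1), x.2.2.2), x.1)
      invFun := fun y => (y.2, y.1.1.1, y.1.1.2, y.1.2)
      left_inv := fun _ => rfl
      right_inv := fun _ => rfl }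
  let e2 : (A → ZMod 2) × (A × A → ZMod 2) × (A × A → ZMod 2) × (A × A → ZMod 2) ≃ (A × A → ZMod 2) × ((A → ZMod 2) × (A × A → ZMod 2) × (A × A → ZMod 2)) :=
    { toFun := fun x => (x.2.2.2, (x.1, x.2.1, x.2.2.1))
      invFun := fun y => (y.2.1, y.2.2.1, y.2.2.2, y.1)
      left_inv := fun _ => rfl
      right_inv := fun _ => rfl }
  let e3 : (A → ZMod 2) × (A × A → ZMod 2) × (A × A → ZMod 2) × (A × A → ZMod 2) ≃ ((A → ZMod 2) × (A × A → ZMod 2)) × ((A × A → ZMod 2) × (A × A → ZMod 2)) :=
    { toFun := fun x => ((x.1, x.2.2.2), (x.2.1, x.2.2.1))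
      invFun := fun y => (y.1.1, y.2.1, y.2.2, y.1.2)
      left_inv := fun _ => rfl
      right_inv := fun _ => rfl }
  refine sound r P Q B (1 / 40) (by norm_num) ?_ ?_ ?_ ?_ ?_
  · have h := hqi 0
    have e := pr_proj e0 (fun x : (A × A → ZMod 2) × (A × A → ZMod 2) => B x.1 + B x.2 ≠ B (x.1 + x.2))
    rw [← e]
    exact h
  · have h := hqi 1
    have e := pr_proj e1 (fun x : ((A × A → ZMod 2) × (A × A → ZMod 2)) × (A × A → ZMod 2) =>
      B x.1.1 * B x.1.2 ≠ B x.2 + B (x.2 + x.1.1 * x.1.2))
    rw [← e]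
    exact h
  · have h := hqi 2
    have e := pr_proj e2 (fun h : (A × A → ZMod 2) => B h + B (h + r) ≠ 1)
    rw [← e]
    exact h
  · have h := hqi 3
    have e := pr_proj e3 (fun x : (A → ZMod 2) × (A × A → ZMod 2) => P x.1 ≠ B x.2 + B (x.2 + fun y : A × A => x.1 y.1))
    rw [← e]
    exact h
  · have h := hqi 4
    have e := pr_proj e3 (fun x : (A → ZMod 2) × (A × A → ZMod 2) => Q x.1 ≠ B x.2 + B (x.2 + fun y : A × A => x.1 y.2))
    rw [← e]
    exact h

end Pool.Agent.PCP
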