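import Pool.Agent.PCP.Defs

/-!
# Module M: the Margulis and Gabber, Galil graphs
-/

set_option autoImplicit false
set_option linter.unusedSectionVars false

open Finset

namespace Pool.Agent.PCP.M

variable {m : ℕ} [NeZero m]

/-- absolute value of the representative of least absolute value -/
def nrm (z : ZMod m) : ℤ := |z.valMinAbs|

lemma nrm_nonneg (z : ZMod m) : 0 ≤ nrm z := abs_nonneg _

lemma nrm_le (z : ZMod m) : 2 * nrm z ≤ m := by
  have h := ZMod.valMinAbs_mem_Ioc z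
  simp only [Set.mem_Ioc] at h
  unfold nrm
  rcases abs_cases z.valMinAbs with ⟨h1, _⟩ | ⟨h1, _⟩ <;> rw [h1] <;> omega

lemma exists_rep (k : ℤ) (z : ZMod m) (h : (k : ZMod m) = z) :
    ∃ j : ℤ, k = z.valMinAbs + m * j := by
  have h1 : ((k - z.valMinAbs : ℤ) : ZMod m) = 0 := by
    push_cast; rw [h, sub_self]
  rw [ZMod.intCast_zmod_eq_zero_iff_dvd] at h1
  obtain ⟨j, hj⟩ := h1
  exact ⟨j, by linarith⟩

lemma mul_abs_ge (j : ℤ) (hj : j ≠ 0) : (m : ℤ) ≤ |(m : ℤ) * j| := by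
  rw [abs_mul, Nat.abs_cast]
  have : 1 ≤ |j| := Int.one_le_abs hj
  nlinarith [Int.natCast_nonneg m]

lemma nrm_cast_le (k : ℤ) (z : ZMod m) (h : (k : ZMod m) = z) : nrm z ≤ |k| := by
  obtain ⟨j, hj⟩ := exists_rep k z h
  by_cases h0 : j = 0
  · rw [hj, h0, mul_zero, add_zero]; exact le_refl _
  · have h1 := mul_abs_ge (m := m) j h0
    have h2 := nrm_le z
    have h3 : |(m : ℤ) * j| ≤ |k| + |z.valMinAbs| := by
      have : (m : ℤ) * j = k - z.valMinAbs := by linarith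
      rw [this]; exact abs_sub _ _
    unfold nrm at h2 ⊢
    linarith

lemma nrm_gt (k c : ℤ) (z : ZMod m) (h : (k : ZMod m) = z) (h1 : c < |k|) (h2 : c + |k| < m) :
    c < nrm z := by
  obtain ⟨j, hj⟩ := exists_rep k z h
  by_cases h0 : j = 0
  · rw [h0, mul_zero, add_zero] at hj
    unfold nrm; rw [← hj]; exact h1
  · have h3 := mul_abs_ge (m := m) j h0
    have h4 : |(m : ℤ) * j| ≤ |k| + |z.valMinAbs| := by
      have : (m : ℤ) * j = k - z.valMinAbs := by linarith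
      rw [this]; exact abs_sub _ _
    unfold nrm
    linarith

/-- the weights -/
noncomputable def g (u v : ℤ) : ℝ := if v < u then 5 / 4 else if u < v then 4 / 5 else 1

lemma g_le (u v : ℤ) : g u v ≤ 5 / 4 := by
  unfold g; split_ifs <;> norm_num

lemma g_nonneg (u v : ℤ) : 0 ≤ g u v := by
  unfold g; split_ifs <;> norm_num

lemma g_of_lt {u v : ℤ} (h : u < v) : g u v = 4 / 5 := by
  unfold g; rw [if_neg (by omega), if_pos h]

lemma g_of_le {u v : ℤ} (h : u ≤ v) : g u v ≤ 1 := by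
  unfold g; rw [if_neg (by omega)]; split_ifs <;> norm_num

lemma amgm (u v : ℤ) (x y : ℝ) : 2 * x * y ≤ g u v * x ^ 2 + g v u * y ^ 2 := by
  rcases lt_trichotomy u v with h | h | h
  · have h1 : g v u = 5 / 4 := by unfold g; rw [if_pos h]
    rw [g_of_lt h, h1]
    nlinarith [sq_nonneg (4 * x - 5 * y)]
  · subst h
    have h1 : g u u = 1 := by unfold g; simp
    rw [h1]
    nlinarith [sq_nonneg (x - y)]
  · have h1 : g u v = 5 / 4 := by unfold g; rw [if_pos h]
    rw [g_of_lt h, h1]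
    nlinarith [sq_nonneg (5 * x - 4 * y)]

lemma strict1 {a b : ZMod m} (h : nrm b < nrm a) (hd : 2 * (nrm a + nrm b) < m) :
    nrm b < nrm (b + 2 * a) := by
  have h1 : |b.valMinAbs + 2 * a.valMinAbs| ≤ nrm b + 2 * nrm a := by
    refine (abs_add_le _ _).trans ?_
    rw [abs_mul]; unfold nrm; norm_num
  have h2 : 2 * nrm a - nrm b ≤ |b.valMinAbs + 2 * a.valMinAbs| := by
    have : |2 * a.valMinAbs| ≤ |b.valMinAbs + 2 * a.valMinAbs| + |b.valMinAbs| := by
      have h3 : 2 * a.valMinAbs = (b.valMinAbs + 2 * a.valMinAbs) - b.valMinAbs := by ring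
      conv_lhs => rw [h3]
      exact abs_sub _ _
    rw [abs_mul] at this
    unfold nrm
    norm_num at this
    linarith
  refine nrm_gt (b.valMinAbs + 2 * a.valMinAbs) _ _ ?_ ?_ ?_
  · push_cast; rfl
  · linarith
  · linarith

lemma strict2 {a b : ZMod m} (h : nrm b < nrm a) (hd : 2 * (nrm a + nrm b) < m) :
    nrm b < nrm (b - 2 * a) := by
  have h1 : |b.valMinAbs - 2 * a.valMinAbs| ≤ nrm b + 2 * nrm a := by
    refine (abs_sub _ _).trans ?_
    rw [abs_mul]; unfold nrm; norm_num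
  have h2 : 2 * nrm a - nrm b ≤ |b.valMinAbs - 2 * a.valMinAbs| := by
    have : |2 * a.valMinAbs| ≤ |b.valMinAbs| + |b.valMinAbs - 2 * a.valMinAbs| := by
      have h3 : 2 * a.valMinAbs = b.valMinAbs - (b.valMinAbs - 2 * a.valMinAbs) := by ring
      conv_lhs => rw [h3]
      exact abs_sub _ _
    rw [abs_mul] at this
    unfold nrm
    norm_num at this
    linarith
  refine nrm_gt (b.valMinAbs - 2 * a.valMinAbs) _ _ ?_ ?_ ?_
  · push_cast; rfl
  · linarith
  · linarith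

lemma pair_le {a b : ZMod m} (h : nrm b < nrm a) (hd : 2 * (nrm a + nrm b) < m) :
    g (nrm a) (nrm (a - 2 * b)) + g (nrm a) (nrm (a + 2 * b)) ≤ 5 / 4 + 4 / 5 := by
  set A := a.valMinAbs with hA
  set B := b.valMinAbs with hB
  have hA' : ((A : ℤ) : ZMod m) = a := ZMod.coe_valMinAbs a
  have hB' : ((B : ℤ) : ZMod m) = b := ZMod.coe_valMinAbs b
  have hp : ((A + 2 * B : ℤ) : ZMod m) = a + 2 * b := by push_cast; rw [hA', hB']
  have hm : ((A - 2 * B : ℤ) : ZMod m) = a - 2 * b := by push_cast; rw [hA', hB']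
  have hna : nrm a = |A| := rfl
  have hnb : nrm b = |B| := rfl
  rw [hna, hnb] at hd
  rw [hna, hnb] at h
  rw [hna]
  rcases eq_or_ne B 0 with h0 | h0
  · have hb0 : b = 0 := by rw [← hB', h0]; simp
    have h1 : g |A| (nrm (a - 2 * b)) ≤ 1 := by
      refine g_of_le ?_
      rw [hb0]; simp [nrm, ← hA]
    have h2 : g |A| (nrm (a + 2 * b)) ≤ 1 := by
      refine g_of_le ?_
      rw [hb0]; simp [nrm, ← hA]
    linarith
  · rcases le_or_gt 0 (A * B) with h1 | h1
    · have h2 : |A + 2 * B| = |A| + 2 * |B| := by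
        rcases abs_cases A with ⟨e1, e1'⟩ | ⟨e1, e1'⟩ <;>
        rcases abs_cases B with ⟨e2, e2'⟩ | ⟨e2, e2'⟩ <;>
        rcases abs_cases (A + 2 * B) with ⟨e3, e3'⟩ | ⟨e3, e3'⟩ <;>
        rw [e1, e2, e3] <;> nlinarith
      have h3 : |A| < nrm (a + 2 * b) := by
        refine nrm_gt _ _ _ hp ?_ ?_
        · rw [h2]; have := abs_pos.mpr h0; linarith
        · rw [h2]; linarith
      rw [g_of_lt h3]
      have := g_le |A| (nrm (a - 2 * b))
      linarith
    · have h2 : |A - 2 * B| = |A| + 2 * |B| := by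
        rcases abs_cases A with ⟨e1, e1'⟩ | ⟨e1, e1'⟩ <;>
        rcases abs_cases B with ⟨e2, e2'⟩ | ⟨e2, e2'⟩ <;>
        rcases abs_cases (A - 2 * B) with ⟨e3, e3'⟩ | ⟨e3, e3'⟩ <;>
        rw [e1, e2, e3] <;> nlinarith
      have h3 : |A| < nrm (a - 2 * b) := by
        refine nrm_gt _ _ _ hm ?_ ?_
        · rw [h2]; have := abs_pos.mpr h0; linarith
        · rw [h2]; linarith
      rw [g_of_lt h3]
      have := g_le |A| (nrm (a + 2 * b))
      linarith

lemma pair_eq {a b : ZMod m} (h : nrm b = nrm a) (h0 : 0 < nrm a) (hd : 2 * (nrm a + nrm b) < m) :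
    g (nrm b) (nrm (b - 2 * a)) + g (nrm b) (nrm (b + 2 * a)) ≤ 1 + 4 / 5 := by
  set A := a.valMinAbs with hA
  set B := b.valMinAbs with hB
  have hA' : ((A : ℤ) : ZMod m) = a := ZMod.coe_valMinAbs a
  have hB' : ((B : ℤ) : ZMod m) = b := ZMod.coe_valMinAbs b
  have hp : ((B + 2 * A : ℤ) : ZMod m) = b + 2 * a := by push_cast; rw [hA', hB']
  have hm : ((B - 2 * A : ℤ) : ZMod m) = b - 2 * a := by push_cast; rw [hA', hB']
  have hna : nrm a = |A| := rfl
  have hnb : nrm b = |B| := rfl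
  rw [hna, hnb] at hd
  rw [hna, hnb] at h
  rw [hnb]
  rw [hna] at h0
  rcases abs_eq_abs.mp h with h1 | h1
  · have h2 : |B| < nrm (b + 2 * a) := by
      refine nrm_gt _ _ _ hp ?_ ?_
      · rw [h1, show A + 2 * A = 3 * A by ring, abs_mul]; norm_num; linarith
      · rw [h1, show A + 2 * A = 3 * A by ring, abs_mul]; norm_num
        rw [h1] at hd; linarith
    have h3 : |B| ≤ nrm (b - 2 * a) := by
      have : |B| - 1 < nrm (b - 2 * a) := by
        refine nrm_gt _ _ _ hm ?_ ?_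
        · rw [h1, show A - 2 * A = -A by ring, abs_neg]; linarith
        · rw [h1, show A - 2 * A = -A by ring, abs_neg]
          rw [h1] at hd; linarith
      linarith
    rw [g_of_lt h2]
    have := g_of_le h3
    linarith
  · have h2 : |B| < nrm (b - 2 * a) := by
      refine nrm_gt _ _ _ hm ?_ ?_
      · rw [h1, show -A - 2 * A = -(3 * A) by ring, abs_neg, abs_neg, abs_mul]; norm_num; linarith
      · rw [h1, show -A - 2 * A = -(3 * A) by ring, abs_neg, abs_neg, abs_mul]; norm_num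
        rw [h1, abs_neg] at hd; linarith
    have h3 : |B| ≤ nrm (b + 2 * a) := by
      have : |B| - 1 < nrm (b + 2 * a) := by
        refine nrm_gt _ _ _ hp ?_ ?_
        · rw [h1, show -A + 2 * A = A by ring, abs_neg]; linarith
        · rw [h1, show -A + 2 * A = A by ring, abs_neg]
          rw [h1, abs_neg] at hd; linarith
      linarith
    rw [g_of_lt h2]
    have := g_of_le h3
    linarith

/-- The pointwise inequality. -/
lemma key (c : ZMod m → ℝ) (hc0 : ∀ a, 0 ≤ c a) (hc1 : ∀ a, c a ≤ 1)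
    (hc2 : ∀ a b : ZMod m, (m : ℤ) ≤ 2 * (nrm a + nrm b) → c a + c b ≤ 1.46)
    (a b : ZMod m) (hab : ¬ (a = 0 ∧ b = 0)) :
    c a * (g (nrm b) (nrm (b - 2 * a)) + g (nrm b) (nrm (b + 2 * a))) +
      c b * (g (nrm a) (nrm (a - 2 * b)) + g (nrm a) (nrm (a + 2 * b))) ≤ 3.65 := by
  by_cases hd : (m : ℤ) ≤ 2 * (nrm a + nrm b)
  · have h1 := hc2 a b hd
    have h2 : g (nrm b) (nrm (b - 2 * a)) + g (nrm b) (nrm (b + 2 * a)) ≤ 5 / 2 := by
      have := g_le (nrm b) (nrm (b - 2 * a)); have := g_le (nrm b) (nrm (b + 2 * a)); linarith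
    have h3 : g (nrm a) (nrm (a - 2 * b)) + g (nrm a) (nrm (a + 2 * b)) ≤ 5 / 2 := by
      have := g_le (nrm a) (nrm (a - 2 * b)); have := g_le (nrm a) (nrm (a + 2 * b)); linarith
    have h4 := mul_le_mul_of_nonneg_left h2 (hc0 a)
    have h5 := mul_le_mul_of_nonneg_left h3 (hc0 b)
    linarith
  · have hd : 2 * (nrm a + nrm b) < m := not_le.mp hd
    have e1 : ∀ x y : ℝ, 0 ≤ x → c a * x ≤ x := fun x _ hx => by
      have := mul_le_mul_of_nonneg_right (hc1 a) hx; linarith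
    have e2 : ∀ x : ℝ, 0 ≤ x → c b * x ≤ x := fun x hx => by
      have := mul_le_mul_of_nonneg_right (hc1 b) hx; linarith
    have h1 := e1 (g (nrm b) (nrm (b - 2 * a)) + g (nrm b) (nrm (b + 2 * a))) 0
      (add_nonneg (g_nonneg _ _) (g_nonneg _ _))
    have h2 := e2 (g (nrm a) (nrm (a - 2 * b)) + g (nrm a) (nrm (a + 2 * b)))
      (add_nonneg (g_nonneg _ _) (g_nonneg _ _))
    have main : (g (nrm b) (nrm (b - 2 * a)) + g (nrm b) (nrm (b + 2 * a))) +
        (g (nrm a) (nrm (a - 2 * b)) + g (nrm a) (nrm (a + 2 * b))) ≤ 3.65 := by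
      rcases lt_trichotomy (nrm b) (nrm a) with h | h | h
      · rw [g_of_lt (strict1 h hd), g_of_lt (strict2 h hd)]
        have := pair_le h hd
        norm_num at this ⊢; linarith
      · have h0 : 0 < nrm a := by
          rcases (nrm_nonneg a).lt_or_eq with h0 | h0
          · exact h0
          · exfalso; apply hab
            have ha : a.valMinAbs = 0 := abs_eq_zero.mp h0.symm
            have hb : b.valMinAbs = 0 := abs_eq_zero.mp (h.trans h0.symm)
            exact ⟨by rw [← ZMod.coe_valMinAbs a, ha]; simp,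
              by rw [← ZMod.coe_valMinAbs b, hb]; simp⟩
        have h1 := pair_eq h h0 hd
        have h2 := pair_eq (a := b) (b := a) h.symm (h ▸ h0) (by linarith)
        norm_num at h1 h2 ⊢; linarith
      · rw [g_of_lt (strict1 h (by linarith)), g_of_lt (strict2 h (by linarith))]
        have := pair_le h (by linarith)
        norm_num at this ⊢; linarith
    linarith

/-- The summed inequality. -/
lemma sum_ineq (c : ZMod m → ℝ) (hc0 : ∀ a, 0 ≤ c a) (hc1 : ∀ a, c a ≤ 1)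
    (hc2 : ∀ a b : ZMod m, (m : ℤ) ≤ 2 * (nrm a + nrm b) → c a + c b ≤ 1.46)
    (G : ZMod m → ZMod m → ℝ) (hG0 : G 0 0 = 0) :
    ∑ a, ∑ b, G a b * (G a (b - 2 * a) * (2 * c a) + G (a - 2 * b) b * (2 * c b)) ≤
      3.65 * ∑ a, ∑ b, G a b ^ 2 := by
  have h1 : ∑ a, ∑ b, G a b * (G a (b - 2 * a) * (2 * c a)) ≤
      ∑ a, ∑ b, c a * (g (nrm b) (nrm (b - 2 * a)) + g (nrm b) (nrm (b + 2 * a))) * G a b ^ 2 := by
    refine Finset.sum_le_sum fun a _ => ?_
    have e : ∑ b, c a * g (nrm (b - 2 * a)) (nrm b) * G a (b - 2 * a) ^ 2 =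
        ∑ b, c a * g (nrm b) (nrm (b + 2 * a)) * G a b ^ 2 := by
      rw [← Equiv.sum_comp (Equiv.addRight (2 * a))
        (fun b => c a * g (nrm (b - 2 * a)) (nrm b) * G a (b - 2 * a) ^ 2)]
      refine Finset.sum_congr rfl fun b _ => ?_
      simp
    calc ∑ b, G a b * (G a (b - 2 * a) * (2 * c a))
        ≤ ∑ b, (c a * g (nrm b) (nrm (b - 2 * a)) * G a b ^ 2 +
            c a * g (nrm (b - 2 * a)) (nrm b) * G a (b - 2 * a) ^ 2) := by
          refine Finset.sum_le_sum fun b _ => ?_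
          have := mul_le_mul_of_nonneg_left
            (amgm (nrm b) (nrm (b - 2 * a)) (G a b) (G a (b - 2 * a))) (hc0 a)
          nlinarith [this]
      _ = _ := by
          rw [Finset.sum_add_distrib, e, ← Finset.sum_add_distrib]
          refine Finset.sum_congr rfl fun b _ => ?_
          ring
  have h2 : ∑ a, ∑ b, G a b * (G (a - 2 * b) b * (2 * c b)) ≤
      ∑ a, ∑ b, c b * (g (nrm a) (nrm (a - 2 * b)) + g (nrm a) (nrm (a + 2 * b))) * G a b ^ 2 := by
    rw [Finset.sum_comm, Finset.sum_comm (f := fun a b => c b *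
      (g (nrm a) (nrm (a - 2 * b)) + g (nrm a) (nrm (a + 2 * b))) * G a b ^ 2)]
    refine Finset.sum_le_sum fun b _ => ?_
    have e : ∑ a, c b * g (nrm (a - 2 * b)) (nrm a) * G (a - 2 * b) b ^ 2 =
        ∑ a, c b * g (nrm a) (nrm (a + 2 * b)) * G a b ^ 2 := by
      rw [← Equiv.sum_comp (Equiv.addRight (2 * b))
        (fun a => c b * g (nrm (a - 2 * b)) (nrm a) * G (a - 2 * b) b ^ 2)]
      refine Finset.sum_congr rfl fun a _ => ?_
      simp
    calc ∑ a, G a b * (G (a - 2 * b) b * (2 * c b))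
        ≤ ∑ a, (c b * g (nrm a) (nrm (a - 2 * b)) * G a b ^ 2 +
            c b * g (nrm (a - 2 * b)) (nrm a) * G (a - 2 * b) b ^ 2) := by
          refine Finset.sum_le_sum fun a _ => ?_
          have := mul_le_mul_of_nonneg_left
            (amgm (nrm a) (nrm (a - 2 * b)) (G a b) (G (a - 2 * b) b)) (hc0 b)
          nlinarith [this]
      _ = _ := by
          rw [Finset.sum_add_distrib, e, ← Finset.sum_add_distrib]
          refine Finset.sum_congr rfl fun a _ => ?_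
          ring
  have h3 : ∑ a, ∑ b, G a b * (G a (b - 2 * a) * (2 * c a) + G (a - 2 * b) b * (2 * c b)) =
      ∑ a, ∑ b, G a b * (G a (b - 2 * a) * (2 * c a)) +
      ∑ a, ∑ b, G a b * (G (a - 2 * b) b * (2 * c b)) := by
    rw [← Finset.sum_add_distrib]
    refine Finset.sum_congr rfl fun a _ => ?_
    rw [← Finset.sum_add_distrib]
    refine Finset.sum_congr rfl fun b _ => ?_
    ring
  rw [h3]
  refine (add_le_add h1 h2).trans ?_
  rw [← Finset.sum_add_distrib, Finset.mul_sum]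
  refine Finset.sum_le_sum fun a _ => ?_
  rw [← Finset.sum_add_distrib, Finset.mul_sum]
  refine Finset.sum_le_sum fun b _ => ?_
  by_cases hab : a = 0 ∧ b = 0
  · rw [hab.1, hab.2, hG0]; simp
  · have h4 := mul_le_mul_of_nonneg_right (key c hc0 hc1 hc2 a b hab) (sq_nonneg (G a b))
    nlinarith [h4]


/-! ## Fourier transform -/

open ZMod Complex

/-- the half of the norm of `1 + ψ (-a)` -/
noncomputable def cc (a : ZMod m) : ℝ := ‖(1 : ℂ) + stdAddChar (-a)‖ / 2

lemma cc_nonneg (a : ZMod m) : 0 ≤ cc a := by unfold cc; positivity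

lemma cc_le_one (a : ZMod m) : cc a ≤ 1 := by
  have h : ‖(1 : ℂ) + stdAddChar (-a)‖ ≤ 1 + 1 := by
    refine (norm_add_le _ _).trans ?_
    rw [AddChar.norm_apply, norm_one]
  unfold cc; linarith

lemma cc_eq (a : ZMod m) : cc a = Real.cos (Real.pi * (nrm a : ℝ) / m) := by
  have hm : (0 : ℝ) < m := by exact_mod_cast Nat.pos_of_ne_zero (NeZero.ne m)
  have h1 : (stdAddChar (-a) : ℂ) = Complex.exp (2 * Real.pi * I * ((-a.valMinAbs : ℤ) : ℂ) / m) := by
    rw [← stdAddChar_coe]; push_cast; rfl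
  have h2 : cc a = |Real.cos (Real.pi * (a.valMinAbs : ℝ) / m)| := by
    unfold cc
    rw [h1]
    set t : ℝ := Real.pi * (a.valMinAbs : ℝ) / m with ht
    have h3 : (2 * Real.pi * I * ((-a.valMinAbs : ℤ) : ℂ) / m : ℂ) = ((-(2 * t) : ℝ) : ℂ) * I := by
      rw [ht]; push_cast; ring
    rw [h3]
    have h4 : (1 : ℂ) + Complex.exp (((-(2 * t) : ℝ) : ℂ) * I) =
        2 * (Real.cos t : ℂ) * Complex.exp (((-t : ℝ) : ℂ) * I) := by
      rw [Complex.exp_ofReal_mul_I, Complex.exp_ofReal_mul_I]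
      rw [Real.cos_neg, Real.sin_neg, Real.cos_neg, Real.sin_neg, Real.cos_two_mul, Real.sin_two_mul]
      push_cast
      ring
    rw [h4, norm_mul, Complex.norm_exp_ofReal_mul_I, mul_one, norm_mul, Complex.norm_real,
      Real.norm_eq_abs]
    norm_num
  rw [h2]
  have h5 : Real.cos (Real.pi * (a.valMinAbs : ℝ) / m) = Real.cos (Real.pi * (nrm a : ℝ) / m) := by
    unfold nrm
    rcases abs_cases a.valMinAbs with ⟨h, _⟩ | ⟨h, _⟩
    · rw [h]
    · rw [h]; push_cast
      rw [← Real.cos_neg]; congr 1; ring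
  rw [h5]
  apply abs_of_nonneg
  apply Real.cos_nonneg_of_neg_pi_div_two_le_of_le
  · have : (0 : ℝ) ≤ Real.pi * (nrm a : ℝ) / m := by
      have : (0 : ℝ) ≤ nrm a := by exact_mod_cast nrm_nonneg a
      positivity
    linarith [Real.pi_pos]
  · rw [div_le_iff₀ hm]
    have h6 : (2 * nrm a : ℝ) ≤ m := by exact_mod_cast nrm_le a
    nlinarith [Real.pi_pos]

lemma cc_add (a b : ZMod m) (h : (m : ℤ) ≤ 2 * (nrm a + nrm b)) : cc a + cc b ≤ 1.46 := by
  have hm : (0 : ℝ) < m := by exact_mod_cast Nat.pos_of_ne_zero (NeZero.ne m)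
  rw [cc_eq, cc_eq, Real.cos_add_cos]
  have h1 : (m : ℝ) ≤ 2 * (nrm a + nrm b) := by exact_mod_cast h
  have h2 : (2 * nrm a : ℝ) ≤ m := by exact_mod_cast nrm_le a
  have h3 : (2 * nrm b : ℝ) ≤ m := by exact_mod_cast nrm_le b
  have e : (Real.pi * (nrm a : ℝ) / m + Real.pi * (nrm b : ℝ) / m) / 2 =
      Real.pi * ((nrm a : ℝ) + nrm b) / (2 * m) := by
    field_simp
  rw [e]
  set s := Real.pi * ((nrm a : ℝ) + nrm b) / (2 * m) with hs
  have h4 : Real.pi / 4 ≤ s := by
    rw [hs, le_div_iff₀ (by positivity)]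
    nlinarith [Real.pi_pos]
  have h5 : s ≤ Real.pi / 2 := by
    rw [hs, div_le_iff₀ (by positivity)]
    nlinarith [Real.pi_pos]
  have h6 : Real.cos s ≤ Real.cos (Real.pi / 4) :=
    Real.cos_le_cos_of_nonneg_of_le_pi (by positivity) (by linarith [Real.pi_pos]) h4
  have h7 : 0 ≤ Real.cos s :=
    Real.cos_nonneg_of_neg_pi_div_two_le_of_le (by linarith [Real.pi_pos]) h5
  rw [Real.cos_pi_div_four] at h6
  have h8 := Real.cos_le_one ((Real.pi * (nrm a : ℝ) / m - Real.pi * (nrm b : ℝ) / m) / 2)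
  have h9 : √2 ≤ 1.46 := by
    rw [show (1.46 : ℝ) = √(1.46 ^ 2) by rw [Real.sqrt_sq (by norm_num)]]
    apply Real.sqrt_le_sqrt; norm_num
  calc 2 * Real.cos s * Real.cos ((Real.pi * (nrm a : ℝ) / m - Real.pi * (nrm b : ℝ) / m) / 2)
      ≤ 2 * Real.cos s * 1 := mul_le_mul_of_nonneg_left h8 (by positivity)
    _ ≤ 1.46 := by linarith

/-- the Fourier transform -/
noncomputable def hat (f : ZMod m × ZMod m → ℂ) (a b : ZMod m) : ℂ :=
  ∑ v : ZMod m × ZMod m, f v * stdAddChar (a * v.1 + b * v.2)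

lemma orth (u v : ZMod m × ZMod m) :
    ∑ a : ZMod m, ∑ b : ZMod m, (stdAddChar (a * (u.1 - v.1) + b * (u.2 - v.2)) : ℂ) =
      if u = v then (m : ℂ) ^ 2 else 0 := by
  have h1 : ∀ a b : ZMod m, (stdAddChar (a * (u.1 - v.1) + b * (u.2 - v.2)) : ℂ) =
      stdAddChar (a * (u.1 - v.1)) * stdAddChar (b * (u.2 - v.2)) := fun a b => by
    rw [AddChar.map_add_eq_mul]
  simp_rw [h1, ← Finset.mul_sum, ← Finset.sum_mul]
  rw [AddChar.sum_mulShift _ (isPrimitive_stdAddChar m),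
    AddChar.sum_mulShift _ (isPrimitive_stdAddChar m), ZMod.card]
  by_cases h : u = v
  · subst h; simp [sq]
  · rw [if_neg h]
    by_cases h2 : u.1 - v.1 = 0
    · have h3 : u.2 - v.2 ≠ 0 := fun h3 => h (Prod.ext (sub_eq_zero.mp h2) (sub_eq_zero.mp h3))
      rw [if_neg h3]; simp
    · rw [if_neg h2]; simp

lemma parseval (f g : ZMod m × ZMod m → ℂ) :
    ∑ a : ZMod m, ∑ b : ZMod m, (starRingEnd ℂ) (hat f a b) * hat g a b =
      (m : ℂ) ^ 2 * ∑ v, (starRingEnd ℂ) (f v) * g v := by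
  have h1 : ∀ a b : ZMod m, (starRingEnd ℂ) (hat f a b) * hat g a b =
      ∑ v, ∑ u, (starRingEnd ℂ) (f v) * g u *
        stdAddChar (a * (u.1 - v.1) + b * (u.2 - v.2)) := by
    intro a b
    unfold hat
    rw [map_sum, Finset.sum_mul_sum]
    refine Finset.sum_congr rfl fun v _ => Finset.sum_congr rfl fun u _ => ?_
    rw [map_mul, ← AddChar.map_neg_eq_conj]
    have : a * (u.1 - v.1) + b * (u.2 - v.2) = -(a * v.1 + b * v.2) + (a * u.1 + b * u.2) := by ring
    rw [this, AddChar.map_add_eq_mul (stdAddChar (N := m)) (-(a * v.1 + b * v.2))]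
    generalize (stdAddChar (a * u.1 + b * u.2) : ℂ) = X
    generalize (stdAddChar (-(a * v.1 + b * v.2)) : ℂ) = Y
    ring
  simp_rw [h1]
  have h2 : ∑ a : ZMod m, ∑ b : ZMod m, ∑ v : ZMod m × ZMod m, ∑ u : ZMod m × ZMod m,
      (starRingEnd ℂ) (f v) * g u * stdAddChar (a * (u.1 - v.1) + b * (u.2 - v.2)) =
      ∑ v : ZMod m × ZMod m, ∑ u : ZMod m × ZMod m, (starRingEnd ℂ) (f v) * g u *
        ∑ a : ZMod m, ∑ b : ZMod m, stdAddChar (a * (u.1 - v.1) + b * (u.2 - v.2)) := by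
    have : ∀ a : ZMod m, ∑ b : ZMod m, ∑ v : ZMod m × ZMod m, ∑ u : ZMod m × ZMod m,
      (starRingEnd ℂ) (f v) * g u * stdAddChar (a * (u.1 - v.1) + b * (u.2 - v.2)) =
        ∑ v : ZMod m × ZMod m, ∑ u : ZMod m × ZMod m, ∑ b : ZMod m,
      (starRingEnd ℂ) (f v) * g u * stdAddChar (a * (u.1 - v.1) + b * (u.2 - v.2)) := by
      intro a
      rw [Finset.sum_comm]
      exact Finset.sum_congr rfl fun v _ => Finset.sum_comm
    simp_rw [this]
    rw [Finset.sum_comm]
    refine Finset.sum_congr rfl fun v _ => ?_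
    rw [Finset.sum_comm]
    refine Finset.sum_congr rfl fun u _ => ?_
    rw [Finset.mul_sum]
    refine Finset.sum_congr rfl fun a _ => ?_
    rw [Finset.mul_sum]
  rw [h2, Finset.mul_sum]
  refine Finset.sum_congr rfl fun v _ => ?_
  have h3 : ∀ u : ZMod m × ZMod m, (starRingEnd ℂ) (f v) * g u *
        ∑ a : ZMod m, ∑ b : ZMod m, stdAddChar (a * (u.1 - v.1) + b * (u.2 - v.2)) =
      if u = v then (m : ℂ) ^ 2 * ((starRingEnd ℂ) (f v) * g v) else 0 := by
    intro u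
    rw [orth]
    by_cases h : u = v
    · rw [if_pos h, if_pos h, h]; ring
    · rw [if_neg h, if_neg h, mul_zero]
  simp_rw [h3]
  rw [Finset.sum_ite_eq' univ v]
  simp

/-- shear maps -/
def sh1 (t : ZMod m) : ZMod m × ZMod m ≃ ZMod m × ZMod m where
  toFun v := (v.1 + 2 * v.2 + t, v.2)
  invFun v := (v.1 - 2 * v.2 - t, v.2)
  left_inv v := by ext <;> simp; ring
  right_inv v := by ext <;> simp; ring

def sh2 (t : ZMod m) : ZMod m × ZMod m ≃ ZMod m × ZMod m where
  toFun v := (v.1, v.2 + 2 * v.1 + t)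
  invFun v := (v.1, v.2 - 2 * v.1 - t)
  left_inv v := by ext <;> simp; ring
  right_inv v := by ext <;> simp; ring

lemma hat_sh1 (f : ZMod m × ZMod m → ℂ) (t a b : ZMod m) :
    hat (fun v => f (sh1 t v)) a b = stdAddChar (-(a * t)) * hat f a (b - 2 * a) := by
  unfold hat
  rw [← Equiv.sum_comp (sh1 t).symm, Finset.mul_sum]
  refine Finset.sum_congr rfl fun v _ => ?_
  dsimp only
  rw [Equiv.apply_symm_apply]
  have : a * ((sh1 t).symm v).1 + b * ((sh1 t).symm v).2 =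
      -(a * t) + (a * v.1 + (b - 2 * a) * v.2) := by
    show a * (v.1 - 2 * v.2 - t) + b * v.2 = _
    ring
  rw [this, AddChar.map_add_eq_mul]
  ring

lemma hat_sh2 (f : ZMod m × ZMod m → ℂ) (t a b : ZMod m) :
    hat (fun v => f (sh2 t v)) a b = stdAddChar (-(b * t)) * hat f (a - 2 * b) b := by
  unfold hat
  rw [← Equiv.sum_comp (sh2 t).symm, Finset.mul_sum]
  refine Finset.sum_congr rfl fun v _ => ?_
  dsimp only
  rw [Equiv.apply_symm_apply]
  have : a * ((sh2 t).symm v).1 + b * ((sh2 t).symm v).2 =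
      -(b * t) + ((a - 2 * b) * v.1 + b * v.2) := by
    show a * v.1 + b * (v.2 - 2 * v.1 - t) = _
    ring
  rw [this, AddChar.map_add_eq_mul]
  ring

lemma hat_add (f g : ZMod m × ZMod m → ℂ) (a b : ZMod m) :
    hat (fun v => f v + g v) a b = hat f a b + hat g a b := by
  unfold hat
  rw [← Finset.sum_add_distrib]
  exact Finset.sum_congr rfl fun v _ => by ring

/-- The spectral bound for one orientation. -/
lemma half (f : ZMod m × ZMod m → ℝ) (hf : ∑ v, f v = 0) :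
    |∑ v, f v * (f (sh1 0 v) + f (sh1 1 v) + (f (sh2 0 v) + f (sh2 1 v)))| ≤
      3.65 * ∑ v, f v ^ 2 := by
  have hm : (0 : ℝ) < m := by exact_mod_cast Nat.pos_of_ne_zero (NeZero.ne m)
  set F : ZMod m × ZMod m → ℂ := fun v => (f v : ℂ) with hF
  set G : ZMod m × ZMod m → ℂ := fun v => (F (sh1 0 v) + F (sh1 1 v)) +
    (F (sh2 0 v) + F (sh2 1 v)) with hG
  set K : ℝ := ∑ v, f v * (f (sh1 0 v) + f (sh1 1 v) + (f (sh2 0 v) + f (sh2 1 v))) with hK
  have h1 : (K : ℂ) = ∑ v, (starRingEnd ℂ) (F v) * G v := by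
    rw [hK]; push_cast
    refine Finset.sum_congr rfl fun v _ => ?_
    simp only [hF, hG, Complex.conj_ofReal]
  have h2 : ∀ a b : ZMod m, hat G a b = (1 + stdAddChar (-a)) * hat F a (b - 2 * a) +
      (1 + stdAddChar (-b)) * hat F (a - 2 * b) b := by
    intro a b
    rw [hG, hat_add (fun v => F (sh1 0 v) + F (sh1 1 v)) (fun v => F (sh2 0 v) + F (sh2 1 v)),
      hat_add (fun v => F (sh1 0 v)) (fun v => F (sh1 1 v)),
      hat_add (fun v => F (sh2 0 v)) (fun v => F (sh2 1 v)),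
      hat_sh1, hat_sh1, hat_sh2, hat_sh2]
    simp only [mul_zero, neg_zero, AddChar.map_zero_eq_one, mul_one]
    ring
  have h3 := parseval F G
  rw [← h1] at h3
  have h4 : ∑ a : ZMod m, ∑ b : ZMod m, ‖hat F a b‖ ^ 2 = (m : ℝ) ^ 2 * ∑ v, f v ^ 2 := by
    have h5 := parseval F F
    have h6 : ∀ z : ℂ, (starRingEnd ℂ) z * z = ((‖z‖ ^ 2 : ℝ) : ℂ) := fun z => by
      rw [mul_comm, Complex.mul_conj, Complex.normSq_eq_norm_sq]
    simp_rw [h6] at h5
    have h7 : ∀ v, ‖F v‖ ^ 2 = f v ^ 2 := fun v => by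
      rw [hF]; simp [Complex.norm_real]
    simp_rw [h7] at h5
    exact_mod_cast h5
  have h8 : (m : ℝ) ^ 2 * |K| ≤ ∑ a : ZMod m, ∑ b : ZMod m, ‖hat F a b‖ *
      (‖hat F a (b - 2 * a)‖ * (2 * cc a) + ‖hat F (a - 2 * b) b‖ * (2 * cc b)) := by
    have h9 : (m : ℝ) ^ 2 * |K| = ‖(m : ℂ) ^ 2 * (K : ℂ)‖ := by
      rw [norm_mul, norm_pow, Complex.norm_natCast, Complex.norm_real, Real.norm_eq_abs]
    rw [h9, ← h3]
    refine (norm_sum_le _ _).trans (Finset.sum_le_sum fun a _ => ?_)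
    refine (norm_sum_le _ _).trans (Finset.sum_le_sum fun b _ => ?_)
    rw [norm_mul, RCLike.norm_conj, h2]
    refine mul_le_mul_of_nonneg_left ?_ (norm_nonneg _)
    refine (norm_add_le _ _).trans ?_
    rw [norm_mul, norm_mul]
    have e : ∀ x : ZMod m, ‖(1 : ℂ) + stdAddChar (-x)‖ = 2 * cc x := fun x => by
      unfold cc; ring
    rw [e, e]
    linarith
  have h10 := sum_ineq cc cc_nonneg cc_le_one cc_add (fun a b => ‖hat F a b‖) (by
    have : hat F 0 0 = 0 := by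
      unfold hat
      simp only [zero_mul, add_zero, AddChar.map_zero_eq_one, mul_one, hF]
      exact_mod_cast hf
    simp [this])
  rw [h4] at h10
  have h11 : (m : ℝ) ^ 2 * |K| ≤ (m : ℝ) ^ 2 * (3.65 * ∑ v, f v ^ 2) := by
    refine (h8.trans h10).trans (le_of_eq ?_)
    ring
  exact le_of_mul_le_mul_left h11 (by positivity)

end M

theorem mgg_mgg (m : ℕ) (z : (ZMod m × ZMod m) × Fin 8) : mgg m (mgg m z) = z := by
  obtain ⟨⟨x, y⟩, i⟩ := z
  fin_cases i <;> simp [mgg] <;> ring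

/-- **Module M.** -/
theorem modM : ModM := by
  refine ⟨mgg_mgg, ?_⟩
  intro m _ f hf
  have h1 : ∑ x : (ZMod m × ZMod m) × Fin 8, f x.1 * f (mgg m x).1 =
      2 * ∑ v, f v * (f (M.sh1 0 v) + f (M.sh1 1 v) + (f (M.sh2 0 v) + f (M.sh2 1 v))) := by
    rw [Fintype.sum_prod_type]
    have h2 : ∀ v : ZMod m × ZMod m, ∑ i : Fin 8, f v * f (mgg m (v, i)).1 =
        (f v * f (M.sh1 0 v) + f v * f (M.sh1 1 v) + (f v * f (M.sh2 0 v) + f v * f (M.sh2 1 v))) +
        (f v * f ((M.sh1 0).symm v) + f v * f ((M.sh1 1).symm v) +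
          (f v * f ((M.sh2 0).symm v) + f v * f ((M.sh2 1).symm v))) := by
      intro v
      rw [Fin.sum_univ_eight]
      simp only [mgg, M.sh1, M.sh2, Equiv.coe_fn_mk, Equiv.coe_fn_symm_mk, add_zero, sub_zero]
      simp
      ring
    simp_rw [h2]
    have h3 : ∀ e : ZMod m × ZMod m ≃ ZMod m × ZMod m,
        ∑ v, f v * f (e.symm v) = ∑ v, f v * f (e v) := by
      intro e
      rw [← Equiv.sum_comp e (fun v => f v * f (e.symm v))]
      refine Finset.sum_congr rfl fun v _ => ?_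
      rw [Equiv.symm_apply_apply, mul_comm]
    simp only [Finset.sum_add_distrib, mul_add, h3]
    ring
  rw [h1, abs_mul, abs_of_nonneg (by norm_num : (0 : ℝ) ≤ 2)]
  have := M.half f hf
  linarith

end Pool.Agent.PCP
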