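import Pool.Agent.PCP.PowSpec

/-!
# Powering, part 3: the module P
-/

set_option linter.unusedSectionVars false

namespace Pool.Agent.PCP

open Finset

namespace Pw

variable {V D S : Type}

open Classical in
/-- indicator of a proposition -/
noncomputable def ind (p : Prop) : ℝ := if p then 1 else 0

theorem ind_nonneg (p : Prop) : 0 ≤ ind p := by
  unfold ind
  split_ifs <;> norm_num

theorem ind_le_one (p : Prop) : ind p ≤ 1 := by
  unfold ind
  split_ifs <;> norm_num

theorem ind_true {p : Prop} (h : p) : ind p = 1 := by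
  unfold ind
  rw [if_pos h]

theorem ind_false {p : Prop} (h : ¬ p) : ind p = 0 := by
  unfold ind
  rw [if_neg h]

theorem ind_sq (p : Prop) : ind p ^ 2 = ind p := by
  unfold ind
  split_ifs <;> norm_num

theorem ind_and (p q : Prop) : ind (p ∧ q) = ind p * ind q := by
  unfold ind
  by_cases hp : p <;> by_cases hq : q <;> simp [hp, hq]

theorem ind_congr {p q : Prop} (h : p ↔ q) : ind p = ind q := by rw [propext h]

theorem ind_eq_ite (p : Prop) [Decidable p] : ind p = if p then 1 else 0 := by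
  by_cases h : p
  · rw [ind_true h, if_pos h]
  · rw [ind_false h, if_neg h]

section Events

variable (G : RG V D S) (A : V → List D → S) (σ : V → S)

/-- the edge is violated by `σ` -/
def Bad (x : V × D) : Prop := G.R x (σ x.1) (σ (G.rot x).1) = false

/-- the opinion of the end of the walk from `u` about `u` is `σ u` -/
def Opn (u : V) (w : List D) : Prop := A (G.walk u w) (G.back u w) = σ u

/-- the step after `w1` is bad, and both ends of the walk know the values of `σ` at its ends -/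
def Cnd (v : V) (w1 : List D) (d : D) (w2 : List D) : Prop :=
  Bad G σ (G.walk v w1, d) ∧ A v w1 = σ (G.walk v w1) ∧
    Opn G A σ (G.rot (G.walk v w1, d)).1 w2

/-- the event for the step `x` of the word `w` -/
def Ev (x : ℕ) (v : V) (w : List D) : Prop :=
  ∃ w1 d w2, w = w1 ++ d :: w2 ∧ w1.length = x ∧ Cnd G A σ v w1 d w2

theorem Ev_iff (v : V) (w1 : List D) (d : D) (w2 : List D) (x : ℕ) (hx : w1.length = x) :
    Ev G A σ x v (w1 ++ d :: w2) ↔ Cnd G A σ v w1 d w2 := by
  constructor
  · rintro ⟨a, e, b, h, hl, hc⟩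
    obtain ⟨h1, h2⟩ := List.append_inj h (by rw [hx, hl])
    obtain ⟨h3, h4⟩ := List.cons.inj h2
    rw [h1, h3, h4]
    exact hc
  · intro h
    exact ⟨w1, d, w2, rfl, hx, h⟩

theorem not_chk {t x : ℕ} {v : V} {w : List D} (h : Ev G A σ x v w) (hx : x < t)
    (hy : w.length - 1 - x < t) :
    ¬ chk t w (G.view v w) (A v) (A (G.walk v w)) := by
  obtain ⟨w1, d, w2, rfl, hl, hb, ho, hp⟩ := h
  intro hc
  have hlen : (G.view v (w1 ++ d :: w2)).length = w1.length + (w2.length + 1) := by
    rw [length_view]; simp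
  have h1 := hc x (by rw [hlen]; omega) hx (by rw [length_view]; exact hy)
  have hv : G.view v (w1 ++ d :: w2) = G.view v w1 ++
      ((G.rot (G.walk v w1, d)).2, G.R (G.walk v w1, d)) ::
        G.view (G.rot (G.walk v w1, d)).1 w2 := by
    rw [view_append]; rfl
  have e1 : ∀ (hh : x < (G.view v (w1 ++ d :: w2)).length),
      (G.view v (w1 ++ d :: w2))[x] = ((G.rot (G.walk v w1, d)).2, G.R (G.walk v w1, d)) := by
    intro hh
    have : (G.view v (w1 ++ d :: w2))[x]? =
        some ((G.rot (G.walk v w1, d)).2, G.R (G.walk v w1, d)) := by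
      rw [hv, List.getElem?_append_right (by rw [length_view]; omega), length_view, hl]
      simp
    rw [List.getElem?_eq_getElem hh] at this
    exact Option.some.inj this
  rw [e1] at h1
  have e2 : (w1 ++ d :: w2).take x = w1 := by
    rw [← hl]; simp
  have e3 : (((G.view v (w1 ++ d :: w2)).map Prod.fst).reverse).take
      ((G.view v (w1 ++ d :: w2)).length - 1 - x) =
      G.back (G.rot (G.walk v w1, d)).1 w2 := by
    have e4 : ((G.view v (w1 ++ d :: w2)).map Prod.fst).reverse =
        G.back (G.rot (G.walk v w1, d)).1 w2 ++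
          ([(G.rot (G.walk v w1, d)).2] ++ G.back v w1) := by
      change G.back v (w1 ++ d :: w2) = _
      rw [back_append, back_cons, List.append_assoc]
    have e5 : (G.view v (w1 ++ d :: w2)).length - 1 - x =
        (G.back (G.rot (G.walk v w1, d)).1 w2).length := by
      rw [hlen, length_back]; omega
    rw [e4, e5, List.take_left]
  have e6 : G.walk v (w1 ++ d :: w2) = G.walk (G.rot (G.walk v w1, d)).1 w2 := by
    rw [walk_append]; rfl
  rw [e2, e3, e6, ho] at h1
  have hp' : A (G.walk (G.rot (G.walk v w1, d)).1 w2) (G.back (G.rot (G.walk v w1, d)).1 w2) =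
    σ (G.rot (G.walk v w1, d)).1 := hp
  rw [hp'] at h1
  have hb' : G.R (G.walk v w1, d) (σ (G.walk v w1)) (σ (G.rot (G.walk v w1, d)).1) = false := hb
  simp only [hb'] at h1
  exact Bool.false_ne_true h1

theorem stp_append (fi : V × D → ℝ) (w1 : List D) (d : D) (w2 : List D) : ∀ (v : V),
    stp G fi w1.length v (w1 ++ d :: w2) = fi (G.walk v w1, d) := by
  induction w1 with
  | nil => intro v; rfl
  | cons e w ih =>
    intro v
    rw [List.cons_append, List.length_cons, stp, ih]
    rfl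

theorem stp_nonneg (fi : V × D → ℝ) (h : ∀ x, 0 ≤ fi x) (w : List D) : ∀ (x : ℕ) (v : V),
    0 ≤ stp G fi x v w := by
  induction w with
  | nil => intro x v; simp [stp]
  | cons e w ih =>
    intro x v
    cases x with
    | zero => exact h _
    | succ x => exact ih x _

theorem cnt_eq (fi : V × D → ℝ) (w : List D) : ∀ (v : V),
    cnt G fi v w = ∑ x ∈ range w.length, stp G fi x v w := by
  induction w with
  | nil => intro v; simp [cnt]
  | cons e w ih =>
    intro v
    rw [List.length_cons, Finset.sum_range_succ', cnt, ih, add_comm]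
    rfl

theorem Ev_le_stp (x : ℕ) (v : V) (l : List D) (m : ℕ) :
    ind (Ev G A σ x v (l.take m)) ≤ stp G (fun y => ind (Bad G σ y)) x v l := by
  by_cases h : Ev G A σ x v (l.take m)
  · rw [ind_true h]
    obtain ⟨w1, d, w2, hw, hl, hb, -⟩ := h
    have : l = w1 ++ d :: (w2 ++ l.drop m) := by
      conv_lhs => rw [← List.take_append_drop m l, hw]
      simp
    rw [this, ← hl, stp_append, ind_true hb]
  · rw [ind_false h]
    exact stp_nonneg G _ (fun y => ind_nonneg _) _ _ _

variable [Fintype V] [Fintype D]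

/-- the (unnormalised) probability that the end of the walk of length `x` from `u` holds the
opinion `σ u` about `u` -/
noncomputable def qx (x : ℕ) (u : V) : ℝ := LS x (fun w => ind (Opn G A σ u w))

theorem sum_Ev (x y : ℕ) :
    ∑ v, LS (x + (y + 1)) (fun w => ind (Ev G A σ x v w)) =
      ∑ e : V × D, ind (Bad G σ e) * (qx G A σ x e.1 * qx G A σ y (G.rot e).1) := by
  have h1 : ∀ v, LS (x + (y + 1)) (fun w => ind (Ev G A σ x v w)) =
      LS x (fun w1 => (fun (u : V) (w : List D) => ind (Opn G A σ u w) *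
        ∑ d, ind (Bad G σ (u, d)) * qx G A σ y (G.rot (u, d)).1) (G.walk v w1) (G.back v w1)) := by
    intro v
    rw [LS_append]
    refine LS_congr x fun w1 hw1 => ?_
    rw [LS_succ]
    simp only
    rw [Finset.mul_sum]
    refine Finset.sum_congr rfl fun d _ => ?_
    have h2 : ∀ w2 : List D, ind (Ev G A σ x v (w1 ++ d :: w2)) =
        (ind (Opn G A σ (G.walk v w1) (G.back v w1)) * ind (Bad G σ (G.walk v w1, d))) *
          ind (Opn G A σ (G.rot (G.walk v w1, d)).1 w2) := by
      intro w2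
      rw [ind_congr (Ev_iff G A σ v w1 d w2 x hw1), Cnd, ind_and, ind_and]
      have : (A v w1 = σ (G.walk v w1)) ↔ Opn G A σ (G.walk v w1) (G.back v w1) := by
        rw [Opn, walk_back, back_back]
      rw [ind_congr this]
      ring
    rw [LS_congr y fun w2 _ => h2 w2, LS_mul_left]
    rw [qx]
    ring
  rw [Finset.sum_congr rfl fun v _ => h1 v, reversal G x
    (fun (u : V) (w : List D) => ind (Opn G A σ u w) *
        ∑ d, ind (Bad G σ (u, d)) * qx G A σ y (G.rot (u, d)).1), sum_prod]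
  refine Finset.sum_congr rfl fun u _ => ?_
  rw [LS_mul_right]
  change qx G A σ x u * _ = _
  rw [Finset.mul_sum]
  refine Finset.sum_congr rfl fun d _ => ?_
  simp only
  ring

/-- the number of good events of a word -/
noncomputable def Nn (t : ℕ) (v : V) (m : ℕ) (l : List D) : ℝ :=
  ∑ x ∈ range t, ∑ y ∈ range t, if m = x + (y + 1) then ind (Ev G A σ x v (l.take m)) else 0

theorem Nn_nonneg (t : ℕ) (v : V) (m : ℕ) (l : List D) : 0 ≤ Nn G A σ t v m l := by
  refine Finset.sum_nonneg fun x _ => Finset.sum_nonneg fun y _ => ?_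
  split_ifs
  · exact ind_nonneg _
  · exact le_refl _

theorem Nn_le_cnt (t : ℕ) (v : V) (m : ℕ) (l : List D) (hl : t ≤ l.length) :
    Nn G A σ t v m l ≤ cnt G (fun y => ind (Bad G σ y)) v l := by
  rw [cnt_eq]
  have h0 : ∀ x, 0 ≤ stp G (fun y => ind (Bad G σ y)) x v l :=
    fun x => stp_nonneg G _ (fun y => ind_nonneg _) _ _ _
  have h1 : ∀ x ∈ range t, (∑ y ∈ range t,
      if m = x + (y + 1) then ind (Ev G A σ x v (l.take m)) else 0) ≤
      stp G (fun y => ind (Bad G σ y)) x v l := by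
    intro x _
    by_cases hm : ∃ y ∈ range t, m = x + (y + 1)
    · obtain ⟨y, hy, hm⟩ := hm
      rw [Finset.sum_eq_single y]
      · rw [if_pos hm]
        exact Ev_le_stp G A σ x v l m
      · intro z _ hz
        rw [if_neg]
        omega
      · intro h
        exact absurd hy h
    · push Not at hm
      rw [Finset.sum_eq_zero]
      · exact h0 x
      · intro y hy
        rw [if_neg (hm y hy)]
  calc Nn G A σ t v m l ≤ ∑ x ∈ range t, stp G (fun y => ind (Bad G σ y)) x v l :=
        Finset.sum_le_sum h1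
    _ ≤ ∑ x ∈ range l.length, stp G (fun y => ind (Bad G σ y)) x v l :=
        Finset.sum_le_sum_of_subset_of_nonneg (Finset.range_mono hl) fun x _ _ => h0 x

theorem Nn_eq_zero (t : ℕ) (v : V) (m : ℕ) (l : List D) (hl : m ≤ l.length)
    (h : chk t (l.take m) (G.view v (l.take m)) (A v) (A (G.walk v (l.take m)))) :
    Nn G A σ t v m l = 0 := by
  refine Finset.sum_eq_zero fun x hx => Finset.sum_eq_zero fun y hy => ?_
  split_ifs with hm
  · refine ind_false fun he => ?_
    refine not_chk G A σ he (Finset.mem_range.1 hx) ?_ h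
    have : (l.take m).length = m := by simp [hl]
    rw [this]
    have := Finset.mem_range.1 hy
    omega
  · rfl

theorem LS_take (k m : ℕ) (F : List D → ℝ) :
    LS (m + k) (fun l => F (l.take m)) = (Fintype.card D : ℝ) ^ k * LS m F := by
  rw [LS_append, ← LS_mul_left]
  refine LS_congr m fun w hw => ?_
  have : ∀ w' : List D, F ((w ++ w').take m) = F w := by
    intro w'
    rw [← hw, List.take_left]
  rw [LS_congr k fun w' _ => this w', LS_const]

/-- the total number of good events -/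
theorem sum_Nn (t : ℕ) (ht : 1 ≤ t) :
    ∑ m ∈ range (2 * t), ∑ v, LS (2 * t - 1) (fun l => Nn G A σ t v m l) =
      ∑ x ∈ range t, ∑ y ∈ range t, (Fintype.card D : ℝ) ^ (2 * t - 1 - (x + (y + 1))) *
        ∑ e : V × D, ind (Bad G σ e) * (qx G A σ x e.1 * qx G A σ y (G.rot e).1) := by
  have h1 : ∀ m v, LS (2 * t - 1) (fun l => Nn G A σ t v m l) =
      ∑ x ∈ range t, ∑ y ∈ range t, if m = x + (y + 1) then
        LS (2 * t - 1) (fun l => ind (Ev G A σ x v (l.take (x + (y + 1))))) else 0 := by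
    intro m v
    simp only [Nn]
    rw [LS_sum]
    refine Finset.sum_congr rfl fun x _ => ?_
    rw [LS_sum]
    refine Finset.sum_congr rfl fun y _ => ?_
    split_ifs with h
    · rw [h]
    · rw [LS_const, mul_zero]
  simp only [h1]
  have h2 : ∀ m, ∑ v, ∑ x ∈ range t, ∑ y ∈ range t, (if m = x + (y + 1) then
        LS (2 * t - 1) (fun l => ind (Ev G A σ x v (l.take (x + (y + 1))))) else 0) =
      ∑ x ∈ range t, ∑ y ∈ range t, if m = x + (y + 1) then
        ∑ v, LS (2 * t - 1) (fun l => ind (Ev G A σ x v (l.take (x + (y + 1))))) else 0 := by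
    intro m
    rw [Finset.sum_comm]
    refine Finset.sum_congr rfl fun x _ => ?_
    rw [Finset.sum_comm]
    refine Finset.sum_congr rfl fun y _ => ?_
    split_ifs with h
    · rfl
    · simp
  simp only [h2]
  rw [Finset.sum_comm]
  refine Finset.sum_congr rfl fun x hx => ?_
  rw [Finset.sum_comm]
  refine Finset.sum_congr rfl fun y hy => ?_
  have hx' := Finset.mem_range.1 hx
  have hy' := Finset.mem_range.1 hy
  rw [Finset.sum_ite_eq' (range (2 * t)) (x + (y + 1)), if_pos (Finset.mem_range.2 (by omega)),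
    ← sum_Ev G A σ x y, Finset.mul_sum]
  refine Finset.sum_congr rfl fun v _ => ?_
  have e : 2 * t - 1 = (x + (y + 1)) + (2 * t - 1 - (x + (y + 1))) := by omega
  conv_lhs => rw [e]
  exact LS_take _ _ (fun w => ind (Ev G A σ x v w))

/-- choice of the assignment -/
theorem exists_sigma [Fintype S] [Nonempty S] [Nonempty D] (t : ℕ) :
    ∃ σ : V → S, ∀ u, (t : ℝ) ≤ (Fintype.card S : ℝ) *
      ∑ x ∈ range t, qx G A σ x u / (Fintype.card D : ℝ) ^ x := by
  have hd : (0 : ℝ) < Fintype.card D := Nat.cast_pos.2 Fintype.card_pos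
  have h : ∀ u, ∃ s : S, (t : ℝ) ≤ (Fintype.card S : ℝ) *
      ∑ x ∈ range t, LS x (fun w => ind (A (G.walk u w) (G.back u w) = s)) /
        (Fintype.card D : ℝ) ^ x := by
    intro u
    by_contra hc
    push Not at hc
    have h1 := Finset.sum_lt_sum_of_nonempty (s := (univ : Finset S)) univ_nonempty
      fun s _ => hc s
    rw [← Finset.mul_sum, Finset.sum_comm] at h1
    have h2 : ∀ x ∈ range t, ∑ s : S, LS x (fun w => ind (A (G.walk u w) (G.back u w) = s)) /
        (Fintype.card D : ℝ) ^ x = 1 := by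
      intro x _
      rw [← Finset.sum_div, ← LS_sum]
      have : ∀ w : List D, ∑ s : S, ind (A (G.walk u w) (G.back u w) = s) = 1 := by
        intro w
        classical
        simp [ind]
      rw [LS_congr x fun w _ => this w, LS_const, mul_one, div_self]
      positivity
    rw [Finset.sum_congr rfl h2] at h1
    simp at h1
  choose σ hσ using h
  exact ⟨σ, hσ⟩

end Events

theorem ind_bad_rot (G : RG V D S) (σ : V → S) (x : V × D) :
    ind (Bad G σ (G.rot x)) = ind (Bad G σ x) := by
  refine ind_congr ?_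
  rw [Bad, Bad, G.rot_rot, G.R_symm]

/-- the final computation -/
theorem final_ineq {n t s C f γ K P Q I : ℝ} (hn : 0 < n) (hK : 0 < K) (ht : 1 ≤ t)
    (hs : 1 ≤ s) (hC : 0 < C) (hγ0 : 0 ≤ γ) (hγ : γ ≤ f)
    (hP : K * n * f * t ^ 2 / s ^ 2 ≤ P)
    (hQ : Q ≤ 2 * t * (n * K * (t * f * (C + 4 * (t * f)))))
    (hI : 0 ≤ I) (hcs : P ^ 2 ≤ Q * I) :
    1 / (4 * s ^ 4 * (C + 4)) * (t * min γ (1 / t)) * (n * (2 * t) * K) ≤ I := by
  have ht0 : (0 : ℝ) < t := by linarith
  have hs0 : (0 : ℝ) < s := by linarith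
  have hf0 : 0 ≤ f := hγ0.trans hγ
  set x0 : ℝ := t * min γ (1 / t) with hx0
  set x : ℝ := t * f with hx
  have h1 : x0 ≤ 1 := by
    calc x0 ≤ t * (1 / t) := mul_le_mul_of_nonneg_left (min_le_right _ _) ht0.le
      _ = 1 := by field_simp
  have h2 : x0 ≤ x := mul_le_mul_of_nonneg_left ((min_le_left _ _).trans hγ) ht0.le
  have h3 : 0 ≤ x0 := mul_nonneg ht0.le (le_min hγ0 (by positivity))
  rcases (h3.trans h2).eq_or_lt with hx1 | hx1
  · have : x0 = 0 := le_antisymm (by rw [hx1]; exact h2) h3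
    rw [this]
    simpa using hI
  · set B : ℝ := 2 * t * (n * K * (x * (C + 4 * x))) with hB
    have hB0 : 0 < B := by positivity
    have h4 : (K * n * x * t / s ^ 2) ^ 2 ≤ B * I := by
      have e : K * n * x * t / s ^ 2 = K * n * f * t ^ 2 / s ^ 2 := by rw [hx]; ring
      rw [e]
      calc (K * n * f * t ^ 2 / s ^ 2) ^ 2 ≤ P ^ 2 :=
            pow_le_pow_left₀ (by positivity) hP 2
        _ ≤ Q * I := hcs
        _ ≤ B * I := mul_le_mul_of_nonneg_right hQ hI
    have h5 : B * (1 / (4 * s ^ 4 * (C + 4)) * x0 * (n * (2 * t) * K)) ≤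
        (K * n * x * t / s ^ 2) ^ 2 := by
      have h6 : x0 * (C + 4 * x) ≤ x * (C + 4) := by nlinarith
      have e1 : B * (1 / (4 * s ^ 4 * (C + 4)) * x0 * (n * (2 * t) * K)) =
          (n ^ 2 * K ^ 2 * t ^ 2 * x / (s ^ 4 * (C + 4))) * (x0 * (C + 4 * x)) := by
        rw [hB]
        field_simp
        ring
      have e2 : (K * n * x * t / s ^ 2) ^ 2 =
          (n ^ 2 * K ^ 2 * t ^ 2 * x / (s ^ 4 * (C + 4))) * (x * (C + 4)) := by
        field_simp
      rw [e1, e2]
      exact mul_le_mul_of_nonneg_left h6 (by positivity)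
    exact le_of_mul_le_mul_left (h5.trans h4) hB0

end Pw

open Pw in
/-- **Module P** -/
theorem modP : ModP := by
  intro s lam hs h0 h1
  have hs' : (1 : ℝ) ≤ s := by exact_mod_cast hs
  have hlam : (0 : ℝ) < 1 - lam := by linarith
  set C : ℝ := 2 + 4 / (1 - lam) with hC
  have hC0 : 0 < C := by positivity
  refine ⟨1 / (4 * (s : ℝ) ^ 4 * (C + 4)), by positivity, ?_⟩
  intro V D S _ _ _ _ _ hcard G hspec γ hγ0 hgap t ht A
  rcases isEmpty_or_nonempty V with hV | hV
  · have : (Fintype.card V : ℝ) = 0 := by simp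
    rw [this]
    simp
  have hd : (0 : ℝ) < Fintype.card D := Nat.cast_pos.2 Fintype.card_pos
  have hn : (0 : ℝ) < Fintype.card V := Nat.cast_pos.2 Fintype.card_pos
  have hS : (0 : ℝ) < Fintype.card S := Nat.cast_pos.2 Fintype.card_pos
  have hSs : (Fintype.card S : ℝ) ≤ s := by exact_mod_cast hcard
  have ht' : (1 : ℝ) ≤ t := by exact_mod_cast ht
  obtain ⟨σ, hσ⟩ := exists_sigma G A t
  set n : ℝ := (Fintype.card V : ℝ) with hnd
  set δ : ℝ := (Fintype.card D : ℝ) with hdd
  set f : ℝ := (G.nviol σ : ℝ) / (n * δ) with hf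
  have hnf : (G.nviol σ : ℝ) = f * (n * δ) := by rw [hf]; field_simp
  have hγf : γ ≤ f := by
    have := hgap σ
    rw [hnf] at this
    exact le_of_mul_le_mul_right this (by positivity)
  have hsumfi : ∑ x, ind (Bad G σ x) = f * (n * δ) := by
    rw [← hnf, RG.nviol, Finset.card_filter]
    push_cast
    refine Finset.sum_congr rfl fun x _ => ?_
    rw [← ind_eq_ite]
    rfl
  -- the index set
  classical
  set N : V × (Fin (2 * t) × List.Vector D (2 * t - 1)) → ℝ :=
    fun x => Nn G A σ t x.1 x.2.1 x.2.2.toList with hN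
  set Cn : V × (Fin (2 * t) × List.Vector D (2 * t - 1)) → ℝ :=
    fun x => cnt G (fun y => ind (Bad G σ y)) x.1 x.2.2.toList with hCn
  set J : V × (Fin (2 * t) × List.Vector D (2 * t - 1)) → ℝ :=
    fun x => ind (¬ chk t (x.2.2.1.take x.2.1) (G.view x.1 (x.2.2.1.take x.2.1)) (A x.1)
              (A (G.walk x.1 (x.2.2.1.take x.2.1)))) with hJ
  have hI : (Nat.card {x : V × (Fin (2 * t) × List.Vector D (2 * t - 1)) //
            ¬ chk t (x.2.2.1.take x.2.1) (G.view x.1 (x.2.2.1.take x.2.1)) (A x.1)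
              (A (G.walk x.1 (x.2.2.1.take x.2.1)))} : ℝ) = ∑ x, J x := by
    rw [Nat.card_eq_fintype_card, Fintype.card_subtype, Finset.card_filter]
    push_cast
    refine Finset.sum_congr rfl fun x _ => ?_
    rw [← ind_eq_ite]
  rw [hI]
  have hsum3 : ∀ F : V → ℕ → List D → ℝ,
      ∑ x : V × (Fin (2 * t) × List.Vector D (2 * t - 1)), F x.1 x.2.1 x.2.2.toList =
        ∑ m ∈ range (2 * t), ∑ v, LS (2 * t - 1) (fun l => F v m l) := by
    intro F
    rw [Fintype.sum_prod_type]
    simp only [Fintype.sum_prod_type]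
    rw [Finset.sum_comm, ← Fin.sum_univ_eq_sum_range
      (fun m => ∑ v, LS (2 * t - 1) (fun l => F v m l)) (2 * t)]
    refine Finset.sum_congr rfl fun m _ => Finset.sum_congr rfl fun v _ => ?_
    rw [LS_eq_sum]
  -- Cauchy-Schwarz
  have hNJ : ∀ x, N x ≤ Cn x * J x := by
    intro x
    have hlen : x.2.2.toList.length = 2 * t - 1 := x.2.2.2
    by_cases h : chk t (x.2.2.1.take x.2.1) (G.view x.1 (x.2.2.1.take x.2.1)) (A x.1)
              (A (G.walk x.1 (x.2.2.1.take x.2.1)))
    · have e : N x = 0 := by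
        refine Nn_eq_zero G A σ t x.1 x.2.1 x.2.2.toList ?_ h
        rw [hlen]
        have := x.2.1.2
        omega
      have e2 : J x = 0 := ind_false (not_not.2 h)
      rw [e, e2, mul_zero]
    · have e2 : J x = 1 := ind_true h
      rw [e2, mul_one]
      exact Nn_le_cnt G A σ t x.1 x.2.1 x.2.2.toList (by rw [hlen]; omega)
  have hcs : (∑ x, N x) ^ 2 ≤ (∑ x, Cn x ^ 2) * ∑ x, J x := by
    have h2 : ∑ x, N x ≤ ∑ x, Cn x * J x := Finset.sum_le_sum fun x _ => hNJ x
    have h3 : 0 ≤ ∑ x, N x := Finset.sum_nonneg fun x _ => Nn_nonneg G A σ _ _ _ _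
    have h4 : ∑ x, J x ^ 2 = ∑ x, J x := Finset.sum_congr rfl fun x _ => ind_sq _
    calc (∑ x, N x) ^ 2 ≤ (∑ x, Cn x * J x) ^ 2 := pow_le_pow_left₀ h3 h2 2
      _ ≤ (∑ x, Cn x ^ 2) * ∑ x, J x ^ 2 := Finset.sum_mul_sq_le_sq_mul_sq univ Cn J
      _ = _ := by rw [h4]
  -- the first moment
  have hP : δ ^ (2 * t - 1) * n * f * (t : ℝ) ^ 2 / (s : ℝ) ^ 2 ≤ ∑ x, N x := by
    have e0 : ∑ x, N x = _ := hsum3 (fun v m l => Nn G A σ t v m l)
    rw [e0, sum_Nn G A σ t ht]
    have e1 : ∑ x ∈ range t, ∑ y ∈ range t, δ ^ (2 * t - 1 - (x + (y + 1))) *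
        ∑ e : V × D, ind (Bad G σ e) * (qx G A σ x e.1 * qx G A σ y (G.rot e).1) =
        ∑ e : V × D, ind (Bad G σ e) * (δ ^ (2 * t - 2) *
          ((∑ x ∈ range t, qx G A σ x e.1 / δ ^ x) *
            ∑ y ∈ range t, qx G A σ y (G.rot e).1 / δ ^ y)) := by
      have e2 : ∀ x ∈ range t, ∀ y ∈ range t, δ ^ (2 * t - 1 - (x + (y + 1))) *
          ∑ e : V × D, ind (Bad G σ e) * (qx G A σ x e.1 * qx G A σ y (G.rot e).1) =
          ∑ e : V × D, ind (Bad G σ e) * (δ ^ (2 * t - 2) *
            ((qx G A σ x e.1 / δ ^ x) * (qx G A σ y (G.rot e).1 / δ ^ y))) := by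
        intro x hx y hy
        rw [Finset.mul_sum]
        refine Finset.sum_congr rfl fun e _ => ?_
        have hx' := Finset.mem_range.1 hx
        have hy' := Finset.mem_range.1 hy
        have e3 : δ ^ (2 * t - 2) = δ ^ (2 * t - 1 - (x + (y + 1))) * (δ ^ x * δ ^ y) := by
          rw [← pow_add, ← pow_add]
          congr 1
          omega
        rw [e3]
        field_simp
      rw [Finset.sum_congr rfl fun x hx => Finset.sum_congr rfl fun y hy => e2 x hx y hy]
      rw [Finset.sum_congr rfl fun x _ => Finset.sum_comm, Finset.sum_comm]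
      refine Finset.sum_congr rfl fun e _ => ?_
      rw [Finset.sum_mul_sum, Finset.mul_sum, Finset.mul_sum]
      refine Finset.sum_congr rfl fun x _ => ?_
      rw [Finset.mul_sum, Finset.mul_sum]
    rw [e1]
    have hσ' : ∀ u, (t : ℝ) / s ≤ ∑ x ∈ range t, qx G A σ x u / δ ^ x := by
      intro u
      have h2 := hσ u
      have h3 : 0 ≤ ∑ x ∈ range t, qx G A σ x u / δ ^ x :=
        Finset.sum_nonneg fun x _ => div_nonneg (LS_nonneg x fun w _ => ind_nonneg _)
          (by positivity)
      rw [div_le_iff₀ (by linarith)]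
      calc (t : ℝ) ≤ (Fintype.card S : ℝ) * ∑ x ∈ range t, qx G A σ x u / δ ^ x := h2
        _ ≤ (s : ℝ) * ∑ x ∈ range t, qx G A σ x u / δ ^ x :=
          mul_le_mul_of_nonneg_right hSs h3
        _ = _ := mul_comm _ _
    have e4 : ∑ e : V × D, ind (Bad G σ e) * (δ ^ (2 * t - 2) * ((t : ℝ) / s * ((t : ℝ) / s))) ≤
        ∑ e : V × D, ind (Bad G σ e) * (δ ^ (2 * t - 2) *
          ((∑ x ∈ range t, qx G A σ x e.1 / δ ^ x) *
            ∑ y ∈ range t, qx G A σ y (G.rot e).1 / δ ^ y)) := by
      refine Finset.sum_le_sum fun e _ => ?_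
      refine mul_le_mul_of_nonneg_left (mul_le_mul_of_nonneg_left ?_ (by positivity))
        (ind_nonneg _)
      have ha : (0 : ℝ) ≤ (t : ℝ) / s := by positivity
      exact mul_le_mul (hσ' _) (hσ' _) ha (ha.trans (hσ' _))
    refine le_trans (le_of_eq ?_) e4
    rw [← Finset.sum_mul, hsumfi]
    have e5 : δ ^ (2 * t - 1) = δ ^ (2 * t - 2) * δ := by
      rw [← pow_succ]
      congr 1
      omega
    rw [e5]
    field_simp
  -- the second moment
  have hQ : ∑ x, Cn x ^ 2 ≤
      2 * t * (n * δ ^ (2 * t - 1) * (t * f * (C + 4 * (t * f)))) := by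
    have e0 : ∑ x, Cn x ^ 2 = _ :=
      hsum3 (fun v _ l => cnt G (fun y => ind (Bad G σ y)) v l ^ 2)
    rw [e0]
    have h2 := second_moment G (fun y => ind (Bad G σ y)) h0 h1 hspec
      (fun x => ind_bad_rot G σ x) (fun x => ind_nonneg _) (fun x => ind_sq _) f hsumfi
      (2 * t - 1)
    rw [Finset.sum_const, Finset.card_range, nsmul_eq_mul]
    push_cast
    refine mul_le_mul_of_nonneg_left (h2.trans ?_) (by positivity)
    refine mul_le_mul_of_nonneg_left ?_ (by positivity)
    have hk : (((2 * t - 1 : ℕ) : ℝ)) ≤ 2 * t := by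
      have : 2 * t - 1 ≤ 2 * t := Nat.sub_le _ _
      exact_mod_cast this
    have hk0 : (0 : ℝ) ≤ ((2 * t - 1 : ℕ) : ℝ) := Nat.cast_nonneg _
    have hf0 : 0 ≤ f := hγ0.trans hγf
    set k : ℝ := ((2 * t - 1 : ℕ) : ℝ) with hkd
    have a1 : k * f ≤ 2 * t * f := mul_le_mul_of_nonneg_right hk hf0
    have a2 : k ^ 2 * f ^ 2 ≤ (2 * t) ^ 2 * f ^ 2 :=
      mul_le_mul_of_nonneg_right (pow_le_pow_left₀ hk0 hk 2) (sq_nonneg f)
    have a3 : 2 * k * f / (1 - lam) ≤ 2 * (2 * t) * f / (1 - lam) := by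
      apply div_le_div_of_nonneg_right _ hlam.le
      nlinarith
    calc k * f + k ^ 2 * f ^ 2 + 2 * k * f / (1 - lam)
        ≤ 2 * t * f + (2 * t) ^ 2 * f ^ 2 + 2 * (2 * t) * f / (1 - lam) := by linarith
      _ = t * f * (C + 4 * (t * f)) := by rw [hC]; ring
  exact final_ineq hn (by positivity) ht' hs' hC0 hγ0 hγf hP hQ
    (Finset.sum_nonneg fun x _ => ind_nonneg _) hcs

end Pool.Agent.PCP
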