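import Pool.Agent.PCP.DefsF

/-!
# Powers of graphs
-/

namespace Pool.Agent.PCP

open TM2Lib

/-- product of matrices of rows -/
def prodRows (B A : List (List Bool)) : List (List Bool) :=
  B.flatMap fun r => A.map fun r' => r.flatMap fun x => r'.map fun y => x || y

/-- the product graph on `Fin (n₁ n₂)` -/
def prodG {n₁ n₂ : ℕ} (H₁ : SimpleGraph (Fin n₁)) (H₂ : SimpleGraph (Fin n₂)) :
    SimpleGraph (Fin (n₁ * n₂)) where
  Adj i j := H₁.Adj i.divNat j.divNat ∨ H₂.Adj i.modNat j.modNat
  symm := ⟨fun _ _ h => h.imp (fun h => h.symm) (fun h => h.symm)⟩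
  loopless := ⟨fun _ h => h.elim (fun h => H₁.irrefl h) (fun h => H₂.irrefl h)⟩

theorem flatMap_ofFn {β γ : Type} {n : ℕ} (f : Fin n → β) (g : β → List γ) :
    (List.ofFn f).flatMap g = (List.ofFn fun i => g (f i)).flatten := by
  rw [List.flatMap_def, List.map_ofFn]
  rfl

theorem map_ofFn' {β γ : Type} {n : ℕ} (f : Fin n → β) (g : β → γ) :
    (List.ofFn f).map g = List.ofFn fun i => g (f i) := by
  rw [List.map_ofFn]
  rfl

theorem ofFn_prod {β : Type} {m n : ℕ} (f : Fin m → Fin n → β) :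
    (List.ofFn fun i : Fin (m * n) => f i.divNat i.modNat) =
      (List.ofFn fun i : Fin m => List.ofFn fun j : Fin n => f i j).flatten := by
  rw [List.ofFn_mul]
  congr 1
  congr 1
  funext i
  congr 1
  funext j
  have hn : 0 < n := lt_of_le_of_lt (Nat.zero_le _) j.2
  congr 1
  · apply Fin.ext
    show ((i : ℕ) * n + j) / n = i
    rw [mul_comm, Nat.mul_add_div hn, Nat.div_eq_of_lt j.2, add_zero]
  · apply Fin.ext
    show ((i : ℕ) * n + j) % n = j
    rw [mul_comm, Nat.mul_add_mod, Nat.mod_eq_of_lt j.2]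

theorem prodRows_rows {n₁ n₂ : ℕ} (H₁ : SimpleGraph (Fin n₁)) (H₂ : SimpleGraph (Fin n₂)) :
    prodRows (rows H₁) (rows H₂) = rows (prodG H₁ H₂) := by
  classical
  unfold prodRows rows
  rw [flatMap_ofFn]
  have h0 : ∀ i j, decide ((prodG H₁ H₂).Adj i j) =
      (decide (H₁.Adj i.divNat j.divNat) || decide (H₂.Adj i.modNat j.modNat)) := by
    intro i j
    rw [Bool.eq_iff_iff, Bool.or_eq_true, decide_eq_true_iff, decide_eq_true_iff,
      decide_eq_true_iff]
    exact Iff.rfl
  have h1 := ofFn_prod (fun (i : Fin n₁) (i' : Fin n₂) => List.ofFn fun j : Fin (n₁ * n₂) =>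
    (decide (H₁.Adj i j.divNat) || decide (H₂.Adj i' j.modNat)))
  simp only [h0]
  rw [h1]
  congr 1
  congr 1
  funext i
  rw [map_ofFn']
  congr 1
  funext i'
  rw [flatMap_ofFn]
  have h2 := ofFn_prod (fun (j : Fin n₁) (j' : Fin n₂) =>
    (decide (H₁.Adj i j) || decide (H₂.Adj i' j')))
  rw [h2]
  congr 1
  congr 1
  funext j
  rw [map_ofFn']

theorem indepNum_prodG {n₁ n₂ : ℕ} (H₁ : SimpleGraph (Fin n₁)) (H₂ : SimpleGraph (Fin n₂)) :
    (prodG H₁ H₂).indepNum = H₁.indepNum * H₂.indepNum := by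
  classical
  apply le_antisymm
  · obtain ⟨I, hI⟩ := (prodG H₁ H₂).exists_isNIndepSet_indepNum
    rw [← hI.card_eq]
    have h1 : H₁.IsIndepSet ((I.image Fin.divNat : Finset (Fin n₁)) : Set (Fin n₁)) := by
      intro u hu v hv huv hadj
      rw [Finset.mem_coe, Finset.mem_image] at hu hv
      obtain ⟨x, hx, rfl⟩ := hu
      obtain ⟨y, hy, rfl⟩ := hv
      exact hI.isIndepSet (Finset.mem_coe.2 hx) (Finset.mem_coe.2 hy)
        (fun h => huv (by rw [h])) (Or.inl hadj)
    have h2 : ∀ u ∈ I.image Fin.divNat, (I.filter fun x => x.divNat = u).card ≤ H₂.indepNum := by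
      intro u _
      have h3 : H₂.IsIndepSet (((I.filter fun x => x.divNat = u).image Fin.modNat :
          Finset (Fin n₂)) : Set (Fin n₂)) := by
        intro a ha b hb hab hadj
        rw [Finset.mem_coe, Finset.mem_image] at ha hb
        obtain ⟨x, hx, rfl⟩ := ha
        obtain ⟨y, hy, rfl⟩ := hb
        rw [Finset.mem_filter] at hx hy
        exact hI.isIndepSet (Finset.mem_coe.2 hx.1) (Finset.mem_coe.2 hy.1)
          (fun h => hab (by rw [h])) (Or.inr hadj)
      have h4 : ((I.filter fun x => x.divNat = u).image Fin.modNat).card =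
          (I.filter fun x => x.divNat = u).card := by
        apply Finset.card_image_of_injOn
        intro x hx y hy hxy
        rw [Finset.mem_coe, Finset.mem_filter] at hx hy
        have h5 : x.divNat = y.divNat := hx.2.trans hy.2.symm
        apply finProdFinEquiv.symm.injective
        exact Prod.ext h5 hxy
      rw [← h4]
      exact h3.card_le_indepNum
    have h6 := Finset.card_le_mul_card_image I H₂.indepNum h2
    calc I.card ≤ H₂.indepNum * (I.image Fin.divNat).card := h6
      _ ≤ H₂.indepNum * H₁.indepNum := Nat.mul_le_mul_left _ h1.card_le_indepNum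
      _ = _ := mul_comm _ _
  · obtain ⟨I, hI⟩ := H₁.exists_isNIndepSet_indepNum
    obtain ⟨J, hJ⟩ := H₂.exists_isNIndepSet_indepNum
    rw [← hI.card_eq, ← hJ.card_eq, ← Finset.card_product,
      ← Finset.card_map finProdFinEquiv.toEmbedding]
    apply SimpleGraph.IsIndepSet.card_le_indepNum
    intro u hu v hv huv hadj
    rw [Finset.mem_coe, Finset.mem_map] at hu hv
    obtain ⟨x, hx, rfl⟩ := hu
    obtain ⟨y, hy, rfl⟩ := hv
    rw [Finset.mem_product] at hx hy
    have e1 : ∀ z : Fin n₁ × Fin n₂, (finProdFinEquiv z).divNat = z.1 := fun z =>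
      congrArg Prod.fst (finProdFinEquiv.symm_apply_apply z)
    have e2 : ∀ z : Fin n₁ × Fin n₂, (finProdFinEquiv z).modNat = z.2 := fun z =>
      congrArg Prod.snd (finProdFinEquiv.symm_apply_apply z)
    rcases hadj with h | h
    · have h' : H₁.Adj x.1 y.1 := by
        have h0 : H₁.Adj (finProdFinEquiv x).divNat (finProdFinEquiv y).divNat := h
        rwa [e1, e1] at h0
      exact hI.isIndepSet (Finset.mem_coe.2 hx.1) (Finset.mem_coe.2 hy.1) h'.ne h'
    · have h' : H₂.Adj x.2 y.2 := by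
        have h0 : H₂.Adj (finProdFinEquiv x).modNat (finProdFinEquiv y).modNat := h
        rwa [e2, e2] at h0
      exact hJ.isIndepSet (Finset.mem_coe.2 hx.2) (Finset.mem_coe.2 hy.2) h'.ne h'

theorem poly_prodRows {α : Type} [Enc α] {B A : α → List (List Bool)} (hB : TM2Lib.Poly B)
    (hA : TM2Lib.Poly A) : TM2Lib.Poly (fun x => prodRows (B x) (A x)) := by
  refine TM2Lib.Poly.flatMap (h := fun z : α × List Bool => (A z.1).map fun r' =>
    z.2.flatMap fun x => r'.map fun y => x || y) hB ?_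
  refine TM2Lib.Poly.map (h := fun z : (α × List Bool) × List Bool =>
    z.1.2.flatMap fun x => z.2.map fun y => x || y) (hA.comp TM2Lib.Poly.fst) ?_
  refine TM2Lib.Poly.flatMap (h := fun z : ((α × List Bool) × List Bool) × Bool =>
    z.1.2.map fun y => z.2 || y) TM2Lib.Poly.id.fst'.snd' ?_
  exact TM2Lib.Poly.map (h := fun z : (((α × List Bool) × List Bool) × Bool) × Bool =>
    z.1.2 || z.2) TM2Lib.Poly.id.fst'.snd' (TM2Lib.Poly.id.fst'.snd'.or TM2Lib.Poly.id.snd')

theorem indepNum_fin_one : (⊥ : SimpleGraph (Fin 1)).indepNum = 1 := by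
  apply le_antisymm
  · obtain ⟨I, hI⟩ := (⊥ : SimpleGraph (Fin 1)).exists_isNIndepSet_indepNum
    rw [← hI.card_eq]
    exact (Finset.card_le_univ I).trans (by simp)
  · have h : (⊥ : SimpleGraph (Fin 1)).IsIndepSet ((Finset.univ : Finset (Fin 1)) : Set (Fin 1)) :=
      fun _ _ _ _ _ h => h
    have := h.card_le_indepNum
    simpa using this

/-- **Module Pow** -/
theorem modPow : ModPow := by
  classical
  intro k
  induction k with
  | zero =>
    refine ⟨fun _ => rows (⊥ : SimpleGraph (Fin 1)), TM2Lib.Poly.const _, fun n H =>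
      ⟨1, ⊥, rfl, ?_⟩⟩
    rw [indepNum_fin_one, pow_zero]
  | succ k ih =>
    obtain ⟨T, hT, hTs⟩ := ih
    refine ⟨fun A => prodRows (T A) A, poly_prodRows hT TM2Lib.Poly.id, fun n H => ?_⟩
    obtain ⟨n', H', h1, h2⟩ := hTs n H
    refine ⟨n' * n, prodG H' H, ?_, ?_⟩
    · simp only
      rw [h1, prodRows_rows]
    · rw [indepNum_prodG, h2, pow_succ]

end Pool.Agent.PCP
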