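import Pool.Agent.PCP.Defs

/-!
# Regularisation (module R)
-/

namespace Pool.Agent.PCP

open Finset

/-! ## One cloud -/

theorem sum_invol {Y : Type} [Fintype Y] (r : Y → Y) (hr : ∀ x, r (r x) = x) (F : Y → ℝ) :
    ∑ x, F (r x) = ∑ x, F x := by
  refine Fintype.sum_equiv ⟨r, r, hr, hr⟩ _ _ ?_
  intro x
  rfl

theorem cloud (hM : ModM) (k : ℕ) [NeZero k] (b : ZMod k × ZMod k → Bool) :
    ∃ β : Bool, (univ.filter fun c => b c ≠ β).card ≤
      2 * (univ.filter fun z : (ZMod k × ZMod k) × Fin 8 => b z.1 ≠ b (mgg k z).1).card := by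
  classical
  obtain ⟨hinv, hspec⟩ := hM
  -- the majority
  obtain ⟨β, hβ⟩ : ∃ β : Bool, 2 * (univ.filter fun c => b c ≠ β).card ≤
      Fintype.card (ZMod k × ZMod k) := by
    by_cases h : 2 * (univ.filter fun c => b c ≠ false).card ≤ Fintype.card (ZMod k × ZMod k)
    · exact ⟨false, h⟩
    · refine ⟨true, ?_⟩
      have hc := Finset.card_filter_add_card_filter_not (s := (univ : Finset (ZMod k × ZMod k)))
        (fun c => b c ≠ false)
      have he : (univ.filter fun c => ¬ (b c ≠ false)) = univ.filter fun c => b c ≠ true := by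
        ext c
        cases b c <;> simp
      rw [he, card_univ] at hc
      omega
  refine ⟨β, ?_⟩
  set S := univ.filter fun c => b c ≠ β with hS
  set n : ℝ := (Fintype.card (ZMod k × ZMod k) : ℝ) with hn
  have hnpos : 0 < n := by
    rw [hn]
    exact_mod_cast Fintype.card_pos
  set s : ℝ := (S.card : ℝ) / n with hs
  set i : ZMod k × ZMod k → ℝ := fun c => if b c ≠ β then 1 else 0 with hi
  have hisum : ∑ c, i c = (S.card : ℝ) := by
    simp only [hi, hS, Finset.sum_boole]
  have hi2 : ∀ c, i c ^ 2 = i c := by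
    intro c
    simp only [hi]
    split_ifs <;> norm_num
  set f : ZMod k × ZMod k → ℝ := fun c => i c - s with hf
  have hfsum : ∑ c, f c = 0 := by
    simp only [hf, Finset.sum_sub_distrib, hisum, Finset.sum_const, card_univ, nsmul_eq_mul]
    rw [← hn, hs]
    field_simp
    ring
  have hf2 : ∑ c, f c ^ 2 = (S.card : ℝ) * (1 - s) := by
    have : ∀ c, f c ^ 2 = (1 - 2 * s) * i c + s ^ 2 := by
      intro c
      simp only [hf]
      have := hi2 c
      linear_combination this
    simp only [this, Finset.sum_add_distrib, ← Finset.mul_sum, hisum, Finset.sum_const, card_univ,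
      nsmul_eq_mul]
    rw [← hn, hs]
    field_simp
    ring
  have hs2 : s ≤ 1 / 2 := by
    rw [hs, div_le_iff₀ hnpos]
    have : (2 * (S.card : ℝ)) ≤ n := by
      rw [hn]
      exact_mod_cast hβ
    linarith
  have hspec' := hspec k f hfsum
  have hcount : ((univ.filter fun z : (ZMod k × ZMod k) × Fin 8 => b z.1 ≠ b (mgg k z).1).card : ℝ)
      = ∑ z : (ZMod k × ZMod k) × Fin 8, (f z.1 - f (mgg k z).1) ^ 2 := by
    rw [← Finset.sum_boole]
    refine Finset.sum_congr rfl fun z _ => ?_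
    simp only [hf, hi]
    generalize b z.1 = u
    generalize b (mgg k z).1 = v
    cases u <;> cases v <;> cases β <;> norm_num <;> ring
  have h1 : ∑ z : (ZMod k × ZMod k) × Fin 8, f z.1 ^ 2 = 8 * ∑ c, f c ^ 2 := by
    rw [Fintype.sum_prod_type]
    simp only [Finset.sum_const, card_univ, Fintype.card_fin, nsmul_eq_mul]
    rw [← Finset.mul_sum]
    norm_num
  have h2 : ∑ z : (ZMod k × ZMod k) × Fin 8, f (mgg k z).1 ^ 2 = 8 * ∑ c, f c ^ 2 := by
    rw [← h1]
    exact sum_invol (mgg k) (hinv k) (fun z => f z.1 ^ 2)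
  have h3 : ∑ z : (ZMod k × ZMod k) × Fin 8, (f z.1 - f (mgg k z).1) ^ 2 =
      16 * ∑ c, f c ^ 2 - 2 * ∑ z : (ZMod k × ZMod k) × Fin 8, f z.1 * f (mgg k z).1 := by
    have : ∀ z : (ZMod k × ZMod k) × Fin 8, (f z.1 - f (mgg k z).1) ^ 2 =
        f z.1 ^ 2 + f (mgg k z).1 ^ 2 - 2 * (f z.1 * f (mgg k z).1) := by
      intro z
      ring
    simp only [this, Finset.sum_sub_distrib, Finset.sum_add_distrib, h1, h2, ← Finset.mul_sum]
    ring
  have h4 := (abs_le.mp hspec').2
  have hSn : (0 : ℝ) ≤ (S.card : ℝ) := by positivity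
  have h5 : (S.card : ℝ) ≤ 2 * ((univ.filter fun z : (ZMod k × ZMod k) × Fin 8 =>
      b z.1 ≠ b (mgg k z).1).card : ℝ) := by
    rw [hcount, h3]
    have h6 : (1.4 : ℝ) * ∑ c, f c ^ 2 ≤ 16 * ∑ c, f c ^ 2 -
        2 * ∑ z : (ZMod k × ZMod k) × Fin 8, f z.1 * f (mgg k z).1 := by
      linarith
    have h7 : (S.card : ℝ) / 2 ≤ ∑ c, f c ^ 2 := by
      rw [hf2]
      nlinarith
    linarith
  exact_mod_cast h5

namespace RegData

variable {T X Pad : Type}

/-! ## The rotation map -/

section rot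

variable (A : RegData T X) {M : ℕ} (e : A.Vert Pad ≃ ZMod M × ZMod M)

theorem rot_glob (z : A.Vert Pad) (p : Fin 8) :
    A.rot e (z, .inr (.inr p)) =
      (e.symm (mgg M (e z, p)).1, .inr (.inr (mgg M (e z, p)).2)) := by
  rcases z with (τ | c) | z <;> rfl

theorem rot_test (τ : T) (j : Fin 4) :
    A.rot e (.inl (.inl τ), .inl j) = (.inl (.inr (A.q (τ, j))), .inl 0) := rfl

theorem rot_test' (τ : T) (p : Fin 8) :
    A.rot e (.inl (.inl τ), .inr (.inl p)) = (.inl (.inl τ), .inr (.inl p)) := rfl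

theorem rot_copy (c : Σ x : X, ZMod (A.k x) × ZMod (A.k x)) (j : Fin 4)
    (h : ¬ (j = 0 ∧ ∃ y, A.q y = c)) :
    A.rot e (.inl (.inr c), .inl j) = (.inl (.inr c), .inl j) := by
  unfold rot
  exact dif_neg h

theorem rot_q (y : T × Fin 4) :
    A.rot e (.inl (.inr (A.q y)), .inl 0) = (.inl (.inl y.1), .inl y.2) := by
  have h : (0 : Fin 4) = 0 ∧ ∃ y', A.q y' = A.q y := ⟨rfl, y, rfl⟩
  have h1 : A.rot e (.inl (.inr (A.q y)), .inl 0) =
      (.inl (.inl h.2.choose.1), .inl h.2.choose.2) := by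
    unfold rot
    exact dif_pos h
  rw [h1, A.q_inj h.2.choose_spec]

theorem rot_cloud (x : X) (c : ZMod (A.k x) × ZMod (A.k x)) (p : Fin 8) :
    A.rot e (.inl (.inr ⟨x, c⟩), .inr (.inl p)) =
      (.inl (.inr ⟨x, (mgg (A.k x) (c, p)).1⟩), .inr (.inl (mgg (A.k x) (c, p)).2)) := rfl

theorem rot_pad (z : Pad) (j : Fin 4) :
    A.rot e (.inr z, .inl j) = (.inr z, .inl j) := rfl

theorem rot_pad' (z : Pad) (p : Fin 8) :
    A.rot e (.inr z, .inr (.inl p)) = (.inr z, .inr (.inl p)) := rfl

/-! ## The constraints -/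

theorem con_test (τ : T) (j : Fin 4) (a b : S0) :
    A.con (Pad := Pad) (.inl (.inl τ), .inl j) a b = (A.P τ a && (a j == b 0)) := rfl

theorem con_copy (c : Σ x : X, ZMod (A.k x) × ZMod (A.k x)) (j : Fin 4)
    (h : ¬ (j = 0 ∧ ∃ y, A.q y = c)) (a b : S0) :
    A.con (Pad := Pad) (.inl (.inr c), .inl j) a b = true := by
  unfold con
  simp only [dif_neg h]

theorem con_q (y : T × Fin 4) (a b : S0) :
    A.con (Pad := Pad) (.inl (.inr (A.q y)), .inl 0) a b =
      (A.P y.1 b && (b y.2 == a 0)) := by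
  have h : (0 : Fin 4) = 0 ∧ ∃ y', A.q y' = A.q y := ⟨rfl, y, rfl⟩
  have h1 : A.con (Pad := Pad) (.inl (.inr (A.q y)), .inl 0) a b =
      (A.P h.2.choose.1 b && (b h.2.choose.2 == a 0)) := by
    unfold con
    simp only [dif_pos h]
  rw [h1, A.q_inj h.2.choose_spec]

theorem con_cloud (c : Σ x : X, ZMod (A.k x) × ZMod (A.k x)) (p : Fin 8) (a b : S0) :
    A.con (Pad := Pad) (.inl (.inr c), .inr (.inl p)) a b = (a 0 == b 0) := rfl

theorem con_test' (τ : T) (p : Fin 8) (a b : S0) :
    A.con (Pad := Pad) (.inl (.inl τ), .inr (.inl p)) a b = true := rfl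

theorem con_pad (z : Pad) (d : D0) (a b : S0) :
    A.con (Pad := Pad) (.inr z, d) a b = true := by
  rcases d with j | p | p <;> rfl

theorem con_glob (z : A.Vert Pad) (p : Fin 8) (a b : S0) :
    A.con (Pad := Pad) (z, .inr (.inr p)) a b = true := by
  rcases z with (τ | c) | z <;> rfl

theorem rot_rot (hM : ModM) (z : A.Vert Pad × D0) : A.rot e (A.rot e z) = z := by
  classical
  obtain ⟨v, d⟩ := z
  rcases d with j | p | p
  · rcases v with (τ | c) | z
    · rw [rot_test, rot_q]
    · by_cases h : j = 0 ∧ ∃ y, A.q y = c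
      · obtain ⟨rfl, y, rfl⟩ := h
        rw [rot_q, rot_test]
      · rw [rot_copy A e c j h, rot_copy A e c j h]
    · rw [rot_pad, rot_pad]
  · rcases v with (τ | ⟨x, c⟩) | z
    · rw [rot_test', rot_test']
    · rw [rot_cloud, rot_cloud]
      have := hM.1 (A.k x) (c, p)
      have h' : mgg (A.k x) ((mgg (A.k x) (c, p)).1, (mgg (A.k x) (c, p)).2) = (c, p) := this
      rw [h']
    · rw [rot_pad', rot_pad']
  · rw [rot_glob, rot_glob, e.apply_symm_apply]
    have := hM.1 M (e v, p)
    have h' : mgg M ((mgg M (e v, p)).1, (mgg M (e v, p)).2) = (e v, p) := this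
    rw [h', e.symm_apply_apply]

theorem con_symm (z : A.Vert Pad × D0) (a b : S0) :
    A.con (A.rot e z) b a = A.con z a b := by
  classical
  obtain ⟨v, d⟩ := z
  rcases d with j | p | p
  · rcases v with (τ | c) | z
    · rw [rot_test, con_q, con_test]
    · by_cases h : j = 0 ∧ ∃ y, A.q y = c
      · obtain ⟨rfl, y, rfl⟩ := h
        rw [rot_q, con_test, con_q]
      · rw [rot_copy A e c j h, con_copy A c j h, con_copy A c j h]
    · rw [rot_pad, con_pad, con_pad]
  · rcases v with (τ | ⟨x, c⟩) | z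
    · rw [rot_test', con_test', con_test']
    · rw [rot_cloud, con_cloud, con_cloud, Bool.eq_iff_iff]
      simp only [beq_iff_eq]
      exact eq_comm
    · rw [rot_pad', con_pad, con_pad]
  · rw [rot_glob, con_glob, con_glob]

end rot

/-- the regular constraint graph -/
noncomputable def graph (hM : ModM) (A : RegData T X) {M : ℕ}
    (e : A.Vert Pad ≃ ZMod M × ZMod M) : RG (A.Vert Pad) D0 S0 where
  rot := A.rot e
  rot_rot := A.rot_rot e hM
  R := A.con
  R_symm := A.con_symm e

/-! ## Completeness -/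

theorem graph_sat (hM : ModM) (A : RegData T X) {M : ℕ}
    (e : A.Vert Pad ≃ ZMod M × ZMod M) (β : X → Bool)
    (hβ : ∀ τ, A.P τ (fun j => β (A.q (τ, j)).1) = true) : (A.graph hM e).Sat := by
  classical
  let σ : A.Vert Pad → S0 := fun v => match v with
    | .inl (.inl τ) => fun j => β (A.q (τ, j)).1
    | .inl (.inr c) => fun _ => β c.1
    | .inr _ => fun _ => false
  refine ⟨σ, ?_⟩
  have key : ∀ z : A.Vert Pad × D0, A.con z (σ z.1) (σ (A.rot e z).1) = true := by
    rintro ⟨v, d⟩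
    rcases d with j | p | p
    · rcases v with (τ | c) | z
      · rw [rot_test, con_test]
        have h1 : A.P τ (σ (.inl (.inl τ))) = true := hβ τ
        rw [h1]
        show (true && (β (A.q (τ, j)).1 == β (A.q (τ, j)).1)) = true
        simp
      · by_cases h : j = 0 ∧ ∃ y, A.q y = c
        · obtain ⟨rfl, y, rfl⟩ := h
          rw [rot_q, con_q]
          have h1 : A.P y.1 (σ (.inl (.inl y.1))) = true := hβ y.1
          show (A.P y.1 (σ (.inl (.inl y.1))) && (β (A.q (y.1, y.2)).1 == β (A.q y).1)) = true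
          rw [h1]
          simp
        · rw [con_copy A c j h]
      · rw [con_pad]
    · rcases v with (τ | ⟨x, c⟩) | z
      · rw [con_test']
      · rw [rot_cloud, con_cloud]
        show (β x == β x) = true
        simp
      · rw [con_pad]
    · rw [con_glob]
  exact key

/-! ## The spectral bound -/

theorem graph_spec (hM : ModM) (A : RegData T X) {M : ℕ} [NeZero M]
    (e : A.Vert Pad ≃ ZMod M × ZMod M) [Fintype (A.Vert Pad)] :
    (A.graph hM e).Spec 0.965 := by
  classical
  intro f hf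
  -- global part
  have hglob : |∑ x : A.Vert Pad × Fin 8, f x.1 * f (e.symm (mgg M (e x.1, x.2)).1)| ≤
      7.3 * ∑ v, f v ^ 2 := by
    have h := hM.2 M (fun w => f (e.symm w)) (by
      rw [← hf]
      exact Fintype.sum_equiv e.symm _ _ (fun _ => rfl))
    have h1 : ∑ x : A.Vert Pad × Fin 8, f x.1 * f (e.symm (mgg M (e x.1, x.2)).1) =
        ∑ x : (ZMod M × ZMod M) × Fin 8, f (e.symm x.1) * f (e.symm (mgg M x).1) := by
      refine Fintype.sum_equiv (e.prodCongr (Equiv.refl _)) _ _ ?_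
      rintro ⟨v, p⟩
      simp
    have h2 : ∑ v, f v ^ 2 = ∑ w, f (e.symm w) ^ 2 :=
      Fintype.sum_equiv e _ _ (fun v => by simp)
    rw [h1, h2]
    exact h
  -- local part
  let r : A.Vert Pad × (Fin 4 ⊕ Fin 8) → A.Vert Pad × (Fin 4 ⊕ Fin 8) := fun y =>
    let z := A.rot e (y.1, match y.2 with | .inl j => .inl j | .inr p => .inr (.inl p))
    (z.1, match z.2 with | .inl j => .inl j | .inr (.inl p) => .inr p | .inr (.inr _) => .inl 0)
  have hr : ∀ y, r (r y) = y := by
    rintro ⟨v, d⟩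
    rcases d with j | p
    · rcases v with (τ | c) | z
      · simp only [r, rot_test, rot_q]
      · by_cases h : j = 0 ∧ ∃ y, A.q y = c
        · obtain ⟨rfl, y, rfl⟩ := h
          simp only [r, rot_test, rot_q]
        · simp only [r, rot_copy A e c j h]
      · simp only [r, rot_pad]
    · rcases v with (τ | ⟨x, c⟩) | z
      · simp only [r, rot_test']
      · simp only [r, rot_cloud]
        have := hM.1 (A.k x) (c, p)
        have h' : mgg (A.k x) ((mgg (A.k x) (c, p)).1, (mgg (A.k x) (c, p)).2) = (c, p) := this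
        rw [h']
      · simp only [r, rot_pad']
  have hloc : |∑ y : A.Vert Pad × (Fin 4 ⊕ Fin 8), f y.1 * f (r y).1| ≤ 12 * ∑ v, f v ^ 2 := by
    have h1 : ∑ y : A.Vert Pad × (Fin 4 ⊕ Fin 8), f y.1 ^ 2 = 12 * ∑ v, f v ^ 2 := by
      rw [Fintype.sum_prod_type]
      simp only [Finset.sum_const, card_univ, Fintype.card_sum, Fintype.card_fin, nsmul_eq_mul]
      rw [← Finset.mul_sum]
      norm_num
    have h2 : ∑ y : A.Vert Pad × (Fin 4 ⊕ Fin 8), f (r y).1 ^ 2 = 12 * ∑ v, f v ^ 2 := by
      rw [← h1]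
      exact sum_invol r hr (fun y => f y.1 ^ 2)
    calc |∑ y : A.Vert Pad × (Fin 4 ⊕ Fin 8), f y.1 * f (r y).1|
        ≤ ∑ y : A.Vert Pad × (Fin 4 ⊕ Fin 8), |f y.1 * f (r y).1| :=
          Finset.abs_sum_le_sum_abs _ _
      _ ≤ ∑ y : A.Vert Pad × (Fin 4 ⊕ Fin 8), (1 / 2 * f y.1 ^ 2 + 1 / 2 * f (r y).1 ^ 2) := by
          refine Finset.sum_le_sum fun y _ => ?_
          rw [abs_le]
          constructor <;> nlinarith [sq_nonneg (f y.1 + f (r y).1), sq_nonneg (f y.1 - f (r y).1)]
      _ = 12 * ∑ v, f v ^ 2 := by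
          rw [Finset.sum_add_distrib, ← Finset.mul_sum, ← Finset.mul_sum, h1, h2]
          ring
  -- decomposition
  have hdec : ∑ x : A.Vert Pad × D0, f x.1 * f (A.rot e x).1 =
      (∑ y : A.Vert Pad × (Fin 4 ⊕ Fin 8), f y.1 * f (r y).1) +
        ∑ x : A.Vert Pad × Fin 8, f x.1 * f (e.symm (mgg M (e x.1, x.2)).1) := by
    rw [Fintype.sum_prod_type, Fintype.sum_prod_type, Fintype.sum_prod_type,
      ← Finset.sum_add_distrib]
    refine Finset.sum_congr rfl fun v _ => ?_
    rw [Fintype.sum_sum_type, Fintype.sum_sum_type, Fintype.sum_sum_type, ← add_assoc]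
    congr 1
  show |∑ x : A.Vert Pad × D0, f x.1 * f (A.rot e x).1| ≤ _
  rw [hdec]
  have hcard : (Fintype.card D0 : ℝ) = 20 := by
    simp only [D0, Fintype.card_sum, Fintype.card_fin]
    norm_num
  rw [hcard]
  refine (abs_add_le _ _).trans ?_
  linarith

/-! ## Soundness -/

theorem graph_sound (hM : ModM) [Fintype T] [Fintype X] (A : RegData T X) {M : ℕ}
    (e : A.Vert Pad ≃ ZMod M × ZMod M) [Fintype (A.Vert Pad)] (σ : A.Vert Pad → S0) :
    ∃ β : X → Bool,
      (univ.filter fun τ => A.P τ (fun j => β (A.q (τ, j)).1) = false).card ≤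
        2 * (A.graph hM e).nviol σ := by
  classical
  have hk : ∀ x, NeZero (A.k x) := fun x => ⟨A.k_pos x⟩
  have hcl := fun x => cloud hM (A.k x) (fun c => σ (.inl (.inr ⟨x, c⟩)) 0)
  choose β hβ using hcl
  refine ⟨β, ?_⟩
  -- violated external edges at the tests
  set V1 : Finset (T × Fin 4) := univ.filter fun y =>
    (A.P y.1 (σ (.inl (.inl y.1))) && (σ (.inl (.inl y.1)) y.2 == σ (.inl (.inr (A.q y))) 0))
      = false with hV1
  -- violated cloud edges
  set V2 : Finset ((Σ x : X, ZMod (A.k x) × ZMod (A.k x)) × Fin 8) := univ.filter fun z =>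
    σ (.inl (.inr z.1)) 0 ≠ σ (.inl (.inr ⟨z.1.1, (mgg (A.k z.1.1) (z.1.2, z.2)).1⟩)) 0 with hV2
  -- deviating copies
  set S : Finset (Σ x : X, ZMod (A.k x) × ZMod (A.k x)) := univ.filter fun c =>
    σ (.inl (.inr c)) 0 ≠ β c.1 with hS
  have hSV : S.card ≤ 2 * V2.card := by
    have h1 : S.card = ∑ x : X, (univ.filter fun c : ZMod (A.k x) × ZMod (A.k x) =>
        σ (.inl (.inr ⟨x, c⟩)) 0 ≠ β x).card := by
      rw [hS, Finset.card_filter, Fintype.sum_sigma]
      refine Finset.sum_congr rfl fun x _ => ?_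
      rw [Finset.card_filter]
    have h2 : V2.card = ∑ x : X, (univ.filter fun z : (ZMod (A.k x) × ZMod (A.k x)) × Fin 8 =>
        σ (.inl (.inr ⟨x, z.1⟩)) 0 ≠ σ (.inl (.inr ⟨x, (mgg (A.k x) z).1⟩)) 0).card := by
      rw [hV2, Finset.card_filter, Fintype.sum_prod_type, Fintype.sum_sigma]
      refine Finset.sum_congr rfl fun x _ => ?_
      rw [Finset.card_filter]
      exact (Fintype.sum_prod_type (fun z : (ZMod (A.k x) × ZMod (A.k x)) × Fin 8 =>
        if σ (.inl (.inr ⟨x, z.1⟩)) 0 ≠ σ (.inl (.inr ⟨x, (mgg (A.k x) z).1⟩)) 0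
        then 1 else 0)).symm
    rw [h1, h2, Finset.mul_sum]
    exact Finset.sum_le_sum fun x _ => hβ x
  have hV : V1.card + V2.card ≤ (A.graph hM e).nviol σ := by
    have h0 : V1.card + V2.card = (V1.disjSum V2).card := (Finset.card_disjSum _ _).symm
    rw [h0]
    unfold RG.nviol
    refine Finset.card_le_card_of_injOn
      (fun u : (T × Fin 4) ⊕ ((Σ x : X, ZMod (A.k x) × ZMod (A.k x)) × Fin 8) => match u with
        | .inl y => ((.inl (.inl y.1), .inl y.2) : A.Vert Pad × D0)
        | .inr z => ((.inl (.inr z.1), .inr (.inl z.2)) : A.Vert Pad × D0)) ?_ ?_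
    · rintro (y | z) hu
      · have hy : y ∈ V1 := by
          simpa using hu
        rw [hV1, Finset.mem_filter] at hy
        simp only [Finset.coe_filter, Finset.mem_univ, true_and, Set.mem_ofPred_eq]
        show A.con (Pad := Pad) (.inl (.inl y.1), .inl y.2) (σ (.inl (.inl y.1)))
          (σ (A.rot e (.inl (.inl y.1), .inl y.2)).1) = false
        rw [rot_test, con_test]
        exact hy.2
      · have hz : z ∈ V2 := by
          simpa using hu
        rw [hV2, Finset.mem_filter] at hz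
        simp only [Finset.coe_filter, Finset.mem_univ, true_and, Set.mem_ofPred_eq]
        obtain ⟨⟨x, c⟩, p⟩ := z
        show A.con (Pad := Pad) (.inl (.inr ⟨x, c⟩), .inr (.inl p)) (σ (.inl (.inr ⟨x, c⟩)))
          (σ (A.rot e (.inl (.inr ⟨x, c⟩), .inr (.inl p))).1) = false
        rw [rot_cloud, con_cloud]
        simpa using hz.2
    · rintro (⟨y1, y2⟩ | ⟨z1, z2⟩) _ (⟨y1', y2'⟩ | ⟨z1', z2'⟩) _ h <;>
        simp only [Prod.mk.injEq, Sum.inl.injEq, Sum.inr.injEq, reduceCtorEq,
          and_false] at h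
      · rw [h.1, h.2]
      · rw [h.1, h.2]
  -- violated tests
  have hT : (univ.filter fun τ => A.P τ (fun j => β (A.q (τ, j)).1) = false).card ≤
      V1.card + S.card := by
    have h1 : (univ.filter fun τ => A.P τ (fun j => β (A.q (τ, j)).1) = false) ⊆
        V1.image Prod.fst ∪ (univ.filter fun y : T × Fin 4 => A.q y ∈ S).image Prod.fst := by
      intro τ hτ
      rw [Finset.mem_filter] at hτ
      by_contra hcon
      rw [Finset.mem_union, not_or, Finset.mem_image, Finset.mem_image] at hcon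
      obtain ⟨hc1, hc2⟩ := hcon
      have hq : ∀ j, σ (.inl (.inr (A.q (τ, j)))) 0 = β (A.q (τ, j)).1 := by
        intro j
        by_contra hne
        apply hc2
        refine ⟨(τ, j), ?_, rfl⟩
        rw [Finset.mem_filter]
        refine ⟨Finset.mem_univ _, ?_⟩
        rw [hS, Finset.mem_filter]
        exact ⟨Finset.mem_univ _, hne⟩
      have hv : ∀ j, (A.P τ (σ (.inl (.inl τ))) &&
          (σ (.inl (.inl τ)) j == σ (.inl (.inr (A.q (τ, j)))) 0)) = true := by
        intro j
        by_contra hne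
        apply hc1
        refine ⟨(τ, j), ?_, rfl⟩
        rw [hV1, Finset.mem_filter]
        refine ⟨Finset.mem_univ _, ?_⟩
        simpa using hne
      have hP : A.P τ (σ (.inl (.inl τ))) = true := by
        have := hv 0
        rw [Bool.and_eq_true] at this
        exact this.1
      have hσ : σ (.inl (.inl τ)) = fun j => β (A.q (τ, j)).1 := by
        funext j
        have := hv j
        rw [Bool.and_eq_true] at this
        have h2 := this.2
        rw [beq_iff_eq] at h2
        rw [h2, hq j]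
      rw [hσ, hτ.2] at hP
      exact Bool.false_ne_true hP
    refine (Finset.card_le_card h1).trans ((Finset.card_union_le _ _).trans ?_)
    refine add_le_add Finset.card_image_le (Finset.card_image_le.trans ?_)
    refine Finset.card_le_card_of_injOn A.q ?_ (A.q_inj.injOn)
    intro y hy
    simpa using hy
  omega

end RegData

/-- **Module R.** -/
theorem modR (hM : ModM) : ModR := by
  intro T X Pad _ _ _ A M _ e
  refine ⟨A.graph hM e, rfl, rfl, fun β hβ => A.graph_sat hM e β hβ,
    fun _ => A.graph_spec hM e, fun _ σ => ?_⟩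
  obtain ⟨β, hβ⟩ := A.graph_sound hM e σ
  exact ⟨β, hβ.trans (by omega)⟩

end Pool.Agent.PCP
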