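import Pool.Agent.PCP.StepGap
import Pool.Agent.TM2Lib.Unary

/-!
# Boards: the codes of regular constraint graphs
-/

namespace Pool.Agent.PCP

open Finset TM2Lib

noncomputable section

/-- the finite part of a cell -/
abbrev FI (S : Type) : Type := D0 → D0 × (S → S → Bool)

instance fintypeFI (S : Type) [Fintype S] : Fintype (FI S) := by
  classical
  exact inferInstance

/-- the cell of a vertex: the list of its 20 neighbours, and the rest -/
abbrev Cell (S : Type) : Type := List (Un × Un) × Fc (FI S)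

/-- boards -/
abbrev Bd (S : Type) : Type := List (List (Cell S))

/-- the number of a port -/
def ix (d : D0) : ℕ := Fintype.equivFin D0 d

/-- positions as data -/
def ps (p : ℕ × ℕ) : Un × Un := (⟨p.1⟩, ⟨p.2⟩)

/-- data as positions -/
def sp (p : Un × Un) : ℕ × ℕ := (p.1.n, p.2.n)

@[simp] theorem sp_ps (p : ℕ × ℕ) : sp (ps p) = p := rfl

/-- the position of a vertex -/
def vp {m : ℕ} (v : Fin m × Fin m) : ℕ × ℕ := (v.1, v.2)

theorem vp_injective {m : ℕ} : Function.Injective (vp (m := m)) := by
  rintro ⟨a, b⟩ ⟨c, d⟩ h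
  have h1 : (a : ℕ) = c := congrArg Prod.fst h
  have h2 : (b : ℕ) = d := congrArg Prod.snd h
  exact Prod.ext (Fin.ext h1) (Fin.ext h2)

variable {S : Type}

/-- make a cell -/
def mkc (p : D0 → ℕ × ℕ) (f : FI S) : Cell S :=
  (List.ofFn fun i : Fin (Fintype.card D0) => ps (p ((Fintype.equivFin D0).symm i)), ⟨f⟩)

/-- the cell of a vertex of a graph -/
def cellOf {m : ℕ} (G : RG (Fin m × Fin m) D0 S) (v : Fin m × Fin m) : Cell S :=
  mkc (fun d => vp (G.rot (v, d)).1) (fun d => ((G.rot (v, d)).2, G.R (v, d)))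

/-- make a board -/
def mkb (n : ℕ) (c : ℕ → ℕ → Cell S) : Bd S :=
  (List.range n).map fun i => (List.range n).map fun j => c i j

/-- the code of a graph -/
def code {m : ℕ} (G : RG (Fin m × Fin m) D0 S) : Bd S :=
  List.ofFn fun i : Fin m => List.ofFn fun j : Fin m => cellOf G (i, j)

theorem mkb_eq_code {n : ℕ} (G : RG (Fin n × Fin n) D0 S) (c : ℕ → ℕ → Cell S)
    (h : ∀ v : Fin n × Fin n, c v.1 v.2 = cellOf G v) : mkb n c = code G := by
  unfold mkb code
  apply List.ext_getElem
  · simp
  · intro i h1 h2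
    rw [List.getElem_map, List.getElem_range, List.getElem_ofFn]
    apply List.ext_getElem
    · simp
    · intro j h3 h4
      rw [List.getElem_map, List.getElem_range, List.getElem_ofFn]
      have hi : i < n := by simpa using h1
      have hj : j < n := by simpa using h3
      exact h (⟨i, hi⟩, ⟨j, hj⟩)

/-- the default cell -/
def dcell (S : Type) : Cell S := ([], ⟨fun _ => (.inl 0, fun _ _ => true)⟩)

/-- the cell at a position -/
def cat (b : Bd S) (p : ℕ × ℕ) : Cell S := (b.getD p.1 []).getD p.2 (dcell S)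

/-- the neighbour at a position -/
def nb (b : Bd S) (p : ℕ × ℕ) (d : D0) : ℕ × ℕ := sp ((cat b p).1.getD (ix d) (ps (0, 0)))

/-- the finite part at a position -/
def fi (b : Bd S) (p : ℕ × ℕ) : FI S := (cat b p).2.val

section code

variable {m : ℕ} (G : RG (Fin m × Fin m) D0 S) (v : Fin m × Fin m)

@[simp] theorem length_code : (code G).length = m := by simp [code]

theorem getD_ofFn {β : Type} {n : ℕ} (f : Fin n → β) (i : Fin n) (d : β) :
    (List.ofFn f).getD i d = f i := by
  rw [List.getD_eq_getElem _ _ (by rw [List.length_ofFn]; exact i.2), List.getElem_ofFn]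

theorem cat_code : cat (code G) (vp v) = cellOf G v := by
  unfold cat code vp
  simp only
  rw [getD_ofFn, getD_ofFn]

theorem nb_code (d : D0) : nb (code G) (vp v) d = vp (G.rot (v, d)).1 := by
  unfold nb
  rw [cat_code]
  unfold cellOf mkc ix
  simp only
  rw [getD_ofFn]
  simp

theorem fi_code : fi (code G) (vp v) = fun d => ((G.rot (v, d)).2, G.R (v, d)) := by
  unfold fi
  rw [cat_code]
  rfl

end code

/-- the end of a walk -/
def bwalk (b : Bd S) : ℕ × ℕ → List D0 → ℕ × ℕ
  | p, [] => p
  | p, d :: w => bwalk b (nb b p d) w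

/-- the view of a walk -/
def bview (b : Bd S) : ℕ × ℕ → List D0 → List (D0 × (S → S → Bool))
  | _, [] => []
  | p, d :: w => fi b p d :: bview b (nb b p d) w

theorem bwalk_code {m : ℕ} (G : RG (Fin m × Fin m) D0 S) (w : List D0) :
    ∀ v, bwalk (code G) (vp v) w = vp (G.walk v w) := by
  induction w with
  | nil => intro v; rfl
  | cons d w ih =>
    intro v
    rw [bwalk, nb_code, ih]
    rfl

theorem bview_code {m : ℕ} (G : RG (Fin m × Fin m) D0 S) (w : List D0) :
    ∀ v, bview (code G) (vp v) w = G.view v w := by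
  induction w with
  | nil => intro v; rfl
  | cons d w ih =>
    intro v
    rw [bview, nb_code, ih, fi_code]
    rfl

theorem length_bview (b : Bd S) (w : List D0) : ∀ p, (bview b p w).length = w.length := by
  induction w with
  | nil => intro p; rfl
  | cons d w ih => intro p; simp [bview, ih]

/-! ### polynomial time -/

section poly

variable {α β : Type} [Enc α] [Enc β] [Fintype S]

/-- positions that can be computed in polynomial time -/
def PPoly (f : α → ℕ × ℕ) : Prop := Poly (fun a => ps (f a))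

theorem PPoly.mk {f g : α → ℕ} (hf : UPoly f) (hg : UPoly g) : PPoly (fun a => (f a, g a)) :=
  Poly.pair hf hg

theorem PPoly.fst {f : α → ℕ × ℕ} (hf : PPoly f) : UPoly (fun a => (f a).1) :=
  Poly.fst' hf

theorem PPoly.snd {f : α → ℕ × ℕ} (hf : PPoly f) : UPoly (fun a => (f a).2) :=
  Poly.snd' hf

theorem PPoly.comp {g : β → ℕ × ℕ} {f : α → β} (hg : PPoly g) (hf : Poly f) :
    PPoly (fun a => g (f a)) := Poly.comp (g := fun b => ps (g b)) hg hf

theorem PPoly.sp : PPoly (fun p : Un × Un => sp p) := Poly.id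

theorem poly_mkc {p : α → D0 → ℕ × ℕ} {f : α → FI S} (hp : ∀ d, PPoly (fun a => p a d))
    (hf : FPoly f) : Poly (fun a => mkc (p a) (f a)) :=
  Poly.pair (Poly.ofFn (f := fun (i : Fin (Fintype.card D0)) a =>
    ps (p a ((Fintype.equivFin D0).symm i))) fun i => hp _) hf

theorem poly_cat {b : α → Bd S} {p : α → ℕ × ℕ} (hb : Poly b) (hp : PPoly p) :
    Poly (fun a => cat (b a) (p a)) :=
  Poly.getD (Poly.getD hb hp.fst (TM2Lib.Poly.const [])) hp.snd (TM2Lib.Poly.const _)

theorem ppoly_nb {b : α → Bd S} {p : α → ℕ × ℕ} (hb : Poly b) (hp : PPoly p) (d : D0) :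
    PPoly (fun a => nb (b a) (p a) d) :=
  Poly.getD (f := fun a => (cat (b a) (p a)).1) (g := fun _ => ix d)
    (h := fun _ => ps (0, 0)) (poly_cat hb hp).fst' (UPoly.const _) (TM2Lib.Poly.const _)

theorem fpoly_fi {b : α → Bd S} {p : α → ℕ × ℕ} (hb : Poly b) (hp : PPoly p) :
    FPoly (fun a => fi (b a) (p a)) := (poly_cat hb hp).snd'

theorem ppoly_bwalk {b : α → Bd S} (hb : Poly b) (w : List D0) : ∀ {p : α → ℕ × ℕ}, PPoly p →
    PPoly (fun a => bwalk (b a) (p a) w) := by
  induction w with
  | nil => intro p hp; exact hp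
  | cons d w ih => intro p hp; exact ih (ppoly_nb hb hp d)

theorem poly_bview {b : α → Bd S} (hb : Poly b) (w : List D0) : ∀ {p : α → ℕ × ℕ}, PPoly p →
    ∀ h : List (D0 × (S → S → Bool)) → β, Poly (fun a => h (bview (b a) (p a) w)) := by
  classical
  induction w with
  | nil => intro p _ h; exact TM2Lib.Poly.const (h [])
  | cons d w ih =>
    intro p hp h
    exact FPoly.cases (g := fun a => fi (b a) (p a) d)
      (h := fun a x => h (x :: bview (b a) (nb (b a) (p a) d) w))
      ((fpoly_fi hb hp).fmap fun f => f d)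
      (fun x => ih (ppoly_nb hb hp d) (fun l => h (x :: l)))

/-- tables -/
theorem poly_mkb {n : α → ℕ} {c : α → ℕ → ℕ → Cell S} (hn : UPoly n)
    (hc : Poly (fun p : (α × Un) × Un => c p.1.1 p.1.2.n p.2.n)) :
    Poly (fun a => mkb (n a) (c a)) :=
  Poly.tab (h := fun p : α × Un => (List.range (n p.1)).map fun j => c p.1 p.2.n j) hn
    (Poly.tab (h := fun q : (α × Un) × Un => c q.1.1 q.1.2.n q.2.n) (hn.comp Poly.fst) hc)

end poly

end

end Pool.Agent.PCP
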