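import Pool.Agent.PCP.Walk

/-!
# Transport of regular constraint graphs
-/

namespace Pool.Agent.PCP.RG

open Finset

variable {V V' D S : Type} (G : RG V D S) (e : V ≃ V')

theorem congr_rot (x : V' × D) : (G.congr e).rot x =
    (e (G.rot (e.symm x.1, x.2)).1, (G.rot (e.symm x.1, x.2)).2) := rfl

theorem congr_R (x : V' × D) : (G.congr e).R x = G.R (e.symm x.1, x.2) := rfl

theorem congr_sat (h : G.Sat) : (G.congr e).Sat := by
  obtain ⟨σ, hσ⟩ := h
  refine ⟨fun v => σ (e.symm v), fun x => ?_⟩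
  rw [congr_rot, congr_R]
  simp only [Equiv.symm_apply_apply]
  exact hσ (e.symm x.1, x.2)

theorem congr_nviol [Fintype V] [Fintype V'] [Fintype D] (σ : V' → S) :
    (G.congr e).nviol σ = G.nviol (fun v => σ (e v)) := by
  unfold nviol
  refine (Finset.card_bijective (fun x : V × D => (e x.1, x.2)) ?_ ?_).symm
  · exact ((Equiv.prodCongr e (Equiv.refl D))).bijective
  · intro x
    simp only [mem_filter, mem_univ, true_and]
    rw [congr_rot, congr_R]
    simp only [Equiv.symm_apply_apply]

theorem congr_gap [Fintype V] [Fintype V'] [Fintype D] {γ : ℝ} (h : G.Gap γ) :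
    (G.congr e).Gap γ := by
  intro σ
  rw [congr_nviol, ← Fintype.card_congr e]
  exact h _

theorem congr_spec [Fintype V] [Fintype V'] [Fintype D] {lam : ℝ} (h : G.Spec lam) :
    (G.congr e).Spec lam := by
  intro f hf
  have h1 : ∑ v, (fun v => f (e v)) v = 0 := by
    rw [← hf]
    exact e.sum_comp f
  have h2 := h (fun v => f (e v)) h1
  have h3 : ∑ v, f (e v) ^ 2 = ∑ v, f v ^ 2 := e.sum_comp (fun v => f v ^ 2)
  have h4 : ∑ x : V × D, f (e x.1) * f (e (G.rot x).1) =
      ∑ x : V' × D, f x.1 * f ((G.congr e).rot x).1 := by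
    rw [← (Equiv.prodCongr e (Equiv.refl D)).sum_comp
      (fun x : V' × D => f x.1 * f ((G.congr e).rot x).1)]
    refine Finset.sum_congr rfl fun x _ => ?_
    rw [congr_rot]
    simp
  rw [h3, h4] at h2
  exact h2

end Pool.Agent.PCP.RG
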