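import Mathlib
import Pool.Agent.TM2Lib.Poly

/-!
# The PCP theorem: shared definitions and the statements of the modules

Everything is elementary; alphabets, port sets and so on are finite types in `Type`.
-/

namespace Pool.Agent.PCP

open Finset

/-! ## Regular constraint graphs -/

/-- A regular constraint graph: vertices `V`, each vertex has the ports `D`; the rotation map
`rot` is an involution on `V × D` (the oriented edges); alphabet `S`; the constraint of the
oriented edge `x` is `R x`, and the two orientations of an edge have transposed constraints. -/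
structure RG (V D S : Type) where
  rot : V × D → V × D
  rot_rot : ∀ x, rot (rot x) = x
  R : V × D → S → S → Bool
  R_symm : ∀ x a b, R (rot x) b a = R x a b

namespace RG

variable {V D S : Type}

/-- the number of (oriented) edges violated by the assignment `σ` -/
def nviol [Fintype V] [Fintype D] (G : RG V D S) (σ : V → S) : ℕ :=
  (univ.filter fun x : V × D => G.R x (σ x.1) (σ (G.rot x).1) = false).card

/-- satisfiable -/
def Sat (G : RG V D S) : Prop := ∃ σ : V → S, ∀ x, G.R x (σ x.1) (σ (G.rot x).1) = true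

/-- every assignment violates at least a fraction `γ` of the edges -/
def Gap [Fintype V] [Fintype D] (G : RG V D S) (γ : ℝ) : Prop :=
  ∀ σ : V → S, γ * ((Fintype.card V : ℝ) * (Fintype.card D : ℝ)) ≤ (G.nviol σ : ℝ)

/-- spectral bound for the underlying graph -/
def Spec [Fintype V] [Fintype D] (G : RG V D S) (lam : ℝ) : Prop :=
  ∀ f : V → ℝ, ∑ v, f v = 0 →
    |∑ x : V × D, f x.1 * f (G.rot x).1| ≤ lam * (Fintype.card D : ℝ) * ∑ v, f v ^ 2

/-- Transport along a bijection of the vertices. -/
def congr {V' : Type} (G : RG V D S) (e : V ≃ V') : RG V' D S where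
  rot x := (e (G.rot (e.symm x.1, x.2)).1, (G.rot (e.symm x.1, x.2)).2)
  rot_rot x := by simp [G.rot_rot]
  R x := G.R (e.symm x.1, x.2)
  R_symm x a b := by
    have := G.R_symm (e.symm x.1, x.2) a b
    simpa using this

/-! ## Walks -/

/-- the end of the walk from `v` with the labels `w` -/
def walk (G : RG V D S) : V → List D → V
  | v, [] => v
  | v, d :: w => walk G (G.rot (v, d)).1 w

/-- the view along the walk: for each step the reverse port and the constraint -/
def view (G : RG V D S) : V → List D → List (D × (S → S → Bool))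
  | _, [] => []
  | v, d :: w => ((G.rot (v, d)).2, G.R (v, d)) :: view G (G.rot (v, d)).1 w

/-- the labels of the reversed walk -/
def back (G : RG V D S) (v : V) (w : List D) : List D := ((G.view v w).map Prod.fst).reverse

end RG

/-- The constraint of the `t`-th power for the walk with labels `w` and view `vw`, between the
opinions `α` of its first vertex and `β` of its last vertex: all steps `i` that are within
distance `< t` from both ends are checked. -/
def chk {D S : Type} (t : ℕ) (w : List D) (vw : List (D × (S → S → Bool)))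
    (α β : List D → S) : Prop :=
  ∀ (i : ℕ) (hi : i < vw.length), i < t → vw.length - 1 - i < t →
    (vw[i]).2 (α (w.take i)) (β (((vw.map Prod.fst).reverse).take (vw.length - 1 - i))) = true

/-- **Module P** (powering).  `c` depends on the size of the alphabet and on `lam` only. -/
def ModP : Prop :=
  ∀ (s : ℕ) (lam : ℝ), 1 ≤ s → 0 ≤ lam → lam < 1 → ∃ c : ℝ, 0 < c ∧
    ∀ (V D S : Type) [Fintype V] [Fintype D] [Fintype S] [Nonempty D] [Nonempty S],
      Fintype.card S ≤ s → ∀ (G : RG V D S), G.Spec lam → ∀ (γ : ℝ), 0 ≤ γ → G.Gap γ →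
      ∀ (t : ℕ), 1 ≤ t → ∀ (A : V → List D → S),
        c * (t * min γ (1 / t)) *
            ((Fintype.card V : ℝ) * (2 * t) * (Fintype.card D : ℝ) ^ (2 * t - 1)) ≤
          (Nat.card {x : V × (Fin (2 * t) × List.Vector D (2 * t - 1)) //
            ¬ chk t (x.2.2.1.take x.2.1) (G.view x.1 (x.2.2.1.take x.2.1)) (A x.1)
              (A (G.walk x.1 (x.2.2.1.take x.2.1)))} : ℝ)

/-! ## The Margulis–Gabber–Galil graphs -/

/-- rotation map of the 8-regular graph on `(ZMod m)²`: ports `0,1,2,3` are
`(x+2y, y)`, `(x, y+2x)`, `(x+2y+1, y)`, `(x, y+2x+1)`, ports `4,5,6,7` their inverses -/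
def mgg (m : ℕ) (z : (ZMod m × ZMod m) × Fin 8) : (ZMod m × ZMod m) × Fin 8 :=
  ((![(z.1.1 + 2 * z.1.2, z.1.2), (z.1.1, z.1.2 + 2 * z.1.1),
      (z.1.1 + 2 * z.1.2 + 1, z.1.2), (z.1.1, z.1.2 + 2 * z.1.1 + 1),
      (z.1.1 - 2 * z.1.2, z.1.2), (z.1.1, z.1.2 - 2 * z.1.1),
      (z.1.1 - 2 * z.1.2 - 1, z.1.2), (z.1.1, z.1.2 - 2 * z.1.1 - 1)] :
        Fin 8 → ZMod m × ZMod m) z.2,
    (![4, 5, 6, 7, 0, 1, 2, 3] : Fin 8 → Fin 8) z.2)

/-- **Module M** (Margulis, Gabber–Galil): the rotation map is an involution and the second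
eigenvalue is at most `7.3 < 8`. -/
def ModM : Prop :=
  (∀ (m : ℕ) (z : (ZMod m × ZMod m) × Fin 8), mgg m (mgg m z) = z) ∧
  ∀ (m : ℕ) [NeZero m] (f : ZMod m × ZMod m → ℝ), ∑ v, f v = 0 →
    |∑ x : (ZMod m × ZMod m) × Fin 8, f x.1 * f (mgg m x).1| ≤ 7.3 * ∑ v, f v ^ 2

/-! ## The long code test -/

section LongCode

variable {A : Type}

/-- The five tests on the tables `P` (first end), `Q` (second end), `B` (edge), where `r` is the
indicator function of the relation. -/
def ltest (r : A × A → ZMod 2) (P Q : (A → ZMod 2) → ZMod 2) (B : (A × A → ZMod 2) → ZMod 2)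
    (i : Fin 5) (φ : A → ZMod 2) (f g h : A × A → ZMod 2) : Prop :=
  match i with
  | 0 => B f + B g = B (f + g)
  | 1 => B f * B g = B h + B (h + f * g)
  | 2 => B h + B (h + r) = 1
  | 3 => P φ = B h + B (h + (fun x : A × A => φ x.1 : A × A → ZMod 2))
  | 4 => Q φ = B h + B (h + (fun x : A × A => φ x.2 : A × A → ZMod 2))

end LongCode

/-- **Module L** (long code test): there is a decoding function such that if the decoded symbols
violate the relation then at least a fraction `ρ` (absolute) of the tests fail. -/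
def ModL : Prop :=
  ∃ ρ : ℝ, 0 < ρ ∧ ∀ (A : Type) [Fintype A] [DecidableEq A] [Nonempty A],
    ∃ dec : ((A → ZMod 2) → ZMod 2) → A,
      ∀ (r : A × A → ZMod 2) (P Q : (A → ZMod 2) → ZMod 2) (B : (A × A → ZMod 2) → ZMod 2),
        r (dec P, dec Q) ≠ 1 →
        ρ * (5 * (Fintype.card (A → ZMod 2) : ℝ) * (Fintype.card (A × A → ZMod 2) : ℝ) ^ 3) ≤
          (Nat.card {x : Fin 5 × (A → ZMod 2) × (A × A → ZMod 2) × (A × A → ZMod 2) ×
            (A × A → ZMod 2) // ¬ ltest r P Q B x.1 x.2.1 x.2.2.1 x.2.2.2.1 x.2.2.2.2} : ℝ)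

/-! ## Regularisation -/

/-- The alphabet of the outcome: four bits. -/
abbrev S0 : Type := Fin 4 → Bool

/-- The ports: 4 external ones, 8 for the clouds, 8 for the global expander. -/
abbrev D0 : Type := Fin 4 ⊕ (Fin 8 ⊕ Fin 8)

/-- Data for the regularisation: tests `T` with predicate `P`, bits `X`; the bit `x` has a cloud
`(ZMod (k x))²` of copies; the `j`-th query of the test `τ` is the copy `q (τ, j)`. -/
structure RegData (T X : Type) where
  k : X → ℕ
  k_pos : ∀ x, k x ≠ 0
  q : T × Fin 4 → Σ x : X, ZMod (k x) × ZMod (k x)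
  q_inj : Function.Injective q
  P : T → S0 → Bool

namespace RegData

variable {T X Pad : Type}

/-- The vertices: tests, copies of bits, padding. -/
abbrev Vert (A : RegData T X) (Pad : Type) : Type :=
  (T ⊕ (Σ x : X, ZMod (A.k x) × ZMod (A.k x))) ⊕ Pad

open Classical in
/-- rotation map -/
noncomputable def rot (A : RegData T X) {M : ℕ} (e : A.Vert Pad ≃ ZMod M × ZMod M) :
    A.Vert Pad × D0 → A.Vert Pad × D0
  | (z, .inr (.inr p)) => (e.symm (mgg M (e z, p)).1, .inr (.inr (mgg M (e z, p)).2))
  | (.inl (.inl τ), .inl j) => (.inl (.inr (A.q (τ, j))), .inl 0)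
  | (.inl (.inl τ), .inr (.inl p)) => (.inl (.inl τ), .inr (.inl p))
  | (.inl (.inr c), .inl j) =>
      if h : j = 0 ∧ ∃ y, A.q y = c then (.inl (.inl h.2.choose.1), .inl h.2.choose.2)
      else (.inl (.inr c), .inl j)
  | (.inl (.inr ⟨x, c⟩), .inr (.inl p)) =>
      (.inl (.inr ⟨x, (mgg (A.k x) (c, p)).1⟩), .inr (.inl (mgg (A.k x) (c, p)).2))
  | (.inr z, .inl j) => (.inr z, .inl j)
  | (.inr z, .inr (.inl p)) => (.inr z, .inr (.inl p))

open Classical in
/-- constraints -/
noncomputable def con (A : RegData T X) : A.Vert Pad × D0 → S0 → S0 → Bool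
  | (.inl (.inl τ), .inl j) => fun a b => A.P τ a && (a j == b 0)
  | (.inl (.inr c), .inl j) => fun a b =>
      if h : j = 0 ∧ ∃ y, A.q y = c then A.P h.2.choose.1 b && (b h.2.choose.2 == a 0)
      else true
  | (.inl (.inr _), .inr (.inl _)) => fun a b => a 0 == b 0
  | _ => fun _ _ => true

end RegData

/-- **Module R** (regularisation): the above defines a regular constraint graph `G`; it has
spectral bound `0.965`; an assignment of the bits satisfying all tests extends to a satisfying
assignment; and from every assignment one reads off an assignment of the bits violating at most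
`4 * nviol` tests. -/
def ModR : Prop :=
  ∀ (T X Pad : Type) [Fintype T] [Fintype X] [Fintype Pad] (A : RegData T X) (M : ℕ)
    [NeZero M] (e : A.Vert Pad ≃ ZMod M × ZMod M),
    ∃ G : RG (A.Vert Pad) D0 S0, G.rot = A.rot e ∧ G.R = A.con ∧
      (∀ β : X → Bool, (∀ τ, A.P τ (fun j => β (A.q (τ, j)).1) = true) → G.Sat) ∧
      (∀ (_ : Fintype (A.Vert Pad)), G.Spec 0.965) ∧
      (∀ (_ : Fintype (A.Vert Pad)) (σ : A.Vert Pad → S0), ∃ β : X → Bool,
        (univ.filter fun τ => A.P τ (fun j => β (A.q (τ, j)).1) = false).card ≤ 4 * G.nviol σ)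

/-! ## Tableaux (Cook-Levin) -/

open TM2Lib

/-- The coordinates-dependent information at the cell `(i, j)` of the `m × m` board with the word
`w` written in row `0`. -/
abbrev Info : Type := (Bool × Bool) × (Bool × Bool × Bool) × Option Bool

/-- see `Info` -/
def info (w : List Bool) (m i j : ℕ) : Info :=
  ((decide (i = 0), decide (i + 1 = m)), (decide (j = 0), decide (j = 1), decide (j + 1 = m)),
    if i = 0 then w[j]? else none)

/-- **Module CL** (Cook-Levin tableau).  Row `0`, read from left to right, is the bottom-to-top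
content of the input stack: the reversed code of `x`, followed by the reversed code of `y` and the
pairing symbol (so the machine that is simulated computes `(y, x) ↦ R (x, y)`). -/
def ModCL : Prop :=
  ∀ (R : List Bool × List Bool → Bool) (p : Polynomial ℕ), Poly R →
    (∀ x y, R (x, y) = true → y.length ≤ p.eval x.length) →
    ∃ (Q : Type) (_ : Fintype Q) (_ : Nonempty Q) (H Vt : Q → Q → Bool) (U : Info → Q → Bool)
      (P : Polynomial ℕ), ∀ (x : List Bool) (m : ℕ), P.eval x.length ≤ m →
        ((∃ y, R (x, y) = true) ↔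
          ∃ σ : ℕ → ℕ → Q, ∀ i j, i < m → j < m →
            U (info (D.encD (Enc.enc x)).reverse m i j) (σ i j) = true ∧
            (j + 1 < m → H (σ i j) (σ i (j + 1)) = true) ∧
            (i + 1 < m → Vt (σ i j) (σ (i + 1) j) = true))

end Pool.Agent.PCP
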