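import Pool.Agent.PCP.StepPoly

/-!
# The initial graph, from a tiling problem
-/

namespace Pool.Agent.TM2Lib

variable {α : Type} [Enc α]

/-- Boolean values as elements of a finite type -/
theorem FPoly.ofBool {c : α → Bool} (hc : Poly c) : FPoly c :=
  (Poly.ite hc (FPoly.const true) (FPoly.const false)).of_eq fun a => by cases c a <;> rfl

/-- access to a word -/
theorem FPoly.getElem? {w : α → List Bool} {j : α → ℕ} (hw : Poly w) (hj : UPoly j) :
    FPoly (fun a => (w a)[j a]?) := by
  have h1 := Poly.getD (f := fun a => (w a).map fun b => (⟨some b⟩ : Fc (Option Bool)))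
    (g := j) (h := fun _ => (⟨none⟩ : Fc (Option Bool)))
    (Poly.map (h := fun p : α × Bool => (⟨some p.2⟩ : Fc (Option Bool))) hw
      ((Poly.ite Poly.id.snd' (FPoly.const (some true)) (FPoly.const (some false))).of_eq
        fun p => by rcases p with ⟨a, b⟩; cases b <;> rfl)) hj (Poly.const _)
  refine h1.of_eq fun a => ?_
  show _ = (⟨(w a)[j a]?⟩ : Fc (Option Bool))
  rw [List.getD_eq_getElem?_getD, List.getElem?_map]
  generalize (w a)[j a]? = o
  rcases o with _ | b <;> rfl

end Pool.Agent.TM2Lib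

namespace Pool.Agent.PCP

open Finset TM2Lib

noncomputable section

/-! ### the external ports -/

/-- rotation map of the grid -/
def rotE (m : ℕ) (x : (Fin m × Fin m) × Fin 4) : (Fin m × Fin m) × Fin 4 :=
  match x.2 with
  | 0 => if h : (x.1.2 : ℕ) + 1 = m then x else
      ((x.1.1, ⟨x.1.2 + 1, by have := x.1.2.2; omega⟩), 1)
  | 1 => if (x.1.2 : ℕ) = 0 then x else
      ((x.1.1, ⟨x.1.2 - 1, by have := x.1.2.2; omega⟩), 0)
  | 2 => if h : (x.1.1 : ℕ) + 1 = m then x else
      ((⟨x.1.1 + 1, by have := x.1.1.2; omega⟩, x.1.2), 3)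
  | 3 => if (x.1.1 : ℕ) = 0 then x else
      ((⟨x.1.1 - 1, by have := x.1.1.2; omega⟩, x.1.2), 2)

theorem rotE_rotE (m : ℕ) (x : (Fin m × Fin m) × Fin 4) : rotE m (rotE m x) = x := by
  obtain ⟨⟨a, b⟩, j⟩ := x
  fin_cases j
  · by_cases h : (b : ℕ) + 1 = m
    · have h1 : rotE m ((a, b), 0) = ((a, b), 0) := by
        simp only [rotE]; rw [dif_pos h]
      show rotE m (rotE m ((a, b), 0)) = _
      rw [h1, h1]
      rfl
    · show rotE m (rotE m ((a, b), 0)) = _
      have h1 : rotE m ((a, b), 0) = ((a, ⟨b + 1, by have := b.2; omega⟩), 1) := by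
        simp only [rotE]; rw [dif_neg h]
      rw [h1]
      simp only [rotE]
      rw [if_neg (by simp)]
      simp
  · by_cases h : (b : ℕ) = 0
    · have h1 : rotE m ((a, b), 1) = ((a, b), 1) := by
        simp only [rotE]; rw [if_pos h]
      show rotE m (rotE m ((a, b), 1)) = _
      rw [h1, h1]
      rfl
    · show rotE m (rotE m ((a, b), 1)) = _
      have h1 : rotE m ((a, b), 1) = ((a, ⟨b - 1, by have := b.2; omega⟩), 0) := by
        simp only [rotE]; rw [if_neg h]
      rw [h1]
      simp only [rotE]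
      rw [dif_neg (by have := b.2; omega)]
      refine Prod.ext (Prod.ext rfl (Fin.ext ?_)) rfl
      simp only
      omega
  · by_cases h : (a : ℕ) + 1 = m
    · have h1 : rotE m ((a, b), 2) = ((a, b), 2) := by
        simp only [rotE]; rw [dif_pos h]
      show rotE m (rotE m ((a, b), 2)) = _
      rw [h1, h1]
      rfl
    · show rotE m (rotE m ((a, b), 2)) = _
      have h1 : rotE m ((a, b), 2) = ((⟨a + 1, by have := a.2; omega⟩, b), 3) := by
        simp only [rotE]; rw [dif_neg h]
      rw [h1]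
      simp only [rotE]
      rw [if_neg (by simp)]
      simp
  · by_cases h : (a : ℕ) = 0
    · have h1 : rotE m ((a, b), 3) = ((a, b), 3) := by
        simp only [rotE]; rw [if_pos h]
      show rotE m (rotE m ((a, b), 3)) = _
      rw [h1, h1]
      rfl
    · show rotE m (rotE m ((a, b), 3)) = _
      have h1 : rotE m ((a, b), 3) = ((⟨a - 1, by have := a.2; omega⟩, b), 2) := by
        simp only [rotE]; rw [if_neg h]
      rw [h1]
      simp only [rotE]
      rw [dif_neg (by have := a.2; omega)]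
      refine Prod.ext (Prod.ext (Fin.ext ?_) rfl) rfl
      simp only
      omega

/-- rotation map of the initial graph -/
def rot0 (m : ℕ) [NeZero m] : (Fin m × Fin m) × D0 → (Fin m × Fin m) × D0
  | (v, .inl j) => ((rotE m (v, j)).1, .inl (rotE m (v, j)).2)
  | (v, .inr (.inl i)) => (v, .inr (.inl i))
  | (v, .inr (.inr i)) => ((fz m).symm (mgg m (fz m v, i)).1, .inr (.inr (mggR i)))

theorem rot0_rot0 (hM : ModM) (m : ℕ) [NeZero m] (x : (Fin m × Fin m) × D0) :
    rot0 m (rot0 m x) = x := by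
  obtain ⟨v, (j | (i | i))⟩ := x
  · show ((rotE m ((rotE m (v, j)).1, (rotE m (v, j)).2)).1,
      (.inl (rotE m ((rotE m (v, j)).1, (rotE m (v, j)).2)).2 : D0)) = _
    rw [Prod.mk.eta, rotE_rotE]
  · rfl
  · have h1 : ∀ z, mgg m z = ((mgg m z).1, mggR z.2) := fun _ => rfl
    have h2 := hM.1 m (fz m v, i)
    rw [h1 (fz m v, i)] at h2
    show ((fz m).symm (mgg m (fz m ((fz m).symm (mgg m (fz m v, i)).1), mggR i)).1,
      (.inr (.inr (mggR (mggR i))) : D0)) = _
    rw [Equiv.apply_symm_apply]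
    have h3 := congrArg Prod.fst h2
    have h4 := congrArg Prod.snd h2
    simp only at h3
    rw [h3, Equiv.symm_apply_apply]
    have h5 : mggR (mggR i) = i := h4
    rw [h5]

variable {Q : Type}

/-- constraints of the initial graph -/
def ncon0 (H Vt : Q → Q → Bool) (U : Info → Q → Bool) (I : Info) : D0 → Q → Q → Bool
  | .inl j =>
    match j with
    | 0 => fun a b => I.2.1.2.2 || H a b
    | 1 => fun a b => I.2.1.1 || H b a
    | 2 => fun a b => I.1.2 || Vt a b
    | 3 => fun a b => I.1.1 || Vt b a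
  | .inr (.inl _) => fun a b => U I a && U I b
  | .inr (.inr _) => fun _ _ => true

/-- the initial graph -/
def G0 (hM : ModM) (H Vt : Q → Q → Bool) (U : Info → Q → Bool) (w : List Bool) (m : ℕ)
    [NeZero m] : RG (Fin m × Fin m) D0 Q where
  rot := rot0 m
  rot_rot := rot0_rot0 hM m
  R x := ncon0 H Vt U (info w m x.1.1 x.1.2) x.2
  R_symm := by
    rintro ⟨⟨c, d⟩, (j | (i | i))⟩ a b
    · fin_cases j
      · by_cases h : (d : ℕ) + 1 = m
        · have h1 : rot0 m ((c, d), .inl 0) = ((c, d), .inl 0) := by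
            simp only [rot0, rotE]; rw [dif_pos h]
          show ncon0 H Vt U (info w m (rot0 m ((c, d), .inl 0)).1.1
            (rot0 m ((c, d), .inl 0)).1.2) (rot0 m ((c, d), .inl 0)).2 b a =
              ncon0 H Vt U (info w m c d) (.inl 0) a b
          rw [h1]
          simp [ncon0, info, h]
        · have h1 : rot0 m ((c, d), .inl 0) =
              ((c, ⟨d + 1, by have := d.2; omega⟩), .inl 1) := by
            simp only [rot0, rotE]; rw [dif_neg h]
          show ncon0 H Vt U (info w m (rot0 m ((c, d), .inl 0)).1.1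
            (rot0 m ((c, d), .inl 0)).1.2) (rot0 m ((c, d), .inl 0)).2 b a =
              ncon0 H Vt U (info w m c d) (.inl 0) a b
          rw [h1]
          simp [ncon0, info, h]
      · by_cases h : (d : ℕ) = 0
        · have h1 : rot0 m ((c, d), .inl 1) = ((c, d), .inl 1) := by
            simp only [rot0, rotE]; rw [if_pos h]
          show ncon0 H Vt U (info w m (rot0 m ((c, d), .inl 1)).1.1
            (rot0 m ((c, d), .inl 1)).1.2) (rot0 m ((c, d), .inl 1)).2 b a =
              ncon0 H Vt U (info w m c d) (.inl 1) a b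
          rw [h1]
          simp [ncon0, info, h]
        · have h1 : rot0 m ((c, d), .inl 1) =
              ((c, ⟨d - 1, by have := d.2; omega⟩), .inl 0) := by
            simp only [rot0, rotE]; rw [if_neg h]
          show ncon0 H Vt U (info w m (rot0 m ((c, d), .inl 1)).1.1
            (rot0 m ((c, d), .inl 1)).1.2) (rot0 m ((c, d), .inl 1)).2 b a =
              ncon0 H Vt U (info w m c d) (.inl 1) a b
          rw [h1]
          have h2 : ¬ ((d : ℕ) - 1 + 1 = m) := by have := d.2; omega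
          simp [ncon0, info, h, h2]
      · by_cases h : (c : ℕ) + 1 = m
        · have h1 : rot0 m ((c, d), .inl 2) = ((c, d), .inl 2) := by
            simp only [rot0, rotE]; rw [dif_pos h]
          show ncon0 H Vt U (info w m (rot0 m ((c, d), .inl 2)).1.1
            (rot0 m ((c, d), .inl 2)).1.2) (rot0 m ((c, d), .inl 2)).2 b a =
              ncon0 H Vt U (info w m c d) (.inl 2) a b
          rw [h1]
          simp [ncon0, info, h]
        · have h1 : rot0 m ((c, d), .inl 2) =
              ((⟨c + 1, by have := c.2; omega⟩, d), .inl 3) := by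
            simp only [rot0, rotE]; rw [dif_neg h]
          show ncon0 H Vt U (info w m (rot0 m ((c, d), .inl 2)).1.1
            (rot0 m ((c, d), .inl 2)).1.2) (rot0 m ((c, d), .inl 2)).2 b a =
              ncon0 H Vt U (info w m c d) (.inl 2) a b
          rw [h1]
          simp [ncon0, info, h]
      · by_cases h : (c : ℕ) = 0
        · have h1 : rot0 m ((c, d), .inl 3) = ((c, d), .inl 3) := by
            simp only [rot0, rotE]; rw [if_pos h]
          show ncon0 H Vt U (info w m (rot0 m ((c, d), .inl 3)).1.1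
            (rot0 m ((c, d), .inl 3)).1.2) (rot0 m ((c, d), .inl 3)).2 b a =
              ncon0 H Vt U (info w m c d) (.inl 3) a b
          rw [h1]
          simp [ncon0, info, h]
        · have h1 : rot0 m ((c, d), .inl 3) =
              ((⟨c - 1, by have := c.2; omega⟩, d), .inl 2) := by
            simp only [rot0, rotE]; rw [if_neg h]
          show ncon0 H Vt U (info w m (rot0 m ((c, d), .inl 3)).1.1
            (rot0 m ((c, d), .inl 3)).1.2) (rot0 m ((c, d), .inl 3)).2 b a =
              ncon0 H Vt U (info w m c d) (.inl 3) a b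
          rw [h1]
          have h2 : ¬ ((c : ℕ) - 1 + 1 = m) := by have := c.2; omega
          simp [ncon0, info, h, h2]
    · exact Bool.and_comm _ _
    · rfl

section facts

variable (hM : ModM) (H Vt : Q → Q → Bool) (U : Info → Q → Bool) (w : List Bool) (m : ℕ)
  [NeZero m]

theorem G0_sat (h : ∃ σ : ℕ → ℕ → Q, ∀ i j, i < m → j < m →
    U (info w m i j) (σ i j) = true ∧
    (j + 1 < m → H (σ i j) (σ i (j + 1)) = true) ∧
    (i + 1 < m → Vt (σ i j) (σ (i + 1) j) = true)) : (G0 hM H Vt U w m).Sat := by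
  obtain ⟨σ, hσ⟩ := h
  refine ⟨fun v => σ v.1 v.2, ?_⟩
  rintro ⟨⟨c, d⟩, (j | (i | i))⟩
  · fin_cases j
    · show ncon0 H Vt U (info w m c d) (.inl 0) (σ c d)
        (σ (rot0 m ((c, d), .inl 0)).1.1 (rot0 m ((c, d), .inl 0)).1.2) = true
      by_cases h : (d : ℕ) + 1 = m
      · simp [ncon0, info, h]
      · have h1 : rot0 m ((c, d), .inl 0) =
            ((c, ⟨d + 1, by have := d.2; omega⟩), .inl 1) := by
          simp only [rot0, rotE]; rw [dif_neg h]
        rw [h1]
        have := (hσ c d c.2 d.2).2.1 (by have := d.2; omega)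
        simp [ncon0, info, h, this]
    · show ncon0 H Vt U (info w m c d) (.inl 1) (σ c d)
        (σ (rot0 m ((c, d), .inl 1)).1.1 (rot0 m ((c, d), .inl 1)).1.2) = true
      by_cases h : (d : ℕ) = 0
      · simp [ncon0, info, h]
      · have h1 : rot0 m ((c, d), .inl 1) =
            ((c, ⟨d - 1, by have := d.2; omega⟩), .inl 0) := by
          simp only [rot0, rotE]; rw [if_neg h]
        rw [h1]
        have := (hσ c (d - 1) c.2 (by have := d.2; omega)).2.1 (by have := d.2; omega)
        have h2 : (d : ℕ) - 1 + 1 = d := by omega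
        rw [h2] at this
        simp [ncon0, info, h, this]
    · show ncon0 H Vt U (info w m c d) (.inl 2) (σ c d)
        (σ (rot0 m ((c, d), .inl 2)).1.1 (rot0 m ((c, d), .inl 2)).1.2) = true
      by_cases h : (c : ℕ) + 1 = m
      · simp [ncon0, info, h]
      · have h1 : rot0 m ((c, d), .inl 2) =
            ((⟨c + 1, by have := c.2; omega⟩, d), .inl 3) := by
          simp only [rot0, rotE]; rw [dif_neg h]
        rw [h1]
        have := (hσ c d c.2 d.2).2.2 (by have := c.2; omega)
        simp [ncon0, info, h, this]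
    · show ncon0 H Vt U (info w m c d) (.inl 3) (σ c d)
        (σ (rot0 m ((c, d), .inl 3)).1.1 (rot0 m ((c, d), .inl 3)).1.2) = true
      by_cases h : (c : ℕ) = 0
      · simp [ncon0, info, h]
      · have h1 : rot0 m ((c, d), .inl 3) =
            ((⟨c - 1, by have := c.2; omega⟩, d), .inl 2) := by
          simp only [rot0, rotE]; rw [if_neg h]
        rw [h1]
        have := (hσ (c - 1) d (by have := c.2; omega) d.2).2.2 (by have := c.2; omega)
        have h2 : (c : ℕ) - 1 + 1 = c := by omega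
        rw [h2] at this
        simp [ncon0, info, h, this]
  · show (U (info w m c d) (σ c d) && U (info w m c d) (σ c d)) = true
    rw [(hσ c d c.2 d.2).1]
    rfl
  · rfl

theorem G0_tiling [Nonempty Q] (h : (G0 hM H Vt U w m).Sat) :
    ∃ σ : ℕ → ℕ → Q, ∀ i j, i < m → j < m →
      U (info w m i j) (σ i j) = true ∧
      (j + 1 < m → H (σ i j) (σ i (j + 1)) = true) ∧
      (i + 1 < m → Vt (σ i j) (σ (i + 1) j) = true) := by
  classical
  obtain ⟨σ, hσ⟩ := h
  obtain ⟨q0⟩ := ‹Nonempty Q›
  refine ⟨fun i j => if h : i < m ∧ j < m then σ (⟨i, h.1⟩, ⟨j, h.2⟩) else q0, ?_⟩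
  intro i j hi hj
  have e0 : (if h : i < m ∧ j < m then σ (⟨i, h.1⟩, ⟨j, h.2⟩) else q0) =
      σ (⟨i, hi⟩, ⟨j, hj⟩) := dif_pos ⟨hi, hj⟩
  refine ⟨?_, ?_, ?_⟩
  · simp only
    rw [e0]
    have h1 := hσ ((⟨i, hi⟩, ⟨j, hj⟩), .inr (.inl 0))
    have h2 : (U (info w m i j) (σ (⟨i, hi⟩, ⟨j, hj⟩)) &&
      U (info w m i j) (σ (⟨i, hi⟩, ⟨j, hj⟩))) = true := h1
    rw [Bool.and_self] at h2
    exact h2
  · intro hj'
    have e1 : (if h : i < m ∧ j + 1 < m then σ (⟨i, h.1⟩, ⟨j + 1, h.2⟩) else q0) =
      σ (⟨i, hi⟩, ⟨j + 1, hj'⟩) := dif_pos ⟨hi, hj'⟩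
    simp only
    rw [e0, e1]
    have h1 := hσ ((⟨i, hi⟩, ⟨j, hj⟩), .inl 0)
    have h2 : rot0 m ((⟨i, hi⟩, ⟨j, hj⟩), .inl 0) = ((⟨i, hi⟩, ⟨j + 1, hj'⟩), .inl 1) := by
      simp only [rot0, rotE]; rw [dif_neg (by omega)]
    have h3 : ncon0 H Vt U (info w m i j) (.inl 0) (σ (⟨i, hi⟩, ⟨j, hj⟩))
      (σ (rot0 m ((⟨i, hi⟩, ⟨j, hj⟩), .inl 0)).1) = true := h1
    rw [h2] at h3
    have h4 : ¬ (j + 1 = m) := by omega
    simpa [ncon0, info, h4] using h3
  · intro hi'
    have e1 : (if h : i + 1 < m ∧ j < m then σ (⟨i + 1, h.1⟩, ⟨j, h.2⟩) else q0) =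
      σ (⟨i + 1, hi'⟩, ⟨j, hj⟩) := dif_pos ⟨hi', hj⟩
    simp only
    rw [e0, e1]
    have h1 := hσ ((⟨i, hi⟩, ⟨j, hj⟩), .inl 2)
    have h2 : rot0 m ((⟨i, hi⟩, ⟨j, hj⟩), .inl 2) = ((⟨i + 1, hi'⟩, ⟨j, hj⟩), .inl 3) := by
      simp only [rot0, rotE]; rw [dif_neg (by omega)]
    have h3 : ncon0 H Vt U (info w m i j) (.inl 2) (σ (⟨i, hi⟩, ⟨j, hj⟩))
      (σ (rot0 m ((⟨i, hi⟩, ⟨j, hj⟩), .inl 2)).1) = true := h1
    rw [h2] at h3
    have h4 : ¬ (i + 1 = m) := by omega
    simpa [ncon0, info, h4] using h3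

end facts

end

end Pool.Agent.PCP
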