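import Pool.Agent.PCP.Init

/-!
# The initial graph: gap, spectral bound, code
-/

namespace Pool.Agent.PCP

open Finset TM2Lib

noncomputable section

variable {Q : Type}

/-- an unsatisfiable graph has a small gap -/
theorem gap_of_not_sat {V : Type} [Fintype V] (G : RG V D0 Q) (h : ¬ G.Sat) :
    G.Gap (1 / ((Fintype.card V : ℝ) * (Fintype.card D0 : ℝ))) := by
  intro σ
  have h1 : 1 ≤ G.nviol σ := by
    by_contra hc
    have h2 : G.nviol σ = 0 := by omega
    unfold RG.nviol at h2
    rw [Finset.card_eq_zero, Finset.filter_eq_empty_iff] at h2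
    apply h
    refine ⟨σ, fun x => ?_⟩
    have := h2 (mem_univ x)
    simpa using this
  have h3 : (1 : ℝ) ≤ (G.nviol σ : ℝ) := by exact_mod_cast h1
  refine le_trans ?_ h3
  by_cases h0 : (Fintype.card V : ℝ) * (Fintype.card D0 : ℝ) = 0
  · rw [h0]
    norm_num
  · rw [one_div, inv_mul_cancel₀ h0]

/-- trivial bound for a bilinear form of an involution -/
theorem invol_bound {V P : Type} [Fintype V] [Fintype P] (ρ : V × P → V × P)
    (h : ∀ x, ρ (ρ x) = x) (f : V → ℝ) :
    |∑ x : V × P, f x.1 * f (ρ x).1| ≤ (Fintype.card P : ℝ) * ∑ v, f v ^ 2 := by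
  have h1 : ∑ x : V × P, f x.1 ^ 2 = (Fintype.card P : ℝ) * ∑ v, f v ^ 2 := by
    rw [Fintype.sum_prod_type]
    simp only [Finset.sum_const, Finset.card_univ, nsmul_eq_mul]
    rw [Finset.mul_sum]
  have hb : Function.Bijective ρ := by
    refine ⟨fun x y hxy => ?_, fun x => ⟨ρ x, h x⟩⟩
    rw [← h x, hxy, h y]
  have h2 : ∑ x : V × P, f (ρ x).1 ^ 2 = ∑ x : V × P, f x.1 ^ 2 :=
    (Equiv.ofBijective ρ hb).sum_comp (fun x : V × P => f x.1 ^ 2)
  have h3 : ∀ x : V × P, |f x.1 * f (ρ x).1| ≤ (f x.1 ^ 2 + f (ρ x).1 ^ 2) / 2 := by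
    intro x
    rw [abs_mul]
    have := sq_nonneg (|f x.1| - |f (ρ x).1|)
    have e1 := sq_abs (f x.1)
    have e2 := sq_abs (f (ρ x).1)
    nlinarith
  calc |∑ x : V × P, f x.1 * f (ρ x).1| ≤ ∑ x : V × P, |f x.1 * f (ρ x).1| :=
        Finset.abs_sum_le_sum_abs _ _
    _ ≤ ∑ x : V × P, (f x.1 ^ 2 + f (ρ x).1 ^ 2) / 2 := Finset.sum_le_sum fun x _ => h3 x
    _ = (∑ x : V × P, f x.1 ^ 2 + ∑ x : V × P, f (ρ x).1 ^ 2) / 2 := by
        rw [← Finset.sum_add_distrib, Finset.sum_div]
    _ = (Fintype.card P : ℝ) * ∑ v, f v ^ 2 := by rw [h2, h1]; ring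

theorem sum_split {V A B C : Type} [Fintype V] [Fintype A] [Fintype B] [Fintype C]
    (g : V × (A ⊕ (B ⊕ C)) → ℝ) : ∑ x, g x = ∑ x : V × A, g (x.1, .inl x.2) +
      (∑ x : V × B, g (x.1, .inr (.inl x.2)) + ∑ x : V × C, g (x.1, .inr (.inr x.2))) := by
  rw [Fintype.sum_prod_type, Fintype.sum_prod_type, Fintype.sum_prod_type,
    Fintype.sum_prod_type, ← Finset.sum_add_distrib, ← Finset.sum_add_distrib]
  refine Finset.sum_congr rfl fun v _ => ?_
  rw [Fintype.sum_sum_type, Fintype.sum_sum_type]

section facts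

variable (hM : ModM) (H Vt : Q → Q → Bool) (U : Info → Q → Bool) (w : List Bool) (m : ℕ)
  [NeZero m]

theorem G0_spec : (G0 hM H Vt U w m).Spec 0.965 := by
  intro f hf
  have hD : (Fintype.card D0 : ℝ) = 20 := by
    have : Fintype.card D0 = 20 := by decide
    rw [this]
    norm_num
  have hsplit : ∑ x : (Fin m × Fin m) × D0, f x.1 * f ((G0 hM H Vt U w m).rot x).1 =
      ∑ x : (Fin m × Fin m) × Fin 4, f x.1 * f (rotE m x).1 +
      (∑ x : (Fin m × Fin m) × Fin 8, f x.1 * f x.1 +
        ∑ x : (Fin m × Fin m) × Fin 8, f x.1 * f ((fz m).symm (mgg m (fz m x.1, x.2)).1)) := by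
    rw [sum_split]
    rfl
  have h1 := invol_bound (rotE m) (rotE_rotE m) f
  have h2 := invol_bound (fun x : (Fin m × Fin m) × Fin 8 => x) (fun _ => rfl) f
  have h3 : |∑ x : (Fin m × Fin m) × Fin 8, f x.1 * f ((fz m).symm (mgg m (fz m x.1, x.2)).1)| ≤
      7.3 * ∑ v, f v ^ 2 := by
    have h4 := hM.2 m (fun z => f ((fz m).symm z)) (by
      rw [← hf]
      exact (fz m).symm.sum_comp f)
    have h5 : ∑ v, f ((fz m).symm v) ^ 2 = ∑ v, f v ^ 2 :=
      (fz m).symm.sum_comp (fun v => f v ^ 2)
    have h6 : ∑ x : (ZMod m × ZMod m) × Fin 8, f ((fz m).symm x.1) *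
        f ((fz m).symm (mgg m x).1) = ∑ x : (Fin m × Fin m) × Fin 8,
          f x.1 * f ((fz m).symm (mgg m (fz m x.1, x.2)).1) := by
      rw [← (Equiv.prodCongr (fz m) (Equiv.refl (Fin 8))).sum_comp
        (fun x : (ZMod m × ZMod m) × Fin 8 => f ((fz m).symm x.1) * f ((fz m).symm (mgg m x).1))]
      refine Finset.sum_congr rfl fun x _ => ?_
      show f ((fz m).symm (fz m x.1)) * _ = _
      rw [Equiv.symm_apply_apply]
      rfl
    rw [h5, h6] at h4
    exact h4
  rw [hsplit, hD]
  simp only [Fintype.card_fin, Nat.cast_ofNat] at h1 h2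
  have h7 := abs_add_le (∑ x : (Fin m × Fin m) × Fin 4, f x.1 * f (rotE m x).1)
    (∑ x : (Fin m × Fin m) × Fin 8, f x.1 * f x.1 +
        ∑ x : (Fin m × Fin m) × Fin 8, f x.1 * f ((fz m).symm (mgg m (fz m x.1, x.2)).1))
  have h8 := abs_add_le (∑ x : (Fin m × Fin m) × Fin 8, f x.1 * f x.1)
        (∑ x : (Fin m × Fin m) × Fin 8, f x.1 * f ((fz m).symm (mgg m (fz m x.1, x.2)).1))
  have h9 : (0.965 * 20 : ℝ) = 4 + (8 + 7.3) := by norm_num
  rw [h9]
  linarith

/-- neighbours in the initial graph -/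
def npos0 (m : ℕ) (x : ℕ × ℕ) : D0 → ℕ × ℕ
  | .inl j =>
    match j with
    | 0 => if decide (x.2 + 1 = m) then x else (x.1, x.2 + 1)
    | 1 => (x.1, x.2 - 1)
    | 2 => if decide (x.1 + 1 = m) then x else (x.1 + 1, x.2)
    | 3 => (x.1 - 1, x.2)
  | .inr (.inl _) => x
  | .inr (.inr i) => mggN m x i

/-- reverse ports in the initial graph -/
def nport0 (I : Info) : D0 → D0
  | .inl j =>
    match j with
    | 0 => if I.2.1.2.2 then .inl 0 else .inl 1
    | 1 => if I.2.1.1 then .inl 1 else .inl 0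
    | 2 => if I.1.2 then .inl 2 else .inl 3
    | 3 => if I.1.1 then .inl 3 else .inl 2
  | .inr (.inl i) => .inr (.inl i)
  | .inr (.inr i) => .inr (.inr (mggR i))

/-- cells of the initial board -/
def cell0 (H Vt : Q → Q → Bool) (U : Info → Q → Bool) (w : List Bool) (m i j : ℕ) : Cell Q :=
  mkc (npos0 m (i, j)) (fun d => (nport0 (info w m i j) d, ncon0 H Vt U (info w m i j) d))

/-- the initial board -/
def board0 (H Vt : Q → Q → Bool) (U : Info → Q → Bool) (w : List Bool) (m : ℕ) : Bd Q :=
  mkb m (cell0 H Vt U w m)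

theorem board0_eq : board0 H Vt U w m = code (G0 hM H Vt U w m) := by
  apply mkb_eq_code
  rintro ⟨c, d⟩
  unfold cell0 cellOf
  congr 1
  · funext p
    rcases p with j | (i | i)
    · fin_cases j
      · show npos0 m (c, d) (.inl 0) = vp (rot0 m ((c, d), .inl 0)).1
        by_cases h : (d : ℕ) + 1 = m
        · have h1 : rot0 m ((c, d), .inl 0) = ((c, d), .inl 0) := by
            simp only [rot0, rotE]; rw [dif_pos h]
          rw [h1]
          simp [npos0, h, vp]
        · have h1 : rot0 m ((c, d), .inl 0) =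
              ((c, ⟨d + 1, by have := d.2; omega⟩), .inl 1) := by
            simp only [rot0, rotE]; rw [dif_neg h]
          rw [h1]
          simp [npos0, h, vp]
      · show npos0 m (c, d) (.inl 1) = vp (rot0 m ((c, d), .inl 1)).1
        by_cases h : (d : ℕ) = 0
        · have h1 : rot0 m ((c, d), .inl 1) = ((c, d), .inl 1) := by
            simp only [rot0, rotE]; rw [if_pos h]
          rw [h1]
          simp [npos0, h, vp]
        · have h1 : rot0 m ((c, d), .inl 1) =
              ((c, ⟨d - 1, by have := d.2; omega⟩), .inl 0) := by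
            simp only [rot0, rotE]; rw [if_neg h]
          rw [h1]
          simp [npos0, vp]
      · show npos0 m (c, d) (.inl 2) = vp (rot0 m ((c, d), .inl 2)).1
        by_cases h : (c : ℕ) + 1 = m
        · have h1 : rot0 m ((c, d), .inl 2) = ((c, d), .inl 2) := by
            simp only [rot0, rotE]; rw [dif_pos h]
          rw [h1]
          simp [npos0, h, vp]
        · have h1 : rot0 m ((c, d), .inl 2) =
              ((⟨c + 1, by have := c.2; omega⟩, d), .inl 3) := by
            simp only [rot0, rotE]; rw [dif_neg h]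
          rw [h1]
          simp [npos0, h, vp]
      · show npos0 m (c, d) (.inl 3) = vp (rot0 m ((c, d), .inl 3)).1
        by_cases h : (c : ℕ) = 0
        · have h1 : rot0 m ((c, d), .inl 3) = ((c, d), .inl 3) := by
            simp only [rot0, rotE]; rw [if_pos h]
          rw [h1]
          simp [npos0, h, vp]
        · have h1 : rot0 m ((c, d), .inl 3) =
              ((⟨c - 1, by have := c.2; omega⟩, d), .inl 2) := by
            simp only [rot0, rotE]; rw [if_neg h]
          rw [h1]
          simp [npos0, vp]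
    · rfl
    · show mggN m (vp (c, d)) i = vp ((fz m).symm (mgg m (fz m (c, d), i)).1)
      rw [mgg_fz]
  · funext p
    refine Prod.ext ?_ rfl
    rcases p with j | (i | i)
    · fin_cases j
      · show nport0 (info w m c d) (.inl 0) = (rot0 m ((c, d), .inl 0)).2
        by_cases h : (d : ℕ) + 1 = m
        · have h1 : rot0 m ((c, d), .inl 0) = ((c, d), .inl 0) := by
            simp only [rot0, rotE]; rw [dif_pos h]
          rw [h1]
          simp [nport0, info, h]
        · have h1 : rot0 m ((c, d), .inl 0) =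
              ((c, ⟨d + 1, by have := d.2; omega⟩), .inl 1) := by
            simp only [rot0, rotE]; rw [dif_neg h]
          rw [h1]
          simp [nport0, info, h]
      · show nport0 (info w m c d) (.inl 1) = (rot0 m ((c, d), .inl 1)).2
        by_cases h : (d : ℕ) = 0
        · have h1 : rot0 m ((c, d), .inl 1) = ((c, d), .inl 1) := by
            simp only [rot0, rotE]; rw [if_pos h]
          rw [h1]
          simp [nport0, info, h]
        · have h1 : rot0 m ((c, d), .inl 1) =
              ((c, ⟨d - 1, by have := d.2; omega⟩), .inl 0) := by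
            simp only [rot0, rotE]; rw [if_neg h]
          rw [h1]
          simp [nport0, info, h]
      · show nport0 (info w m c d) (.inl 2) = (rot0 m ((c, d), .inl 2)).2
        by_cases h : (c : ℕ) + 1 = m
        · have h1 : rot0 m ((c, d), .inl 2) = ((c, d), .inl 2) := by
            simp only [rot0, rotE]; rw [dif_pos h]
          rw [h1]
          simp [nport0, info, h]
        · have h1 : rot0 m ((c, d), .inl 2) =
              ((⟨c + 1, by have := c.2; omega⟩, d), .inl 3) := by
            simp only [rot0, rotE]; rw [dif_neg h]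
          rw [h1]
          simp [nport0, info, h]
      · show nport0 (info w m c d) (.inl 3) = (rot0 m ((c, d), .inl 3)).2
        by_cases h : (c : ℕ) = 0
        · have h1 : rot0 m ((c, d), .inl 3) = ((c, d), .inl 3) := by
            simp only [rot0, rotE]; rw [if_pos h]
          rw [h1]
          simp [nport0, info, h]
        · have h1 : rot0 m ((c, d), .inl 3) =
              ((⟨c - 1, by have := c.2; omega⟩, d), .inl 2) := by
            simp only [rot0, rotE]; rw [if_neg h]
          rw [h1]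
          simp [nport0, info, h]
    · rfl
    · rfl

end facts

section poly

variable {α : Type} [Enc α] [Fintype Q]

theorem fpoly_info {w : α → List Bool} {m i j : α → ℕ} (hw : TM2Lib.Poly w) (hm : UPoly m)
    (hi : UPoly i) (hj : UPoly j) : FPoly (fun a => info (w a) (m a) (i a) (j a)) := by
  have h0 : FPoly (fun a => decide (i a = 0)) := FPoly.ofBool (hi.eq (UPoly.const 0))
  have h1 : FPoly (fun a => decide (i a + 1 = m a)) :=
    FPoly.ofBool ((hi.add (UPoly.const 1)).eq hm)
  have h2 : FPoly (fun a => decide (j a = 0)) := FPoly.ofBool (hj.eq (UPoly.const 0))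
  have h3 : FPoly (fun a => decide (j a = 1)) := FPoly.ofBool (hj.eq (UPoly.const 1))
  have h4 : FPoly (fun a => decide (j a + 1 = m a)) :=
    FPoly.ofBool ((hj.add (UPoly.const 1)).eq hm)
  have h5 : FPoly (fun a => (w a)[j a]?) := FPoly.getElem? hw hj
  have h6 := (h0.pair h5).fmap (fun z => if z.1 then z.2 else none)
  refine FPoly.of_eq ((h0.pair h1).pair ((h2.pair (h3.pair h4)).pair h6)) fun a => ?_
  unfold info
  simp only [decide_eq_true_eq]

theorem ppoly_npos0 {m : α → ℕ} {x : α → ℕ × ℕ} (hm : UPoly m) (hx : PPoly x) (d : D0) :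
    PPoly (fun a => npos0 (m a) (x a) d) := by
  have h1 := hx.fst
  have h2 := hx.snd
  rcases d with j | (i | i)
  · fin_cases j
    · refine TM2Lib.Poly.of_eq (TM2Lib.Poly.ite ((h2.add (UPoly.const 1)).eq hm) hx
        (PPoly.mk h1 (h2.add (UPoly.const 1)))) fun a => ?_
      show _ = ps (if decide ((x a).2 + 1 = m a) then x a else ((x a).1, (x a).2 + 1))
      split_ifs <;> rfl
    · exact PPoly.mk h1 (h2.sub (UPoly.const 1))
    · refine TM2Lib.Poly.of_eq (TM2Lib.Poly.ite ((h1.add (UPoly.const 1)).eq hm) hx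
        (PPoly.mk (h1.add (UPoly.const 1)) h2)) fun a => ?_
      show _ = ps (if decide ((x a).1 + 1 = m a) then x a else ((x a).1 + 1, (x a).2))
      split_ifs <;> rfl
    · exact PPoly.mk (h1.sub (UPoly.const 1)) h2
  · exact hx
  · exact ppoly_mggN hm hx i

theorem poly_board0 (H Vt : Q → Q → Bool) (U : Info → Q → Bool) {w : α → List Bool}
    {m : α → ℕ} (hw : TM2Lib.Poly w) (hm : UPoly m) :
    TM2Lib.Poly (fun a => board0 H Vt U (w a) (m a)) := by
  refine poly_mkb hm ?_
  have hw' : TM2Lib.Poly (fun p : (α × Un) × Un => w p.1.1) := hw.comp TM2Lib.Poly.id.fst'.fst'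
  have hm' : UPoly (fun p : (α × Un) × Un => m p.1.1) := hm.comp TM2Lib.Poly.id.fst'.fst'
  have hi : UPoly (fun p : (α × Un) × Un => p.1.2.n) := UPoly.n.comp TM2Lib.Poly.id.fst'.snd'
  have hj : UPoly (fun p : (α × Un) × Un => p.2.n) := UPoly.n.comp TM2Lib.Poly.id.snd'
  exact poly_mkc (fun d => ppoly_npos0 hm' (PPoly.mk hi hj) d)
    ((fpoly_info hw' hm' hi hj).fmap
      (fun I => (fun d => (nport0 I d, ncon0 H Vt U I d) : FI Q)))

end poly

end

end Pool.Agent.PCP
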