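import Pool.Agent.PCP.Init2
import Pool.Agent.TM2Lib.Bits

/-!
# Iteration of the step: the PCP theorem as a gap reduction
-/

namespace Pool.Agent.PCP

open Finset TM2Lib

noncomputable section

/-! ### sizes -/

theorem sz_list_le {β : Type} [Enc β] (l : List β) (b : ℕ) (h : ∀ x ∈ l, sz x ≤ b) :
    sz l ≤ l.length * (b + 1) + 1 := by
  induction l with
  | nil => simp
  | cons x l ih =>
    rw [sz_cons, List.length_cons, Nat.add_mul, one_mul]
    have h1 := ih fun y hy => h y (List.mem_cons_of_mem _ hy)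
    have h2 := h x List.mem_cons_self
    omega

variable {S : Type} [Fintype S]

theorem sz_cellOf {n : ℕ} (G : RG (Fin n × Fin n) D0 S) (v : Fin n × Fin n) :
    sz (cellOf G v) ≤ 20 * (4 * n + 4) + 2 * Fintype.card (FI S) + 3 := by
  unfold cellOf mkc
  rw [sz_pair]
  have h1 : sz (⟨fun d => ((G.rot (v, d)).2, G.R (v, d))⟩ : Fc (FI S)) ≤
      2 * Fintype.card (FI S) + 1 := by
    have h2 : sz (⟨fun d => ((G.rot (v, d)).2, G.R (v, d))⟩ : Fc (FI S)) =
      2 * (Fintype.equivFin (FI S) (fun d => ((G.rot (v, d)).2, G.R (v, d))) : ℕ) + 1 := sz_un _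
    rw [h2]
    have := (Fintype.equivFin (FI S) (fun d => ((G.rot (v, d)).2, G.R (v, d)))).2
    omega
  have h3 := sz_list_le (List.ofFn fun i : Fin (Fintype.card D0) =>
    ps (vp (G.rot (v, (Fintype.equivFin D0).symm i)).1)) (4 * n + 3) (by
      intro x hx
      rw [List.mem_ofFn] at hx
      obtain ⟨i, rfl⟩ := hx
      unfold ps vp
      rw [sz_pair, sz_Un, sz_Un]
      have h4 := (G.rot (v, (Fintype.equivFin D0).symm i)).1.1.2
      have h5 := (G.rot (v, (Fintype.equivFin D0).symm i)).1.2.2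
      simp only
      omega)
  rw [List.length_ofFn] at h3
  have h6 : Fintype.card D0 = 20 := by decide
  have h7 : Fintype.card D0 * (4 * n + 3 + 1) = 20 * (4 * n + 3 + 1) := by rw [h6]
  rw [h7] at h3
  simp only
  omega

/-- bound for the size of the code of a graph -/
def szP (S : Type) [Fintype S] : Polynomial ℕ :=
  Polynomial.X * (Polynomial.X * (20 * (4 * Polynomial.X + 4) +
    Polynomial.C (2 * Fintype.card (FI S)) + 3 + 1) + 1 + 1) + 1

theorem sz_code {n : ℕ} (G : RG (Fin n × Fin n) D0 S) : sz (code G) ≤ (szP S).eval n := by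
  unfold code szP
  have h1 := sz_list_le (List.ofFn fun i : Fin n => List.ofFn fun j : Fin n => cellOf G (i, j))
    (n * (20 * (4 * n + 4) + 2 * Fintype.card (FI S) + 3 + 1) + 1) (by
      intro x hx
      rw [List.mem_ofFn] at hx
      obtain ⟨i, rfl⟩ := hx
      refine (sz_list_le _ (20 * (4 * n + 4) + 2 * Fintype.card (FI S) + 3) ?_).trans ?_
      · intro y hy
        rw [List.mem_ofFn] at hy
        obtain ⟨j, rfl⟩ := hy
        exact sz_cellOf G _
      · rw [List.length_ofFn])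
  rw [List.length_ofFn] at h1
  simpa using h1

/-! ### gaps -/

theorem gap_mono {V D : Type} [Fintype V] [Fintype D] {G : RG V D S} {γ γ' : ℝ}
    (h : G.Gap γ) (hle : γ' ≤ γ) : G.Gap γ' := by
  intro σ
  refine le_trans ?_ (h σ)
  gcongr

theorem size_bounds {m : ℕ} (hm : m ≠ 0) : 2 ^ Nat.size m ≤ 2 * m ∧ m ≤ 2 ^ Nat.size m := by
  constructor
  · have h0 : 0 < Nat.size m := Nat.size_pos.2 (Nat.pos_of_ne_zero hm)
    have h1 : 2 ^ (Nat.size m - 1) ≤ m := Nat.lt_size.1 (by omega)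
    have h2 : 2 ^ Nat.size m = 2 * 2 ^ (Nat.size m - 1) := by
      rw [← pow_succ']
      congr 1
      omega
    omega
  · exact (Nat.lt_size_self m).le

/-- **One iterated reduction**: the iterates of the step. -/
theorem iterate_step (c : ℝ) (hc : 0 < c)
    (hstep : ∀ (t : ℕ), 1 ≤ t → ∀ (m : ℕ), m ≠ 0 → ∀ (G : RG (Fin m × Fin m) D0 S0),
        ∃ G' : RG (Fin (m * kap S0 t) × Fin (m * kap S0 t)) D0 S0, stepB t (code G) = code G' ∧
          (G.Sat → G'.Sat) ∧ G'.Spec 0.965 ∧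
          (G.Spec 0.965 → ∀ γ : ℝ, 0 ≤ γ → G.Gap γ → G'.Gap (c * (t * min γ (1 / t)))))
    (t : ℕ) (ht : 1 ≤ t) (hct : 2 ≤ c * t) (m : ℕ) (hm : m ≠ 0)
    (G : RG (Fin m × Fin m) D0 S0) (hG : G.Spec 0.965) (k : ℕ) :
    ∃ (n : ℕ) (G' : RG (Fin n × Fin n) D0 S0), n ≠ 0 ∧ n = m * kap S0 t ^ k ∧
      (stepB t)^[k] (code G) = code G' ∧ (G.Sat → G'.Sat) ∧ G'.Spec 0.965 ∧
      ∀ γ : ℝ, 0 ≤ γ → G.Gap γ → G'.Gap (min (2 ^ k * γ) c) := by
  induction k with
  | zero =>
    refine ⟨m, G, hm, by simp, rfl, fun h => h, hG, fun γ _ h => gap_mono h ?_⟩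
    rw [pow_zero, one_mul]
    exact min_le_left _ _
  | succ k ih =>
    obtain ⟨n, G1, hn, hn', hcode, hsat, hspec, hgap⟩ := ih
    obtain ⟨G2, h1, h2, h3, h4⟩ := hstep t ht n hn G1
    refine ⟨n * kap S0 t, G2, Nat.mul_ne_zero hn (NeZero.ne _), ?_, ?_, fun h => h2 (hsat h), h3,
      ?_⟩
    · rw [hn', pow_succ, mul_assoc]
    · rw [Function.iterate_succ_apply', hcode, h1]
    · intro γ hγ hg
      have hmin : 0 ≤ min (2 ^ k * γ) c := le_min (by positivity) hc.le
      refine gap_mono (h4 hspec _ hmin (hgap γ hγ hg)) ?_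
      have ht0 : (0 : ℝ) < t := by exact_mod_cast ht
      have e1 : c * (t * min (min (2 ^ k * γ) c) (1 / t)) =
          min (c * t * min (2 ^ k * γ) c) c := by
        rw [mul_min_of_nonneg _ _ ht0.le, mul_min_of_nonneg _ _ hc.le]
        congr 1
        · ring
        · field_simp
      rw [e1]
      refine le_min ?_ (min_le_right _ _)
      have e2 : 2 * min (2 ^ k * γ) c ≤ c * t * min (2 ^ k * γ) c :=
        mul_le_mul_of_nonneg_right hct hmin
      refine le_trans ?_ e2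
      rw [mul_min_of_nonneg _ _ (by norm_num : (0 : ℝ) ≤ 2)]
      refine le_min ?_ ?_
      · refine (min_le_left _ _).trans (le_of_eq ?_)
        rw [pow_succ]
        ring
      · refine (min_le_right _ _).trans ?_
        linarith

theorem ofBits_eq (l : List Bool) : D.ofBits l = Enc.enc l := by
  induction l with
  | nil => rfl
  | cons b l ih =>
    show D.cons (D.ofBool b) (D.ofBits l) = _
    rw [ih]
    rfl

/-- the code of the input as data -/
theorem poly_raw : TM2Lib.Poly (fun x : List Bool => D.encD (Enc.enc x)) := by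
  have h1 := Comp.bits (fun x : List Bool => D.encD (Enc.enc x))
  refine h1.congr (fun _ => rfl) fun x => ?_
  rw [ofBits_eq]

/-- **The gap reduction (PCP theorem).** -/
theorem gap_reduction (hP : ModP) (hL : ModL) (hR : ModR) (hM : ModM) (hCL : ModCL)
    (R : List Bool × List Bool → Bool) (p : Polynomial ℕ) (hRp : TM2Lib.Poly R)
    (hRl : ∀ x y, R (x, y) = true → y.length ≤ p.eval x.length) :
    ∃ γ : ℝ, 0 < γ ∧ ∃ F : List Bool → Bd S0, TM2Lib.Poly F ∧
      ∀ x, ∃ (m : ℕ) (G : RG (Fin m × Fin m) D0 S0), m ≠ 0 ∧ F x = code G ∧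
        ((∃ y, R (x, y) = true) → G.Sat) ∧ ((¬ ∃ y, R (x, y) = true) → G.Gap γ) := by
  obtain ⟨Q, _, hQne, H, Vt, U, P, hCL⟩ := hCL R p hRp hRl
  have : Inhabited Q := Classical.inhabited_of_nonempty hQne
  -- the two kinds of steps
  obtain ⟨cQ, hcQ, hstepQ⟩ := step_full hP hL hR (Fintype.card Q) Fintype.card_pos
  obtain ⟨c, hc, hstep⟩ := step_full hP hL hR (Fintype.card S0) Fintype.card_pos
  obtain ⟨t, ht⟩ := exists_nat_ge (2 / c)
  have ht1 : 1 ≤ t := by
    have : (0 : ℝ) < t := lt_of_lt_of_le (by positivity) ht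
    exact_mod_cast this
  have hct : 2 ≤ c * t := by
    rw [div_le_iff₀ hc] at ht
    linarith
  obtain ⟨C, hC⟩ := pow_unbounded_of_one_lt (20 * c / cQ) (by norm_num : (1 : ℝ) < 2)
  -- the algorithm
  let w : List Bool → List Bool := fun x => (D.encD (Enc.enc x)).reverse
  let mm : List Bool → ℕ := fun x => P.eval x.length + 1
  let b1 : List Bool → Bd S0 := fun x => stepB 1 (board0 H Vt U (w x) (mm x))
  let I : List Bool → ℕ := fun x => 2 * Nat.size (mm x) + C
  have hw : TM2Lib.Poly w := poly_raw.reverse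
  have hmm : UPoly mm := ((UPoly.length TM2Lib.Poly.id).eval P).add (UPoly.const 1)
  have hb1 : TM2Lib.Poly b1 := poly_stepB (poly_board0 H Vt U hw hmm)
  have hI : UPoly I := ((UPoly.const 2).mul hmm.size).add (UPoly.const C)
  -- the initial graph
  have hinit : ∀ x, ∃ G1 : RG (Fin (mm x * kap Q 1) × Fin (mm x * kap Q 1)) D0 S0,
      b1 x = code G1 ∧ ((∃ y, R (x, y) = true) → G1.Sat) ∧ G1.Spec 0.965 ∧
        ((¬ ∃ y, R (x, y) = true) → G1.Gap (cQ / (20 * (mm x : ℝ) ^ 2))) := by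
    intro x
    have hm0 : mm x ≠ 0 := Nat.succ_ne_zero _
    have : NeZero (mm x) := ⟨hm0⟩
    obtain ⟨G1, h1, h2, h3, h4⟩ := hstepQ Q le_rfl 1 le_rfl (mm x) hm0
      (G0 hM H Vt U (w x) (mm x))
    refine ⟨G1, ?_, ?_, h3, ?_⟩
    · show stepB 1 (board0 H Vt U (w x) (mm x)) = _
      rw [board0_eq hM, h1]
    · intro hy
      exact h2 (G0_sat hM H Vt U _ _ ((hCL x (mm x) (Nat.le_succ _)).1 hy))
    · intro hn
      have h5 : ¬ (G0 hM H Vt U (w x) (mm x)).Sat := fun hs =>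
        hn ((hCL x (mm x) (Nat.le_succ _)).2 (G0_tiling hM H Vt U _ _ hs))
      have h6 := gap_of_not_sat _ h5
      have hD : (Fintype.card D0 : ℝ) = 20 := by
        have : Fintype.card D0 = 20 := by decide
        rw [this]
        norm_num
      have hV : (Fintype.card (Fin (mm x) × Fin (mm x)) : ℝ) = (mm x : ℝ) ^ 2 := by
        rw [Fintype.card_prod, Fintype.card_fin]
        push_cast
        ring
      rw [hD, hV] at h6
      have hm1 : (1 : ℝ) ≤ (mm x : ℝ) := by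
        have : 1 ≤ mm x := Nat.one_le_iff_ne_zero.2 hm0
        exact_mod_cast this
      have h7 : (0 : ℝ) ≤ 1 / ((mm x : ℝ) ^ 2 * 20) := by positivity
      refine gap_mono (h4 (G0_spec hM H Vt U _ _) _ h7 h6) ?_
      have h8 : 1 / ((mm x : ℝ) ^ 2 * 20) ≤ 1 := by
        rw [div_le_one (by positivity)]
        nlinarith
      rw [Nat.cast_one, div_one, min_eq_left h8]
      refine le_of_eq ?_
      field_simp
  have hiter : ∀ x k, ∃ (n : ℕ) (G' : RG (Fin n × Fin n) D0 S0), n ≠ 0 ∧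
      n = mm x * kap Q 1 * kap S0 t ^ k ∧ (stepB t)^[k] (b1 x) = code G' ∧
      ((∃ y, R (x, y) = true) → G'.Sat) ∧
      ((¬ ∃ y, R (x, y) = true) → G'.Gap (min (2 ^ k * (cQ / (20 * (mm x : ℝ) ^ 2))) c)) := by
    intro x k
    obtain ⟨G1, h1, h2, h3, h4⟩ := hinit x
    have hm0 : mm x * kap Q 1 ≠ 0 := Nat.mul_ne_zero (Nat.succ_ne_zero _) (NeZero.ne _)
    obtain ⟨n, G', hn, hn', hcode, hsat, _, hgap⟩ := iterate_step c hc
      (fun t ht m hm G => hstep S0 le_rfl t ht m hm G) t ht1 hct _ hm0 G1 h3 k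
    refine ⟨n, G', hn, hn', ?_, fun hy => hsat (h2 hy), fun hy => hgap _ (by positivity) (h4 hy)⟩
    rw [h1, hcode]
  -- the exponent for the bound
  obtain ⟨e, he⟩ : ∃ e : ℕ, kap S0 t ^ 2 ≤ 2 ^ e := ⟨_, (Nat.lt_two_pow_self).le⟩
  have hsz : ∀ x k, k ≤ I x → sz ((stepB t)^[k] (b1 x)) ≤
      ((szP S0).comp (Polynomial.X * (Polynomial.C (kap S0 t ^ C) *
        (2 * Polynomial.X) ^ e))).eval (sz (un (I x)) + sz (b1 x)) := by
    intro x k hk
    obtain ⟨n, G', hn, hn', hcode, _, _⟩ := hiter x k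
    obtain ⟨G1, h1, _, _, _⟩ := hinit x
    rw [hcode]
    refine (sz_code G').trans ?_
    rw [Polynomial.eval_comp]
    apply TM2Lib.eval_mono
    have hm0 : mm x ≠ 0 := Nat.succ_ne_zero _
    have hlen : mm x * kap Q 1 ≤ sz (un (I x)) + sz (b1 x) := by
      have h5 := length_lt_sz (b1 x)
      rw [h1, length_code] at h5
      rw [h1]
      omega
    have hmle : mm x ≤ sz (un (I x)) + sz (b1 x) :=
      le_trans (Nat.le_mul_of_pos_right _ (Nat.pos_of_ne_zero (NeZero.ne _))) hlen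
    obtain ⟨z, hz⟩ : ∃ z, z = sz (un (I x)) + sz (b1 x) := ⟨_, rfl⟩
    rw [← hz] at hlen hmle ⊢
    have hκ : 0 < kap S0 t := Nat.pos_of_ne_zero (NeZero.ne _)
    have h6 : kap S0 t ^ k ≤ kap S0 t ^ C * (2 * z) ^ e := by
      calc kap S0 t ^ k ≤ kap S0 t ^ (I x) := Nat.pow_le_pow_right hκ hk
        _ = kap S0 t ^ C * (kap S0 t ^ 2) ^ (Nat.size (mm x)) := by
            show kap S0 t ^ (2 * Nat.size (mm x) + C) = _
            rw [pow_add, pow_mul, mul_comm]
        _ ≤ kap S0 t ^ C * (2 ^ e) ^ (Nat.size (mm x)) := by gcongr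
        _ = kap S0 t ^ C * (2 ^ Nat.size (mm x)) ^ e := by rw [← pow_mul, ← pow_mul, mul_comm e]
        _ ≤ kap S0 t ^ C * (2 * mm x) ^ e := by
            have := (size_bounds hm0).1
            gcongr
        _ ≤ kap S0 t ^ C * (2 * z) ^ e := by gcongr
    simp only [Polynomial.eval_mul, Polynomial.eval_pow, Polynomial.eval_X, Polynomial.eval_C,
      Polynomial.eval_ofNat]
    rw [hn']
    exact Nat.mul_le_mul hlen h6
  refine ⟨c, hc, fun x => (stepB t)^[I x] (b1 x), ?_, ?_⟩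
  · have h1 := TM2Lib.Poly.iter (f := fun x => un (I x)) (g := b1) (step := stepB t) hI.list hb1
      (poly_stepB TM2Lib.Poly.id) _ (fun x k hk => hsz x k (by
        rwa [List.length_replicate] at hk))
    refine h1.of_eq fun x => ?_
    rw [List.length_replicate]
  · intro x
    obtain ⟨n, G', hn, _, hcode, hsat, hgap⟩ := hiter x (I x)
    refine ⟨n, G', hn, hcode, hsat, fun hy => gap_mono (hgap hy) (le_min ?_ le_rfl)⟩
    have hm0 : mm x ≠ 0 := Nat.succ_ne_zero _
    have hm1 : (0 : ℝ) < (mm x : ℝ) := by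
      exact_mod_cast Nat.pos_of_ne_zero hm0
    have h1 : (mm x : ℝ) ≤ 2 ^ Nat.size (mm x) := by exact_mod_cast (size_bounds hm0).2
    have h2 : (2 : ℝ) ^ (I x) = (2 ^ Nat.size (mm x)) ^ 2 * 2 ^ C := by
      show (2 : ℝ) ^ (2 * Nat.size (mm x) + C) = _
      rw [pow_add, mul_comm 2, pow_mul]
    rw [h2]
    have h3 : (mm x : ℝ) ^ 2 ≤ (2 ^ Nat.size (mm x)) ^ 2 := by gcongr
    have h4 : 20 * c ≤ cQ * 2 ^ C := by
      rw [div_lt_iff₀ hcQ] at hC
      linarith
    rw [mul_div_assoc', le_div_iff₀ (by positivity)]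
    calc c * (20 * (mm x : ℝ) ^ 2) = (mm x : ℝ) ^ 2 * (20 * c) := by ring
      _ ≤ (2 ^ Nat.size (mm x)) ^ 2 * (cQ * 2 ^ C) := by gcongr
      _ = (2 ^ Nat.size (mm x)) ^ 2 * 2 ^ C * cQ := by ring

end

end Pool.Agent.PCP
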