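import Pool.Agent.PCP.Defs

/-!
# Module CL, part a: tableaux for nondeterministic stack machines
-/

set_option autoImplicit false

open Function

namespace Pool.Agent.PCP.CL

/-- action on a stack -/
inductive Act (A : Type) : Type
  | nop : Act A
  | pop : Act A
  | push (a : A) : Act A

/-- effect on a list -/
def Act.app {A : Type} : Act A → List A → List A
  | .nop, l => l
  | .pop, l => l.tail
  | .push a, l => a :: l

/-- effect on a cell; `l`: height at least `j`; `r`: height larger than `j + 1` -/
def Act.cell {A : Type} : Act A → Bool → Bool → Option A → Option A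
  | .nop, _, _, o => o
  | .pop, _, r, o => if r then o else none
  | .push a, l, _, o => o.elim (if l then some a else none) some

theorem Act.cell_eq {A : Type} (a : Act A) (x : List A) (j : ℕ) (r : Bool)
    (hr : j < x.length → r = decide (j + 1 < x.length)) :
    a.cell (decide (j ≤ x.length)) r (x.reverse[j]?) = (a.app x).reverse[j]? := by
  cases a with
  | nop => rfl
  | pop =>
    cases x with
    | nil => simp [Act.cell, Act.app]
    | cons b t =>
      simp only [Act.cell, Act.app, List.tail_cons, List.reverse_cons]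
      rcases lt_trichotomy j t.length with h | h | h
      · rw [hr (by simp; omega)]
        rw [List.getElem?_append_left (by simpa using h)]
        simp [h]
      · rw [hr (by simp; omega)]
        subst h
        simp
      · rw [List.getElem?_eq_none (by simp; omega), List.getElem?_eq_none (by simp; omega)]
        simp
  | push a =>
    simp only [Act.cell, Act.app, List.reverse_cons]
    rcases lt_trichotomy j x.length with h | h | h
    · rw [List.getElem?_append_left (by simpa using h)]
      rw [List.getElem?_eq_getElem (by simpa using h)]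
      rfl
    · subst h
      rw [List.getElem?_eq_none (by simp)]
      simp
    · rw [List.getElem?_eq_none (by simp; omega), List.getElem?_eq_none (by simp; omega)]
      have : decide (j ≤ x.length) = false := by simp; omega
      rw [this]; rfl

/-- nondeterministic stack machine: the control `c` looks at the stack `rd c`, performs the action
`act c` on it, and the next control is related by `nx` to `c` and to the old top of that stack -/
structure NM (K : Type) (Γ : K → Type) (C : Type) where
  rd : C → K
  act : (c : C) → Act (Γ (rd c))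
  nx : (c : C) → Option (Γ (rd c)) → C → Prop

/-- states of a cell -/
abbrev Cell (K : Type) (Γ : K → Type) (C : Type) : Type :=
  C × (Bool × (K → Bool) × (K → Bool)) × (∀ k, Option (Γ k))

variable {K : Type} [DecidableEq K] {Γ : K → Type} {C : Type}

/-- a step -/
def NM.Step (N : NM K Γ C) (a b : C × ∀ k, List (Γ k)) : Prop :=
  N.nx a.1 (a.2 (N.rd a.1)).head? b.1 ∧
    b.2 = update a.2 (N.rd a.1) ((N.act a.1).app (a.2 (N.rd a.1)))

/-- horizontal constraint -/
def Hc (a b : Cell K Γ C) : Prop :=
  a.1 = b.1 ∧ (∀ k, b.2.1.2.1 k = (a.2.2 k).isSome) ∧ ∀ k, a.2.1.2.2 k = (b.2.2 k).isSome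

/-- vertical constraint -/
def NM.Vc (N : NM K Γ C) (a b : Cell K Γ C) : Prop :=
  ((((a.2.2 (N.rd a.1)).isSome = true ∧ a.2.1.2.2 (N.rd a.1) = false) ∨
      (a.2.1.1 = true ∧ (a.2.2 (N.rd a.1)) = none)) → N.nx a.1 (a.2.2 (N.rd a.1)) b.1) ∧
  b.2.2 = update a.2.2 (N.rd a.1)
    ((N.act a.1).cell (a.2.1.2.1 (N.rd a.1)) (a.2.1.2.2 (N.rd a.1)) (a.2.2 (N.rd a.1)))

/-- unary constraints in the row `i` and the column `j` -/
def Uc (start : C) (fin : C → Prop) (o : K) (r0 : ∀ k, Option (Γ k))
    (i0 im j0 j1 jm : Prop) (a : Cell K Γ C) : Prop :=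
  (a.2.1.1 = true ↔ j0) ∧ (j0 → ∀ k, a.2.1.2.1 k = true) ∧ (jm → ∀ k, a.2.2 k = none) ∧
  (i0 → a.1 = start ∧ a.2.2 = r0) ∧ (im → fin a.1 ∧ (j1 → (a.2.2 o).isSome = true))

/-- the cells of a configuration -/
def enc (p : C × ∀ k, List (Γ k)) (j : ℕ) : Cell K Γ C :=
  (p.1, (decide (j = 0), (fun k => decide (j ≤ (p.2 k).length)),
    fun k => decide (j + 1 < (p.2 k).length)), fun k => (p.2 k).reverse[j]?)

theorem isSome_getElem? {A : Type} (x : List A) (j : ℕ) :
    (x.reverse[j]?).isSome = decide (j < x.length) := by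
  by_cases h : j < x.length
  · rw [List.getElem?_eq_getElem (by simpa using h)]
    simp [h]
  · rw [List.getElem?_eq_none (by simpa using h)]
    simp [h]

/-- Soundness of tableaux. -/
theorem sound (N : NM K Γ C) (m : ℕ) (hm : 2 ≤ m) (start : C) (s0 : ∀ k, List (Γ k))
    (fin : C → Prop) (o : K) (σ : ℕ → ℕ → Cell K Γ C)
    (hU : ∀ i j, i < m → j < m → Uc start fin o (fun k => (s0 k).reverse[j]?) (i = 0) (i + 1 = m)
      (j = 0) (j = 1) (j + 1 = m) (σ i j))
    (hH : ∀ i j, i < m → j + 1 < m → Hc (σ i j) (σ i (j + 1)))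
    (hV : ∀ i j, i + 1 < m → j < m → N.Vc (σ i j) (σ (i + 1) j)) :
    ∃ p : ℕ → C × ∀ k, List (Γ k), p 0 = (start, s0) ∧
      (∀ i, i + 1 < m → N.Step (p i) (p (i + 1))) ∧
      fin (p (m - 1)).1 ∧ 2 ≤ ((p (m - 1)).2 o).length := by
  -- controls agree in a row
  have hc : ∀ i, i < m → ∀ j, j < m → (σ i j).1 = (σ i 0).1 := by
    intro i hi j
    induction j with
    | zero => intro _; rfl
    | succ j ih =>
      intro hj
      rw [← ih (by omega)]
      exact (hH i j hi hj).1.symm
  let s : ℕ → ∀ k, List (Γ k) := fun i => Nat.rec s0 (fun i s =>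
    update s (N.rd (σ i 0).1) ((N.act (σ i 0).1).app (s (N.rd (σ i 0).1)))) i
  have hs0 : s 0 = s0 := rfl
  have hs1 : ∀ i, s (i + 1) = update (s i) (N.rd (σ i 0).1)
    ((N.act (σ i 0).1).app ((s i) (N.rd (σ i 0).1))) := fun i => rfl
  have key : ∀ i, i < m → ∀ j, j < m → (σ i j).2.2 = fun k => (s i k).reverse[j]? := by
    intro i
    induction i with
    | zero =>
      intro _ j hj
      exact ((hU 0 j (by omega) hj).2.2.2.1 rfl).2
    | succ i ih =>
      intro hi j hj
      have h1 := (hV i j hi hj).2
      have h2 := ih (by omega) j hj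
      rw [h1, hc i (by omega) j hj, h2]
      funext k
      by_cases hk : k = N.rd (σ i 0).1
      · subst hk
        rw [update_self, hs1, update_self]
        have h3 : (σ i j).2.1.2.1 (N.rd (σ i 0).1) =
            decide (j ≤ (s i (N.rd (σ i 0).1)).length) := by
          rcases j with _ | j
          · rw [(hU i 0 (by omega) hj).2.1 rfl]; simp
          · rw [(hH i j (by omega) hj).2.1, ih (by omega) j (by omega), isSome_getElem?]
            simp
        rw [h3]
        apply Act.cell_eq
        intro hlt
        by_cases hj2 : j + 1 < m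
        · rw [(hH i j (by omega) hj2).2.2, ih (by omega) (j + 1) hj2, isSome_getElem?]
        · exfalso
          have h4 := (hU i j (by omega) hj).2.2.1 (by omega) (N.rd (σ i 0).1)
          rw [h2] at h4
          simp only [List.getElem?_eq_none_iff, List.length_reverse] at h4
          omega
      · rw [update_of_ne hk, hs1, update_of_ne hk]
  have hlen : ∀ i, i < m → ∀ k, (s i k).length < m := by
    intro i hi k
    have h4 := (hU i (m - 1) hi (by omega)).2.2.1 (by omega) k
    rw [key i hi (m - 1) (by omega)] at h4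
    simp only [List.getElem?_eq_none_iff, List.length_reverse] at h4
    omega
  refine ⟨fun i => ((σ i 0).1, s i), ?_, ?_, ?_, ?_⟩
  · exact Prod.ext ((hU 0 0 (by omega) (by omega)).2.2.2.1 rfl).1 rfl
  · intro i hi
    refine ⟨?_, hs1 i⟩
    show N.nx (σ i 0).1 (s i (N.rd (σ i 0).1)).head? (σ (i + 1) 0).1
    rcases Nat.eq_zero_or_pos (s i (N.rd (σ i 0).1)).length with h0 | h0
    · have h1 := (hV i 0 hi (by omega)).1
      have h2 : (σ i 0).2.2 (N.rd (σ i 0).1) = none := by
        rw [key i (by omega) 0 (by omega)]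
        simp [h0]
      have h3 := h1 (Or.inr ⟨(hU i 0 (by omega) (by omega)).1.2 rfl, h2⟩)
      rw [h2] at h3
      rw [List.length_eq_zero_iff.mp h0]
      exact h3
    · obtain ⟨j, hj⟩ : ∃ j, j + 1 = (s i (N.rd (σ i 0).1)).length :=
        ⟨(s i (N.rd (σ i 0).1)).length - 1, by omega⟩
      have hjm : j + 1 < m := by have := hlen i (by omega) (N.rd (σ i 0).1); omega
      have h1 := (hV i j hi (by omega)).1
      have h2 : (σ i j).2.2 (N.rd (σ i 0).1) = (s i (N.rd (σ i 0).1)).head? := by
        rw [key i (by omega) j (by omega)]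
        simp only
        rw [← List.getLast?_reverse, List.getLast?_eq_getElem?]
        simp [← hj]
      have h4 : (s i (N.rd (σ i 0).1)).head?.isSome = true := by
        cases hx : s i (N.rd (σ i 0).1) with
        | nil => rw [hx] at h0; simp at h0
        | cons a t => rfl
      rw [hc i (by omega) j (by omega), h2, hc (i + 1) hi j (by omega)] at h1
      refine h1 (Or.inl ⟨h4, ?_⟩)
      rw [(hH i j (by omega) hjm).2.2, key i (by omega) (j + 1) hjm, isSome_getElem?]
      simp; omega
  · exact ((hU (m - 1) 0 (by omega) (by omega)).2.2.2.2 (by omega)).1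
  · have h1 := ((hU (m - 1) 1 (by omega) (by omega)).2.2.2.2 (by omega)).2 rfl
    rw [key (m - 1) (by omega) 1 (by omega), isSome_getElem?] at h1
    exact of_decide_eq_true h1

/-- Completeness of tableaux. -/
theorem complete (N : NM K Γ C) (m : ℕ) (hm : 2 ≤ m) (start : C) (s0 : ∀ k, List (Γ k))
    (fin : C → Prop) (o : K) (p : ℕ → C × ∀ k, List (Γ k)) (h0 : p 0 = (start, s0))
    (hp : ∀ i, i + 1 < m → N.Step (p i) (p (i + 1)))
    (hl : ∀ i, i < m → ∀ k, ((p i).2 k).length < m)
    (hf : fin (p (m - 1)).1) (ho : 2 ≤ ((p (m - 1)).2 o).length) :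
    (∀ i j, i < m → j < m → Uc start fin o (fun k => (s0 k).reverse[j]?) (i = 0) (i + 1 = m)
      (j = 0) (j = 1) (j + 1 = m) (enc (p i) j)) ∧
    (∀ i j, i < m → j + 1 < m → Hc (enc (p i) j) (enc (p i) (j + 1))) ∧
    (∀ i j, i + 1 < m → j < m → N.Vc (enc (p i) j) (enc (p (i + 1)) j)) := by
  refine ⟨?_, ?_, ?_⟩
  · intro i j hi hj
    refine ⟨by simp [enc], ?_, ?_, ?_, ?_⟩
    · rintro rfl k; simp [enc]
    · intro hjm k
      simp only [enc, List.getElem?_eq_none_iff, List.length_reverse]
      have := hl i hi k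
      omega
    · rintro rfl
      rw [h0]
      exact ⟨rfl, rfl⟩
    · intro him
      have : i = m - 1 := by omega
      subst this
      refine ⟨hf, ?_⟩
      rintro rfl
      simp only [enc, isSome_getElem?]
      exact decide_eq_true ho
  · intro i j hi hj
    refine ⟨rfl, fun k => ?_, fun k => ?_⟩
    · simp only [enc, isSome_getElem?]
      simp
    · simp only [enc, isSome_getElem?]
  · intro i j hi hj
    obtain ⟨h1, h2⟩ := hp i hi
    constructor
    · intro h
      have h3 : ((p i).2 (N.rd (p i).1)).reverse[j]? = ((p i).2 (N.rd (p i).1)).head? := by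
        rcases h with ⟨h, h'⟩ | ⟨h, h'⟩
        · simp only [enc, isSome_getElem?] at h h'
          have h4 : ((p i).2 (N.rd (p i).1)).length = j + 1 := by
            simp only [decide_eq_true_eq, decide_eq_false_iff_not] at h h'
            omega
          rw [← List.getLast?_reverse, List.getLast?_eq_getElem?]
          simp [h4]
        · simp only [enc] at h h'
          have h4 : j = 0 := by simpa using h
          subst h4
          simp only [List.getElem?_eq_none_iff, List.length_reverse, Nat.le_zero] at h'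
          rw [List.length_eq_zero_iff.mp h']
          rfl
      show N.nx (p i).1 (((p i).2 (N.rd (p i).1)).reverse[j]?) (p (i + 1)).1
      rw [h3]
      exact h1
    · show (fun k => ((p (i + 1)).2 k).reverse[j]?) =
        update (fun k => ((p i).2 k).reverse[j]?) (N.rd (p i).1) ((N.act (p i).1).cell
          (decide (j ≤ ((p i).2 (N.rd (p i).1)).length))
          (decide (j + 1 < ((p i).2 (N.rd (p i).1)).length))
          (((p i).2 (N.rd (p i).1)).reverse[j]?))
      rw [h2]
      funext k
      by_cases hk : k = N.rd (p i).1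
      · subst hk
        simp only [update_self]
        exact (Act.cell_eq _ _ _ _ fun _ => rfl).symm
      · simp only [update_of_ne hk]


/-! ## Finitely many states -/

omit [DecidableEq K] in
theorem finite_cells [Finite K] (CS : Set C) (hC : CS.Finite) (GS : Set (Σ k, Γ k))
    (hG : GS.Finite) :
    {q : Cell K Γ C | q.1 ∈ CS ∧ ∀ k a, q.2.2 k = some a → (⟨k, a⟩ : Σ k, Γ k) ∈ GS}.Finite := by
  have h1 : ∀ k : K, {o : Option (Γ k) | ∀ a, o = some a → (⟨k, a⟩ : Σ k, Γ k) ∈ GS}.Finite := by
    intro k
    have h2 : (Sigma.mk k ⁻¹' GS).Finite := hG.preimage sigma_mk_injective.injOn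
    refine ((h2.image some).insert none).subset ?_
    intro o ho
    rcases o with _ | a
    · exact Set.mem_insert _ _
    · exact Set.mem_insert_of_mem _ ⟨a, ho a rfl, rfl⟩
  have h3 : (Set.pi Set.univ fun k : K =>
      {o : Option (Γ k) | ∀ a, o = some a → (⟨k, a⟩ : Σ k, Γ k) ∈ GS}).Finite := Set.Finite.pi h1
  refine (hC.prod ((Set.finite_univ (α := Bool × (K → Bool) × (K → Bool))).prod h3)).subset ?_
  rintro ⟨c, b, d⟩ ⟨hc, hd⟩
  exact ⟨hc, Set.mem_univ _, fun k _ => hd k⟩

/-- contents of the cells of row `0` -/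
def r0 (i : K) (ei : Γ i ≃ Bool) (o : Option Bool) : ∀ k, Option (Γ k) :=
  update (fun _ => none) i (o.map ei.symm)

/-- initial stacks -/
def st0 (i : K) (ei : Γ i ≃ Bool) (w : List Bool) : ∀ k, List (Γ k) :=
  update (fun _ => []) i (w.map ei.symm)

theorem r0_eq (i : K) (ei : Γ i ≃ Bool) (w : List Bool) (j : ℕ) :
    (fun k => (st0 i ei w.reverse k).reverse[j]?) = r0 i ei (w[j]?) := by
  funext k
  unfold st0 r0
  by_cases h : k = i
  · subst h
    rw [update_self, update_self]
    rw [List.map_reverse, List.reverse_reverse, List.getElem?_map]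
  · rw [update_of_ne h, update_of_ne h]
    simp

open Classical in
theorem tableau_fin [Finite K] (N : NM K Γ C) (CS : Set C) (hC : CS.Finite)
    (GS : Set (Σ k, Γ k)) (hG : GS.Finite) (start : C) (hs : start ∈ CS)
    (hcl : ∀ c h c', c ∈ CS → N.nx c h c' → c' ∈ CS)
    (hpush : ∀ c ∈ CS, ∀ a, N.act c = Act.push a → (⟨N.rd c, a⟩ : Σ k, Γ k) ∈ GS)
    (fin : C → Prop) (o i : K) (ei : Γ i ≃ Bool)
    (hei : ∀ b, (⟨i, ei.symm b⟩ : Σ k, Γ k) ∈ GS) :
    ∃ (Q : Type) (_ : Fintype Q) (_ : Nonempty Q) (H Vt : Q → Q → Bool) (U : Info → Q → Bool),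
      ∀ (w : List Bool) (m : ℕ), 2 ≤ m →
        ((∃ σ : ℕ → ℕ → Q, ∀ i j, i < m → j < m →
            U (info w m i j) (σ i j) = true ∧
            (j + 1 < m → H (σ i j) (σ i (j + 1)) = true) ∧
            (i + 1 < m → Vt (σ i j) (σ (i + 1) j) = true)) →
          ∃ p : ℕ → C × ∀ k, List (Γ k), p 0 = (start, st0 i ei w.reverse) ∧
            (∀ i, i + 1 < m → N.Step (p i) (p (i + 1))) ∧
            fin (p (m - 1)).1 ∧ 2 ≤ ((p (m - 1)).2 o).length) ∧
        (∀ p : ℕ → C × ∀ k, List (Γ k), p 0 = (start, st0 i ei w.reverse) →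
            (∀ i, i + 1 < m → N.Step (p i) (p (i + 1))) →
            (∀ i, i < m → ∀ k, ((p i).2 k).length < m) →
            fin (p (m - 1)).1 → 2 ≤ ((p (m - 1)).2 o).length →
          ∃ σ : ℕ → ℕ → Q, ∀ i j, i < m → j < m →
            U (info w m i j) (σ i j) = true ∧
            (j + 1 < m → H (σ i j) (σ i (j + 1)) = true) ∧
            (i + 1 < m → Vt (σ i j) (σ (i + 1) j) = true)) := by
  let T : Set (Cell K Γ C) :=
    {q | q.1 ∈ CS ∧ ∀ k a, q.2.2 k = some a → (⟨k, a⟩ : Σ k, Γ k) ∈ GS}
  have hT : T.Finite := finite_cells CS hC GS hG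
  let q0 : T := ⟨(start, (false, (fun _ => false), fun _ => false), fun _ => none), hs, by
    intro k a h; exact absurd h (by simp)⟩
  let U : Info → T → Bool := fun I a => decide (Uc start fin o (r0 i ei I.2.2) (I.1.1 = true)
    (I.1.2 = true) (I.2.1.1 = true) (I.2.1.2.1 = true) (I.2.1.2.2 = true) a.1)
  refine ⟨T, hT.fintype, ⟨q0⟩, fun a b => decide (Hc a.1 b.1), fun a b => decide (N.Vc a.1 b.1),
    U, ?_⟩
  intro w m hm
  have hU : ∀ i' j (a : T), U (info w m i' j) a = true ↔
      Uc start fin o (fun k => (st0 i ei w.reverse k).reverse[j]?) (i' = 0) (i' + 1 = m) (j = 0)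
        (j = 1) (j + 1 = m) a.1 := by
    intro i' j a
    simp only [U, decide_eq_true_eq, info, r0_eq]
    by_cases h : i' = 0
    · simp only [h, if_true]
    · simp only [h, Uc, false_imp_iff]
  refine ⟨?_, ?_⟩
  · rintro ⟨σ, hσ⟩
    refine sound N m hm start (st0 i ei w.reverse) fin o (fun i j => (σ i j).1) ?_ ?_ ?_
    · intro i' j hi hj
      exact (hU i' j _).1 (hσ i' j hi hj).1
    · intro i' j hi hj
      exact of_decide_eq_true ((hσ i' j hi (by omega)).2.1 hj)
    · intro i' j hi hj
      exact of_decide_eq_true ((hσ i' j (by omega) hj).2.2 hi)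
  · intro p h0 hp hl hf ho
    obtain ⟨h1, h2, h3⟩ := complete N m hm start (st0 i ei w.reverse) fin o p h0 hp hl hf ho
    -- membership
    have hmem : ∀ i', i' < m → (p i').1 ∈ CS ∧ ∀ k a, a ∈ (p i').2 k →
        (⟨k, a⟩ : Σ k, Γ k) ∈ GS := by
      intro i'
      induction i' with
      | zero =>
        intro _
        rw [h0]
        refine ⟨hs, ?_⟩
        intro k a ha
        simp only [st0] at ha
        by_cases h : k = i
        · subst h
          rw [update_self] at ha
          obtain ⟨b, _, rfl⟩ := List.mem_map.mp ha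
          exact hei b
        · rw [update_of_ne h] at ha
          simp at ha
      | succ i' ih =>
        intro hi
        obtain ⟨ih1, ih2⟩ := ih (by omega)
        obtain ⟨s1, s2⟩ := hp i' hi
        refine ⟨hcl _ _ _ ih1 s1, ?_⟩
        intro k a ha
        rw [s2] at ha
        by_cases h : k = N.rd (p i').1
        · subst h
          rw [update_self] at ha
          have hp1 := hpush _ ih1
          cases hact : N.act (p i').1 with
          | nop => rw [hact] at ha; exact ih2 _ _ ha
          | pop => rw [hact] at ha; exact ih2 _ _ (List.mem_of_mem_tail ha)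
          | push b =>
            rw [hact] at ha
            rcases List.mem_cons.mp ha with h | h
            · rw [h]; exact hp1 b hact
            · exact ih2 _ _ h
        · rw [update_of_ne h] at ha
          exact ih2 _ _ ha
    have hmem2 : ∀ i', i' < m → ∀ j, enc (p i') j ∈ T := by
      intro i' hi j
      obtain ⟨m1, m2⟩ := hmem i' hi
      refine ⟨m1, ?_⟩
      intro k a ha
      apply m2
      exact List.mem_reverse.mp (List.mem_of_getElem? ha)
    refine ⟨fun i' j => if h : i' < m then ⟨enc (p i') j, hmem2 i' h j⟩ else q0, ?_⟩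
    intro i' j hi hj
    refine ⟨?_, ?_, ?_⟩
    · rw [hU]
      beta_reduce
      rw [dif_pos hi]
      exact h1 i' j hi hj
    · intro hj1
      beta_reduce
      rw [dif_pos hi, dif_pos hi]
      exact decide_eq_true (h2 i' j hi hj1)
    · intro hi1
      beta_reduce
      rw [dif_pos hi, dif_pos hi1]
      exact decide_eq_true (h3 i' j hi1 hj)

end Pool.Agent.PCP.CL
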