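import Pool.Agent.PCP.PowWords

/-!
# Powering, part 2: the spectral estimate and the second moment of the number of steps in a set
-/

set_option linter.unusedSectionVars false

namespace Pool.Agent.PCP

open Finset

namespace Pw

variable {V D S : Type} [Fintype V] [Fintype D]

/-- the operator of the random walk -/
noncomputable def T (G : RG V D S) (f : V → ℝ) (v : V) : ℝ :=
  (∑ d, f (G.rot (v, d)).1) / (Fintype.card D : ℝ)

variable (G : RG V D S)

theorem T_add (f g : V → ℝ) : T G (fun v => f v + g v) = fun v => T G f v + T G g v := by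
  funext v
  simp only [T, Finset.sum_add_distrib, add_div]

theorem T_smul (c : ℝ) (f : V → ℝ) : T G (fun v => c * f v) = fun v => c * T G f v := by
  funext v
  simp only [T, ← Finset.mul_sum, mul_div_assoc]

theorem T_const [Nonempty D] (c : ℝ) : T G (fun _ => c) = fun _ => c := by
  funext v
  have : (Fintype.card D : ℝ) ≠ 0 := Nat.cast_ne_zero.2 Fintype.card_ne_zero
  simp only [T, Finset.sum_const, Finset.card_univ, nsmul_eq_mul]
  field_simp

theorem sum_T_mul (f h : V → ℝ) :
    ∑ v, T G f v * h v = (∑ x : V × D, f (G.rot x).1 * h x.1) / (Fintype.card D : ℝ) := by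
  rw [sum_prod, Finset.sum_div]
  refine Finset.sum_congr rfl fun v _ => ?_
  simp only [T, ← Finset.sum_mul, div_mul_eq_mul_div]

theorem T_selfadj (f h : V → ℝ) : ∑ v, T G f v * h v = ∑ v, f v * T G h v := by
  rw [sum_T_mul]
  have h1 : ∑ v, f v * T G h v = ∑ v, T G h v * f v :=
    Finset.sum_congr rfl fun v _ => mul_comm _ _
  rw [h1, sum_T_mul]
  congr 1
  rw [← sum_rot G (fun x : V × D => f (G.rot x).1 * h x.1)]
  refine Finset.sum_congr rfl fun x _ => ?_
  simp only [G.rot_rot, mul_comm]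

theorem sum_T [Nonempty D] (f : V → ℝ) : ∑ v, T G f v = ∑ v, f v := by
  have h := T_selfadj G f (fun _ => 1)
  rw [T_const] at h
  simpa using h

theorem spec_form [Nonempty D] {lam : ℝ} (hG : G.Spec lam) (f : V → ℝ) (hf : ∑ v, f v = 0) :
    |∑ v, T G f v * f v| ≤ lam * ∑ v, f v ^ 2 := by
  have hd : (0 : ℝ) < Fintype.card D := Nat.cast_pos.2 Fintype.card_pos
  have h := hG f hf
  rw [sum_T_mul, abs_div, abs_of_pos hd, div_le_iff₀ hd]
  have e : ∑ x : V × D, f (G.rot x).1 * f x.1 = ∑ x : V × D, f x.1 * f (G.rot x).1 :=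
    Finset.sum_congr rfl fun x _ => mul_comm _ _
  rw [e]
  linarith

theorem T_norm [Nonempty D] {lam : ℝ} (h0 : 0 ≤ lam) (hG : G.Spec lam) (f : V → ℝ)
    (hf : ∑ v, f v = 0) : ∑ v, T G f v ^ 2 ≤ lam ^ 2 * ∑ v, f v ^ 2 := by
  set a := ∑ v, f v ^ 2 with ha
  set b := ∑ v, T G f v ^ 2 with hb
  have ha0 : 0 ≤ a := Finset.sum_nonneg fun v _ => sq_nonneg _
  have hb0 : 0 ≤ b := Finset.sum_nonneg fun v _ => sq_nonneg _
  -- the polarised inequality
  have key : ∀ s : ℝ, 4 * s * b ≤ 2 * lam * (a + s ^ 2 * b) := by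
    intro s
    have hTf : ∑ v, T G f v = 0 := by rw [sum_T, hf]
    have h1 := spec_form G hG (fun v => f v + s * T G f v) (by
      rw [Finset.sum_add_distrib, ← Finset.mul_sum, hf, hTf]; ring)
    have h2 := spec_form G hG (fun v => f v + (-s) * T G f v) (by
      rw [Finset.sum_add_distrib, ← Finset.mul_sum, hf, hTf]; ring)
    have e : ∀ r : ℝ, ∑ v, T G (fun v => f v + r * T G f v) v * (f v + r * T G f v) =
        ∑ v, T G f v * f v + 2 * r * b + r ^ 2 * ∑ v, T G (T G f) v * T G f v := by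
      intro r
      have e1 : ∑ v, T G (T G f) v * f v = b := by
        rw [T_selfadj, hb]
        exact Finset.sum_congr rfl fun v _ => (sq _).symm
      have e0 : T G (fun v => f v + r * T G f v) =
          fun v => T G f v + r * T G (T G f) v := by
        rw [T_add G f (fun v => r * T G f v), T_smul]
      rw [e0]
      have e2 : ∀ v, (T G f v + r * T G (T G f) v) * (f v + r * T G f v) =
          T G f v * f v + (r * T G f v ^ 2 + r * (T G (T G f) v * f v)) +
            r ^ 2 * (T G (T G f) v * T G f v) := fun v => by ring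
      rw [Finset.sum_congr rfl fun v _ => e2 v, Finset.sum_add_distrib, Finset.sum_add_distrib,
        Finset.sum_add_distrib, ← Finset.mul_sum, ← Finset.mul_sum, ← Finset.mul_sum, e1]
      ring
    have e3 : ∀ r : ℝ, ∑ v, (f v + r * T G f v) ^ 2 =
        a + 2 * r * ∑ v, f v * T G f v + r ^ 2 * b := by
      intro r
      have : ∀ v, (f v + r * T G f v) ^ 2 =
          f v ^ 2 + 2 * r * (f v * T G f v) + r ^ 2 * T G f v ^ 2 := fun v => by ring
      rw [Finset.sum_congr rfl fun v _ => this v, Finset.sum_add_distrib,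
        Finset.sum_add_distrib, ← Finset.mul_sum, ← Finset.mul_sum]
    rw [e, e3] at h1 h2
    have h1' := (abs_le.1 h1).2
    have h2' := (abs_le.1 h2).1
    nlinarith [h1', h2']
  rcases h0.eq_or_lt with h | h
  · have := key 1
    rw [← h] at this ⊢
    nlinarith
  · have := key (1 / lam)
    have e : 2 * lam * (a + (1 / lam) ^ 2 * b) = 2 * lam * a + 2 * (1 / lam) * b := by
      field_simp
    rw [e] at this
    have h2 : 2 * (1 / lam) * b ≤ 2 * lam * a := by linarith
    have h3 : lam * (2 * (1 / lam) * b) ≤ lam * (2 * lam * a) :=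
      mul_le_mul_of_nonneg_left h2 h.le
    have e4 : lam * (2 * (1 / lam) * b) = 2 * b := by field_simp
    rw [e4] at h3
    nlinarith

theorem T_iter_sum [Nonempty D] (f : V → ℝ) (i : ℕ) : ∑ v, ((T G)^[i] f) v = ∑ v, f v := by
  induction i with
  | zero => rfl
  | succ i ih => rw [Function.iterate_succ_apply', sum_T, ih]

theorem T_iter_norm [Nonempty D] {lam : ℝ} (h0 : 0 ≤ lam) (hG : G.Spec lam) (f : V → ℝ)
    (hf : ∑ v, f v = 0) (i : ℕ) :
    ∑ v, ((T G)^[i] f) v ^ 2 ≤ (lam ^ i) ^ 2 * ∑ v, f v ^ 2 := by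
  induction i with
  | zero => simp
  | succ i ih =>
    rw [Function.iterate_succ_apply']
    refine (T_norm G h0 hG _ (by rw [T_iter_sum, hf])).trans ?_
    calc lam ^ 2 * ∑ v, ((T G)^[i] f) v ^ 2
        ≤ lam ^ 2 * ((lam ^ i) ^ 2 * ∑ v, f v ^ 2) := mul_le_mul_of_nonneg_left ih (sq_nonneg _)
      _ = (lam ^ (i + 1)) ^ 2 * ∑ v, f v ^ 2 := by ring

theorem T_iter_add [Nonempty D] (c : ℝ) (f : V → ℝ) (i : ℕ) :
    (T G)^[i] (fun v => c + f v) = fun v => c + ((T G)^[i] f) v := by
  induction i with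
  | zero => rfl
  | succ i ih =>
    rw [Function.iterate_succ_apply', ih, T_add G (fun _ => c), T_const]
    simp only [Function.iterate_succ_apply']

/-- the correlation of a set with its `i`-step neighbourhood -/
theorem inner_T_iter [Nonempty D] {lam : ℝ} (h0 : 0 ≤ lam) (hG : G.Spec lam) (g : V → ℝ)
    (i : ℕ) : (Fintype.card V : ℝ) * ∑ v, g v * ((T G)^[i] g) v ≤
      (∑ v, g v) ^ 2 + (Fintype.card V : ℝ) * (lam ^ i * ∑ v, g v ^ 2) := by
  rcases isEmpty_or_nonempty V with hV | hV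
  · simp
  have hn : (0 : ℝ) < Fintype.card V := Nat.cast_pos.2 Fintype.card_pos
  set n : ℝ := (Fintype.card V : ℝ) with hnd
  set a : ℝ := (∑ v, g v) / n with ha
  set g0 : V → ℝ := fun v => g v - a with hg0
  have hg : g = fun v => a + g0 v := by funext v; simp [hg0]
  have hs : ∑ v, g0 v = 0 := by
    simp only [hg0, Finset.sum_sub_distrib, Finset.sum_const, Finset.card_univ, nsmul_eq_mul]
    rw [← hnd, ha]
    field_simp
    ring
  have hs' : ∑ v, ((T G)^[i] g0) v = 0 := by rw [T_iter_sum, hs]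
  have e1 : ∑ v, g v * ((T G)^[i] g) v = n * a ^ 2 + ∑ v, g0 v * ((T G)^[i] g0) v := by
    have e : ((T G)^[i] g) = fun v => a + ((T G)^[i] g0) v := by
      conv_lhs => rw [hg]
      exact T_iter_add G a g0 i
    rw [e]
    have e2 : ∀ v, g v * (a + ((T G)^[i] g0) v) =
        a ^ 2 + a * g0 v + a * ((T G)^[i] g0) v + g0 v * ((T G)^[i] g0) v := by
      intro v
      have : g v = a + g0 v := by simp [hg0]
      rw [this]
      ring
    rw [Finset.sum_congr rfl fun v _ => e2 v, Finset.sum_add_distrib, Finset.sum_add_distrib,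
      Finset.sum_add_distrib, ← Finset.mul_sum, ← Finset.mul_sum, hs, hs']
    simp only [Finset.sum_const, Finset.card_univ, nsmul_eq_mul]
    rw [← hnd]
    ring
  have e3 : ∑ v, g0 v ^ 2 ≤ ∑ v, g v ^ 2 := by
    have : ∀ v, g v ^ 2 = a ^ 2 + 2 * a * g0 v + g0 v ^ 2 := by
      intro v
      have : g v = a + g0 v := by simp [hg0]
      rw [this]
      ring
    rw [Finset.sum_congr rfl fun v _ => this v, Finset.sum_add_distrib,
      Finset.sum_add_distrib, ← Finset.mul_sum, hs]
    simp only [Finset.sum_const, Finset.card_univ, nsmul_eq_mul]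
    have : 0 ≤ (Fintype.card V : ℝ) * a ^ 2 := by positivity
    linarith
  have e4 : ∑ v, g0 v * ((T G)^[i] g0) v ≤ lam ^ i * ∑ v, g0 v ^ 2 := by
    refine (le_abs_self _).trans (abs_le_of_sq_le_sq ?_ ?_)
    · have h1 := Finset.sum_mul_sq_le_sq_mul_sq univ g0 ((T G)^[i] g0)
      have h2 := T_iter_norm G h0 hG g0 hs i
      have h3 : 0 ≤ ∑ v, g0 v ^ 2 := Finset.sum_nonneg fun v _ => sq_nonneg _
      calc _ ≤ (∑ v, g0 v ^ 2) * ∑ v, ((T G)^[i] g0) v ^ 2 := h1
        _ ≤ (∑ v, g0 v ^ 2) * ((lam ^ i) ^ 2 * ∑ v, g0 v ^ 2) :=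
          mul_le_mul_of_nonneg_left h2 h3
        _ = _ := by ring
    · have h3 : 0 ≤ ∑ v, g0 v ^ 2 := Finset.sum_nonneg fun v _ => sq_nonneg _
      positivity
  have e5 : lam ^ i * ∑ v, g0 v ^ 2 ≤ lam ^ i * ∑ v, g v ^ 2 :=
    mul_le_mul_of_nonneg_left e3 (by positivity)
  have e6 : (∑ v, g v) ^ 2 = n * (n * a ^ 2) := by
    rw [ha]
    field_simp
  rw [e1, e6, ← mul_add]
  refine mul_le_mul_of_nonneg_left ?_ hn.le
  linarith

/-! ## The second moment -/

section Second

variable (fi : V × D → ℝ)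

/-- the expected number of steps in the set, starting from `v`, times `|D|^k` -/
theorem LS_cnt [Nonempty D] (k : ℕ) : ∀ v, LS k (cnt G fi v) = (Fintype.card D : ℝ) ^ k *
    ∑ i ∈ range k, ((T G)^[i] (fun u => (∑ d, fi (u, d)) / (Fintype.card D : ℝ))) v := by
  have hd : (Fintype.card D : ℝ) ≠ 0 := Nat.cast_ne_zero.2 Fintype.card_ne_zero
  set g : V → ℝ := fun u => (∑ d, fi (u, d)) / (Fintype.card D : ℝ) with hg
  induction k with
  | zero => intro v; simp [LS_zero, cnt]
  | succ k ih =>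
    intro v
    rw [LS_succ]
    have h1 : ∀ d : D, LS k (fun w => cnt G fi v (d :: w)) =
        (Fintype.card D : ℝ) ^ k * fi (v, d) + (Fintype.card D : ℝ) ^ k *
          ∑ i ∈ range k, ((T G)^[i] g) (G.rot (v, d)).1 := by
      intro d
      simp only [cnt]
      rw [LS_add, LS_const, ih]
    rw [Finset.sum_congr rfl fun d _ => h1 d, Finset.sum_add_distrib, ← Finset.mul_sum,
      ← Finset.mul_sum, Finset.sum_range_succ', Finset.sum_comm]
    have h2 : ∀ i ∈ range k, ∑ d, ((T G)^[i] g) (G.rot (v, d)).1 =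
        (Fintype.card D : ℝ) * ((T G)^[i + 1] g) v := by
      intro i _
      rw [Function.iterate_succ_apply', T]
      field_simp
    rw [Finset.sum_congr rfl h2, ← Finset.mul_sum]
    simp only [Function.iterate_zero, id]
    have h3 : ∑ d, fi (v, d) = (Fintype.card D : ℝ) * g v := by
      simp only [hg]
      field_simp
    rw [h3]
    ring

/-- **second moment** -/
theorem second_moment [Nonempty D] [Nonempty V] {lam : ℝ} (h0 : 0 ≤ lam) (h1 : lam < 1)
    (hG : G.Spec lam) (hfi : ∀ x, fi (G.rot x) = fi x) (hf0 : ∀ x, 0 ≤ fi x)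
    (hf2 : ∀ x, fi x ^ 2 = fi x) (f : ℝ)
    (hf : ∑ x, fi x = f * ((Fintype.card V : ℝ) * (Fintype.card D : ℝ))) (k : ℕ) :
    ∑ v, LS k (fun w => cnt G fi v w ^ 2) ≤
      (Fintype.card V : ℝ) * (Fintype.card D : ℝ) ^ k *
        (k * f + k ^ 2 * f ^ 2 + 2 * k * f / (1 - lam)) := by
  have hd : (0 : ℝ) < Fintype.card D := Nat.cast_pos.2 Fintype.card_pos
  have hn : (0 : ℝ) < Fintype.card V := Nat.cast_pos.2 Fintype.card_pos
  set n : ℝ := (Fintype.card V : ℝ) with hnd
  set δ : ℝ := (Fintype.card D : ℝ) with hdd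
  have hfnn : 0 ≤ f := by
    have : 0 ≤ ∑ x, fi x := Finset.sum_nonneg fun x _ => hf0 x
    rw [hf] at this
    by_contra hc
    push Not at hc
    have : f * (n * δ) < 0 := mul_neg_of_neg_of_pos hc (by positivity)
    linarith
  set g : V → ℝ := fun u => (∑ d, fi (u, d)) / δ with hg
  have hf1 : ∀ x, fi x ≤ 1 := by
    intro x
    nlinarith [hf2 x, hf0 x]
  have hg0 : ∀ v, 0 ≤ g v := fun v => div_nonneg (Finset.sum_nonneg fun d _ => hf0 _) hd.le
  have hg1 : ∀ v, g v ≤ 1 := by
    intro v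
    rw [hg]
    simp only
    rw [div_le_one hd]
    calc ∑ d, fi (v, d) ≤ ∑ _d : D, (1 : ℝ) := Finset.sum_le_sum fun d _ => hf1 _
      _ = δ := by simp [hdd]
  have hsg : ∑ v, g v = n * f := by
    rw [hg]
    simp only
    rw [← Finset.sum_div, ← sum_prod, hf]
    field_simp
  have hsg2 : ∑ v, g v ^ 2 ≤ n * f := by
    rw [← hsg]
    refine Finset.sum_le_sum fun v _ => ?_
    nlinarith [hg0 v, hg1 v]
  -- correlation
  have hcor : ∀ i, ∑ v, g v * ((T G)^[i] g) v ≤ n * (f ^ 2 + lam ^ i * f) := by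
    intro i
    have h := inner_T_iter G h0 hG g i
    rw [hsg] at h
    have h2 : n * (lam ^ i * ∑ v, g v ^ 2) ≤ n * (lam ^ i * (n * f)) :=
      mul_le_mul_of_nonneg_left (mul_le_mul_of_nonneg_left hsg2 (by positivity)) hn.le
    have h3 : n * ∑ v, g v * ((T G)^[i] g) v ≤ n * (n * (f ^ 2 + lam ^ i * f)) := by
      calc _ ≤ (n * f) ^ 2 + n * (lam ^ i * ∑ v, g v ^ 2) := h
        _ ≤ (n * f) ^ 2 + n * (lam ^ i * (n * f)) := by linarith
        _ = _ := by ring
    exact le_of_mul_le_mul_left h3 hn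
  have hgeo : ∀ k : ℕ, ∑ i ∈ range k, lam ^ i ≤ 1 / (1 - lam) := by
    intro k
    have h := geom_sum_mul_neg lam k
    have h2 : (0 : ℝ) < 1 - lam := by linarith
    rw [le_div_iff₀ h2, h]
    have : 0 ≤ lam ^ k := by positivity
    linarith
  induction k with
  | zero => simp [LS_zero, cnt]
  | succ k ih =>
    have e1 : ∀ v, LS (k + 1) (fun w => cnt G fi v w ^ 2) =
        ∑ d, (δ ^ k * fi (v, d) +
          2 * (fi (v, d) * LS k (cnt G fi (G.rot (v, d)).1)) +
          LS k (fun w => cnt G fi (G.rot (v, d)).1 w ^ 2)) := by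
      intro v
      rw [LS_succ]
      refine Finset.sum_congr rfl fun d _ => ?_
      have : ∀ w, cnt G fi v (d :: w) ^ 2 =
          (fi (v, d) ^ 2 + (2 * fi (v, d)) * cnt G fi (G.rot (v, d)).1 w) +
            cnt G fi (G.rot (v, d)).1 w ^ 2 := by
        intro w
        simp only [cnt]
        ring
      rw [LS_congr k fun w _ => this w, LS_add, LS_add, LS_mul_left, LS_const, hf2]
      ring
    rw [Finset.sum_congr rfl fun v _ => e1 v]
    have e2 : ∑ v, ∑ d, (δ ^ k * fi (v, d) +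
          2 * (fi (v, d) * LS k (cnt G fi (G.rot (v, d)).1)) +
          LS k (fun w => cnt G fi (G.rot (v, d)).1 w ^ 2)) =
        δ ^ k * ∑ x, fi x + 2 * ∑ x, fi x * LS k (cnt G fi (G.rot x).1) +
          ∑ x : V × D, LS k (fun w => cnt G fi (G.rot x).1 w ^ 2) := by
      rw [Finset.mul_sum, Finset.mul_sum, ← Finset.sum_add_distrib, ← Finset.sum_add_distrib,
        sum_prod]
    rw [e2]
    have e3 : ∑ x : V × D, LS k (fun w => cnt G fi (G.rot x).1 w ^ 2) =
        δ * ∑ v, LS k (fun w => cnt G fi v w ^ 2) := by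
      rw [sum_rot G (fun x : V × D => LS k (fun w => cnt G fi x.1 w ^ 2)), sum_prod,
        Finset.mul_sum]
      refine Finset.sum_congr rfl fun v _ => ?_
      simp [hdd]
    have e4 : ∑ x, fi x * LS k (cnt G fi (G.rot x).1) =
        δ ^ (k + 1) * ∑ i ∈ range k, ∑ v, g v * ((T G)^[i] g) v := by
      have : ∑ x, fi x * LS k (cnt G fi (G.rot x).1) = ∑ x : V × D, fi x * LS k (cnt G fi x.1) := by
        rw [← sum_rot G (fun x : V × D => fi x * LS k (cnt G fi x.1))]
        refine Finset.sum_congr rfl fun x _ => ?_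
        rw [hfi]
      rw [this, sum_prod, Finset.sum_comm' (t' := univ) (s' := fun _ => range k) (by simp),
        Finset.mul_sum]
      refine Finset.sum_congr rfl fun v _ => ?_
      change ∑ d, fi (v, d) * LS k (cnt G fi v) = _
      rw [← Finset.sum_mul, LS_cnt G fi k v, ← Finset.mul_sum]
      have : ∑ d, fi (v, d) = δ * g v := by
        simp only [hg]
        field_simp
      rw [this]
      ring
    have e5 : ∑ i ∈ range k, ∑ v, g v * ((T G)^[i] g) v ≤
        n * (k * f ^ 2 + f / (1 - lam)) := by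
      calc ∑ i ∈ range k, ∑ v, g v * ((T G)^[i] g) v
          ≤ ∑ i ∈ range k, n * (f ^ 2 + lam ^ i * f) := Finset.sum_le_sum fun i _ => hcor i
        _ = n * (k * f ^ 2 + (∑ i ∈ range k, lam ^ i) * f) := by
            rw [← Finset.mul_sum, Finset.sum_add_distrib, ← Finset.sum_mul]
            simp
        _ ≤ n * (k * f ^ 2 + 1 / (1 - lam) * f) := by
            refine mul_le_mul_of_nonneg_left ?_ hn.le
            have := mul_le_mul_of_nonneg_right (hgeo k) hfnn
            linarith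
        _ = _ := by ring
    rw [e3, e4, hf]
    have e6 : 2 * (δ ^ (k + 1) * ∑ i ∈ range k, ∑ v, g v * ((T G)^[i] g) v) ≤
        2 * (δ ^ (k + 1) * (n * (k * f ^ 2 + f / (1 - lam)))) := by
      refine mul_le_mul_of_nonneg_left (mul_le_mul_of_nonneg_left e5 (by positivity))
        (by norm_num)
    have e7 : δ * ∑ v, LS k (fun w => cnt G fi v w ^ 2) ≤
        δ * (n * δ ^ k * (k * f + k ^ 2 * f ^ 2 + 2 * k * f / (1 - lam))) :=
      mul_le_mul_of_nonneg_left ih hd.le
    have e8 : 0 ≤ n * δ ^ (k + 1) * f ^ 2 := by positivity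
    calc _ ≤ δ ^ k * (f * (n * δ)) + 2 * (δ ^ (k + 1) * (n * (k * f ^ 2 + f / (1 - lam)))) +
          δ * (n * δ ^ k * (k * f + k ^ 2 * f ^ 2 + 2 * k * f / (1 - lam))) := by
            linarith
      _ = n * δ ^ (k + 1) * (((k + 1 : ℕ) : ℝ) * f + ((k + 1 : ℕ) : ℝ) ^ 2 * f ^ 2 +
          2 * ((k + 1 : ℕ) : ℝ) * f / (1 - lam)) - n * δ ^ (k + 1) * f ^ 2 := by
            push_cast
            ring
      _ ≤ _ := by linarith

end Second

end Pw

end Pool.Agent.PCP
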