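import Pool.Agent.PCP.Defs

/-!
# Powering, part 1: sums over words, walks, reversal, and the second moment
-/

namespace Pool.Agent.PCP

open Finset

namespace Pw

variable {V D S : Type}

/-- the sum over all the words of length `k` -/
def LS [Fintype D] : ℕ → (List D → ℝ) → ℝ
  | 0, F => F []
  | k + 1, F => ∑ d, LS k (fun w => F (d :: w))

section LSum

variable [Fintype D]

theorem LS_zero (F : List D → ℝ) : LS 0 F = F [] := rfl

theorem LS_succ (k : ℕ) (F : List D → ℝ) : LS (k + 1) F = ∑ d, LS k (fun w => F (d :: w)) := rfl

theorem LS_mono (k : ℕ) : ∀ {F G : List D → ℝ}, (∀ w, w.length = k → F w ≤ G w) →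
    LS k F ≤ LS k G := by
  induction k with
  | zero => intro F G h; exact h [] rfl
  | succ k ih =>
    intro F G h
    rw [LS_succ, LS_succ]
    exact Finset.sum_le_sum fun d _ => ih fun w hw => h (d :: w) (by simp [hw])

theorem LS_congr (k : ℕ) {F G : List D → ℝ} (h : ∀ w, w.length = k → F w = G w) :
    LS k F = LS k G :=
  le_antisymm (LS_mono k fun w hw => (h w hw).le) (LS_mono k fun w hw => (h w hw).ge)

theorem LS_add (k : ℕ) : ∀ (F G : List D → ℝ), LS k (fun w => F w + G w) = LS k F + LS k G := by
  induction k with
  | zero => intro F G; rfl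
  | succ k ih =>
    intro F G
    simp only [LS_succ, ih, Finset.sum_add_distrib]

theorem LS_mul_left (k : ℕ) : ∀ (c : ℝ) (F : List D → ℝ),
    LS k (fun w => c * F w) = c * LS k F := by
  induction k with
  | zero => intro c F; rfl
  | succ k ih =>
    intro c F
    simp only [LS_succ, ih, Finset.mul_sum]

theorem LS_mul_right (k : ℕ) (c : ℝ) (F : List D → ℝ) :
    LS k (fun w => F w * c) = LS k F * c := by
  rw [mul_comm, ← LS_mul_left]
  exact LS_congr k fun w _ => mul_comm _ _

theorem LS_const (k : ℕ) (c : ℝ) : LS k (fun _ : List D => c) = (Fintype.card D : ℝ) ^ k * c := by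
  induction k with
  | zero => simp [LS_zero]
  | succ k ih =>
    rw [LS_succ, ih]
    simp only [Finset.sum_const, Finset.card_univ, nsmul_eq_mul]
    ring

theorem LS_sum {ι : Type*} (s : Finset ι) (k : ℕ) : ∀ (F : ι → List D → ℝ),
    LS k (fun w => ∑ i ∈ s, F i w) = ∑ i ∈ s, LS k (F i) := by
  induction k with
  | zero => intro F; rfl
  | succ k ih =>
    intro F
    simp only [LS_succ, ih]
    exact Finset.sum_comm

theorem LS_nonneg (k : ℕ) {F : List D → ℝ} (h : ∀ w, w.length = k → 0 ≤ F w) : 0 ≤ LS k F := by
  have := LS_mono (F := fun _ : List D => (0 : ℝ)) k h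
  rwa [LS_const, mul_zero] at this

theorem LS_append (a b : ℕ) : ∀ (F : List D → ℝ),
    LS (a + b) F = LS a (fun w => LS b (fun w' => F (w ++ w'))) := by
  induction a with
  | zero => intro F; rw [Nat.zero_add]; rfl
  | succ a ih =>
    intro F
    rw [Nat.add_right_comm, LS_succ, LS_succ]
    exact Finset.sum_congr rfl fun d _ => ih _

theorem LS_snoc (k : ℕ) (F : List D → ℝ) :
    LS (k + 1) F = LS k (fun w => ∑ d, F (w ++ [d])) := by
  rw [LS_append]
  rfl

/-- the words of length `k` as vectors -/
theorem LS_eq_sum (k : ℕ) : ∀ (F : List D → ℝ),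
    LS k F = ∑ l : List.Vector D k, F l.toList := by
  induction k with
  | zero =>
    intro F
    rw [LS_zero]
    have : (univ : Finset (List.Vector D 0)) = {List.Vector.nil} := by
      ext x
      simp [List.Vector.eq_nil]
    rw [this]
    simp
  | succ k ih =>
    intro F
    rw [LS_succ]
    simp only [ih]
    rw [← Fintype.sum_prod_type (f := fun p : D × List.Vector D k => F (p.1 :: p.2.toList))]
    refine Fintype.sum_bijective (fun p : D × List.Vector D k => p.1 ::ᵥ p.2) ?_ _ _ ?_
    · constructor
      · rintro ⟨a, b⟩ ⟨a', b'⟩ h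
        have h1 := congrArg List.Vector.head h
        have h2 := congrArg List.Vector.tail h
        simp only [List.Vector.head_cons, List.Vector.tail_cons] at h1 h2
        rw [h1, h2]
      · intro l
        exact ⟨(l.head, l.tail), List.Vector.cons_head_tail l⟩
    · rintro ⟨a, b⟩
      simp

end LSum

/-! ## Walks -/

section Walks

variable (G : RG V D S)

theorem walk_append (v : V) (w w' : List D) :
    G.walk v (w ++ w') = G.walk (G.walk v w) w' := by
  induction w generalizing v with
  | nil => rfl
  | cons d w ih => simp only [List.cons_append, RG.walk, ih]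

theorem view_append (v : V) (w w' : List D) :
    G.view v (w ++ w') = G.view v w ++ G.view (G.walk v w) w' := by
  induction w generalizing v with
  | nil => rfl
  | cons d w ih => simp only [List.cons_append, RG.view, RG.walk, ih]

theorem length_view (v : V) (w : List D) : (G.view v w).length = w.length := by
  induction w generalizing v with
  | nil => rfl
  | cons d w ih => simp only [RG.view, List.length_cons, ih]

theorem length_back (v : V) (w : List D) : (G.back v w).length = w.length := by
  simp [RG.back, length_view]

theorem back_append (v : V) (w w' : List D) :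
    G.back v (w ++ w') = G.back (G.walk v w) w' ++ G.back v w := by
  simp [RG.back, view_append]

theorem back_nil (v : V) : G.back v [] = [] := rfl

theorem back_cons (v : V) (d : D) (w : List D) :
    G.back v (d :: w) = G.back (G.rot (v, d)).1 w ++ [(G.rot (v, d)).2] := by
  simp [RG.back, RG.view]

theorem walk_back (v : V) (w : List D) : G.walk (G.walk v w) (G.back v w) = v := by
  induction w generalizing v with
  | nil => rfl
  | cons d w ih =>
    rw [back_cons, RG.walk, walk_append, ih]
    simp only [RG.walk]
    have : ((G.rot (v, d)).1, (G.rot (v, d)).2) = G.rot (v, d) := rfl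
    rw [this, G.rot_rot]

theorem back_back (v : V) (w : List D) : G.back (G.walk v w) (G.back v w) = w := by
  induction w generalizing v with
  | nil => rfl
  | cons d w ih =>
    rw [back_cons, RG.walk, back_append, ih, walk_back]
    simp only [back_cons, back_nil, List.nil_append]
    have : ((G.rot (v, d)).1, (G.rot (v, d)).2) = G.rot (v, d) := rfl
    rw [this, G.rot_rot]
    rfl

variable [Fintype V] [Fintype D]

theorem sum_rot (f : V × D → ℝ) : ∑ x, f (G.rot x) = ∑ x, f x :=
  Equiv.sum_comp (Function.Involutive.toPerm G.rot G.rot_rot) f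

theorem sum_prod (f : V × D → ℝ) : ∑ x, f x = ∑ v, ∑ d, f (v, d) := Fintype.sum_prod_type f

/-- **reversal law** -/
theorem reversal (k : ℕ) : ∀ (Φ : V → List D → ℝ),
    ∑ v, LS k (fun w => Φ (G.walk v w) (G.back v w)) = ∑ v, LS k (Φ v) := by
  induction k with
  | zero => intro Φ; rfl
  | succ k ih =>
    intro Φ
    have h1 : ∀ v : V, LS (k + 1) (fun w => Φ (G.walk v w) (G.back v w)) =
        ∑ d, (fun x : V × D => LS k (fun w => Φ (G.walk x.1 w) (G.back x.1 w ++ [x.2])))
          (G.rot (v, d)) := by
      intro v
      rw [LS_succ]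
      refine Finset.sum_congr rfl fun d _ => ?_
      refine LS_congr k fun w _ => ?_
      rw [back_cons]
      rfl
    have h3 := sum_rot G
      (fun x : V × D => LS k (fun w => Φ (G.walk x.1 w) (G.back x.1 w ++ [x.2])))
    rw [sum_prod, sum_prod] at h3
    rw [Finset.sum_congr rfl fun v _ => h1 v, h3, Finset.sum_comm]
    have h2 : ∀ d : D, ∑ v, LS k (fun w => Φ (G.walk v w) (G.back v w ++ [d])) =
        ∑ v, LS k (fun w => Φ v (w ++ [d])) := fun d => ih (fun v w => Φ v (w ++ [d]))
    rw [Finset.sum_congr rfl fun d _ => h2 d, Finset.sum_comm]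
    refine Finset.sum_congr rfl fun v _ => ?_
    rw [LS_snoc, LS_sum]

/-! ## Counting the steps in a set of edges -/

/-- the number of steps of the walk in the set with the indicator function `fi` -/
def cnt (fi : V × D → ℝ) : V → List D → ℝ
  | _, [] => 0
  | v, d :: w => fi (v, d) + cnt fi (G.rot (v, d)).1 w

/-- is the `i`-th step of the walk in the set -/
def stp (fi : V × D → ℝ) : ℕ → V → List D → ℝ
  | _, _, [] => 0
  | 0, v, d :: _ => fi (v, d)
  | i + 1, v, d :: w => stp fi i (G.rot (v, d)).1 w

end Walks

end Pw

end Pool.Agent.PCP
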