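import Pool.Agent.PCP.Walk

/-!
# The step of the gap amplification: definitions
-/

namespace Pool.Agent.PCP

open Finset

noncomputable section

/-- a square number above `n` -/
def sq (n : ℕ) : ℕ := Nat.sqrt n + 1

theorem le_sq (n : ℕ) : n ≤ sq n * sq n := (Nat.lt_succ_sqrt n).le

theorem sq_le {n : ℕ} (h : 1 ≤ n) : sq n * sq n ≤ 4 * n := by
  have h1 : 1 ≤ Nat.sqrt n := Nat.sqrt_pos.mpr h
  have h2 := Nat.sqrt_le n
  unfold sq
  nlinarith

theorem sq_ne_zero (n : ℕ) : sq n ≠ 0 := Nat.succ_ne_zero _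

instance (n : ℕ) : NeZero (sq n) := ⟨sq_ne_zero n⟩

/-- an embedding of `Y` into a square -/
theorem exists_emb (Y : Type) [Fintype Y] :
    Nonempty (Y ↪ ZMod (sq (Fintype.card Y)) × ZMod (sq (Fintype.card Y))) := by
  apply Function.Embedding.nonempty_of_card_le
  rw [Fintype.card_prod, ZMod.card]
  exact le_sq _

/-- an embedding of `Y` into a square -/
def emb (Y : Type) [Fintype Y] :
    Y ↪ ZMod (sq (Fintype.card Y)) × ZMod (sq (Fintype.card Y)) :=
  (exists_emb Y).some

section params

variable (S : Type) (t : ℕ)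

/-- opinions -/
abbrev Op : Type := {l : List D0 // l.length < t} → S

instance finWords : Finite {l : List D0 // l.length < t} := List.finite_length_lt D0 t

instance fintypeWords : Fintype {l : List D0 // l.length < t} := Fintype.ofFinite _

instance fintypeOp [Fintype S] : Fintype (Op S t) := by
  classical
  exact inferInstance

/-- The local edges: length of the walk and labels. -/
abbrev LE : Type := Fin (2 * t) × List.Vector D0 (2 * t - 1)

/-- functions on the opinions -/
abbrev FA : Type := Op S t → ZMod 2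

/-- functions on pairs of opinions -/
abbrev FF : Type := Op S t × Op S t → ZMod 2

/-- local part of the tests -/
abbrev T0 : Type := LE t × Fin 5 × FA S t × FF S t × FF S t × FF S t

/-- local part of the bits -/
abbrev X0 : Type := (LE t × FF S t) ⊕ FA S t

/-- the slots for the bits of an edge -/
abbrev YB : Type := Fin 5 × Fin 4 × FA S t × FF S t × FF S t

/-- the slots for the bits of a vertex -/
abbrev YA : Type := Bool × LE t × FF S t × FF S t × FF S t

variable [Fintype S]

instance fintypeFA : Fintype (FA S t) := by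
  classical
  exact inferInstance

instance fintypeFF : Fintype (FF S t) := by
  classical
  exact inferInstance

/-- size of the clouds -/
def kk : X0 S t → ℕ
  | .inl _ => sq (Fintype.card (YB S t))
  | .inr _ => sq (Fintype.card (YA S t))

instance (x : X0 S t) : NeZero (kk S t x) := by
  rcases x with x | x
  · exact ⟨sq_ne_zero _⟩
  · exact ⟨sq_ne_zero _⟩

/-- copies of the bits -/
abbrev C0 : Type := Σ x : X0 S t, ZMod (kk S t x) × ZMod (kk S t x)

/-- number of local vertices before padding -/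
def nK : ℕ := Fintype.card (T0 S t ⊕ C0 S t)

/-- the side of the square of the new local vertices -/
def kap : ℕ := sq (nK S t)

instance : NeZero (kap S t) := ⟨sq_ne_zero _⟩

/-- padding -/
abbrev Pad0 : Type := Fin (kap S t * kap S t - nK S t)

/-- local vertices -/
abbrev Kt : Type := (T0 S t ⊕ C0 S t) ⊕ Pad0 S t

theorem card_Kt : Fintype.card (Kt S t) = kap S t * kap S t := by
  have h : nK S t ≤ kap S t * kap S t := le_sq _
  rw [Fintype.card_sum, Fintype.card_fin]
  change nK S t + (kap S t * kap S t - nK S t) = _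
  omega

/-- numbering of the local vertices -/
def eK : Kt S t ≃ Fin (kap S t) × Fin (kap S t) :=
  Fintype.equivOfCardEq (by rw [card_Kt, Fintype.card_prod, Fintype.card_fin])

end params

variable {V S : Type} [Fintype S] [Inhabited S] {t : ℕ}

/-- the walked labels -/
def word (ε : LE t) : List D0 := ε.2.1.take ε.1

/-- extension of an opinion to all words -/
def ext (α : Op S t) (l : List D0) : S := if h : l.length < t then α ⟨l, h⟩ else default

theorem length_word (ε : LE t) : (word ε).length = ε.1 := by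
  unfold word
  rw [List.length_take, ε.2.2]
  have := ε.1.2
  omega

/-- the reversed local edge, as seen from the end of the walk with the given backward labels -/
def hflip (ε : LE t) (bw : List D0) (h : bw.length = ε.1) : LE t :=
  (ε.1, ⟨bw ++ ε.2.1.drop ε.1, by
    rw [List.length_append, h, List.length_drop, ε.2.2]
    have := ε.1.2
    omega⟩)

/-- the rotation map of the local edges -/
def hrot (G : RG V D0 S) (x : V × LE t) : V × LE t :=
  (G.walk x.1 (word x.2),
    hflip x.2 (G.back x.1 (word x.2)) ((G.length_back _ _).trans (length_word _)))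

theorem word_hflip (ε : LE t) (bw : List D0) (h : bw.length = ε.1) :
    word (hflip ε bw h) = bw := by
  unfold word hflip
  simp only
  rw [← h, List.take_left]

omit [Fintype S] [Inhabited S] in
theorem hrot_hrot (G : RG V D0 S) (x : V × LE t) : hrot G (hrot G x) = x := by
  obtain ⟨v, ε⟩ := x
  have h1 : word (hrot G (v, ε)).2 = G.back v (word ε) :=
    word_hflip ε (G.back v (word ε)) ((G.length_back _ _).trans (length_word _))
  have h2 : (hrot G (hrot G (v, ε))).1 = v := by
    show G.walk (G.walk v (word ε)) (word (hrot G (v, ε)).2) = v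
    rw [h1, G.walk_back]
  refine Prod.ext h2 ?_
  refine Prod.ext rfl (Subtype.ext ?_)
  show G.back (G.walk v (word ε)) (word (hrot G (v, ε)).2) ++
    (G.back v (word ε) ++ ε.2.1.drop ε.1).drop ε.1 = ε.2.1
  rw [h1, G.back_back]
  have h3 : (G.back v (word ε)).length = (ε.1 : ℕ) := (G.length_back _ _).trans (length_word _)
  rw [← h3, List.drop_left, h3]
  exact List.take_append_drop _ _

open Classical in
/-- the relation of the local edge, from the view -/
def relOf (t : ℕ) (w : List D0) (vw : List (D0 × (S → S → Bool))) : FF S t :=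
  fun x => if chk t w vw (ext x.1) (ext x.2) then 1 else 0

/-- the relation of a local edge -/
def rel (G : RG V D0 S) (x : V × LE t) : FF S t :=
  relOf t (word x.2) (G.view x.1 (word x.2))

/-! ### The queries to the table of an edge -/

/-- bit and rest of the `j`-th query of the `i`-th test to the table of the edge -/
def qB (i : Fin 5) (j : Fin 4) (r : FF S t) (φ : FA S t) (z : FF S t × FF S t × FF S t) :
    FF S t × FF S t × FF S t :=
  match i, j with
  | 0, 1 => (z.2.1, z.1, z.2.2)
  | 0, 2 => (z.1 + z.2.1, z.1, z.2.2)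
  | 0, _ => z
  | 1, 0 => z
  | 1, 1 => (z.2.1, z.1, z.2.2)
  | 1, 2 => (z.2.2, z.1, z.2.1)
  | 1, 3 => (z.2.2 + z.1 * z.2.1, z.1, z.2.1)
  | 2, 1 => (z.2.2 + r, z.1, z.2.1)
  | 2, _ => (z.2.2, z.1, z.2.1)
  | 3, 2 => (z.2.2 + (fun x : Op S t × Op S t => φ x.1 : FF S t), z.1, z.2.1)
  | 3, _ => (z.2.2, z.1, z.2.1)
  | 4, 2 => (z.2.2 + (fun x : Op S t × Op S t => φ x.2 : FF S t), z.1, z.2.1)
  | 4, _ => (z.2.2, z.1, z.2.1)

/-- the inverse -/
def qBinv (i : Fin 5) (j : Fin 4) (r : FF S t) (φ : FA S t) (z : FF S t × FF S t × FF S t) :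
    FF S t × FF S t × FF S t :=
  match i, j with
  | 0, 1 => (z.2.1, z.1, z.2.2)
  | 0, 2 => (z.2.1, z.1 + z.2.1, z.2.2)
  | 0, _ => z
  | 1, 0 => z
  | 1, 1 => (z.2.1, z.1, z.2.2)
  | 1, 2 => (z.2.1, z.2.2, z.1)
  | 1, 3 => (z.2.1, z.2.2, z.1 + z.2.1 * z.2.2)
  | 2, 1 => (z.2.1, z.2.2, z.1 + r)
  | 2, _ => (z.2.1, z.2.2, z.1)
  | 3, 2 => (z.2.1, z.2.2, z.1 + (fun x : Op S t × Op S t => φ x.1 : FF S t))
  | 3, _ => (z.2.1, z.2.2, z.1)
  | 4, 2 => (z.2.1, z.2.2, z.1 + (fun x : Op S t × Op S t => φ x.2 : FF S t))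
  | 4, _ => (z.2.1, z.2.2, z.1)

theorem addadd {β : Type} (x y : β → ZMod 2) : x + y + y = x := by
  funext b
  simp only [Pi.add_apply, add_assoc, CharTwo.add_self_eq_zero, add_zero]

theorem addadd' {β : Type} (x y : β → ZMod 2) : x + y + x = y := by
  rw [add_comm x y, addadd]

theorem addadd'' {β : Type} (x y : β → ZMod 2) : x + (y + x) = y := by
  rw [← add_assoc, addadd']

omit [Fintype S] [Inhabited S] in
theorem qBinv_qB (i : Fin 5) (j : Fin 4) (r : FF S t) (φ : FA S t)
    (z : FF S t × FF S t × FF S t) : qBinv i j r φ (qB i j r φ z) = z := by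
  obtain ⟨f, g, h⟩ := z
  fin_cases i <;> fin_cases j <;> simp [qB, qBinv, addadd, addadd', addadd'']

omit [Fintype S] [Inhabited S] in
theorem qB_qBinv (i : Fin 5) (j : Fin 4) (r : FF S t) (φ : FA S t)
    (z : FF S t × FF S t × FF S t) : qB i j r φ (qBinv i j r φ z) = z := by
  obtain ⟨f, g, h⟩ := z
  fin_cases i <;> fin_cases j <;> simp [qB, qBinv, addadd, addadd', addadd'']

/-! ### The local rules -/

open Classical in
/-- partial inverse of an embedding -/
def pinv {Y Z : Type} (f : Y ↪ Z) (z : Z) : Option Y :=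
  if h : ∃ y, f y = z then some h.choose else none

theorem pinv_apply {Y Z : Type} (f : Y ↪ Z) (y : Y) : pinv f (f y) = some y := by
  have h : ∃ y', f y' = f y := ⟨y, rfl⟩
  unfold pinv
  rw [dif_pos h]
  exact congrArg some (f.injective h.choose_spec)

theorem pinv_eq_some {Y Z : Type} (f : Y ↪ Z) {z : Z} {y : Y} (h : pinv f z = some y) :
    f y = z := by
  unfold pinv at h
  split_ifs at h with h1
  rw [← Option.some.inj h]
  exact h1.choose_spec

/-- What a vertex knows: for each local edge its relation and its reverse edge. -/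
abbrev Loc (S : Type) (t : ℕ) : Type := LE t → FF S t × LE t

/-- what the vertex `v` knows -/
def loc (G : RG V D0 S) (t : ℕ) (v : V) : Loc S t := fun ε => (rel G (v, ε), (hrot G (v, ε)).2)

/-- move to the other end of a local edge -/
def go (G : RG V D0 S) (v : V) : Option (LE t) → V
  | none => v
  | some ε => (hrot G (v, ε)).1

/-- copy of the bit `(ε, b)` in the slot `y` -/
def cB (x : LE t × FF S t) (y : YB S t) : C0 S t := ⟨.inl x, emb (YB S t) y⟩

/-- copy of the bit `φ` in the slot `y` -/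
def cA (φ : FA S t) (y : YA S t) : C0 S t := ⟨.inr φ, emb (YA S t) y⟩

/-- The `j`-th query of the test `τ`: where to go, and the local name of the copy of the bit. -/
def lq (L : Loc S t) (τ : T0 S t) (j : Fin 4) : Option (LE t) × C0 S t :=
  if (τ.2.1 = 3 ∨ τ.2.1 = 4) ∧ j = 0 then
    (if τ.2.1 = 3 then (none, cA τ.2.2.1 (false, τ.1, τ.2.2.2))
      else (some τ.1, cA τ.2.2.1 (true, (L τ.1).2, τ.2.2.2)))
  else
    (none, cB (τ.1, (qB τ.2.1 j (L τ.1).1 τ.2.2.1 τ.2.2.2).1)
      (τ.2.1, j, τ.2.2.1, (qB τ.2.1 j (L τ.1).1 τ.2.2.1 τ.2.2.2).2))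

/-- the inverse of `lq` for the copies of the bits of an edge -/
def linvB (L : Loc S t) (ε : LE t) (b : FF S t) :
    Option (YB S t) → Option (Option (LE t) × T0 S t × Fin 4)
  | none => none
  | some y =>
      if (y.1 = 3 ∨ y.1 = 4) ∧ y.2.1 = 0 then none
      else some (none, (ε, y.1, y.2.2.1, qBinv y.1 y.2.1 (L ε).1 y.2.2.1 (b, y.2.2.2)), y.2.1)

/-- the inverse of `lq` for the copies of the bits of a vertex -/
def linvA (L : Loc S t) (φ : FA S t) : Option (YA S t) → Option (Option (LE t) × T0 S t × Fin 4)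
  | none => none
  | some (false, ε, z) => some (none, (ε, 3, φ, z), 0)
  | some (true, ε, z) => some (some ε, ((L ε).2, 4, φ, z), 0)

/-- the inverse of `lq` -/
def linv (L : Loc S t) : C0 S t → Option (Option (LE t) × T0 S t × Fin 4)
  | ⟨.inl (ε, b), c⟩ => linvB L ε b (pinv (emb (YB S t)) c)
  | ⟨.inr φ, c⟩ => linvA L φ (pinv (emb (YA S t)) c)

theorem lq3 (L : Loc S t) (ε : LE t) (φ : FA S t) (z : FF S t × FF S t × FF S t) :
    lq L (ε, 3, φ, z) 0 = (none, cA φ (false, ε, z)) := rfl

theorem lq4 (L : Loc S t) (ε : LE t) (φ : FA S t) (z : FF S t × FF S t × FF S t) :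
    lq L (ε, 4, φ, z) 0 = (some ε, cA φ (true, (L ε).2, z)) := rfl

theorem lqB (L : Loc S t) (ε : LE t) {i : Fin 5} {j : Fin 4} (φ : FA S t)
    (z : FF S t × FF S t × FF S t) (h : ¬ ((i = 3 ∨ i = 4) ∧ j = 0)) :
    lq L (ε, i, φ, z) j = (none, cB (ε, (qB i j (L ε).1 φ z).1)
      (i, j, φ, (qB i j (L ε).1 φ z).2)) := if_neg h

theorem linv_cA0 (L : Loc S t) (ε : LE t) (φ : FA S t) (z : FF S t × FF S t × FF S t) :
    linv L (cA φ (false, ε, z)) = some (none, (ε, 3, φ, z), 0) := by
  show linvA L φ (pinv (emb (YA S t)) (emb (YA S t) (false, ε, z))) = _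
  rw [pinv_apply]
  rfl

theorem linv_cA1 (L : Loc S t) (ε : LE t) (φ : FA S t) (z : FF S t × FF S t × FF S t) :
    linv L (cA φ (true, ε, z)) = some (some ε, ((L ε).2, 4, φ, z), 0) := by
  show linvA L φ (pinv (emb (YA S t)) (emb (YA S t) (true, ε, z))) = _
  rw [pinv_apply]
  rfl

theorem linv_cB (L : Loc S t) (ε : LE t) (b : FF S t) (i : Fin 5) (j : Fin 4) (φ : FA S t)
    (z : FF S t × FF S t) : linv L (cB (ε, b) (i, j, φ, z)) =
      if (i = 3 ∨ i = 4) ∧ j = 0 then none
      else some (none, (ε, i, φ, qBinv i j (L ε).1 φ (b, z)), j) := by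
  show linvB L ε b (pinv (emb (YB S t)) (emb (YB S t) (i, j, φ, z))) = _
  rw [pinv_apply]
  rfl

theorem C0_cases (c : C0 S t) : (∃ φ y, c = cA φ y) ∨ (∃ x y, c = cB x y) ∨
    ∀ L, linv L c = none := by
  obtain ⟨x0, c⟩ := c
  rcases x0 with ⟨ε, b⟩ | φ
  · rcases hp : pinv (emb (YB S t)) c with _ | y
    · right; right
      intro L
      show linvB L ε b (pinv (emb (YB S t)) c) = none
      rw [hp]
      rfl
    · right; left
      refine ⟨(ε, b), y, ?_⟩
      have hc : (emb (YB S t)) y = c := pinv_eq_some _ hp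
      unfold cB
      rw [hc]
  · rcases hp : pinv (emb (YA S t)) c with _ | y
    · right; right
      intro L
      show linvA L φ (pinv (emb (YA S t)) c) = none
      rw [hp]
      rfl
    · left
      refine ⟨φ, y, ?_⟩
      have hc : (emb (YA S t)) y = c := pinv_eq_some _ hp
      unfold cA
      rw [hc]

theorem loc_loc (G : RG V D0 S) (v : V) (ε : LE t) :
    loc G t (hrot G (v, ε)).1 (hrot G (v, ε)).2 = (rel G (hrot G (v, ε)), ε) := by
  show (rel G ((hrot G (v, ε)).1, (hrot G (v, ε)).2),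
    (hrot G ((hrot G (v, ε)).1, (hrot G (v, ε)).2)).2) = _
  rw [Prod.mk.eta, hrot_hrot]

theorem go_go (G : RG V D0 S) (v : V) (ε : LE t) :
    go G (hrot G (v, ε)).1 (some (hrot G (v, ε)).2) = v := by
  show (hrot G ((hrot G (v, ε)).1, (hrot G (v, ε)).2)).1 = _
  rw [Prod.mk.eta, hrot_hrot]

/-- the queries -/
def qq (G : RG V D0 S) (x : (V × T0 S t) × Fin 4) : V × C0 S t :=
  (go G x.1.1 (lq (loc G t x.1.1) x.1.2 x.2).1, (lq (loc G t x.1.1) x.1.2 x.2).2)

/-- the inverse of the queries -/
def qqinv (G : RG V D0 S) (y : V × C0 S t) : Option ((V × T0 S t) × Fin 4) :=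
  (linv (loc G t y.1) y.2).map fun z => ((go G y.1 z.1, z.2.1), z.2.2)

theorem qqinv_qq (G : RG V D0 S) (x : (V × T0 S t) × Fin 4) : qqinv G (qq G x) = some x := by
  obtain ⟨⟨v, ε, i, φ, z⟩, j⟩ := x
  by_cases h : (i = 3 ∨ i = 4) ∧ j = 0
  · obtain ⟨h1, rfl⟩ := h
    rcases h1 with rfl | rfl
    · unfold qqinv qq
      simp only [lq3, linv_cA0]
      rfl
    · unfold qqinv qq
      simp only [lq4, linv_cA1]
      have h1 : go G v (some ε) = (hrot G (v, ε)).1 := rfl
      have h2 : (loc G t v ε).2 = (hrot G (v, ε)).2 := rfl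
      rw [h1, h2, loc_loc, Option.map_some, go_go]
  · unfold qqinv qq
    simp only [lqB _ _ _ _ h, linv_cB, if_neg h]
    have h1 : go G v (none : Option (LE t)) = v := rfl
    rw [h1, Option.map_some, h1, Prod.mk.eta, qBinv_qB]

theorem qq_qqinv (G : RG V D0 S) {y : V × C0 S t} {x : (V × T0 S t) × Fin 4}
    (h : qqinv G y = some x) : qq G x = y := by
  obtain ⟨v, c⟩ := y
  unfold qqinv at h
  simp only at h
  rcases C0_cases c with ⟨φ, ⟨e, ε, z⟩, rfl⟩ | ⟨⟨ε, b⟩, ⟨i, j, φ, z⟩, rfl⟩ | hn
  · cases e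
    · rw [linv_cA0, Option.map_some] at h
      rw [← Option.some.inj h]
      rfl
    · rw [linv_cA1, Option.map_some] at h
      rw [← Option.some.inj h]
      unfold qq
      have h1 : go G v (some ε) = (hrot G (v, ε)).1 := rfl
      have h2 : (loc G t v ε).2 = (hrot G (v, ε)).2 := rfl
      simp only [lq4]
      rw [h1, h2, go_go, loc_loc]
  · rw [linv_cB] at h
    by_cases h5 : (i = 3 ∨ i = 4) ∧ j = 0
    · rw [if_pos h5] at h
      exact absurd h (by simp)
    · rw [if_neg h5, Option.map_some] at h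
      rw [← Option.some.inj h]
      unfold qq
      have h1 : go G v (none : Option (LE t)) = v := rfl
      simp only [h1, lqB _ _ _ _ h5, qB_qBinv]
  · rw [hn] at h
    exact absurd h (by simp)

theorem qq_injective (G : RG V D0 S) : Function.Injective (qq (t := t) G) := by
  intro x y h
  have h1 := qqinv_qq G x
  rw [h, qqinv_qq] at h1
  exact (Option.some.inj h1).symm

end

end Pool.Agent.PCP
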