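import Pool.Agent.PCP.StepSat
import Pool.Agent.PCP.Congr

/-!
# The step of the gap amplification: soundness
-/

namespace Pool.Agent.PCP

open Finset

noncomputable section

section cards

variable (A B C : Type) [Fintype A] [Fintype B] [Fintype C]

theorem card_aux1 : Fintype.card (A × Fin 5 × B × C × C × C) =
    5 * (Fintype.card A * (Fintype.card B * Fintype.card C ^ 3)) := by
  simp only [Fintype.card_prod, Fintype.card_fin]
  ring

theorem card_aux2 : Fintype.card (Fin 5 × Fin 4 × B × C × C) =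
    20 * (Fintype.card B * Fintype.card C ^ 2) := by
  simp only [Fintype.card_prod, Fintype.card_fin]
  ring

theorem card_aux3 : Fintype.card (Bool × A × C × C × C) =
    2 * (Fintype.card A * Fintype.card C ^ 3) := by
  simp only [Fintype.card_prod, Fintype.card_bool]
  ring

end cards

section sizes

variable (S : Type) [Fintype S] [Inhabited S] (t : ℕ)

instance decFA : DecidableEq (FA S t) := Classical.decEq _
instance decFF : DecidableEq (FF S t) := Classical.decEq _

/-- the basic size -/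
def bs : ℕ := Fintype.card (LE t) * (Fintype.card (FA S t) * Fintype.card (FF S t) ^ 3)

theorem card_T0 : Fintype.card (T0 S t) = 5 * bs S t := by
  exact card_aux1 (LE t) (FA S t) (FF S t)

theorem card_YB : Fintype.card (YB S t) =
    20 * (Fintype.card (FA S t) * Fintype.card (FF S t) ^ 2) := by
  exact card_aux2 (FA S t) (FF S t)

theorem card_YA : Fintype.card (YA S t) =
    2 * (Fintype.card (LE t) * Fintype.card (FF S t) ^ 3) := by
  exact card_aux3 (LE t) (FF S t)

theorem card_FA_pos : 0 < Fintype.card (FA S t) := Fintype.card_pos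
theorem card_FF_pos : 0 < Fintype.card (FF S t) := Fintype.card_pos

theorem card_LE' : Fintype.card (LE t) = 2 * t * Fintype.card D0 ^ (2 * t - 1) := by
  rw [Fintype.card_prod, Fintype.card_fin, card_vector]

theorem card_LE_pos (ht : 1 ≤ t) : 0 < Fintype.card (LE t) := by
  rw [card_LE']
  have : 0 < Fintype.card D0 := Fintype.card_pos
  positivity

theorem card_C0 : Fintype.card (C0 S t) =
    (Fintype.card (LE t) * Fintype.card (FF S t)) *
      (sq (Fintype.card (YB S t)) * sq (Fintype.card (YB S t))) +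
    Fintype.card (FA S t) * (sq (Fintype.card (YA S t)) * sq (Fintype.card (YA S t))) := by
  have h1 : ∀ x : X0 S t, Fintype.card (ZMod (kk S t x) × ZMod (kk S t x)) =
      kk S t x * kk S t x := by
    intro x
    rw [Fintype.card_prod, ZMod.card]
  rw [Fintype.card_sigma, Fintype.sum_sum_type]
  simp only [h1]
  have h2 : ∀ x : LE t × FF S t, kk S t (Sum.inl x) = sq (Fintype.card (YB S t)) := fun _ => rfl
  have h3 : ∀ x : FA S t, kk S t (Sum.inr x) = sq (Fintype.card (YA S t)) := fun _ => rfl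
  simp only [h2, h3, Finset.sum_const, Finset.card_univ, smul_eq_mul]
  congr 1
  rw [Fintype.card_prod]

theorem card_C0_le (ht : 1 ≤ t) : Fintype.card (C0 S t) ≤ 88 * bs S t := by
  have h1 := card_FA_pos S t
  have h2 := card_FF_pos S t
  have h3 := card_LE_pos t ht
  have hB : 1 ≤ Fintype.card (YB S t) := by
    rw [card_YB]
    have : 0 < Fintype.card (FA S t) * Fintype.card (FF S t) ^ 2 := by positivity
    omega
  have hA : 1 ≤ Fintype.card (YA S t) := by
    rw [card_YA]
    have : 0 < Fintype.card (LE t) * Fintype.card (FF S t) ^ 3 := by positivity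
    omega
  have h4 := sq_le hB
  have h5 := sq_le hA
  rw [card_C0]
  calc _ ≤ (Fintype.card (LE t) * Fintype.card (FF S t)) * (4 * Fintype.card (YB S t)) +
      Fintype.card (FA S t) * (4 * Fintype.card (YA S t)) := by gcongr
    _ = 88 * bs S t := by
      rw [card_YB, card_YA]
      unfold bs
      ring

theorem card_Kt_le (ht : 1 ≤ t) : Fintype.card (Kt S t) ≤ 372 * bs S t := by
  rw [card_Kt]
  have h1 : nK S t ≤ 93 * bs S t := by
    unfold nK
    rw [Fintype.card_sum, card_T0]
    have := card_C0_le S t ht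
    omega
  have h2 : 1 ≤ nK S t := by
    unfold nK
    rw [Fintype.card_sum, card_T0]
    have h1 := card_FA_pos S t
    have h2 := card_FF_pos S t
    have h3 := card_LE_pos t ht
    have : 0 < bs S t := by
      unfold bs
      positivity
    omega
  have h3 := sq_le h2
  calc kap S t * kap S t ≤ 4 * nK S t := h3
    _ ≤ 4 * (93 * bs S t) := by gcongr
    _ = 372 * bs S t := by ring

end sizes

variable {V S : Type} [Fintype V] [Fintype S] [Inhabited S] {t : ℕ}

/-- the number of violated tests -/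
def nviolT (G : RG V D0 S) (t : ℕ) (β : V × X0 S t → Bool) : ℕ :=
  (univ.filter fun τ : V × T0 S t => testP τ.2.2.1 (reads G t β τ) = false).card

theorem nviolT_eq (G : RG V D0 S) (β : V × X0 S t → Bool) : nviolT G t β =
    ∑ x : V × LE t, (univ.filter fun y : Fin 5 × FA S t × FF S t × FF S t × FF S t =>
      testP y.1 (reads G t β (x.1, (x.2, y))) = false).card := by
  unfold nviolT
  rw [Finset.card_filter, Fintype.sum_prod_type, Fintype.sum_prod_type]
  refine Finset.sum_congr rfl fun v _ => ?_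
  rw [Fintype.sum_prod_type]
  refine Finset.sum_congr rfl fun ε _ => ?_
  rw [Finset.card_filter]

/-- **soundness** of the tests -/
theorem sound_tests {ρ c x : ℝ} {dec : ((Op S t → ZMod 2) → ZMod 2) → Op S t}
    (hρ : 0 < ρ)
    (hdec : ∀ (r : Op S t × Op S t → ZMod 2) (P Q : (Op S t → ZMod 2) → ZMod 2)
      (B : (Op S t × Op S t → ZMod 2) → ZMod 2), r (dec P, dec Q) ≠ 1 →
        ρ * (5 * (Fintype.card (FA S t) : ℝ) * (Fintype.card (FF S t) : ℝ) ^ 3) ≤
          (Nat.card {x : Fin 5 × FA S t × FF S t × FF S t × FF S t //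
            ¬ ltest r P Q B x.1 x.2.1 x.2.2.1 x.2.2.2.1 x.2.2.2.2} : ℝ))
    (G : RG V D0 S)
    (hP : ∀ (A : V → List D0 → S),
        c * x * ((Fintype.card V : ℝ) * (2 * t) * (Fintype.card D0 : ℝ) ^ (2 * t - 1)) ≤
          (Nat.card {x : V × (Fin (2 * t) × List.Vector D0 (2 * t - 1)) //
            ¬ chk t (x.2.2.1.take x.2.1) (G.view x.1 (x.2.2.1.take x.2.1)) (A x.1)
              (A (G.walk x.1 (x.2.2.1.take x.2.1)))} : ℝ))
    (β : V × X0 S t → Bool) :
    5 * ρ * c * x * ((Fintype.card V : ℝ) * (bs S t : ℝ)) ≤ (nviolT G t β : ℝ) := by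
  classical
  obtain ⟨K, hK⟩ : ∃ K, K = ρ * (5 * (Fintype.card (FA S t) : ℝ) *
    (Fintype.card (FF S t) : ℝ) ^ 3) := ⟨_, rfl⟩
  rw [← hK] at hdec
  have hK0 : 0 ≤ K := by
    rw [hK]
    positivity
  have hbad := hP (fun v => ext (dec (fun ψ => zb (β (v, .inr ψ)))))
  rw [Nat.card_eq_fintype_card, Fintype.card_subtype] at hbad
  rw [nviolT_eq]
  push_cast
  have h1 : ∀ x : V × LE t,
      (if ¬ chk t (x.2.2.1.take x.2.1) (G.view x.1 (x.2.2.1.take x.2.1))
          (ext (dec (fun ψ => zb (β (x.1, .inr ψ)))))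
          (ext (dec (fun ψ => zb (β (G.walk x.1 (x.2.2.1.take x.2.1), .inr ψ))))) then K else 0) ≤
        ((univ.filter fun y : Fin 5 × FA S t × FF S t × FF S t × FF S t =>
          testP y.1 (reads G t β (x.1, (x.2, y))) = false).card : ℝ) := by
    intro x
    obtain ⟨v, ε⟩ := x
    by_cases h : ¬ chk t (ε.2.1.take ε.1) (G.view v (ε.2.1.take ε.1))
          (ext (dec (fun ψ => zb (β (v, .inr ψ)))))
          (ext (dec (fun ψ => zb (β (G.walk v (ε.2.1.take ε.1), .inr ψ)))))
    · rw [if_pos h]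
      have h2 : rel G (v, ε) (dec (fun ψ => zb (β (v, .inr ψ))),
          dec (fun ψ => zb (β ((hrot G (v, ε)).1, .inr ψ)))) ≠ 1 := by
        unfold rel relOf
        intro h3
        have h4 : (if chk t (word ε) (G.view v (word ε))
            (ext (dec (fun ψ => zb (β (v, .inr ψ)))))
            (ext (dec (fun ψ => zb (β ((hrot G (v, ε)).1, .inr ψ))))) then (1 : ZMod 2) else 0) =
              1 := h3
        have h' : ¬ chk t (word ε) (G.view v (word ε))
            (ext (dec (fun ψ => zb (β (v, .inr ψ)))))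
            (ext (dec (fun ψ => zb (β ((hrot G (v, ε)).1, .inr ψ))))) := h
        rw [if_neg h'] at h4
        exact absurd h4 (by decide)
      refine (hdec _ _ _ (fun b => zb (β (v, .inl (ε, b)))) h2).trans ?_
      rw [Nat.card_eq_fintype_card, Fintype.card_subtype]
      norm_cast
      refine Finset.card_le_card ?_
      intro y hy
      rw [mem_filter] at hy ⊢
      refine ⟨mem_univ _, ?_⟩
      obtain ⟨i, φ, f, g, h⟩ := y
      rw [← Bool.not_eq_true]
      intro h5
      exact hy.2 ((testP_iff G β v ε i φ f g h).1 h5)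
    · rw [if_neg h]
      positivity
  refine le_trans ?_ (Finset.sum_le_sum fun x _ => h1 x)
  rw [← Finset.sum_filter, Finset.sum_const, nsmul_eq_mul]
  have h6 : 5 * ρ * c * x * ((Fintype.card V : ℝ) * (bs S t : ℝ)) =
      (c * x * ((Fintype.card V : ℝ) * (2 * t) * (Fintype.card D0 : ℝ) ^ (2 * t - 1))) * K := by
    rw [hK]
    unfold bs
    rw [card_LE']
    push_cast
    ring
  rw [h6]
  exact mul_le_mul_of_nonneg_right hbad hK0

/-- **The step** -/
theorem step_main (hP : ModP) (hL : ModL) (hR : ModR) (s : ℕ) (hs : 1 ≤ s) :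
    ∃ c : ℝ, 0 < c ∧ ∀ (S : Type) [Fintype S] [Inhabited S], Fintype.card S ≤ s →
      ∀ (t : ℕ), 1 ≤ t → ∀ (V : Type) [Fintype V] (M : ℕ) [NeZero M] (G : RG V D0 S)
        (e : V × Kt S t ≃ ZMod M × ZMod M),
        ∃ G' : RG (V × Kt S t) D0 S0, G'.rot = nrot G e ∧
          (∀ x, G'.R x = ncon (loc G t x.1.1) x.1.2 x.2) ∧ (G.Sat → G'.Sat) ∧
          G'.Spec 0.965 ∧
          (G.Spec 0.965 → ∀ γ : ℝ, 0 ≤ γ → G.Gap γ → G'.Gap (c * (t * min γ (1 / t)))) := by
  classical
  obtain ⟨c0, hc0, hP⟩ := hP s 0.965 hs (by norm_num) (by norm_num)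
  obtain ⟨ρ, hρ, hL⟩ := hL
  refine ⟨5 * ρ * c0 / 29760, by positivity, ?_⟩
  intro S _ _ hS t ht V _ M _ G e
  obtain ⟨H, hrot, hcon, hsat, hspec, hviol⟩ := hR (V × T0 S t) (V × X0 S t) (V × Pad0 S t)
    (regd G t) M ((eV G t).trans e)
  have : Fintype ((regd G t).Vert (V × Pad0 S t)) := Fintype.ofEquiv _ (eV G t).symm
  refine ⟨H.congr (eV G t), ?_, ?_, ?_, ?_, ?_⟩
  · funext x
    rw [RG.congr_rot, hrot]
    exact rot_eq G e x
  · intro x
    rw [RG.congr_R, hcon]
    exact con_eq G x
  · intro h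
    exact H.congr_sat _ (by
      obtain ⟨β, hβ⟩ := sat_tests (t := t) G h
      exact hsat β hβ)
  · exact H.congr_spec _ (hspec _)
  · intro hspec0 γ hγ hgap
    apply H.congr_gap
    intro σ
    obtain ⟨β, hβ⟩ := hviol inferInstance σ
    obtain ⟨dec, hdec⟩ := hL (Op S t)
    have h1 := sound_tests hρ (hdec := fun r P Q B h => by
      have := hdec r P Q B h
      convert this using 4) G
      (hP V D0 S hS G hspec0 γ hγ hgap t ht) β
    have h2 : (nviolT G t β : ℝ) ≤ 4 * (H.nviol σ : ℝ) := by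
      have h3 : nviolT G t β ≤ 4 * H.nviol σ := hβ
      exact_mod_cast h3
    have h4 : (Fintype.card ((regd G t).Vert (V × Pad0 S t)) : ℝ) ≤
        (Fintype.card V : ℝ) * (372 * (bs S t : ℝ)) := by
      rw [Fintype.card_congr (eV G t), Fintype.card_prod]
      push_cast
      have h5 := card_Kt_le S t ht
      have h6 : (Fintype.card (Kt S t) : ℝ) ≤ 372 * (bs S t : ℝ) := by exact_mod_cast h5
      gcongr
    have hD : (Fintype.card D0 : ℝ) = 20 := by
      have : Fintype.card D0 = 20 := by decide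
      rw [this]
      norm_num
    rw [hD]
    have hx : 0 ≤ (t : ℝ) * min γ (1 / t) := by
      have : 0 ≤ min γ (1 / (t : ℝ)) := le_min hγ (by positivity)
      positivity
    obtain ⟨x, hxdef⟩ : ∃ x, x = (t : ℝ) * min γ (1 / t) := ⟨_, rfl⟩
    rw [← hxdef] at h1 hx ⊢
    obtain ⟨n, hn⟩ : ∃ n, n = (Fintype.card ((regd G t).Vert (V × Pad0 S t)) : ℝ) := ⟨_, rfl⟩
    rw [← hn] at h4 ⊢
    have h7 : 5 * ρ * c0 / 29760 * x * (n * 20) ≤
        5 * ρ * c0 / 29760 * x * ((Fintype.card V : ℝ) * (372 * (bs S t : ℝ)) * 20) := by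
      gcongr
    have h8 : 5 * ρ * c0 / 29760 * x * ((Fintype.card V : ℝ) * (372 * (bs S t : ℝ)) * 20) =
        (5 * ρ * c0 * x * ((Fintype.card V : ℝ) * (bs S t : ℝ))) / 4 := by ring
    linarith

end

end Pool.Agent.PCP
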