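import Pool.Agent.PCP.Board

/-!
# The step of the gap amplification in polynomial time
-/

namespace Pool.Agent.TM2Lib

/-- residues -/
theorem FPoly.ofMod {α : Type} [Enc α] {f : α → ℕ} (hf : UPoly f) (k : ℕ) [NeZero k] :
    FPoly (fun a => (Fin.ofNat k (f a))) := by
  have h1 := Poly.getD (f := fun _ : α => List.ofFn fun i : Fin k => (⟨i⟩ : Fc (Fin k)))
    (g := fun a => f a % k) (h := fun _ => (⟨0⟩ : Fc (Fin k))) (Poly.const _)
    (hf.mod (UPoly.const k)) (Poly.const _)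
  refine h1.of_eq fun a => ?_
  have h2 : f a % k < k := Nat.mod_lt _ (Nat.pos_of_ne_zero (NeZero.ne k))
  rw [List.getD_eq_getElem _ _ (by simpa using h2), List.getElem_ofFn]
  rfl

end Pool.Agent.TM2Lib

namespace Pool.Agent.PCP

open Finset TM2Lib

noncomputable section

/-- rotation in the Margulis graph with natural numbers -/
def mggN (M : ℕ) (p : ℕ × ℕ) (i : Fin 8) : ℕ × ℕ :=
  match i with
  | 0 => ((p.1 + 2 * p.2) % M, p.2)
  | 1 => (p.1, (p.2 + 2 * p.1) % M)
  | 2 => ((p.1 + 2 * p.2 + 1) % M, p.2)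
  | 3 => (p.1, (p.2 + 2 * p.1 + 1) % M)
  | 4 => ((p.1 + 2 * (M - p.2)) % M, p.2)
  | 5 => (p.1, (p.2 + 2 * (M - p.1)) % M)
  | 6 => ((p.1 + 2 * (M - p.2) + (M - 1)) % M, p.2)
  | 7 => (p.1, (p.2 + 2 * (M - p.1) + (M - 1)) % M)

/-- the reverse ports -/
def mggR (i : Fin 8) : Fin 8 := (![4, 5, 6, 7, 0, 1, 2, 3] : Fin 8 → Fin 8) i

/-- cast -/
def fz (M : ℕ) [NeZero M] : Fin M × Fin M ≃ ZMod M × ZMod M :=
  Equiv.prodCongr (ZMod.finEquiv M).toEquiv (ZMod.finEquiv M).toEquiv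

theorem finEquiv_eq (M : ℕ) [NeZero M] (a : Fin M) : ZMod.finEquiv M a = ((a : ℕ) : ZMod M) := by
  rcases M with _ | M
  · exact absurd rfl (NeZero.ne 0)
  · exact (Fin.cast_val_eq_self a).symm

theorem vp_fz_symm (M : ℕ) [NeZero M] (z : ZMod M × ZMod M) :
    vp ((fz M).symm z) = (z.1.val, z.2.val) := by
  have key : ∀ z : ZMod M, (((ZMod.finEquiv M).toEquiv.symm z : Fin M) : ℕ) = z.val := by
    intro z
    obtain ⟨a, rfl⟩ := (ZMod.finEquiv M).surjective z
    have h1 : (ZMod.finEquiv M).toEquiv.symm (ZMod.finEquiv M a) = a :=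
      (ZMod.finEquiv M).toEquiv.symm_apply_apply a
    rw [h1, finEquiv_eq, ZMod.val_natCast, Nat.mod_eq_of_lt a.2]
  exact Prod.ext (key _) (key _)

theorem mgg_fz (M : ℕ) [NeZero M] (v : Fin M × Fin M) (i : Fin 8) :
    vp ((fz M).symm (mgg M (fz M v, i)).1) = mggN M (vp v) i := by
  rw [vp_fz_symm]
  obtain ⟨a, b⟩ := v
  have ha : (fz M (a, b)).1 = ((a : ℕ) : ZMod M) := finEquiv_eq M a
  have hb : (fz M (a, b)).2 = ((b : ℕ) : ZMod M) := finEquiv_eq M b
  have hva : (((a : ℕ) : ZMod M)).val = a := by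
    rw [ZMod.val_natCast, Nat.mod_eq_of_lt a.2]
  have hvb : (((b : ℕ) : ZMod M)).val = b := by
    rw [ZMod.val_natCast, Nat.mod_eq_of_lt b.2]
  have hM : 1 ≤ M := Nat.one_le_iff_ne_zero.2 (NeZero.ne M)
  have hMa : ((M - (a : ℕ) : ℕ) : ZMod M) = - ((a : ℕ) : ZMod M) := by
    rw [Nat.cast_sub a.2.le]
    simp
  have hMb : ((M - (b : ℕ) : ℕ) : ZMod M) = - ((b : ℕ) : ZMod M) := by
    rw [Nat.cast_sub b.2.le]
    simp
  have hM1 : ((M - 1 : ℕ) : ZMod M) = - 1 := by
    rw [Nat.cast_sub hM]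
    simp
  unfold mgg mggN vp
  simp only
  rw [ha, hb]
  have key : ∀ (z : ZMod M) (x : ℕ), z = (x : ZMod M) → z.val = x % M := by
    intro z x h
    rw [h, ZMod.val_natCast]
  fin_cases i
  · exact Prod.ext (key _ _ (by push_cast; rfl)) hvb
  · exact Prod.ext hva (key _ _ (by push_cast; rfl))
  · exact Prod.ext (key _ _ (by push_cast; rfl)) hvb
  · exact Prod.ext hva (key _ _ (by push_cast; rfl))
  · refine Prod.ext (key _ _ ?_) hvb
    rw [Nat.cast_add, Nat.cast_mul, hMb]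
    show ((a : ℕ) : ZMod M) - 2 * ((b : ℕ) : ZMod M) = _
    push_cast
    ring
  · refine Prod.ext hva (key _ _ ?_)
    rw [Nat.cast_add, Nat.cast_mul, hMa]
    show ((b : ℕ) : ZMod M) - 2 * ((a : ℕ) : ZMod M) = _
    push_cast
    ring
  · refine Prod.ext (key _ _ ?_) hvb
    rw [Nat.cast_add, Nat.cast_add, Nat.cast_mul, hMb, hM1]
    show ((a : ℕ) : ZMod M) - 2 * ((b : ℕ) : ZMod M) - 1 = _
    push_cast
    ring
  · refine Prod.ext hva (key _ _ ?_)
    rw [Nat.cast_add, Nat.cast_add, Nat.cast_mul, hMa, hM1]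
    show ((b : ℕ) : ZMod M) - 2 * ((a : ℕ) : ZMod M) - 1 = _
    push_cast
    ring

theorem ppoly_mggN {α : Type} [Enc α] {M : α → ℕ} {p : α → ℕ × ℕ} (hM : UPoly M) (hp : PPoly p)
    (i : Fin 8) : PPoly (fun a => mggN (M a) (p a) i) := by
  have h1 := hp.fst
  have h2 := hp.snd
  fin_cases i
  · exact PPoly.mk ((h1.add ((UPoly.const 2).mul h2)).mod hM) h2
  · exact PPoly.mk h1 ((h2.add ((UPoly.const 2).mul h1)).mod hM)
  · exact PPoly.mk (((h1.add ((UPoly.const 2).mul h2)).add (UPoly.const 1)).mod hM) h2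
  · exact PPoly.mk h1 (((h2.add ((UPoly.const 2).mul h1)).add (UPoly.const 1)).mod hM)
  · exact PPoly.mk ((h1.add ((UPoly.const 2).mul (hM.sub h2))).mod hM) h2
  · exact PPoly.mk h1 ((h2.add ((UPoly.const 2).mul (hM.sub h1))).mod hM)
  · exact PPoly.mk (((h1.add ((UPoly.const 2).mul (hM.sub h2))).add
      (hM.sub (UPoly.const 1))).mod hM) h2
  · exact PPoly.mk h1 (((h2.add ((UPoly.const 2).mul (hM.sub h1))).add
      (hM.sub (UPoly.const 1))).mod hM)

variable {S : Type} [Fintype S] [Inhabited S] {t : ℕ}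

instance fintypeLoc : Fintype (Loc S t) := by
  classical
  exact inferInstance

/-- total version of `hflip` -/
def hflip' (ε : LE t) (bw : List D0) : LE t :=
  if h : bw.length = ε.1 then hflip ε bw h else ε

/-- what the vertex at the given position knows -/
def bloc (t : ℕ) (b : Bd S) (p : ℕ × ℕ) : Loc S t := fun ε =>
  (relOf t (word ε) (bview b p (word ε)), hflip' ε ((bview b p (word ε)).map Prod.fst).reverse)

/-- move to the other end of a local edge -/
def bgo (b : Bd S) (p : ℕ × ℕ) : Option (LE t) → ℕ × ℕ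
  | none => p
  | some ε => bwalk b p (word ε)

theorem bloc_code {m : ℕ} (G : RG (Fin m × Fin m) D0 S) (v : Fin m × Fin m) :
    bloc t (code G) (vp v) = loc G t v := by
  funext ε
  unfold bloc
  rw [bview_code]
  refine Prod.ext rfl ?_
  show hflip' ε (G.back v (word ε)) = _
  unfold hflip'
  rw [dif_pos ((G.length_back _ _).trans (length_word _))]
  rfl

theorem bgo_code {m : ℕ} (G : RG (Fin m × Fin m) D0 S) (v : Fin m × Fin m)
    (o : Option (LE t)) : bgo (code G) (vp v) o = vp (go G v o) := by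
  rcases o with _ | ε
  · rfl
  · exact bwalk_code G _ _

theorem fpoly_bloc {α : Type} [Enc α] {b : α → Bd S} {p : α → ℕ × ℕ} (hb : TM2Lib.Poly b)
    (hp : PPoly p) : FPoly (fun a => bloc t (b a) (p a)) := by
  classical
  exact FPoly.pi (f := fun a => bloc t (b a) (p a)) (fun ε =>
    poly_bview hb (word ε) hp (fun l => (⟨(relOf t (word ε) l,
      hflip' ε (l.map Prod.fst).reverse)⟩ : Fc (FF S t × LE t)))) (fun L => (⟨L⟩ : Fc (Loc S t)))

/-- position in the new board -/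
def glue (κ : ℕ) (p q : ℕ × ℕ) : ℕ × ℕ := (q.1 + κ * p.1, q.2 + κ * p.2)

theorem ppoly_glue {α : Type} [Enc α] (κ : ℕ) {p : α → ℕ × ℕ} (hp : PPoly p) (q : ℕ × ℕ) :
    PPoly (fun a => glue κ (p a) q) :=
  PPoly.mk ((UPoly.const _).add ((UPoly.const _).mul hp.fst))
    ((UPoly.const _).add ((UPoly.const _).mul hp.snd))

/-- the local vertex with the given numbers -/
def kOf (S : Type) [Fintype S] (t : ℕ) (x y : ℕ) : Kt S t :=
  (eK S t).symm (Fin.ofNat (kap S t) x, Fin.ofNat (kap S t) y)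

/-- new ports -/
def nport (L : Loc S t) (K : Kt S t) : D0 → D0
  | .inr (.inr i) => .inr (.inr (mggR i))
  | .inr (.inl i) => .inr (.inl (crot K i).2)
  | .inl j => .inl (lrot L K j).2.2

/-- new neighbours -/
def npos (b : Bd S) (M : ℕ) (x p : ℕ × ℕ) (L : Loc S t) (K : Kt S t) : D0 → ℕ × ℕ
  | .inr (.inr i) => mggN M x i
  | .inr (.inl i) => glue (kap S t) p (vp (eK S t (crot K i).1))
  | .inl j => glue (kap S t) (bgo b p (lrot L K j).1) (vp (eK S t (lrot L K j).2.1))

/-- new cells -/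
def ncell (t : ℕ) (b : Bd S) (M : ℕ) (x y : ℕ) : Cell S0 :=
  mkc (npos b M (x, y) (x / kap S t, y / kap S t) (bloc t b (x / kap S t, y / kap S t))
      (kOf S t x y))
    (fun d => (nport (bloc t b (x / kap S t, y / kap S t)) (kOf S t x y) d,
      ncon (bloc t b (x / kap S t, y / kap S t)) (kOf S t x y) d))

/-- **the step as an algorithm** -/
def stepB (t : ℕ) (b : Bd S) : Bd S0 :=
  mkb (b.length * kap S t) (ncell t b (b.length * kap S t))

section poly

variable {α : Type} [Enc α]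

theorem fpoly_kOf {x y : α → ℕ} (hx : UPoly x) (hy : UPoly y) :
    FPoly (fun a => kOf S t (x a) (y a)) :=
  ((FPoly.ofMod hx (kap S t)).pair (FPoly.ofMod hy (kap S t))).fmap
    fun z => (eK S t).symm z

theorem poly_ncell {b : α → Bd S} {M x y : α → ℕ} (hb : TM2Lib.Poly b) (hM : UPoly M)
    (hx : UPoly x) (hy : UPoly y) :
    TM2Lib.Poly (fun a => ncell t (b a) (M a) (x a) (y a)) := by
  have hp : PPoly (fun a => (x a / kap S t, y a / kap S t)) :=
    PPoly.mk (hx.div (UPoly.const _)) (hy.div (UPoly.const _))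
  have hL : FPoly (fun a => bloc t (b a) (x a / kap S t, y a / kap S t)) := fpoly_bloc hb hp
  have hK : FPoly (fun a => kOf S t (x a) (y a)) := fpoly_kOf hx hy
  refine poly_mkc (fun d => ?_) ((hL.pair hK).fmap
    (fun z => (fun d => (nport z.1 z.2 d, ncon z.1 z.2 d) : FI S0)))
  rcases d with j | (i | i)
  · refine FPoly.cases (g := fun a => (bloc t (b a) (x a / kap S t, y a / kap S t),
      kOf S t (x a) (y a))) (h := fun a z => ps (glue (kap S t)
        (bgo (b a) (x a / kap S t, y a / kap S t) (lrot z.1 z.2 j).1)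
        (vp (eK S t (lrot z.1 z.2 j).2.1)))) (hL.pair hK) (fun z => ?_)
    apply ppoly_glue
    rcases (lrot z.1 z.2 j).1 with _ | ε
    · exact hp
    · exact ppoly_bwalk hb _ hp
  · exact FPoly.cases (g := fun a => kOf S t (x a) (y a))
      (h := fun a K => ps (glue (kap S t) (x a / kap S t, y a / kap S t)
        (vp (eK S t (crot K i).1)))) hK (fun K => ppoly_glue _ hp _)
  · exact ppoly_mggN hM (PPoly.mk hx hy) i

theorem poly_stepB {b : α → Bd S} (hb : TM2Lib.Poly b) :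
    TM2Lib.Poly (fun a => stepB t (b a)) := by
  have hM : UPoly (fun a => (b a).length * kap S t) := (UPoly.length hb).mul (UPoly.const _)
  exact poly_mkb hM (poly_ncell (hb.comp Poly.id.fst'.fst') (hM.comp Poly.id.fst'.fst')
    (UPoly.n.comp Poly.id.fst'.snd') (UPoly.n.comp Poly.id.snd'))

end poly

/-! ### correctness -/

/-- numbering of the new vertices -/
def En (S : Type) [Fintype S] (t m : ℕ) :
    (Fin m × Fin m) × Kt S t ≃ Fin (m * kap S t) × Fin (m * kap S t) :=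
  (((Equiv.refl _).prodCongr (eK S t)).trans (Equiv.prodProdProdComm _ _ _ _)).trans
    (finProdFinEquiv.prodCongr finProdFinEquiv)

theorem vp_En {m : ℕ} (v : Fin m × Fin m) (K : Kt S t) :
    vp (En S t m (v, K)) = glue (kap S t) (vp v) (vp (eK S t K)) := rfl

theorem glue_div {m : ℕ} (v : Fin m × Fin m) (K : Kt S t) :
    ((vp (En S t m (v, K))).1 / kap S t, (vp (En S t m (v, K))).2 / kap S t) = vp v := by
  rw [vp_En]
  unfold glue vp
  simp only
  have hκ : 0 < kap S t := Nat.pos_of_ne_zero (NeZero.ne _)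
  rw [Nat.add_mul_div_left _ _ hκ, Nat.add_mul_div_left _ _ hκ,
    Nat.div_eq_of_lt (eK S t K).1.2, Nat.div_eq_of_lt (eK S t K).2.2, zero_add, zero_add]

theorem kOf_En {m : ℕ} (v : Fin m × Fin m) (K : Kt S t) :
    kOf S t (vp (En S t m (v, K))).1 (vp (En S t m (v, K))).2 = K := by
  rw [vp_En]
  unfold glue vp kOf
  simp only
  rw [Equiv.symm_apply_eq]
  refine Prod.ext (Fin.ext ?_) (Fin.ext ?_)
  · show ((eK S t K).1 + kap S t * (v.1 : ℕ)) % kap S t = _
    rw [Nat.add_mul_mod_self_left, Nat.mod_eq_of_lt (eK S t K).1.2]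
  · show ((eK S t K).2 + kap S t * (v.2 : ℕ)) % kap S t = _
    rw [Nat.add_mul_mod_self_left, Nat.mod_eq_of_lt (eK S t K).2.2]

theorem ncell_eq {m : ℕ} [NeZero (m * kap S t)] (G : RG (Fin m × Fin m) D0 S)
    (G' : RG ((Fin m × Fin m) × Kt S t) D0 S0)
    (h1 : G'.rot = nrot G ((En S t m).trans (fz (m * kap S t))))
    (h2 : ∀ x, G'.R x = ncon (loc G t x.1.1) x.1.2 x.2)
    (w : Fin (m * kap S t) × Fin (m * kap S t)) :
    ncell t (code G) (m * kap S t) w.1 w.2 = cellOf (G'.congr (En S t m)) w := by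
  obtain ⟨⟨v, K⟩, rfl⟩ := (En S t m).surjective w
  have e1 : (((En S t m (v, K)).1 : ℕ) / kap S t, ((En S t m (v, K)).2 : ℕ) / kap S t) = vp v :=
    glue_div v K
  have e2 : kOf S t ((En S t m (v, K)).1 : ℕ) ((En S t m (v, K)).2 : ℕ) = K := kOf_En v K
  unfold ncell cellOf
  rw [e1, e2, bloc_code]
  congr 1
  · funext d
    rw [RG.congr_rot]
    simp only [Equiv.symm_apply_apply]
    rw [h1]
    rcases d with j | (i | i)
    · show glue (kap S t) (bgo (code G) (vp v) (lrot (loc G t v) K j).1)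
        (vp (eK S t (lrot (loc G t v) K j).2.1)) = _
      rw [bgo_code]
      rfl
    · rfl
    · show mggN _ (vp (En S t m (v, K))) i = vp (En S t m ((En S t m).symm
        ((fz (m * kap S t)).symm _)))
      rw [Equiv.apply_symm_apply, ← mgg_fz]
      rfl
  · funext d
    rw [RG.congr_rot, RG.congr_R]
    simp only [Equiv.symm_apply_apply]
    rw [h1, h2]
    rcases d with j | (i | i) <;> rfl

/-- **correctness of the step** -/
theorem stepB_code {m : ℕ} [NeZero (m * kap S t)] (G : RG (Fin m × Fin m) D0 S)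
    (G' : RG ((Fin m × Fin m) × Kt S t) D0 S0)
    (h1 : G'.rot = nrot G ((En S t m).trans (fz (m * kap S t))))
    (h2 : ∀ x, G'.R x = ncon (loc G t x.1.1) x.1.2 x.2) :
    stepB t (code G) = code (G'.congr (En S t m)) := by
  unfold stepB
  rw [length_code]
  exact mkb_eq_code _ _ (ncell_eq G G' h1 h2)

/-- **The step, complete.** -/
theorem step_full (hP : ModP) (hL : ModL) (hR : ModR) (s : ℕ) (hs : 1 ≤ s) :
    ∃ c : ℝ, 0 < c ∧ ∀ (S : Type) [Fintype S] [Inhabited S], Fintype.card S ≤ s →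
      ∀ (t : ℕ), 1 ≤ t → ∀ (m : ℕ), m ≠ 0 → ∀ (G : RG (Fin m × Fin m) D0 S),
        ∃ G' : RG (Fin (m * kap S t) × Fin (m * kap S t)) D0 S0, stepB t (code G) = code G' ∧
          (G.Sat → G'.Sat) ∧ G'.Spec 0.965 ∧
          (G.Spec 0.965 → ∀ γ : ℝ, 0 ≤ γ → G.Gap γ → G'.Gap (c * (t * min γ (1 / t)))) := by
  obtain ⟨c, hc, h⟩ := step_main hP hL hR s hs
  refine ⟨c, hc, ?_⟩
  intro S _ _ hS t ht m hm G
  have : NeZero (m * kap S t) := ⟨Nat.mul_ne_zero hm (NeZero.ne _)⟩
  obtain ⟨G', h1, h2, h3, h4, h5⟩ := h S hS t ht (Fin m × Fin m) (m * kap S t) G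
    ((En S t m).trans (fz (m * kap S t)))
  exact ⟨G'.congr (En S t m), stepB_code G G' h1 h2, fun h => G'.congr_sat _ (h3 h),
    G'.congr_spec _ h4, fun hs γ hγ hg => G'.congr_gap _ (h5 hs γ hγ hg)⟩

end

end Pool.Agent.PCP
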