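import Pool.Agent.PCP.Step

/-!
# The step of the gap amplification: the new graph
-/

namespace Pool.Agent.PCP

open Finset

noncomputable section

/-- the predicates of the tests -/
def testP (i : Fin 5) (a : S0) : Bool :=
  match i with
  | 0 => xor (a 0) (a 1) == a 2
  | 1 => (a 0 && a 1) == xor (a 2) (a 3)
  | 2 => xor (a 0) (a 1)
  | _ => a 0 == xor (a 1) (a 2)

variable {V S : Type} [Fintype S] [Inhabited S] {t : ℕ}

theorem kk_ne_zero (x : X0 S t) : kk S t x ≠ 0 := NeZero.ne _

/-- rearrangement -/
def sg (S : Type) [Fintype S] (t : ℕ) {V : Type} :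
    V × C0 S t ≃ Σ x : V × X0 S t, ZMod (kk S t x.2) × ZMod (kk S t x.2) where
  toFun z := ⟨(z.1, z.2.1), z.2.2⟩
  invFun z := (z.1.1, ⟨z.1.2, z.2⟩)
  left_inv _ := rfl
  right_inv _ := rfl

/-- the data for the regularisation -/
def regd (G : RG V D0 S) (t : ℕ) : RegData (V × T0 S t) (V × X0 S t) where
  k x := kk S t x.2
  k_pos x := kk_ne_zero x.2
  q y := sg S t (qq G y)
  q_inj := (sg S t).injective.comp (qq_injective G)
  P τ := testP τ.2.2.1

/-- rearrangement of the vertices -/
def eV (G : RG V D0 S) (t : ℕ) : (regd G t).Vert (V × Pad0 S t) ≃ V × Kt S t where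
  toFun
    | .inl (.inl τ) => (τ.1, .inl (.inl τ.2))
    | .inl (.inr c) => (((sg S t).symm c).1, .inl (.inr ((sg S t).symm c).2))
    | .inr z => (z.1, .inr z.2)
  invFun
    | (v, .inl (.inl τ)) => .inl (.inl (v, τ))
    | (v, .inl (.inr c)) => .inl (.inr (sg S t (v, c)))
    | (v, .inr z) => .inr (v, z)
  left_inv := by rintro ((τ | c) | z) <;> rfl
  right_inv := by rintro ⟨v, ((τ | c) | z)⟩ <;> rfl

/-- the local rule for the external ports -/
def lrot (L : Loc S t) : Kt S t → Fin 4 → Option (LE t) × Kt S t × Fin 4
  | .inl (.inl τ), j => ((lq L τ j).1, .inl (.inr (lq L τ j).2), 0)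
  | .inl (.inr c), j =>
      if j = 0 then
        match linv L c with
        | some z => (z.1, .inl (.inl z.2.1), z.2.2)
        | none => (none, .inl (.inr c), 0)
      else (none, .inl (.inr c), j)
  | .inr p, j => (none, .inr p, j)

/-- the local rule for the cloud ports -/
def crot : Kt S t → Fin 8 → Kt S t × Fin 8
  | .inl (.inl τ), p => (.inl (.inl τ), p)
  | .inl (.inr ⟨x, c⟩), p => (.inl (.inr ⟨x, (mgg (kk S t x) (c, p)).1⟩),
      (mgg (kk S t x) (c, p)).2)
  | .inr z, p => (.inr z, p)

/-- the local rule for the constraints -/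
def ncon (L : Loc S t) : Kt S t → D0 → S0 → S0 → Bool
  | .inl (.inl τ), .inl j => fun a b => testP τ.2.1 a && (a j == b 0)
  | .inl (.inr c), .inl j => fun a b =>
      if j = 0 then
        match linv L c with
        | some z => testP z.2.1.2.1 b && (b z.2.2 == a 0)
        | none => true
      else true
  | .inl (.inr _), .inr (.inl _) => fun a b => a 0 == b 0
  | _, _ => fun _ _ => true

/-- the new rotation map -/
def nrot {M : ℕ} (G : RG V D0 S) (e : V × Kt S t ≃ ZMod M × ZMod M) :
    (V × Kt S t) × D0 → (V × Kt S t) × D0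
  | (z, .inr (.inr p)) => (e.symm (mgg M (e z, p)).1, .inr (.inr (mgg M (e z, p)).2))
  | (z, .inr (.inl p)) => ((z.1, (crot z.2 p).1), .inr (.inl (crot z.2 p).2))
  | (z, .inl j) => ((go G z.1 (lrot (loc G t z.1) z.2 j).1, (lrot (loc G t z.1) z.2 j).2.1),
      .inl (lrot (loc G t z.1) z.2 j).2.2)

theorem regd_q (G : RG V D0 S) (y : (V × T0 S t) × Fin 4) :
    (regd G t).q y = sg S t (qq G y) := rfl

theorem exists_q_iff (G : RG V D0 S) (v : V) (c : C0 S t) (y : (V × T0 S t) × Fin 4) :
    (regd G t).q y = sg S t (v, c) ↔ qqinv G (v, c) = some y := by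
  constructor
  · intro h
    have h' : qq G y = (v, c) := (sg S t).injective h
    rw [← h', qqinv_qq]
  · intro h
    exact congrArg (sg S t) (qq_qqinv G h)

theorem rot_eq {M : ℕ} (G : RG V D0 S) (e : V × Kt S t ≃ ZMod M × ZMod M)
    (x : (V × Kt S t) × D0) :
    (eV G t ((regd G t).rot ((eV G t).trans e) ((eV G t).symm x.1, x.2)).1,
      ((regd G t).rot ((eV G t).trans e) ((eV G t).symm x.1, x.2)).2) = nrot G e x := by
  obtain ⟨⟨v, ((τ | c) | z)⟩, (j | (p | p))⟩ := x
  · rfl
  · rfl
  · show (eV G t ((eV G t).symm (e.symm _)), _) = _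
    rw [Equiv.apply_symm_apply]
    rfl
  · show (eV G t ((regd G t).rot ((eV G t).trans e) (.inl (.inr (sg S t (v, c))), .inl j)).1,
      ((regd G t).rot ((eV G t).trans e) (.inl (.inr (sg S t (v, c))), .inl j)).2) = _
    unfold RegData.rot
    simp only
    by_cases hj : j = 0
    · subst hj
      rcases hq : qqinv G (v, c) with _ | y
      · have h1 : ¬ ∃ y, (regd G t).q y = sg S t (v, c) := by
          rintro ⟨y, hy⟩
          rw [exists_q_iff, hq] at hy
          exact absurd hy (by simp)
        rw [dif_neg (fun h => h1 h.2)]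
        have h2 : linv (loc G t v) c = none := by
          unfold qqinv at hq
          simpa using hq
        unfold nrot lrot
        simp only [if_true, h2]
        rfl
      · have h1 : ∃ y, (regd G t).q y = sg S t (v, c) := ⟨y, (exists_q_iff G v c y).2 hq⟩
        rw [dif_pos ⟨rfl, h1⟩]
        have h3 : h1.choose = y := by
          have h4 := (exists_q_iff G v c _).1 h1.choose_spec
          rw [hq] at h4
          exact (Option.some.inj h4).symm
        simp only [h3]
        unfold qqinv at hq
        rcases hl : linv (loc G t v) c with _ | z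
        · rw [hl] at hq
          simp at hq
        · rw [hl, Option.map_some] at hq
          rw [← Option.some.inj hq]
          unfold nrot lrot
          simp only [if_true, hl]
          rfl
    · rw [dif_neg (fun h => hj h.1)]
      unfold nrot lrot
      simp only [hj, if_false]
      rfl
  · rfl
  · show (eV G t ((eV G t).symm (e.symm _)), _) = _
    rw [Equiv.apply_symm_apply]
    rfl
  · rfl
  · rfl
  · show (eV G t ((eV G t).symm (e.symm _)), _) = _
    rw [Equiv.apply_symm_apply]
    rfl

theorem con_eq (G : RG V D0 S) (x : (V × Kt S t) × D0) :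
    (regd G t).con (Pad := V × Pad0 S t) ((eV G t).symm x.1, x.2) =
      ncon (loc G t x.1.1) x.1.2 x.2 := by
  obtain ⟨⟨v, ((τ | c) | z)⟩, (j | (p | p))⟩ := x
  · rfl
  · rfl
  · rfl
  · show (regd G t).con (Pad := V × Pad0 S t) (.inl (.inr (sg S t (v, c))), .inl j) = _
    unfold RegData.con ncon
    simp only
    funext a b
    by_cases hj : j = 0
    · subst hj
      rcases hq : qqinv G (v, c) with _ | y
      · have h1 : ¬ ∃ y, (regd G t).q y = sg S t (v, c) := by
          rintro ⟨y, hy⟩
          rw [exists_q_iff, hq] at hy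
          exact absurd hy (by simp)
        rw [dif_neg (fun h => h1 h.2)]
        have h2 : linv (loc G t v) c = none := by
          unfold qqinv at hq
          simpa using hq
        simp only [if_true, h2]
      · have h1 : ∃ y, (regd G t).q y = sg S t (v, c) := ⟨y, (exists_q_iff G v c y).2 hq⟩
        rw [dif_pos ⟨rfl, h1⟩]
        have h3 : h1.choose = y := by
          have h4 := (exists_q_iff G v c _).1 h1.choose_spec
          rw [hq] at h4
          exact (Option.some.inj h4).symm
        simp only [h3]
        unfold qqinv at hq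
        rcases hl : linv (loc G t v) c with _ | z
        · rw [hl] at hq
          simp at hq
        · rw [hl, Option.map_some] at hq
          rw [← Option.some.inj hq]
          simp only [if_true]
          rfl
    · rw [dif_neg (fun h => hj h.1)]
      simp only [hj, if_false]
  · rfl
  · rfl
  · rfl
  · rfl
  · rfl

end

end Pool.Agent.PCP
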