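import Pool.Agent.PCP.StepReg

/-!
# The step of the gap amplification: completeness
-/

namespace Pool.Agent.PCP

open Finset

noncomputable section

variable {V S : Type} [Fintype S] [Inhabited S] {t : ℕ}

/-- the value in `ZMod 2` of a bit -/
def zb (b : Bool) : ZMod 2 := if b then 1 else 0

/-- the bit of a value in `ZMod 2` -/
def bz (z : ZMod 2) : Bool := decide (z = 1)

theorem zb_bz (z : ZMod 2) : zb (bz z) = z := by
  revert z; decide

/-- the symbols read by the test -/
def reads (G : RG V D0 S) (t : ℕ) (β : V × X0 S t → Bool) (τ : V × T0 S t) : S0 :=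
  fun j => β ((regd G t).q (τ, j)).1

theorem reads_A3 (G : RG V D0 S) (β : V × X0 S t → Bool) (v : V) (ε : LE t) (φ : FA S t)
    (z : FF S t × FF S t × FF S t) :
    reads G t β (v, (ε, 3, φ, z)) 0 = β (v, .inr φ) := rfl

theorem reads_A4 (G : RG V D0 S) (β : V × X0 S t → Bool) (v : V) (ε : LE t) (φ : FA S t)
    (z : FF S t × FF S t × FF S t) :
    reads G t β (v, (ε, 4, φ, z)) 0 = β ((hrot G (v, ε)).1, .inr φ) := rfl

theorem reads_B (G : RG V D0 S) (β : V × X0 S t → Bool) (v : V) (ε : LE t) {i : Fin 5}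
    {j : Fin 4} (φ : FA S t) (z : FF S t × FF S t × FF S t) (h : ¬ ((i = 3 ∨ i = 4) ∧ j = 0)) :
    reads G t β (v, (ε, i, φ, z)) j =
      β (v, .inl (ε, (qB i j (rel G (v, ε)) φ z).1)) := by
  show β ((regd G t).q ((v, (ε, i, φ, z)), j)).1 = _
  rw [regd_q]
  unfold qq
  simp only [lqB _ _ _ _ h]
  rfl

theorem testP_iff (G : RG V D0 S) (β : V × X0 S t → Bool) (v : V) (ε : LE t) (i : Fin 5)
    (φ : FA S t) (f g h : FF S t) :
    testP i (reads G t β (v, (ε, i, φ, f, g, h))) = true ↔
      ltest (rel G (v, ε)) (fun ψ => zb (β (v, .inr ψ)))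
        (fun ψ => zb (β ((hrot G (v, ε)).1, .inr ψ))) (fun b => zb (β (v, .inl (ε, b))))
        i φ f g h := by
  have key1 : ∀ a b c : Bool, ((xor a b == c) = true) ↔ zb a + zb b = zb c := by decide
  have key2 : ∀ a b c d : Bool, (((a && b) == xor c d) = true) ↔
      zb a * zb b = zb c + zb d := by decide
  have key3 : ∀ a b : Bool, (xor a b = true) ↔ zb a + zb b = 1 := by decide
  have key4 : ∀ a b c : Bool, ((a == xor b c) = true) ↔ zb a = zb b + zb c := by decide
  fin_cases i
  · show ((xor (reads G t β (v, (ε, 0, φ, f, g, h)) 0)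
      (reads G t β (v, (ε, 0, φ, f, g, h)) 1)) ==
        reads G t β (v, (ε, 0, φ, f, g, h)) 2) = true ↔ _
    rw [reads_B _ _ _ _ _ _ (by decide), reads_B _ _ _ _ _ _ (by decide),
      reads_B _ _ _ _ _ _ (by decide), key1]
    rfl
  · show ((reads G t β (v, (ε, 1, φ, f, g, h)) 0 &&
      (reads G t β (v, (ε, 1, φ, f, g, h)) 1)) ==
        xor (reads G t β (v, (ε, 1, φ, f, g, h)) 2)
          (reads G t β (v, (ε, 1, φ, f, g, h)) 3)) = true ↔ _
    rw [reads_B _ _ _ _ _ _ (by decide), reads_B _ _ _ _ _ _ (by decide),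
      reads_B _ _ _ _ _ _ (by decide), reads_B _ _ _ _ _ _ (by decide), key2]
    rfl
  · show ((xor (reads G t β (v, (ε, 2, φ, f, g, h)) 0)
      (reads G t β (v, (ε, 2, φ, f, g, h)) 1))) = true ↔ _
    rw [reads_B _ _ _ _ _ _ (by decide), reads_B _ _ _ _ _ _ (by decide), key3]
    rfl
  · show (reads G t β (v, (ε, 3, φ, f, g, h)) 0 ==
        xor (reads G t β (v, (ε, 3, φ, f, g, h)) 1)
          (reads G t β (v, (ε, 3, φ, f, g, h)) 2)) = true ↔ _
    rw [reads_A3, reads_B _ _ _ _ _ _ (by decide), reads_B _ _ _ _ _ _ (by decide), key4]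
    rfl
  · show (reads G t β (v, (ε, 4, φ, f, g, h)) 0 ==
        xor (reads G t β (v, (ε, 4, φ, f, g, h)) 1)
          (reads G t β (v, (ε, 4, φ, f, g, h)) 2)) = true ↔ _
    rw [reads_A4, reads_B _ _ _ _ _ _ (by decide), reads_B _ _ _ _ _ _ (by decide), key4]
    rfl

/-- the opinions of an assignment -/
def opin (G : RG V D0 S) (t : ℕ) (σ : V → S) (v : V) : Op S t := fun l => σ (G.walk v l.1)

theorem chk_of_sat (G : RG V D0 S) {σ : V → S}
    (hσ : ∀ x, G.R x (σ x.1) (σ (G.rot x).1) = true) (v : V) (w : List D0) :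
    chk t w (G.view v w) (ext (opin G t σ v)) (ext (opin G t σ (G.walk v w))) := by
  intro i hi hit hlt
  have hw : i < w.length := by rwa [G.length_view] at hi
  have hlen : (G.view v w).length = w.length := G.length_view _ _
  have h1 : ext (opin G t σ v) (w.take i) = σ (G.walk v (w.take i)) := by
    unfold ext opin
    rw [dif_pos]
    rw [List.length_take]
    omega
  have hback : ((G.view v w).map Prod.fst).reverse = G.back v w := rfl
  have hsplit : w = w.take (i + 1) ++ w.drop (i + 1) := (List.take_append_drop _ _).symm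
  have hb : G.back v w = G.back (G.walk v (w.take (i + 1))) (w.drop (i + 1)) ++
      G.back v (w.take (i + 1)) := by
    conv_lhs => rw [hsplit]
    exact G.back_append _ _ _
  have hb2 : (G.back v w).take ((G.view v w).length - 1 - i) =
      G.back (G.walk v (w.take (i + 1))) (w.drop (i + 1)) := by
    rw [hb]
    have : (G.view v w).length - 1 - i =
        (G.back (G.walk v (w.take (i + 1))) (w.drop (i + 1))).length := by
      rw [G.length_back, List.length_drop, hlen]
      omega
    rw [this, List.take_left]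
  have hwalk : G.walk v w = G.walk (G.walk v (w.take (i + 1))) (w.drop (i + 1)) := by
    conv_lhs => rw [hsplit]
    exact G.walk_append _ _ _
  have h2 : ext (opin G t σ (G.walk v w))
      ((((G.view v w).map Prod.fst).reverse).take ((G.view v w).length - 1 - i)) =
      σ (G.walk v (w.take (i + 1))) := by
    rw [hback, hb2]
    unfold ext opin
    rw [dif_pos]
    · rw [hwalk, G.walk_back]
    · rw [G.length_back, List.length_drop]
      omega
  rw [h1, h2]
  have h3 : (G.view v w)[i] = ((G.rot (G.walk v (w.take i), w[i])).2,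
      G.R (G.walk v (w.take i), w[i])) := by
    have hsplit2 : w = w.take i ++ w[i] :: w.drop (i + 1) := by
      rw [List.getElem_cons_drop, List.take_append_drop]
    have h4 : G.view v w = G.view v (w.take i) ++ (((G.rot (G.walk v (w.take i), w[i])).2,
      G.R (G.walk v (w.take i), w[i])) ::
        G.view (G.rot (G.walk v (w.take i), w[i])).1 (w.drop (i + 1))) := by
      conv_lhs => rw [hsplit2]
      rw [G.view_append, G.view_cons]
    have h5 : (G.view v (w.take i)).length = i := by
      rw [G.length_view, List.length_take]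
      omega
    have h6 : ∀ (l l1 l2 : List (D0 × (S → S → Bool))) (x : D0 × (S → S → Bool))
        (hl : i < l.length), l = l1 ++ x :: l2 → l1.length = i → l[i] = x := by
      intro l l1 l2 x hl h hl1
      subst h
      subst hl1
      simp
    exact h6 _ _ _ _ hi h4 h5
  rw [h3]
  have h7 : G.walk v (w.take (i + 1)) = (G.rot (G.walk v (w.take i), w[i])).1 := by
    rw [List.take_succ_eq_append_getElem hw, G.walk_append]
    rfl
  rw [h7]
  exact hσ _

/-- dictators pass the tests -/
theorem ltest_dict {A : Type} {r : A × A → ZMod 2} (x : A × A) (hr : r x = 1) (i : Fin 5)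
    (φ : A → ZMod 2) (f g h : A × A → ZMod 2) :
    ltest r (fun ψ => ψ x.1) (fun ψ => ψ x.2) (fun b => b x) i φ f g h := by
  have h2 : ∀ z : ZMod 2, z + z = 0 := by decide
  fin_cases i
  · rfl
  · show f x * g x = h x + (h x + f x * g x)
    rw [← add_assoc, h2, zero_add]
  · show h x + (h x + r x) = 1
    rw [← add_assoc, h2, zero_add, hr]
  · show φ x.1 = h x + (h x + φ x.1)
    rw [← add_assoc, h2, zero_add]
  · show φ x.2 = h x + (h x + φ x.2)
    rw [← add_assoc, h2, zero_add]

/-- the tables of an assignment -/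
def tabBit (G : RG V D0 S) (t : ℕ) (σ : V → S) : V × X0 S t → Bool
  | (v, .inl b) => bz (b.2 (opin G t σ v, opin G t σ (hrot G (v, b.1)).1))
  | (v, .inr φ) => bz (φ (opin G t σ v))

/-- **completeness** -/
theorem sat_tests (G : RG V D0 S) (h : G.Sat) : ∃ β : V × X0 S t → Bool,
    ∀ τ, (regd G t).P τ (fun j => β ((regd G t).q (τ, j)).1) = true := by
  obtain ⟨σ, hσ⟩ := h
  refine ⟨tabBit G t σ, ?_⟩
  rintro ⟨v, ε, i, φ, f, g, h⟩
  show testP i (reads G t (tabBit G t σ) (v, ε, i, φ, f, g, h)) = true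
  refine (testP_iff G _ v ε i φ f g h).2 ?_
  have hr : rel G (v, ε) (opin G t σ v, opin G t σ (hrot G (v, ε)).1) = 1 := by
    unfold rel relOf
    exact if_pos (chk_of_sat G hσ v (word ε))
  have e1 : (fun ψ : FA S t => zb (tabBit G t σ (v, .inr ψ))) =
      fun ψ => ψ (opin G t σ v) := funext fun ψ => zb_bz _
  have e2 : (fun ψ : FA S t => zb (tabBit G t σ ((hrot G (v, ε)).1, .inr ψ))) =
      fun ψ => ψ (opin G t σ (hrot G (v, ε)).1) := funext fun ψ => zb_bz _
  have e3 : (fun b : FF S t => zb (tabBit G t σ (v, .inl (ε, b)))) =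
      fun b => b (opin G t σ v, opin G t σ (hrot G (v, ε)).1) := funext fun b => zb_bz _
  rw [e1, e2, e3]
  exact ltest_dict (opin G t σ v, opin G t σ (hrot G (v, ε)).1) hr i φ f g h

end

end Pool.Agent.PCP
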