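import Pool.Agent.PCP.Defs

/-!
# Walks
-/

namespace Pool.Agent.PCP.RG

variable {V D S : Type} (G : RG V D S)

@[simp] theorem walk_nil (v : V) : G.walk v [] = v := rfl
@[simp] theorem walk_cons (v : V) (d : D) (w : List D) :
    G.walk v (d :: w) = G.walk (G.rot (v, d)).1 w := rfl
@[simp] theorem view_nil (v : V) : G.view v [] = [] := rfl
@[simp] theorem view_cons (v : V) (d : D) (w : List D) :
    G.view v (d :: w) = ((G.rot (v, d)).2, G.R (v, d)) :: G.view (G.rot (v, d)).1 w := rfl

theorem length_view (w : List D) : ∀ v, (G.view v w).length = w.length := by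
  induction w with
  | nil => intro v; rfl
  | cons d w ih => intro v; simp [ih]

theorem length_back (w : List D) (v : V) : (G.back v w).length = w.length := by
  simp [back, length_view]

theorem walk_append (w1 : List D) : ∀ (v : V) (w2 : List D),
    G.walk v (w1 ++ w2) = G.walk (G.walk v w1) w2 := by
  induction w1 with
  | nil => intro v w2; rfl
  | cons d w ih => intro v w2; simp [ih]

theorem view_append (w1 : List D) : ∀ (v : V) (w2 : List D),
    G.view v (w1 ++ w2) = G.view v w1 ++ G.view (G.walk v w1) w2 := by
  induction w1 with
  | nil => intro v w2; rfl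
  | cons d w ih => intro v w2; simp [ih]

theorem back_nil (v : V) : G.back v [] = [] := rfl

theorem back_cons (v : V) (d : D) (w : List D) :
    G.back v (d :: w) = G.back (G.rot (v, d)).1 w ++ [(G.rot (v, d)).2] := by
  simp [back]

theorem back_append (v : V) (w1 w2 : List D) :
    G.back v (w1 ++ w2) = G.back (G.walk v w1) w2 ++ G.back v w1 := by
  simp [back, view_append]

theorem walk_back (w : List D) : ∀ v, G.walk (G.walk v w) (G.back v w) = v := by
  induction w with
  | nil => intro v; rfl
  | cons d w ih =>
    intro v
    rw [back_cons, walk_append, walk_cons G v, ih, walk_cons, walk_nil]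
    have h : G.rot ((G.rot (v, d)).1, (G.rot (v, d)).2) = (v, d) := G.rot_rot _
    rw [h]

theorem back_back (w : List D) : ∀ v, G.back (G.walk v w) (G.back v w) = w := by
  induction w with
  | nil => intro v; rfl
  | cons d w ih =>
    intro v
    have h : G.rot ((G.rot (v, d)).1, (G.rot (v, d)).2) = (v, d) := G.rot_rot _
    rw [back_cons, back_append, walk_cons G v, walk_back, ih, back_cons, back_nil, h]
    rfl

end Pool.Agent.PCP.RG
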